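import Pool.Agent.Lib.MP_56ee40_nt.Defs

namespace Pool.Agent.TwoRep

open Finset Polynomial

/-- **MKDAT (a).** `y = q^m` prime power dividing `X^2 - 1` (and `2y` divides it if `q = 2`):
`y ∣ X - 1` or `y ∣ X + 1`. (Odd `q` divides only one of `X-1`, `X+1`; for `q = 2`, `m ≥ 1`: `X` odd,
one of `X-1`, `X+1` is `2 mod 4`, so the other is divisible by `2^m`; for `m = 0` trivial.) -/
theorem eps_exists (q m : ℕ) (hq : q.Prime) (y X : ℤ) (hy : y = (q : ℤ) ^ m)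
    (h : y ∣ X ^ 2 - 1) (h2 : q = 2 → 2 * y ∣ X ^ 2 - 1) :
    ∃ ε : ℤ, (ε = 1 ∨ ε = -1) ∧ y ∣ X - ε := by
  subst hy
  have hqp : Prime (q : ℤ) := Nat.prime_iff_prime_int.1 hq
  have hfac : X ^ 2 - 1 = (X - 1) * (X - (-1)) := by ring
  by_cases hq2 : q = 2
  · subst hq2
    have h3 := h2 rfl
    rcases Nat.eq_zero_or_pos m with rfl | hm
    · exact ⟨1, Or.inl rfl, by simp⟩
    -- X is odd
    have hXodd : X % 2 = 1 := by
      rcases Int.emod_two_eq_zero_or_one X with h0 | h0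
      · exfalso
        obtain ⟨t, ht⟩ := h3
        obtain ⟨s, hs⟩ : (2 : ℤ) ∣ X := Int.dvd_of_emod_eq_zero h0
        have : (2 : ℤ) * ((2 : ℤ) ^ m * t - 2 * s ^ 2) = -1 := by
          have e : 2 * ((2 : ℕ) : ℤ) ^ m * t = X ^ 2 - 1 := ht.symm
          push_cast at e
          rw [hs] at e
          linear_combination e
        omega
      · exact h0
    obtain ⟨s, hs⟩ : ∃ s, X = 2 * s + 1 := ⟨X / 2, by omega⟩
    have h4 : (2 : ℤ) ^ (m - 1) ∣ s * (s + 1) := by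
      obtain ⟨t, ht⟩ := h3
      refine ⟨t, ?_⟩
      push_cast at ht
      have e : (2 : ℤ) ^ m = 2 * 2 ^ (m - 1) := by
        rw [← pow_succ']; congr 1; omega
      rw [hs, e] at ht
      have : (4 : ℤ) * (s * (s + 1)) = 4 * (2 ^ (m - 1) * t) := by linear_combination ht
      exact mul_left_cancel₀ (by norm_num) this
    have e : (2 : ℤ) ^ m = 2 * 2 ^ (m - 1) := by
      rw [← pow_succ']; congr 1; omega
    have hcop : IsCoprime s (s + 1) := ⟨-1, 1, by ring⟩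
    rcases Int.emod_two_eq_zero_or_one s with h0 | h0
    · -- s even, s + 1 odd
      have hc : IsCoprime ((2 : ℤ) ^ (m - 1)) (s + 1) := by
        apply IsCoprime.pow_left
        obtain ⟨r, hr⟩ : ∃ r, s = 2 * r := ⟨s / 2, by omega⟩
        exact ⟨-r, 1, by rw [hr]; ring⟩
      have h5 := hc.dvd_of_dvd_mul_right h4
      refine ⟨1, Or.inl rfl, ?_⟩
      push_cast
      rw [e, hs]
      obtain ⟨r, hr⟩ := h5
      exact ⟨r, by rw [hr]; ring⟩
    · have hc : IsCoprime ((2 : ℤ) ^ (m - 1)) s := by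
        apply IsCoprime.pow_left
        obtain ⟨r, hr⟩ : ∃ r, s = 2 * r + 1 := ⟨s / 2, by omega⟩
        exact ⟨-r, 1, by rw [hr]; ring⟩
      have h5 := hc.dvd_of_dvd_mul_left h4
      refine ⟨-1, Or.inr rfl, ?_⟩
      push_cast
      rw [e, hs]
      obtain ⟨r, hr⟩ := h5
      exact ⟨r, by linear_combination 2 * hr⟩
  · rw [hfac] at h
    by_cases h1 : (q : ℤ) ∣ X - 1
    · have hn : ¬ (q : ℤ) ∣ X - (-1) := by
        intro hd
        have h3 := dvd_sub hd h1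
        have e : X - -1 - (X - 1) = 2 := by ring
        rw [e] at h3
        have h4 : q ∣ 2 := by exact_mod_cast h3
        exact hq2 ((Nat.prime_dvd_prime_iff_eq hq Nat.prime_two).1 h4)
      have hc : IsCoprime ((q : ℤ) ^ m) (X - (-1)) :=
        IsCoprime.pow_left ((hqp.coprime_iff_not_dvd).2 hn)
      exact ⟨1, Or.inl rfl, hc.dvd_of_dvd_mul_right h⟩
    · have hc : IsCoprime ((q : ℤ) ^ m) (X - 1) :=
        IsCoprime.pow_left ((hqp.coprime_iff_not_dvd).2 h1)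
      exact ⟨-1, Or.inr rfl, hc.dvd_of_dvd_mul_left h⟩

/-- **MKDAT (b).** geometric sums: `Rep` in closed form. -/
theorem rep_iff (x y k l : ℕ) (hx : 2 ≤ x) (hy : 2 ≤ y) : Rep x y k l ↔
    ((x : ℤ) ^ (2 * k + 1) - 1) * (y - 1) = ((y : ℤ) ^ (2 * l + 1) - 1) * (x - 1) := by
  have gx := geom_sum_mul (x : ℤ) (2 * k + 1)
  have gy := geom_sum_mul (y : ℤ) (2 * l + 1)
  have hx1 : (x : ℤ) - 1 ≠ 0 := by
    have : (2 : ℤ) ≤ x := by exact_mod_cast hx
    omega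
  have hy1 : (y : ℤ) - 1 ≠ 0 := by
    have : (2 : ℤ) ≤ y := by exact_mod_cast hy
    omega
  unfold Rep
  constructor
  · intro h
    have h' : (∑ i ∈ range (2 * k + 1), (x : ℤ) ^ i) = ∑ i ∈ range (2 * l + 1), (y : ℤ) ^ i := by
      exact_mod_cast h
    rw [← gx, ← gy, h']
    ring
  · intro h
    rw [← gx, ← gy] at h
    have h' : (∑ i ∈ range (2 * k + 1), (x : ℤ) ^ i) = ∑ i ∈ range (2 * l + 1), (y : ℤ) ^ i := by
      apply mul_right_cancel₀ (mul_ne_zero hx1 hy1)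
      linear_combination h
    exact_mod_cast h'

/-- **MKDAT (c).** the data attached to an anchor `(k1,l1)` (possibly `(0,0)`) and a solution
`(k2,l2)`.  `A = x^(2k1+1)(y-1)`, `B = (x-1) y^(2l1+1)`, `C = y - x`; `A = B + C` by `rep_iff`;
`A X^2 = x^(2k2+1)(y-1)`, `B Y^2 = (x-1) y^(2l2+1)` with `X = x^(k2-k1)`, `Y = y^(l2-l1)`;
`A (X^2-1) = B (Y^2-1)`; `y^(2l1+1)` is coprime to `A`, so it divides `X^2 - 1`; if `y` is even then
`x` is odd, `x - 1` is even, `A` is odd and `2 y^(2l1+1) ∣ X^2-1`.  `k1 ≤ k2` because the sums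
increase. -/
theorem exists_dat (x y k1 l1 k2 l2 : ℕ) (hx2 : 2 ≤ x) (hy : IsPrimePow y)
    (hcop : Nat.Coprime x y) (hxy : x < y) (h1 : Rep x y k1 l1) (h2 : Rep x y k2 l2)
    (hl : l1 < l2) : k1 < k2 ∧
    ∃ d : Dat, d.A = (x : ℤ) ^ (2 * k1 + 1) * (y - 1) ∧ d.B = (x - 1) * (y : ℤ) ^ (2 * l1 + 1) ∧
      d.C = (y : ℤ) - x ∧ d.X = (x : ℤ) ^ (k2 - k1) ∧ d.Y = (y : ℤ) ^ (l2 - l1) ∧
      d.y = (y : ℤ) ^ (2 * l1 + 1) ∧ d.b = (x : ℤ) - 1 ∧
      d.Y2 = (y : ℤ) ^ ((l2 - l1) % (2 * l1 + 1)) ∧ d.l = (l2 - l1) / (2 * l1 + 1) := by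
  have hy2 : 2 ≤ y := by omega
  have r1 := (rep_iff x y k1 l1 hx2 hy2).1 h1
  have r2 := (rep_iff x y k2 l2 hx2 hy2).1 h2
  have hk : k1 < k2 := by
    by_contra hcon
    have hcon' : k2 ≤ k1 := not_lt.1 hcon
    have s1 : ∑ i ∈ range (2 * k2 + 1), x ^ i ≤ ∑ i ∈ range (2 * k1 + 1), x ^ i :=
      Finset.sum_le_sum_of_subset (by
        intro i hi
        rw [Finset.mem_range] at hi ⊢
        omega)
    have s2 : ∑ i ∈ range (2 * l1 + 1), y ^ i < ∑ i ∈ range (2 * l2 + 1), y ^ i := by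
      apply Finset.sum_lt_sum_of_subset (i := 2 * l1 + 1)
      · intro i hi
        rw [Finset.mem_range] at hi ⊢
        omega
      · rw [Finset.mem_range]; omega
      · simp
      · positivity
      · intro j _ _
        exact Nat.zero_le _
    unfold Rep at h1 h2
    omega
  refine ⟨hk, ?_⟩
  have hxz : (2 : ℤ) ≤ x := by exact_mod_cast hx2
  have hyz : (2 : ℤ) ≤ y := by exact_mod_cast hy2
  have hxyz : (x : ℤ) < y := by exact_mod_cast hxy
  have eX : (x : ℤ) ^ (2 * k1 + 1) * ((x : ℤ) ^ (k2 - k1)) ^ 2 = (x : ℤ) ^ (2 * k2 + 1) := by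
    rw [← pow_mul, ← pow_add]
    congr 1
    omega
  have eY : (y : ℤ) ^ (2 * l1 + 1) * ((y : ℤ) ^ (l2 - l1)) ^ 2 = (y : ℤ) ^ (2 * l2 + 1) := by
    rw [← pow_mul, ← pow_add]
    congr 1
    omega
  have hABC : (x : ℤ) ^ (2 * k1 + 1) * (y - 1) = (x - 1) * (y : ℤ) ^ (2 * l1 + 1) + (y - x) := by
    linear_combination r1
  have heq : (x : ℤ) ^ (2 * k1 + 1) * (y - 1) * ((x : ℤ) ^ (k2 - k1)) ^ 2 =
      (x - 1) * (y : ℤ) ^ (2 * l1 + 1) * ((y : ℤ) ^ (l2 - l1)) ^ 2 + (y - x) := by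
    linear_combination r2 + (y - 1 : ℤ) * eX - (x - 1 : ℤ) * eY
  have hdiff : (x : ℤ) ^ (2 * k1 + 1) * (y - 1) * (((x : ℤ) ^ (k2 - k1)) ^ 2 - 1) =
      (x - 1) * (y : ℤ) ^ (2 * l1 + 1) * (((y : ℤ) ^ (l2 - l1)) ^ 2 - 1) := by
    linear_combination heq - hABC
  have hcopA : IsCoprime ((y : ℤ) ^ (2 * l1 + 1)) ((x : ℤ) ^ (2 * k1 + 1) * (y - 1)) := by
    apply IsCoprime.pow_left
    apply IsCoprime.mul_right
    · exact IsCoprime.pow_right ((Nat.isCoprime_iff_coprime.2 hcop).symm)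
    · exact ⟨1, -1, by ring⟩
  have hdvd : (y : ℤ) ^ (2 * l1 + 1) ∣ ((x : ℤ) ^ (k2 - k1)) ^ 2 - 1 := by
    apply hcopA.dvd_of_dvd_mul_left
    rw [hdiff]
    exact ⟨(x - 1) * (((y : ℤ) ^ (l2 - l1)) ^ 2 - 1), by ring⟩
  obtain ⟨q, n, hqp, hn, hqn⟩ := (isPrimePow_nat_iff y).1 hy
  have hyq : (y : ℤ) ^ (2 * l1 + 1) = (q : ℤ) ^ (n * (2 * l1 + 1)) := by
    rw [← hqn]
    push_cast
    rw [pow_mul]
  have h2dvd : q = 2 → 2 * (y : ℤ) ^ (2 * l1 + 1) ∣ ((x : ℤ) ^ (k2 - k1)) ^ 2 - 1 := by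
    intro hq2
    have hyeven : 2 ∣ y := by
      rw [← hqn, hq2]
      exact dvd_pow_self 2 (by omega)
    have hxodd : ¬ 2 ∣ x := by
      intro hd
      have := Nat.dvd_gcd hd hyeven
      rw [hcop] at this
      omega
    obtain ⟨a, ha⟩ := hyeven
    obtain ⟨b, hb⟩ : ∃ b, x = 2 * b + 1 := ⟨x / 2, by omega⟩
    have haz : (y : ℤ) = 2 * a := by rw [ha]; push_cast; ring
    have hbz : (x : ℤ) = 2 * b + 1 := by rw [hb]; push_cast; ring
    have hc2 : IsCoprime (2 : ℤ) ((x : ℤ) ^ (2 * k1 + 1) * (y - 1)) := by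
      apply IsCoprime.mul_right
      · apply IsCoprime.pow_right
        exact ⟨-b, 1, by rw [hbz]; ring⟩
      · exact ⟨a, -1, by rw [haz]; ring⟩
    have hc3 : IsCoprime (2 * (y : ℤ) ^ (2 * l1 + 1)) ((x : ℤ) ^ (2 * k1 + 1) * (y - 1)) :=
      IsCoprime.mul_left hc2 hcopA
    apply hc3.dvd_of_dvd_mul_left
    rw [hdiff]
    exact ⟨b * (((y : ℤ) ^ (l2 - l1)) ^ 2 - 1), by rw [hbz]; ring⟩
  obtain ⟨ε, hε, hεd⟩ := eps_exists q (n * (2 * l1 + 1)) hqp ((y : ℤ) ^ (2 * l1 + 1))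
    ((x : ℤ) ^ (k2 - k1)) hyq hdvd h2dvd
  refine ⟨{ A := (x : ℤ) ^ (2 * k1 + 1) * (y - 1)
            B := (x - 1) * (y : ℤ) ^ (2 * l1 + 1)
            C := (y : ℤ) - x
            X := (x : ℤ) ^ (k2 - k1)
            Y := (y : ℤ) ^ (l2 - l1)
            ε := ε
            y := (y : ℤ) ^ (2 * l1 + 1)
            b := (x : ℤ) - 1
            Y2 := (y : ℤ) ^ ((l2 - l1) % (2 * l1 + 1))
            l := (l2 - l1) / (2 * l1 + 1)
            hABC := hABC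
            hB := by ring
            hY := ?_
            heq := heq
            hε := hε
            hdiv := hεd
            hC0 := by omega
            hX0 := by positivity
            hy0 := by positivity
            hb0 := by omega
            hY20 := by positivity }, rfl, rfl, rfl, rfl, rfl, rfl, rfl, rfl, rfl⟩
  rw [← pow_mul, ← pow_add, Nat.div_add_mod]

end Pool.Agent.TwoRep
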