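import Pool.Agent.Lib.MP_56ee40_nt.GInt
import Pool.Agent.Lib.MP_56ee40_nt.MkDat

namespace Pool.Agent.TwoRep

open Finset Polynomial

private theorem f1_ineq {a b c X Y e : ℝ} (ha : 0 < a) (hb : 0 < b) (hc : 0 < c) (hX : 0 < X)
    (hY : 1 < Y) (he : e = 1 ∨ e = -1) (h1 : a ^ 2 = b ^ 2 + c ^ 2)
    (h2 : a ^ 2 * X ^ 2 = b ^ 2 * Y ^ 2 + c ^ 2) :
    0 < (a - c) / b ∧ (a - c) / b < (a * X - e * c) / (b * Y) ∧
      (a * X - e * c) / (b * Y) ≤ ((a - c) / b)⁻¹ := by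
  have hY0 : 0 < Y := by linarith
  have hac : c < a := by
    apply lt_of_pow_lt_pow_left₀ 2 ha.le
    rw [h1]
    linarith [pow_pos hb 2]
  have hac0 : 0 < a - c := sub_pos.2 hac
  have hXY : a * X ≤ a * Y := by
    apply le_of_sq_le_sq _ (by positivity)
    rw [mul_pow, mul_pow, h2, h1]
    have h3 : 1 ≤ Y ^ 2 := one_le_pow₀ hY.le
    nlinarith [pow_pos hc 2]
  have hcY : c < c * Y := by nlinarith
  have hup : a * X + c < (a + c) * Y := by nlinarith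
  have hXc : c < a * X := by
    apply lt_of_pow_lt_pow_left₀ 2 (by positivity)
    rw [mul_pow, h2]
    have : 0 < b ^ 2 * Y ^ 2 := by positivity
    linarith
  have hfac : (a * X - c) * (a * X + c) = Y ^ 2 * ((a - c) * (a + c)) := by
    linear_combination h2 - Y ^ 2 * h1
  have hlow : Y * (a - c) < a * X - c := by
    by_contra hcon
    push Not at hcon
    have h5 : (a * X - c) * (a * X + c) < (Y * (a - c)) * ((a + c) * Y) := by
      have h6 : 0 < a * X - c := sub_pos.2 hXc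
      calc (a * X - c) * (a * X + c) < (a * X - c) * ((a + c) * Y) :=
            mul_lt_mul_of_pos_left hup h6
        _ ≤ (Y * (a - c)) * ((a + c) * Y) :=
            mul_le_mul_of_nonneg_right hcon (by positivity)
    rw [hfac] at h5
    exact absurd h5 (by
      apply not_lt.2
      apply le_of_eq
      ring)
  refine ⟨div_pos hac0 hb, ?_, ?_⟩
  · rw [div_lt_div_iff₀ hb (by positivity)]
    have h6 : Y * (a - c) < a * X - e * c := by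
      rcases he with rfl | rfl
      · linarith
      · linarith
    nlinarith
  · rw [inv_div, div_le_div_iff₀ (by positivity) hac0]
    have h6 : a * X - e * c ≤ (a + c) * Y := by
      rcases he with rfl | rfl
      · linarith
      · linarith
    have h7 : (a * X - e * c) * (a - c) ≤ (a + c) * Y * (a - c) :=
      mul_le_mul_of_nonneg_right h6 hac0.le
    have h8 : (a + c) * Y * (a - c) = b * (b * Y) := by linear_combination Y * h1
    linarith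

private theorem f1_a {t : ℝ} (h0 : 0 < t) (h : t * t ≤ 1) : t ≤ 1 := by nlinarith

private theorem f1_b {r v : ℝ} (hr : 0 < r) (hv : 1 ≤ v) : 2 * r ≤ 2 * (v * r) := by nlinarith

private theorem f1_c (a c : ℝ) : (a + c) ^ 2 ≤ 2 * (a ^ 2 + c ^ 2) := by
  nlinarith [sq_nonneg (a - c)]

private theorem f1_d {x y : ℝ} (hx : 2 ≤ x) (hy : 2 ≤ y) :
    2 * (x * (y - 1) + (y - x)) ≤ 4 * x * y := by nlinarith

private theorem f1_e {x y : ℝ} (hx : 2 ≤ x) (hy : x + 1 ≤ y) :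
    (y - x) ^ 2 ≤ x * (y - 1) * (y - x) := by
  have h5 : y - x ≤ x * (y - 1) := by nlinarith
  have h6 : 0 ≤ y - x := by linarith
  rw [sq]
  exact mul_le_mul_of_nonneg_right h5 h6

private theorem f1_main (x y k l : ℕ) (h : Sol x y k l) :
    2 * ((y : ℝ) - x) ≤ (4 * x) ^ (l + 1) := by
  have hx2 : 2 ≤ x := h.ppx.two_le
  have hy2 : 2 ≤ y := h.ppy.two_le
  have hxy := h.lt
  have r0 : Rep x y 0 0 := by simp [Rep]
  obtain ⟨hk, d, dA, dB, dC, dX, dY, dy, db, dY2, dl⟩ :=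
    exists_dat x y 0 0 k l hx2 h.ppy h.cop h.lt r0 h.eq h.one_le
  simp only [mul_zero, zero_add, pow_one, Nat.sub_zero, Nat.div_one, Nat.mod_one, pow_zero] at *
  obtain ⟨u, v, huv⟩ := integrality d (-(l : ℤ)) 1
  have hxr : (2 : ℝ) ≤ x := by exact_mod_cast hx2
  have hyr : (2 : ℝ) ≤ y := by exact_mod_cast hy2
  have hxyr : (x : ℝ) + 1 ≤ y := by exact_mod_cast hxy
  have dAr : (d.A : ℝ) = x * (y - 1) := by rw [dA]; push_cast; ring
  have dBr : (d.B : ℝ) = (x - 1) * y := by rw [dB]; push_cast; ring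
  have dCr : (d.C : ℝ) = y - x := by rw [dC]; push_cast; ring
  have hA0 : (0 : ℝ) < d.A := by rw [dAr]; apply mul_pos <;> linarith
  have hB0 : (0 : ℝ) < d.B := by rw [dBr]; apply mul_pos <;> linarith
  have hC0 : (0 : ℝ) < d.C := by rw [dCr]; linarith
  set a := Real.sqrt d.A with ha
  set b := Real.sqrt d.B with hb
  set c := Real.sqrt d.C with hc
  have ha0 : 0 < a := Real.sqrt_pos.2 hA0
  have hb0 : 0 < b := Real.sqrt_pos.2 hB0
  have hc0 : 0 < c := Real.sqrt_pos.2 hC0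
  have ha2 : a ^ 2 = (d.A : ℝ) := Real.sq_sqrt hA0.le
  have hb2 : b ^ 2 = (d.B : ℝ) := Real.sq_sqrt hB0.le
  have hc2 : c ^ 2 = (d.C : ℝ) := Real.sq_sqrt hC0.le
  have hX0 : (0 : ℝ) < d.X := by exact_mod_cast d.hX0
  have hYy : (d.Y : ℝ) = (y : ℝ) ^ l := by rw [dY]; push_cast; ring
  have hY1 : (1 : ℝ) < d.Y := by
    rw [hYy]
    exact one_lt_pow₀ (by linarith) (by have := h.one_le; omega)
  have hε : (d.ε : ℝ) = 1 ∨ (d.ε : ℝ) = -1 := by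
    rcases d.hε with h' | h' <;> rw [h'] <;> simp
  have k1 : a ^ 2 = b ^ 2 + c ^ 2 := by
    rw [ha2, hb2, hc2]
    exact_mod_cast d.hABC
  have k2 : a ^ 2 * (d.X : ℝ) ^ 2 = b ^ 2 * (d.Y : ℝ) ^ 2 + c ^ 2 := by
    rw [ha2, hb2, hc2]
    exact_mod_cast d.heq
  obtain ⟨z1, z2, z3⟩ := f1_ineq ha0 hb0 hc0 hX0 hY1 hε k1 k2
  have e1 := huv ℝ a b c ha2 hb2 hc2
  have e2 := huv ℝ a b (-c) ha2 hb2 (by rw [neg_sq]; exact hc2)
  have hbY : b * (d.Y : ℝ) ≠ 0 := by positivity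
  rw [zz0_conj a b c hb0.ne' k1, zz_conj d.X d.Y d.ε d.hε a b c hbY k2] at e2
  have hz0def : zz0 a b c = (a - c) / b := rfl
  have hzdef : zz d.X d.Y d.ε a b c = (a * d.X - d.ε * c) / (b * d.Y) := rfl
  rw [← hz0def] at z1 z2 z3
  rw [← hzdef] at z2 z3
  set z0 := zz0 a b c with hz0
  set z := zz d.X d.Y d.ε a b c with hz
  have hn0 : (-(l : ℤ) + (l : ℤ) * 1).natAbs = 0 := by simp
  have hn1 : (-(l : ℤ)).natAbs + (1 : ℤ).natAbs = l + 1 := by simp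
  rw [dl, hn0, hn1, pow_zero, dY2, db, zpow_one] at e1 e2
  have hp1 : z0 ^ (2 * -(l : ℤ) - 1) = z0⁻¹ ^ (2 * l + 1) := by
    rw [← zpow_natCast, inv_zpow, ← zpow_neg]
    congr 1
    push_cast
    ring
  have hp2 : z0⁻¹ ^ (2 * -(l : ℤ) - 1) = z0 ^ (2 * l + 1) := by
    rw [← zpow_natCast, inv_zpow, ← zpow_neg]
    congr 1
    push_cast
    ring
  rw [hp1] at e1
  rw [hp2] at e2
  push_cast at e1 e2
  rw [one_pow, one_mul, one_mul] at e1 e2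
  have hz00 : 0 < z := z1.trans z2
  have hzinv : z⁻¹ ≤ z0⁻¹ := inv_anti₀ z1 z2.le
  have hw1 : 1 ≤ z0⁻¹ := by
    have h5 : z0 ≤ z0⁻¹ := z2.le.trans z3
    have h6 : z0 * z0 ≤ 1 := by
      calc z0 * z0 ≤ z0 * z0⁻¹ := mul_le_mul_of_nonneg_left h5 z1.le
        _ = 1 := mul_inv_cancel₀ z1.ne'
    have h7 : z0 ≤ 1 := f1_a z1 h6
    exact (one_le_inv₀ z1).2 h7
  have hz01 : z0 ≤ 1 := by
    have := inv_le_one_of_one_le₀ hw1
    rwa [inv_inv] at this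
  have hρ0 : 0 < a * c := mul_pos ha0 hc0
  have hx1 : (0 : ℝ) < ((x : ℝ) - 1) ^ (l + 1) := by
    apply pow_pos; linarith
  -- positivity of v
  have hdiff : 2 * ((v : ℝ) * (a * c)) =
      ((x : ℝ) - 1) ^ (l + 1) * (z0⁻¹ ^ (2 * l + 1) * z - z0 ^ (2 * l + 1) * z⁻¹) := by
    linear_combination e1 - e2
  have hlt : z0 ^ (2 * l + 1) * z⁻¹ < z0⁻¹ ^ (2 * l + 1) * z := by
    have s1 : z0 ^ (2 * l + 1) * z⁻¹ ≤ 1 := by
      calc z0 ^ (2 * l + 1) * z⁻¹ ≤ z0 ^ (2 * l + 1) * z0⁻¹ :=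
            mul_le_mul_of_nonneg_left hzinv (by positivity)
        _ = z0 ^ (2 * l) := by
            rw [pow_succ, mul_assoc, mul_inv_cancel₀ z1.ne', mul_one]
        _ ≤ 1 := pow_le_one₀ z1.le hz01
    have s2 : 1 < z0⁻¹ ^ (2 * l + 1) * z := by
      calc 1 ≤ z0⁻¹ ^ (2 * l) := one_le_pow₀ hw1
        _ = z0⁻¹ ^ (2 * l + 1) * z0 := by
            rw [pow_succ, mul_assoc, inv_mul_cancel₀ z1.ne', mul_one]
        _ < z0⁻¹ ^ (2 * l + 1) * z := mul_lt_mul_of_pos_left z2 (by positivity)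
    linarith
  have hvpos : 0 < (v : ℝ) := by
    have h5 : 0 < 2 * ((v : ℝ) * (a * c)) := by
      rw [hdiff]
      exact mul_pos hx1 (sub_pos.2 hlt)
    by_contra hcon
    push Not at hcon
    have : (v : ℝ) * (a * c) ≤ 0 := mul_nonpos_of_nonpos_of_nonneg hcon hρ0.le
    linarith
  have hv1 : (1 : ℝ) ≤ v := by
    have : 0 < v := by exact_mod_cast hvpos
    exact_mod_cast this
  have hbound : 2 * (a * c) ≤ ((x : ℝ) - 1) ^ (l + 1) * (z0⁻¹ ^ 2) ^ (l + 1) := by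
    have h5 : 2 * (a * c) ≤ 2 * ((v : ℝ) * (a * c)) := f1_b hρ0 hv1
    refine h5.trans ?_
    rw [hdiff]
    apply mul_le_mul_of_nonneg_left _ hx1.le
    have h6 : 0 ≤ z0 ^ (2 * l + 1) * z⁻¹ := by positivity
    have h7 : z0⁻¹ ^ (2 * l + 1) * z ≤ z0⁻¹ ^ (2 * l + 1) * z0⁻¹ :=
      mul_le_mul_of_nonneg_left z3 (by positivity)
    have h8 : z0⁻¹ ^ (2 * l + 1) * z0⁻¹ = (z0⁻¹ ^ 2) ^ (l + 1) := by
      rw [← pow_succ, ← pow_mul]
      congr 1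
    linarith
  have hz0sq : ((x : ℝ) - 1) * z0⁻¹ ^ 2 ≤ 4 * x := by
    have e5 : z0⁻¹ = (a + c) / b := by
      rw [hz0def, inv_div, div_eq_div_iff (by
        have : a - c = z0 * b := by rw [hz0def]; field_simp
        rw [this]; positivity) hb0.ne']
      linear_combination -k1
    rw [e5, div_pow, hb2, dBr, mul_div_assoc']
    rw [div_le_iff₀ (by apply mul_pos <;> linarith)]
    have h6 : (a + c) ^ 2 ≤ 2 * (a ^ 2 + c ^ 2) := f1_c a c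
    rw [ha2, hc2, dAr, dCr] at h6
    have h7 : (a + c) ^ 2 ≤ 4 * x * y := h6.trans (f1_d hxr hyr)
    have h8 : (0 : ℝ) ≤ x - 1 := by linarith
    calc ((x : ℝ) - 1) * (a + c) ^ 2 ≤ ((x : ℝ) - 1) * (4 * x * y) :=
          mul_le_mul_of_nonneg_left h7 h8
      _ = _ := by ring
  have hρ : (y : ℝ) - x ≤ a * c := by
    apply le_of_sq_le_sq _ hρ0.le
    rw [mul_pow, ha2, hc2, dAr, dCr]
    exact f1_e hxr hxyr
  calc 2 * ((y : ℝ) - x) ≤ 2 * (a * c) := by linarith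
    _ ≤ ((x : ℝ) - 1) ^ (l + 1) * (z0⁻¹ ^ 2) ^ (l + 1) := hbound
    _ = (((x : ℝ) - 1) * z0⁻¹ ^ 2) ^ (l + 1) := (mul_pow _ _ _).symm
    _ ≤ (4 * x) ^ (l + 1) := by
        apply pow_le_pow_left₀ _ hz0sq
        have : (0 : ℝ) ≤ x - 1 := by linarith
        positivity

/-- **F1.** `y ≤ (4x)^(l+1)` for every solution.
PROOF. `d` from `exists_dat` with anchor `(0,0)` (so `d.l = l`, `d.y = y`, `Y2 = 1`, `b = x-1`).
`integrality d (-l) 1` in `ℝ` with `rA = √A`, `rB = √B`, `rC = ±√C`; `ρ = √A √C`: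
`u + v ρ = (x-1)^(l+1) z₀^(-(2l+1)) z`, `u - v ρ = (x-1)^(l+1) z₀^(2l+1) z⁻¹` (conjugation inverts
`z₀, z`: `zz0_conj`, `zz_conj`).  So `2 v ρ = (x-1)^(l+1) (z₀^(-(2l+1)) z - z₀^(2l+1) z⁻¹)`.
`0 < z₀ < z` and `z ≤ z₀⁻¹`: with `κ₀ = √(C/B)`, `κ = κ₀/Y < κ₀`, `z₀ = √(1+κ₀²) - κ₀`,
`z = √(1+κ²) ∓ κ`, and `t ↦ √(1+t²)-t` is decreasing, `√(1+κ²)+κ ≤ √(1+κ₀²)+κ₀ = z₀⁻¹`.
Hence `z₀^(-(2l+1)) z > z₀^(2l+1) z⁻¹` (`z² > z₀² ≥ z₀^(4l+2)`), so `v ≥ 1` and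
`2ρ ≤ (x-1)^(l+1) z₀^(-(2l+2))`.  `ρ = √(x(y-1)(y-x)) ≥ y - x`, and
`z₀⁻¹ = (√A+√C)/√B ≤ (√x+1)/√(x-1)` (`A ≤ x y`, `C ≤ y`, `B = y(x-1)`).
So `2(y-x) ≤ (√x+1)^(2l+2) ≤ (4x)^(l+1)`, and `y ≤ x + (4x)^(l+1)/2 ≤ (4x)^(l+1)`. -/
theorem y_le (x y k l : ℕ) (h : Sol x y k l) : y ≤ (4 * x) ^ (l + 1) := by
  have h1 := f1_main x y k l h
  have hx2 : 2 ≤ x := h.ppx.two_le
  have hxr : (2 : ℝ) ≤ x := by exact_mod_cast hx2
  have h2 : (4 * x : ℝ) ≤ (4 * x) ^ (l + 1) := by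
    have := pow_le_pow_right₀ (show (1 : ℝ) ≤ 4 * x by linarith) (show 1 ≤ l + 1 by omega)
    rwa [pow_one] at this
  have h3 : (y : ℝ) ≤ (4 * x) ^ (l + 1) := by linarith
  exact_mod_cast h3

end Pool.Agent.TwoRep
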