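import Pool.Agent.Lib.MP_56ee40_nt.MainL
import Pool.Agent.Lib.MP_56ee40_nt.F1

/-!
# A big anchor solution excludes much bigger solutions
-/

namespace Pool.Agent.TwoRep

open Finset Polynomial

private lemma Anchor_geom (x n : ℕ) (N : ℤ) (hN : N = ∑ i ∈ range n, (x : ℤ) ^ i) :
    N * ((x : ℤ) - 1) = (x : ℤ) ^ n - 1 := by
  rw [hN]; exact geom_sum_mul (x : ℤ) n

private lemma Anchor_last (y l : ℕ) (N : ℤ) (hN : N = ∑ i ∈ range (2 * l + 1), (y : ℤ) ^ i) :
    (y : ℤ) ^ (2 * l) ≤ N := by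
  rw [hN, sum_range_succ]
  have : 0 ≤ ∑ i ∈ range (2 * l), (y : ℤ) ^ i := sum_nonneg fun i _ => by positivity
  linarith

/-- **ANCHOR.** -/
theorem anchor (x y k1 l1 k2 l2 : ℕ) (hx : IsPrimePow x) (hy : IsPrimePow y)
    (hcop : Nat.Coprime x y) (hxy : x < y) (h1 : Rep x y k1 l1) (h2 : Rep x y k2 l2)
    (hl12 : l1 < l2) (hbig : 2 ^ K0 ≤ x ^ (2 * k1 + 1)) (hl : 10000 ≤ (l2 - l1) / (2 * l1 + 1)) :
    False := by
  have hx2 : 2 ≤ x := hx.two_le
  obtain ⟨hk12, d, hdA, hdB, hdC, hdX, hdY, hdy, hdb, hdY2, hdl⟩ :=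
    exists_dat x y k1 l1 k2 l2 hx2 hy hcop hxy h1 h2 hl12
  obtain ⟨p, m, hp, hm, hpm⟩ := (isPrimePow_nat_iff x).mp hx
  have : Fact p.Prime := ⟨hp⟩
  -- sums
  obtain ⟨N1, hN1⟩ : ∃ N1 : ℤ, N1 = ∑ i ∈ range (2 * k1 + 1), (x : ℤ) ^ i := ⟨_, rfl⟩
  obtain ⟨N2, hN2⟩ : ∃ N2 : ℤ, N2 = ∑ i ∈ range (2 * k2 + 1), (x : ℤ) ^ i := ⟨_, rfl⟩
  have hN1' : N1 = ∑ i ∈ range (2 * l1 + 1), (y : ℤ) ^ i := by
    rw [hN1]; exact_mod_cast h1
  have hN2' : N2 = ∑ i ∈ range (2 * l2 + 1), (y : ℤ) ^ i := by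
    rw [hN2]; exact_mod_cast h2
  have g1x := Anchor_geom x _ N1 hN1
  have g1y := Anchor_geom y _ N1 hN1'
  have g2x := Anchor_geom x _ N2 hN2
  have g2y := Anchor_geom y _ N2 hN2'
  have last1 := Anchor_last y l1 N1 hN1'
  have last2 := Anchor_last y l2 N2 hN2'
  have hxZ : (2 : ℤ) ≤ x := by exact_mod_cast hx2
  have hxyZ : (x : ℤ) + 1 ≤ y := by exact_mod_cast hxy
  have hyZ : (3 : ℤ) ≤ y := by linarith
  have N1pos : 1 ≤ N1 := by
    have : (1 : ℤ) ≤ (y : ℤ) ^ (2 * l1) := one_le_pow₀ (by linarith)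
    linarith
  have N2pos : 1 ≤ N2 := by
    have : (1 : ℤ) ≤ (y : ℤ) ^ (2 * l2) := one_le_pow₀ (by linarith)
    linarith
  have N1le : N1 ≤ (x : ℤ) ^ (2 * k1 + 1) := by
    have := mul_le_mul_of_nonneg_left (by linarith : (1 : ℤ) ≤ (x : ℤ) - 1)
      (by linarith : (0 : ℤ) ≤ N1)
    linarith
  have N2le : N2 ≤ (x : ℤ) ^ (2 * k2 + 1) := by
    have := mul_le_mul_of_nonneg_left (by linarith : (1 : ℤ) ≤ (x : ℤ) - 1)
      (by linarith : (0 : ℤ) ≤ N2)
    linarith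
  -- notation
  obtain ⟨xh, hxh⟩ : ∃ xh : ℤ, xh = (x : ℤ) ^ (2 * k1 + 1) := ⟨_, rfl⟩
  obtain ⟨yh, hyh⟩ : ∃ yh : ℤ, yh = (y : ℤ) ^ (2 * l1 + 1) := ⟨_, rfl⟩
  obtain ⟨l, hll⟩ : ∃ l : ℕ, l = (l2 - l1) / (2 * l1 + 1) := ⟨_, rfl⟩
  rw [← hll] at hl hdl
  rw [← hyh] at hdy hdB g1y
  rw [← hxh] at hdA g1x N1le
  have hxhge : (x : ℤ) ≤ xh := by
    rw [hxh]; exact le_self_pow₀ (by linarith) (by omega)
  have hxy' : xh ≤ yh := by
    have := mul_le_mul_of_nonneg_left (by linarith : (x : ℤ) - 1 ≤ (y : ℤ) - 1)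
      (by linarith : (0 : ℤ) ≤ N1)
    linarith
  have hxh2 : 2 ≤ xh := by linarith
  have hyh2 : 2 ≤ yh := by linarith
  have hpe : ((p : ℤ) ^ (m * (2 * k1 + 1))) = xh := by
    rw [hxh, ← hpm]; push_cast; rw [pow_mul]
  have hpu : ((p : ℤ) ^ (m * (2 * k2 + 1))) = (x : ℤ) ^ (2 * k2 + 1) := by
    rw [← hpm]; push_cast; rw [pow_mul]
  have hpx : (p : ℤ) ∣ x := by
    rw [← hpm]; push_cast; exact dvd_pow_self _ (by omega)
  have hpp : ¬ (p : ℤ) ∣ 1 := by
    intro h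
    have := Int.natCast_dvd_natCast.mp (by simpa using h : (p : ℤ) ∣ ((1 : ℕ) : ℤ))
    exact hp.one_lt.ne' (Nat.dvd_one.mp this)
  have hpy : ¬ (p : ℤ) ∣ y := by
    intro h
    have h3 : p ∣ y := by exact_mod_cast h
    have h4 : p ∣ x := by exact_mod_cast hpx
    have h5 := Nat.dvd_gcd h4 h3
    rw [hcop] at h5
    exact hp.one_lt.ne' (Nat.dvd_one.mp h5)
  have hprime : Prime (p : ℤ) := Nat.prime_iff_prime_int.mp hp
  -- L
  have hlog : ∃ L : ℕ, xh ^ L ≤ yh ^ l ∧ yh ^ l < xh ^ (L + 1) := by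
    have hxn : ((xh.toNat : ℕ) : ℤ) = xh := Int.toNat_of_nonneg (by linarith)
    have hyn : ((yh.toNat : ℕ) : ℤ) = yh := Int.toNat_of_nonneg (by linarith)
    have hx1 : 1 < xh.toNat := by
      have : (1 : ℤ) < (xh.toNat : ℕ) := by rw [hxn]; linarith
      exact_mod_cast this
    have hy0 : yh.toNat ^ l ≠ 0 := by
      apply pow_ne_zero
      have : (0 : ℤ) < (yh.toNat : ℕ) := by rw [hyn]; linarith
      have : 0 < yh.toNat := by exact_mod_cast this
      omega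
    refine ⟨Nat.log xh.toNat (yh.toNat ^ l), ?_, ?_⟩
    · have := Nat.pow_log_le_self xh.toNat hy0
      have h3 : ((xh.toNat ^ Nat.log xh.toNat (yh.toNat ^ l) : ℕ) : ℤ) ≤
          ((yh.toNat ^ l : ℕ) : ℤ) := by exact_mod_cast this
      push_cast at h3
      rw [hxn, hyn] at h3
      exact h3
    · have := Nat.lt_pow_succ_log_self hx1 (yh.toNat ^ l)
      have h3 : ((yh.toNat ^ l : ℕ) : ℤ) <
          ((xh.toNat ^ (Nat.log xh.toNat (yh.toNat ^ l) + 1) : ℕ) : ℤ) := by exact_mod_cast this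
      push_cast at h3
      rw [hxn, hyn] at h3
      exact h3
  obtain ⟨L, hL1, hL2⟩ := hlog
  have hlL : l ≤ L := by
    by_contra hcon
    push Not at hcon
    have h3 : xh ^ (L + 1) ≤ xh ^ l := pow_le_pow_right₀ (by linarith) (by omega)
    have h4 : xh ^ l ≤ yh ^ l := pow_le_pow_left₀ (by linarith) hxy' l
    linarith
  -- the two cases
  have hcase : L ≤ l ^ 3 ∧ d.Y2 ^ (50 * JJ L l) ≤ xh ^ L := by
    rcases Nat.eq_zero_or_pos l1 with h0 | h0
    · -- l1 = 0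
      subst h0
      have hy1 : yh = y := by rw [hyh]; ring
      have hN11 : N1 = 1 := by
        rw [hN1']; simp
      have hk1 : xh = x := by
        rw [hN11] at g1x; linarith
      have hl2 : l = l2 := by rw [hll]; simp
      constructor
      · have hsol : Sol x y k2 l2 := ⟨hx, hy, hcop, hxy, by omega, h2⟩
        have hyle := y_le x y k2 l2 hsol
        rw [← hl2] at hyle
        have h4x : 4 * x ≤ x ^ 3 := by
          have h8 : 2 ^ 2 ≤ x ^ 2 := Nat.pow_le_pow_left hx2 2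
          have h9 : 4 * x ≤ x ^ 2 * x := Nat.mul_le_mul_right x (by simpa using h8)
          calc 4 * x ≤ x ^ 2 * x := h9
            _ = x ^ 3 := by ring
        have h5 : y ^ l ≤ x ^ (3 * (l + 1) * l) := by
          calc y ^ l ≤ ((4 * x) ^ (l + 1)) ^ l := Nat.pow_le_pow_left hyle l
            _ ≤ ((x ^ 3) ^ (l + 1)) ^ l :=
                Nat.pow_le_pow_left (Nat.pow_le_pow_left h4x _) _
            _ = _ := by rw [← pow_mul, ← pow_mul, ← mul_assoc]
        have h6 : (x : ℤ) ^ L ≤ (x : ℤ) ^ (3 * (l + 1) * l) := by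
          calc (x : ℤ) ^ L ≤ (y : ℤ) ^ l := by rw [← hk1, ← hy1]; exact hL1
            _ ≤ _ := by exact_mod_cast h5
        have h7 : L ≤ 3 * (l + 1) * l := by
          by_contra hcon
          push Not at hcon
          have : (x : ℤ) ^ (3 * (l + 1) * l) < (x : ℤ) ^ L :=
            pow_lt_pow_right₀ (by linarith) hcon
          linarith
        have h8 : 3 * (l + 1) ≤ l * l := by
          have : 10000 * l ≤ l * l := Nat.mul_le_mul_right l hl
          omega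
        calc L ≤ 3 * (l + 1) * l := h7
          _ ≤ l * l * l := Nat.mul_le_mul_right l h8
          _ = l ^ 3 := by ring
      · have : d.Y2 = 1 := by
          rw [hdY2]
          have : (l2 - 0) % (2 * 0 + 1) = 0 := by simp [Nat.mod_one]
          rw [this, pow_zero]
        rw [this, one_pow]
        exact one_le_pow₀ (by linarith)
    · -- l1 ≥ 1
      have hsq : yh ≤ xh ^ 2 := by
        have h3 : yh ≤ (y : ℤ) ^ (2 * l1) * (y : ℤ) ^ (2 * l1) := by
          rw [hyh, ← pow_add]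
          exact pow_le_pow_right₀ (by linarith) (by omega)
        have h4 : (0 : ℤ) ≤ (y : ℤ) ^ (2 * l1) := by positivity
        calc yh ≤ (y : ℤ) ^ (2 * l1) * (y : ℤ) ^ (2 * l1) := h3
          _ ≤ xh * xh := mul_le_mul (by linarith) (by linarith) h4 (by linarith)
          _ = xh ^ 2 := by ring
      have hL2l : L ≤ 2 * l := by
        have h3 : xh ^ L ≤ xh ^ (2 * l) := by
          calc xh ^ L ≤ yh ^ l := hL1
            _ ≤ (xh ^ 2) ^ l := pow_le_pow_left₀ (by linarith) hsq l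
            _ = _ := by rw [← pow_mul]
        by_contra hcon
        push Not at hcon
        have : xh ^ (2 * l) < xh ^ L := pow_lt_pow_right₀ (by linarith) hcon
        linarith
      constructor
      · have : 2 * l ≤ l ^ 3 := by
          have h6 : 2 ≤ l * l := by
            have : 10000 * l ≤ l * l := Nat.mul_le_mul_right l hl
            omega
          calc 2 * l ≤ l * l * l := Nat.mul_le_mul_right l h6
            _ = l ^ 3 := by ring
        omega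
      · have hY2le : d.Y2 ≤ xh := by
          rw [hdY2]
          calc (y : ℤ) ^ ((l2 - l1) % (2 * l1 + 1)) ≤ (y : ℤ) ^ (2 * l1) := by
                apply pow_le_pow_right₀ (by linarith)
                have := Nat.mod_lt (l2 - l1) (y := 2 * l1 + 1) (by omega)
                omega
            _ ≤ N1 := last1
            _ ≤ xh := N1le
        have hJ : JJ L l ≤ 6 := by
          unfold JJ
          have : 2 * L / l ≤ 4 := by
            apply Nat.div_le_of_le_mul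
            have : 2 * L ≤ 2 * (2 * l) := Nat.mul_le_mul_left 2 hL2l
            omega
          omega
        calc d.Y2 ^ (50 * JJ L l) ≤ xh ^ (50 * JJ L l) :=
              pow_le_pow_left₀ d.hY20.le hY2le _
          _ ≤ xh ^ L := pow_le_pow_right₀ (by linarith) (by omega)
  refine main_lemma d p (m * (2 * k1 + 1)) (m * (2 * k2 + 1)) L ?_ ?_ ?_ ?_ ?_ ?_ ?_ ?_ ?_ ?_ ?_
    ?_ ?_ ?_ ?_ ?_ ?_
  · exact Nat.mul_pos hm (by omega)
  · rw [hpe, hdA]; exact dvd_mul_right _ _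
  · rw [hdB]
    intro h
    rcases hprime.dvd_or_dvd h with h | h
    · apply hpp
      have := dvd_sub hpx h
      simpa using this
    · rw [hyh] at h
      exact hpy (hprime.dvd_of_dvd_pow h)
  · rw [hdC]
    intro h
    apply hpy
    have := dvd_add h hpx
    simpa using this
  · rw [hpe, hdC, hdA, mul_comm xh]
    exact mul_le_mul_of_nonneg_right (by linarith) (by linarith)
  · rw [hpe, hdb]; linarith
  · rw [hdy, hdC, hyh]
    apply IsCoprime.pow_left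
    have h3 : IsCoprime (x : ℤ) (y : ℤ) := Nat.isCoprime_iff_coprime.mpr hcop
    have h4 : IsCoprime (y : ℤ) (-(x : ℤ)) := h3.symm.neg_right
    have h5 := h4.add_mul_left_right 1
    have h6 : -(x : ℤ) + y * 1 = y - x := by ring
    rw [h6] at h5
    exact h5
  · rw [hpu, hdA, hdX]
    have : xh * ((y : ℤ) - 1) * ((x : ℤ) ^ (k2 - k1)) ^ 2 =
        (x : ℤ) ^ (2 * k2 + 1) * ((y : ℤ) - 1) := by
      have e : 2 * k2 + 1 = (2 * k1 + 1) + (k2 - k1) * 2 := by omega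
      rw [e, pow_add, pow_mul, hxh]
      ring
    rw [this]
    exact dvd_mul_right _ _
  · rw [hpu, hdy, hdl]
    calc yh ^ (2 * l) = (y : ℤ) ^ ((2 * l1 + 1) * (2 * l)) := by rw [hyh, ← pow_mul]
      _ ≤ (y : ℤ) ^ (2 * l2) := by
          apply pow_le_pow_right₀ (by linarith)
          have : (2 * l1 + 1) * l ≤ l2 - l1 := by
            rw [hll]; exact Nat.mul_div_le _ _
          have e : (2 * l1 + 1) * (2 * l) = 2 * ((2 * l1 + 1) * l) := by ring
          rw [e]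
          omega
      _ ≤ N2 := last2
      _ ≤ _ := N2le
  · rw [hpu, hdC, hdB, hdY]
    have e : ((x : ℤ) - 1) * yh * ((y : ℤ) ^ (l2 - l1)) ^ 2 =
        ((x : ℤ) - 1) * (y : ℤ) ^ (2 * l2 + 1) := by
      have e : 2 * l2 + 1 = (2 * l1 + 1) + (l2 - l1) * 2 := by omega
      rw [e, pow_add, pow_mul, hyh]
      ring
    rw [e]
    have hyp : (1 : ℤ) ≤ (y : ℤ) ^ (2 * l2) := one_le_pow₀ (by linarith)
    have hys : (y : ℤ) ^ (2 * l2 + 1) = (y : ℤ) ^ (2 * l2) * y := pow_succ _ _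
    have hx' : (x : ℤ) ^ (2 * k2 + 1) = N2 * ((x : ℤ) - 1) + 1 := by linarith
    have hy' : N2 * ((y : ℤ) - 1) ≤ (y : ℤ) ^ (2 * l2 + 1) := by linarith
    rw [hx']
    have a1 : N2 * ((x : ℤ) - 1) * ((y : ℤ) - x) ≤ ((x : ℤ) - 1) * (y : ℤ) ^ (2 * l2 + 1) := by
      have b0 : N2 * ((y : ℤ) - x) ≤ N2 * ((y : ℤ) - 1) :=
        mul_le_mul_of_nonneg_left (by linarith) (by linarith)
      have b1 : N2 * ((y : ℤ) - x) ≤ (y : ℤ) ^ (2 * l2 + 1) := b0.trans hy'
      have b2 := mul_le_mul_of_nonneg_left b1 (by linarith : (0 : ℤ) ≤ (x : ℤ) - 1)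
      calc N2 * ((x : ℤ) - 1) * ((y : ℤ) - x) = ((x : ℤ) - 1) * (N2 * ((y : ℤ) - x)) := by ring
        _ ≤ _ := b2
    have a2 : (y : ℤ) - x ≤ ((x : ℤ) - 1) * (y : ℤ) ^ (2 * l2 + 1) := by
      have b1 : (y : ℤ) ≤ (y : ℤ) ^ (2 * l2 + 1) := le_self_pow₀ (by linarith) (by omega)
      have b3 : (y : ℤ) ^ (2 * l2 + 1) ≤ ((x : ℤ) - 1) * (y : ℤ) ^ (2 * l2 + 1) :=
        le_mul_of_one_le_left (by positivity) (by linarith)
      linarith
    calc (N2 * ((x : ℤ) - 1) + 1) * ((y : ℤ) - x) =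
          N2 * ((x : ℤ) - 1) * ((y : ℤ) - x) + ((y : ℤ) - x) := by ring
      _ ≤ 2 * (((x : ℤ) - 1) * (y : ℤ) ^ (2 * l2 + 1)) := by linarith
  · rw [hpe, hdy, hdl]; exact hL1
  · rw [hpe, hdy, hdl]; exact hL2
  · rw [hdl]; exact hlL
  · rw [hdl]; exact hcase.1
  · rw [hpe, hdl]; exact hcase.2
  · have : p ^ (m * (2 * k1 + 1)) = x ^ (2 * k1 + 1) := by rw [← hpm, pow_mul]
    rw [this]; exact hbig
  · rw [hdl]; exact hl

end Pool.Agent.TwoRep
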