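import Pool.Agent.Lib.MP_56ee40_nt.Anchor

namespace Pool.Agent.TwoRep

open Finset Polynomial

private theorem CE_lt {x y k l : ℕ} (h : Sol x y k l) : l < k := by
  by_contra hkl
  push Not at hkl
  have h1 : ∑ i ∈ range (2 * k + 1), x ^ i ≤ ∑ i ∈ range (2 * l + 1), x ^ i :=
    Finset.sum_le_sum_of_subset (Finset.range_subset_range.2 (by omega))
  have h2 : ∑ i ∈ range (2 * l + 1), x ^ i < ∑ i ∈ range (2 * l + 1), y ^ i := by
    refine Finset.sum_lt_sum (fun i _ => Nat.pow_le_pow_left h.lt.le i) ⟨1, ?_, ?_⟩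
    · rw [Finset.mem_range]
      have := h.one_le
      omega
    · simpa using h.lt
  have h3 := h.eq
  omega

private theorem CE_pow (K x k : ℕ) (hx : 2 ≤ x) (hk : K ≤ k) : 2 ^ K ≤ x ^ k :=
  (Nat.pow_le_pow_right (by norm_num) hk).trans (Nat.pow_le_pow_left hx _)

/-- **CE (a).** `anchor` with `(k1,l1) = (0,0)`. -/
theorem C_thm (x y k l : ℕ) (h : Sol x y k l) (hx : 2 ^ K0 ≤ x) (hl : 10000 ≤ l) : False := by
  refine anchor x y 0 0 k l h.ppx h.ppy h.cop h.lt ?_ h.eq (by omega) ?_ ?_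
  · unfold Rep
    simp
  · rw [Nat.mul_zero, Nat.zero_add, pow_one]
    exact hx
  · rw [Nat.mul_zero, Nat.zero_add, Nat.div_one, Nat.sub_zero]
    exact hl

/-- **CE (b).** For fixed `(x,y)` finitely many solutions. PROOF. `k` is determined by `l` (the sum is
strictly increasing in `k`), and `l ≤ k` (as `x < y`).  If the set of `l` is unbounded, there is a
solution `(k1,l1)` with `l1 ≥ K0`, so `x^(2k1+1) ≥ 2^K0`; and another one `(k2,l2)` with
`l2 - l1 ≥ 10000 (2 l1 + 1)`; contradiction with `anchor`.  So the `l` are bounded and so are the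
`k` (`x^k ≤ sum_x = sum_y`). -/
theorem E_thm (x y : ℕ) : {kl : ℕ × ℕ | Sol x y kl.1 kl.2}.Finite := by
  by_contra hinf
  have hex : ∀ L : ℕ, ∃ k l : ℕ, L ≤ l ∧ Sol x y k l := by
    intro L
    by_contra hcon
    push Not at hcon
    apply hinf
    refine ((Set.finite_Iic (y ^ (2 * L + 1))).prod (Set.finite_Iic L)).subset ?_
    rintro ⟨k, l⟩ (h : Sol x y k l)
    have hl : l < L := by
      by_contra h1
      exact hcon k l (by omega) h
    have hx : 2 ≤ x := h.ppx.one_lt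
    have hy : 2 ≤ y := h.ppy.one_lt
    have hx1 : x ^ (2 * k) ≤ ∑ i ∈ range (2 * k + 1), x ^ i :=
      Finset.single_le_sum (f := fun i => x ^ i) (fun i _ => Nat.zero_le _)
        (Finset.mem_range.2 (by omega))
    have hx2 : ∑ i ∈ range (2 * l + 1), y ^ i < y ^ (2 * l + 1) :=
      Nat.geomSum_lt hy (fun i hi => Finset.mem_range.1 hi)
    have hx3 : y ^ (2 * l + 1) ≤ y ^ (2 * L + 1) := Nat.pow_le_pow_right (by omega) (by omega)
    have hx4 : 2 * k < x ^ (2 * k) := Nat.lt_pow_self hx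
    have hx5 := h.eq
    refine ⟨?_, ?_⟩
    · show k ≤ y ^ (2 * L + 1)
      omega
    · show l ≤ L
      omega
  obtain ⟨k1, l1, hl1, h1⟩ := hex K0
  obtain ⟨k2, l2, hl2, h2⟩ := hex (l1 + 10000 * (2 * l1 + 1))
  have hlt := CE_lt h1
  refine anchor x y k1 l1 k2 l2 h1.ppx h1.ppy h1.cop h1.lt h1.eq h2.eq (by omega) ?_ ?_
  · exact CE_pow K0 x (2 * k1 + 1) h1.ppx.one_lt (by omega)
  · refine (Nat.le_div_iff_mul_le (Nat.succ_pos _)).2 ?_
    exact Nat.le_sub_of_add_le' hl2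

end Pool.Agent.TwoRep
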