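import Pool.Agent.Lib.MP_56ee40_nt.Defs

namespace Pool.Agent.TwoRep

open Finset Polynomial

/-- the binomial identity behind the Taylor expansion, for `t ≤ e` -/
private theorem taylor_aux {K : Type*} [Field K] (T τ : K) (e t M : ℕ) (hM : e ≤ M)
    (ht : t ≤ e) :
    (e.choose t : K) * T ^ (e - t) =
      ∑ a ∈ range (M + 1), (a.choose t : K) * (T - τ) ^ (a - t) *
        ((e.choose a : K) * τ ^ (e - a)) := by
  have hsub : (Finset.range (e - t + 1)).image (fun b => t + b) ⊆ range (M + 1) := by
    intro a ha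
    simp only [Finset.mem_image, Finset.mem_range] at ha
    obtain ⟨b, hb, rfl⟩ := ha
    simp only [Finset.mem_range]
    omega
  rw [← Finset.sum_subset hsub]
  · rw [Finset.sum_image (fun a _ b _ h => by simpa using h)]
    have h1 : T ^ (e - t) = ∑ b ∈ range (e - t + 1),
        (T - τ) ^ b * τ ^ (e - t - b) * ((e - t).choose b : K) := by
      rw [← add_pow]; congr 1; ring
    rw [h1, Finset.mul_sum]
    refine Finset.sum_congr rfl fun b hb => ?_
    have hb' : b ≤ e - t := by
      have := Finset.mem_range.mp hb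
      omega
    have h2 : e.choose (t + b) * (t + b).choose t = e.choose t * (e - t).choose b := by
      have := Nat.choose_mul (n := e) (k := t + b) (s := t) (by omega)
      rw [this]
      congr 2
      omega
    have h2' : (e.choose (t + b) : K) * ((t + b).choose t : K) =
        (e.choose t : K) * ((e - t).choose b : K) := by
      exact_mod_cast congrArg (Nat.cast : ℕ → K) h2
    have h3 : t + b - t = b := by omega
    have h4 : e - (t + b) = e - t - b := by omega
    rw [h3, h4]
    calc (e.choose t : K) * ((T - τ) ^ b * τ ^ (e - t - b) * ((e - t).choose b : K))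
        = ((e.choose t : K) * ((e - t).choose b : K)) * ((T - τ) ^ b * τ ^ (e - t - b)) := by ring
      _ = ((e.choose (t + b) : K) * ((t + b).choose t : K)) *
            ((T - τ) ^ b * τ ^ (e - t - b)) := by rw [h2']
      _ = _ := by ring
  · intro a ha hna
    rcases lt_or_ge a t with h | h
    · rw [Nat.choose_eq_zero_of_lt h]; simp
    · rcases lt_or_ge e a with h' | h'
      · rw [Nat.choose_eq_zero_of_lt h']; simp
      · exfalso
        apply hna
        simp only [Finset.mem_image, Finset.mem_range]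
        exact ⟨a - t, by omega, by omega⟩

/-- the same identity without the restriction on `t`, with integer powers -/
private theorem taylor_aux2 {K : Type*} [Field K] (T τ : K) (hT : T ≠ 0) (e t M : ℕ) (E : ℕ)
    (r : ℤ) (hr : (e : ℤ) = r + E) (hM : e ≤ M) :
    (e.choose t : K) * (T ^ r * T ^ ((E : ℤ) - t)) =
      ∑ a ∈ range (M + 1), (a.choose t : K) * (T - τ) ^ (a - t) *
        ((e.choose a : K) * τ ^ (e - a)) := by
  rcases le_or_gt t e with h | h
  · rw [← taylor_aux T τ e t M hM h]
    congr 1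
    rw [← zpow_add₀ hT, ← zpow_natCast]
    congr 1
    push_cast [h]
    linarith
  · rw [Nat.choose_eq_zero_of_lt h]
    simp only [Nat.cast_zero, zero_mul]
    symm
    refine Finset.sum_eq_zero fun a _ => ?_
    rcases lt_or_ge a t with h1 | h1
    · rw [Nat.choose_eq_zero_of_lt h1]; simp
    · rw [Nat.choose_eq_zero_of_lt (lt_of_lt_of_le h h1)]; simp

/-- **TAYLOR.** PROOF: for each `v` with `e = ex E v` (so `(e:ℤ) = 2 v.1 - v.2 + E`),
`T^(2s-j) * T^(E-t) = T^(e-t)` and
`choose e t * T^(e-t) = ∑_{a ≤ M} choose a t * (T-τ)^(a-t) * choose e a * τ^(e-a)`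
(for `t ≤ e`: `choose e a * choose a t = choose e t * choose (e-t) (a-t)` and the binomial theorem
for `((T-τ)+τ)^(e-t)`; for `e < t` both sides vanish). -/
theorem taylor_GG {K : Type*} [Field K] (S : Finset (ℤ × ℤ)) (c : ℤ × ℤ → ℤ) (E t M : ℕ)
    (T τ w : K) (hT : T ≠ 0) (hE : ∀ v ∈ S, 0 ≤ 2 * v.1 - v.2 + E)
    (hM : ∀ v ∈ S, ex E v ≤ M) :
    GG S c E t T w * T ^ ((E : ℤ) - t) =
      ∑ a ∈ range (M + 1), (a.choose t : K) * (T - τ) ^ (a - t) * lev S c E τ a w := by
  unfold GG lev
  have hswap : ∑ a ∈ range (M + 1), (a.choose t : K) * (T - τ) ^ (a - t) *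
        (∑ v ∈ S, (c v : K) * ((ex E v).choose a : K) * τ ^ (ex E v - a) * w ^ v.2) =
      ∑ v ∈ S, ((c v : K) * w ^ v.2) * ∑ a ∈ range (M + 1),
        (a.choose t : K) * (T - τ) ^ (a - t) * (((ex E v).choose a : K) * τ ^ (ex E v - a)) := by
    simp_rw [Finset.mul_sum]
    rw [Finset.sum_comm]
    refine Finset.sum_congr rfl fun v _ => Finset.sum_congr rfl fun a _ => ?_
    ring
  rw [hswap, Finset.sum_mul]
  refine Finset.sum_congr rfl fun v hv => ?_
  have hex : ((ex E v : ℕ) : ℤ) = (2 * v.1 - v.2) + E := by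
    unfold ex
    rw [Int.toNat_of_nonneg (hE v hv)]
  rw [← taylor_aux2 T τ hT (ex E v) t M E (2 * v.1 - v.2) hex (hM v hv)]
  ring

end Pool.Agent.TwoRep
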