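import Pool.Agent.Lib.MP_56ee40_nt.DReg
import Pool.Agent.Lib.MP_56ee40_nt.Taylor

namespace Pool.Agent.TwoRep

open Finset Polynomial

/-- the two values of `τ` lie in `[3/8, 5/2]`. -/
private theorem dest_tau (x : ℝ) (hx : 2 ≤ x) {τ : ℝ}
    (h : τ = (√x - 1) / √(x - 1) ∨ τ = (√x + 1) / √(x - 1)) : 2 / 5 ≤ τ ∧ τ ≤ 5 / 2 := by
  have hx1 : 0 < x - 1 := by linarith
  have hs : √x * √x = x := Real.mul_self_sqrt (by linarith)
  have hr : √(x - 1) * √(x - 1) = x - 1 := Real.mul_self_sqrt hx1.le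
  have hr0 : 0 < √(x - 1) := Real.sqrt_pos.2 hx1
  have hs1 : 1.4 ≤ √x := by
    rw [Real.le_sqrt' (by norm_num)]
    norm_num
    linarith
  have hrs : √(x - 1) ≤ √x := Real.sqrt_le_sqrt (by linarith)
  -- `(√x - 1) (√x + 1) = √(x-1) ^ 2`
  have hprod : (√x - 1) * (√x + 1) = √(x - 1) * √(x - 1) := by rw [hr]; linear_combination hs
  -- `5 (√x - 1) ≥ 2 √(x-1)`
  have key : 2 * √(x - 1) ≤ 5 * (√x - 1) := by
    have h1 : (2 * √(x - 1)) ^ 2 ≤ (5 * (√x - 1)) ^ 2 := by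
      have h2 : (2 * √(x - 1)) ^ 2 = 4 * ((√x - 1) * (√x + 1)) := by rw [hprod]; ring
      rw [h2]
      nlinarith
    exact le_of_sq_le_sq h1 (by linarith)
  have key2 : 2 * (√x + 1) ≤ 5 * √(x - 1) := by
    have h1 : (2 * (√x + 1)) * √(x - 1) ≤ (5 * √(x - 1)) * √(x - 1) := by
      have h2 : 5 * √(x - 1) * √(x - 1) = 5 * ((√x - 1) * (√x + 1)) := by rw [hprod]; ring
      rw [h2]
      nlinarith
    exact le_of_mul_le_mul_right h1 hr0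
  rcases h with rfl | rfl
  · constructor
    · rw [le_div_iff₀ hr0]; linarith
    · rw [div_le_iff₀ hr0]
      have : √x - 1 ≤ √(x - 1) := by
        have h1 : (√x - 1) ^ 2 ≤ √(x - 1) ^ 2 := by
          rw [pow_two (√(x - 1)), ← hprod]; nlinarith
        exact le_of_sq_le_sq h1 hr0.le
      linarith
  · constructor
    · rw [le_div_iff₀ hr0]; linarith
    · rw [div_le_iff₀ hr0]; linarith

private theorem dest_wpow {w δ : ℝ} (hδ : δ ≤ 1 / 8) (h1 : |w - 1| ≤ δ)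
    (h2 : |w⁻¹ - 1| ≤ δ) {j : ℤ} (hj : j = -2 ∨ j = 0 ∨ j = 2) : |w ^ j - 1| ≤ 3 * δ := by
  have hδ0 : 0 ≤ δ := (abs_nonneg _).trans h1
  have key : ∀ s : ℝ, |s - 1| ≤ δ → |s ^ 2 - 1| ≤ 3 * δ := by
    intro s hs
    have h3 : |s + 1| ≤ 3 := by
      rw [abs_le] at hs ⊢
      constructor <;> linarith [hs.1, hs.2]
    calc |s ^ 2 - 1| = |s + 1| * |s - 1| := by rw [← abs_mul]; congr 1; ring
      _ ≤ 3 * δ := mul_le_mul h3 hs (abs_nonneg _) (by norm_num)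
  rcases hj with rfl | rfl | rfl
  · have : w ^ (-2 : ℤ) = (w⁻¹) ^ 2 := by
      rw [zpow_neg, inv_pow]
      rfl
    rw [this]
    exact key _ h2
  · simp only [zpow_zero, sub_self, abs_zero]
    positivity
  · exact key _ h1

private theorem dest_coef {l e a : ℕ} {K : ℕ} {cv : ℤ} {τ : ℝ} (hc : |cv| ≤ ((K ^ l : ℕ) : ℤ))
    (he : e ≤ 12 * l + 4) (hτ0 : 0 ≤ τ) (hτ : τ ≤ 3) :
    |(cv : ℝ) * (e.choose a : ℝ) * τ ^ (e - a)| ≤
      (K : ℝ) ^ l * 2 ^ (12 * l + 4) * 3 ^ (12 * l + 4) := by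
  have h1 : |(cv : ℝ)| ≤ (K : ℝ) ^ l := by exact_mod_cast hc
  have h2 : |(e.choose a : ℝ)| ≤ 2 ^ (12 * l + 4) := by
    rw [abs_of_nonneg (by positivity)]
    have : e.choose a ≤ 2 ^ (12 * l + 4) :=
      (Nat.choose_le_two_pow e a).trans (Nat.pow_le_pow_right (by norm_num) he)
    exact_mod_cast this
  have h3 : |τ ^ (e - a)| ≤ 3 ^ (12 * l + 4) := by
    rw [abs_of_nonneg (by positivity)]
    calc τ ^ (e - a) ≤ 3 ^ (e - a) := pow_le_pow_left₀ hτ0 hτ _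
      _ ≤ 3 ^ (12 * l + 4) := pow_le_pow_right₀ (by norm_num) (by omega)
  rw [abs_mul, abs_mul]
  exact mul_le_mul (mul_le_mul h1 h2 (abs_nonneg _) (by positivity)) h3 (abs_nonneg _)
    (by positivity)

private theorem dest_lev1 {l K : ℕ} (hl : 1 ≤ l) {c : ℤ × ℤ → ℤ} {τ w δ : ℝ} (a : ℕ)
    (hc : ∀ v ∈ regionD l, |c v| ≤ ((K ^ l : ℕ) : ℤ)) (hτ0 : 0 ≤ τ) (hτ : τ ≤ 3)
    (hδ : δ ≤ 1 / 8) (h1 : |w - 1| ≤ δ) (h2 : |w⁻¹ - 1| ≤ δ)
    (h0 : lev (regionD l) c (2 * (3 * l) + 2) τ a 1 = 0) :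
    |lev (regionD l) c (2 * (3 * l) + 2) τ a w| ≤
      (6 * l : ℕ) * ((K : ℝ) ^ l * 2 ^ (12 * l + 4) * 3 ^ (12 * l + 4) * (3 * δ)) := by
  have hδ0 : 0 ≤ δ := (abs_nonneg _).trans h1
  have hsub : lev (regionD l) c (2 * (3 * l) + 2) τ a w =
      ∑ v ∈ regionD l, (c v : ℝ) * ((ex (2 * (3 * l) + 2) v).choose a : ℝ) *
        τ ^ (ex (2 * (3 * l) + 2) v - a) * (w ^ v.2 - 1) := by
    rw [← sub_zero (lev (regionD l) c (2 * (3 * l) + 2) τ a w), ← h0]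
    unfold lev
    rw [← Finset.sum_sub_distrib]
    refine Finset.sum_congr rfl fun v _ => ?_
    rw [one_zpow]
    ring
  rw [hsub]
  refine (Finset.abs_sum_le_sum_abs _ _).trans ?_
  have hterm : ∀ v ∈ regionD l, |(c v : ℝ) * ((ex (2 * (3 * l) + 2) v).choose a : ℝ) *
      τ ^ (ex (2 * (3 * l) + 2) v - a) * (w ^ v.2 - 1)| ≤
      (K : ℝ) ^ l * 2 ^ (12 * l + 4) * 3 ^ (12 * l + 4) * (3 * δ) := by
    intro v hv
    obtain ⟨g1, g2, g3, g4, g5⟩ := regionD_mem l hl v hv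
    rw [abs_mul]
    exact mul_le_mul (dest_coef (hc v hv) g5 hτ0 hτ) (dest_wpow hδ h1 h2 g1) (abs_nonneg _)
      (by positivity)
  refine (Finset.sum_le_card_nsmul _ _ _ hterm).trans ?_
  rw [nsmul_eq_mul]
  refine mul_le_mul_of_nonneg_right ?_ (by positivity)
  have := regionD_card l hl
  have h3 : (regionD l).card ≤ 6 * l := by rw [this]; omega
  exact_mod_cast h3

private theorem dest_lev2 {l K : ℕ} (hl : 1 ≤ l) {c : ℤ × ℤ → ℤ} {τ w δ : ℝ} (a : ℕ)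
    (hc : ∀ v ∈ regionD l, |c v| ≤ ((K ^ l : ℕ) : ℤ)) (hτ0 : 0 ≤ τ) (hτ : τ ≤ 3)
    (hδ : δ ≤ 1 / 8) (h1 : |w - 1| ≤ δ) (h2 : |w⁻¹ - 1| ≤ δ) :
    |lev (regionD l) c (2 * (3 * l) + 2) τ a w| ≤
      (6 * l : ℕ) * ((K : ℝ) ^ l * 2 ^ (12 * l + 4) * 3 ^ (12 * l + 4) * 2) := by
  unfold lev
  refine (Finset.abs_sum_le_sum_abs _ _).trans ?_
  have hterm : ∀ v ∈ regionD l, |(c v : ℝ) * ((ex (2 * (3 * l) + 2) v).choose a : ℝ) *
      τ ^ (ex (2 * (3 * l) + 2) v - a) * w ^ v.2| ≤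
      (K : ℝ) ^ l * 2 ^ (12 * l + 4) * 3 ^ (12 * l + 4) * 2 := by
    intro v hv
    obtain ⟨g1, g2, g3, g4, g5⟩ := regionD_mem l hl v hv
    rw [abs_mul]
    refine mul_le_mul (dest_coef (hc v hv) g5 hτ0 hτ) ?_ (abs_nonneg _) (by positivity)
    have := dest_wpow hδ h1 h2 g1
    rw [abs_le] at this ⊢
    constructor <;> linarith [this.1, this.2]
  refine (Finset.sum_le_card_nsmul _ _ _ hterm).trans ?_
  rw [nsmul_eq_mul]
  refine mul_le_mul_of_nonneg_right ?_ (by positivity)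
  have := regionD_card l hl
  have h3 : (regionD l).card ≤ 6 * l := by rw [this]; omega
  exact_mod_cast h3

private theorem dest_lin (a b l : ℕ) (hl : 1 ≤ l) : a * l + b ≤ (2 * (a + b)) ^ l := by
  have h2 : l < 2 ^ l := Nat.lt_two_pow_self
  have h3 : a + b ≤ (a + b) ^ l := Nat.le_self_pow (by omega) _
  calc a * l + b ≤ (a + b) * l := by nlinarith
    _ ≤ (a + b) ^ l * 2 ^ l := Nat.mul_le_mul h3 h2.le
    _ = (2 * (a + b)) ^ l := by rw [mul_pow, mul_comm]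

private theorem dest_num (x K l : ℕ) (hl : 1 ≤ l) :
    4 ^ (6 * l + 2) * ((12 * l + 4 + 1) * (2 ^ (12 * l + 4) * ((6 * l) *
      (K ^ l * 2 ^ (12 * l + 4) * 3 ^ (12 * l + 4) * 12)) * (2 * x) ^ l)) ≤
      (4 ^ 8 * (34 * (2 ^ 16 * (12 * (K * 2 ^ 16 * 3 ^ 16 * 12)) * (2 * x)))) ^ l := by
  have h1 : 4 ^ (6 * l + 2) ≤ (4 ^ 8) ^ l := by
    rw [← pow_mul]; exact Nat.pow_le_pow_right (by norm_num) (by omega)
  have h2 : 12 * l + 4 + 1 ≤ 34 ^ l := by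
    have := dest_lin 12 5 l hl
    norm_num at this
    omega
  have h3 : 2 ^ (12 * l + 4) ≤ (2 ^ 16) ^ l := by
    rw [← pow_mul]; exact Nat.pow_le_pow_right (by norm_num) (by omega)
  have h4 : 3 ^ (12 * l + 4) ≤ (3 ^ 16) ^ l := by
    rw [← pow_mul]; exact Nat.pow_le_pow_right (by norm_num) (by omega)
  have h5 : 6 * l ≤ 12 ^ l := by
    have := dest_lin 6 0 l hl
    norm_num at this
    omega
  have h6 : 12 ≤ 12 ^ l := Nat.le_self_pow (by omega) _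
  calc 4 ^ (6 * l + 2) * ((12 * l + 4 + 1) * (2 ^ (12 * l + 4) * ((6 * l) *
      (K ^ l * 2 ^ (12 * l + 4) * 3 ^ (12 * l + 4) * 12)) * (2 * x) ^ l))
      ≤ (4 ^ 8) ^ l * (34 ^ l * ((2 ^ 16) ^ l * (12 ^ l *
        (K ^ l * (2 ^ 16) ^ l * (3 ^ 16) ^ l * 12 ^ l)) * (2 * x) ^ l)) := by
        gcongr
    _ = (4 ^ 8 * (34 * (2 ^ 16 * (12 * (K * 2 ^ 16 * 3 ^ 16 * 12)) * (2 * x)))) ^ l := by
        simp only [mul_pow]

/-- **DEST.** PROOF. `τ ∈ [0.41, 2.42]` (for both signs, `x ≥ 2`), `|T-τ| ≤ 2x/y ≤ 1/8`, so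
`T ∈ [0.28, 2.6]`; `|w - 1|, |w⁻¹ - 1| ≤ 4/y^l ≤ 1/8` (`y ≥ 32`), `j ∈ {-2,0,2}`:
`|w^j - 1| ≤ 3 * 4/y^l`, `|w^j| ≤ 2`.
`taylor_GG` (with `M = 12l+4`, `E = 6l+2`): `GG T^(E-t) = ∑_{a} choose(a,t)(T-τ)^(a-t) lev_a(w)`.
For `a < l`: `lev_a(w) = ∑ c choose τ^(e-a) (w^j - 1)`, so
`|lev_a| ≤ card * K^l * 2^(12l+4) * 3^(12l+4) * 12/y^l`; for `a ≥ l`:
`|lev_a| ≤ card * K^l * 2^(12l+4) 3^(12l+4) * 2` and `|T-τ|^(a-t) ≤ (2x/y)^(l-t)`.
Everything is `≤ K1^l / y^(l-t)` with `K1` depending only on `x, K` (`card ≤ 6 l`,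
`choose(a,t) ≤ 2^(12l+4)`, `T^(-(E-t)) ≤ 4^(6l+2)`, `t ≤ l ≤ E`, `1/y^l ≤ 1/y^(l-t)`). -/
theorem real_estD (x : ℕ) (hx : 2 ≤ x) (K : ℕ) (hK : 1 ≤ K) : ∃ K1 : ℕ, 1 ≤ K1 ∧
    ∀ (l t : ℕ) (y : ℝ) (c : ℤ × ℤ → ℤ) (τ T w : ℝ), 1 ≤ l → t ≤ l → 16 * (x : ℝ) ≤ y →
      (∀ v ∈ regionD l, |c v| ≤ ((K ^ l : ℕ) : ℤ)) →
      (τ = (√(x : ℝ) - 1) / √((x : ℝ) - 1) ∨ τ = (√(x : ℝ) + 1) / √((x : ℝ) - 1)) →
      |T - τ| ≤ 2 * x / y → 0 < w → |w - 1| ≤ 4 / y ^ l → |w⁻¹ - 1| ≤ 4 / y ^ l →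
      (∀ a < l, lev (regionD l) c (2 * (3 * l) + 2) τ a 1 = 0) →
      |GG (regionD l) c (2 * (3 * l) + 2) t T w| ≤ (K1 : ℝ) ^ l / y ^ (l - t) := by
  refine ⟨4 ^ 8 * (34 * (2 ^ 16 * (12 * (K * 2 ^ 16 * 3 ^ 16 * 12)) * (2 * x))),
    Nat.succ_le_of_lt (by positivity), ?_⟩
  intro l t y c τ T w hl htl hy hc hτ hT hw hw1 hw2 hlev
  have hxr : (2 : ℝ) ≤ x := by exact_mod_cast hx
  have hy32 : 32 ≤ y := by linarith
  have hy0 : 0 < y := by linarith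
  have hy1 : 1 ≤ y := by linarith
  obtain ⟨hτ1, hτ2⟩ := dest_tau (x : ℝ) hxr hτ
  have hsm : 2 * (x : ℝ) / y ≤ 1 / 8 := by
    rw [div_le_div_iff₀ hy0 (by norm_num)]
    linarith
  have hTτ : |T - τ| ≤ 1 / 8 := hT.trans hsm
  have hT1 : 1 / 4 ≤ T := by
    rw [abs_le] at hTτ
    linarith [hTτ.1]
  have hyl : y ≤ y ^ l := le_self_pow₀ hy1 (by omega)
  have hδ : 4 / y ^ l ≤ 1 / 8 := by
    rw [div_le_div_iff₀ (by positivity) (by norm_num)]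
    linarith
  set b : ℝ := (K : ℝ) ^ l * 2 ^ (12 * l + 4) * 3 ^ (12 * l + 4) with hb
  have hb0 : 0 ≤ b := by positivity
  have htay := taylor_GG (regionD l) c (2 * (3 * l) + 2) t (12 * l + 4) T τ w (by linarith)
    (fun v hv => (regionD_mem l hl v hv).2.2.2.1) (fun v hv => (regionD_mem l hl v hv).2.2.2.2)
  -- every term is small
  have hterm : ∀ a ∈ range (12 * l + 4 + 1),
      |(a.choose t : ℝ) * (T - τ) ^ (a - t) * lev (regionD l) c (2 * (3 * l) + 2) τ a w| ≤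
        2 ^ (12 * l + 4) * ((6 * l : ℕ) * (b * 12)) * (2 * x) ^ l / y ^ (l - t) := by
    intro a ha
    rw [Finset.mem_range] at ha
    have hch : |(a.choose t : ℝ)| ≤ 2 ^ (12 * l + 4) := by
      rw [abs_of_nonneg (by positivity)]
      have : a.choose t ≤ 2 ^ (12 * l + 4) :=
        (Nat.choose_le_two_pow a t).trans (Nat.pow_le_pow_right (by norm_num) (by omega))
      exact_mod_cast this
    have h2x : (1 : ℝ) ≤ (2 * x) ^ l := one_le_pow₀ (by linarith)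
    rw [abs_mul, abs_mul, abs_pow]
    rcases lt_or_ge a l with hal | hal
    · have hl1 := dest_lev1 hl a hc (by linarith) (by linarith) hδ hw1 hw2 (hlev a hal)
      rw [← hb] at hl1
      have hp : |T - τ| ^ (a - t) ≤ 1 := pow_le_one₀ (abs_nonneg _) (by linarith)
      have hyt : y ^ (l - t) ≤ y ^ l := pow_le_pow_right₀ hy1 (by omega)
      calc |(a.choose t : ℝ)| * |T - τ| ^ (a - t) *
            |lev (regionD l) c (2 * (3 * l) + 2) τ a w|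
          ≤ 2 ^ (12 * l + 4) * 1 * ((6 * l : ℕ) * (b * (3 * (4 / y ^ l)))) := by
            refine mul_le_mul (mul_le_mul hch hp (by positivity) (by positivity)) hl1
              (abs_nonneg _) (by positivity)
        _ = 2 ^ (12 * l + 4) * ((6 * l : ℕ) * (b * 12)) * 1 / y ^ l := by ring
        _ ≤ 2 ^ (12 * l + 4) * ((6 * l : ℕ) * (b * 12)) * (2 * x) ^ l / y ^ (l - t) := by
            refine div_le_div₀ (by positivity) ?_ (by positivity) hyt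
            exact mul_le_mul_of_nonneg_left h2x (by positivity)
    · have hl1 := dest_lev2 hl a hc (by linarith) (by linarith) hδ hw1 hw2 (τ := τ)
      rw [← hb] at hl1
      have hp : |T - τ| ^ (a - t) ≤ (2 * x) ^ l / y ^ (l - t) := by
        calc |T - τ| ^ (a - t) ≤ |T - τ| ^ (l - t) :=
              pow_le_pow_of_le_one (abs_nonneg _) (by linarith) (by omega)
          _ ≤ (2 * x / y) ^ (l - t) := pow_le_pow_left₀ (abs_nonneg _) hT _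
          _ = (2 * x) ^ (l - t) / y ^ (l - t) := div_pow _ _ _
          _ ≤ (2 * x) ^ l / y ^ (l - t) := by
              refine div_le_div_of_nonneg_right ?_ (by positivity)
              exact pow_le_pow_right₀ (by linarith) (by omega)
      calc |(a.choose t : ℝ)| * |T - τ| ^ (a - t) *
            |lev (regionD l) c (2 * (3 * l) + 2) τ a w|
          ≤ 2 ^ (12 * l + 4) * ((2 * x) ^ l / y ^ (l - t)) * ((6 * l : ℕ) * (b * 2)) := by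
            refine mul_le_mul (mul_le_mul hch hp (by positivity) (by positivity)) hl1
              (abs_nonneg _) (by positivity)
        _ = (2 ^ (12 * l + 4) * ((6 * l : ℕ) * (b * 2)) * (2 * x) ^ l) / y ^ (l - t) := by ring
        _ ≤ 2 ^ (12 * l + 4) * ((6 * l : ℕ) * (b * 12)) * (2 * x) ^ l / y ^ (l - t) := by
            refine div_le_div_of_nonneg_right ?_ (by positivity)
            gcongr
            norm_num
  have hsum : |GG (regionD l) c (2 * (3 * l) + 2) t T w *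
      T ^ (((2 * (3 * l) + 2 : ℕ) : ℤ) - t)| ≤
      (12 * l + 4 + 1 : ℕ) *
        (2 ^ (12 * l + 4) * ((6 * l : ℕ) * (b * 12)) * (2 * x) ^ l / y ^ (l - t)) := by
    rw [htay]
    refine (Finset.abs_sum_le_sum_abs _ _).trans ?_
    refine (Finset.sum_le_card_nsmul _ _ _ hterm).trans ?_
    rw [Finset.card_range, nsmul_eq_mul]
  have hTp : (1 / 4 : ℝ) ^ (6 * l + 2) ≤ T ^ (((2 * (3 * l) + 2 : ℕ) : ℤ) - t) := by
    have h1 : (((2 * (3 * l) + 2 : ℕ) : ℤ) - t) = ((6 * l + 2 - t : ℕ) : ℤ) := by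
      rw [Nat.cast_sub (by omega)]
      push_cast
      ring
    rw [h1, zpow_natCast]
    calc (1 / 4 : ℝ) ^ (6 * l + 2) ≤ (1 / 4 : ℝ) ^ (6 * l + 2 - t) :=
          pow_le_pow_of_le_one (by norm_num) (by norm_num) (by omega)
      _ ≤ T ^ (6 * l + 2 - t) := pow_le_pow_left₀ (by norm_num) hT1 _
  have hTp0 : (0 : ℝ) < T ^ (((2 * (3 * l) + 2 : ℕ) : ℤ) - t) :=
    lt_of_lt_of_le (by positivity) hTp
  rw [abs_mul, abs_of_pos hTp0] at hsum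
  have h4 : |GG (regionD l) c (2 * (3 * l) + 2) t T w| ≤ 4 ^ (6 * l + 2) *
      (|GG (regionD l) c (2 * (3 * l) + 2) t T w| *
        T ^ (((2 * (3 * l) + 2 : ℕ) : ℤ) - t)) := by
    have h5 : (1 : ℝ) ≤ 4 ^ (6 * l + 2) * T ^ (((2 * (3 * l) + 2 : ℕ) : ℤ) - t) := by
      calc (1 : ℝ) = 4 ^ (6 * l + 2) * (1 / 4) ^ (6 * l + 2) := by
            rw [← mul_pow]; norm_num
        _ ≤ _ := mul_le_mul_of_nonneg_left hTp (by positivity)
    nlinarith [abs_nonneg (GG (regionD l) c (2 * (3 * l) + 2) t T w)]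
  refine h4.trans ?_
  have h6 := dest_num x K l hl
  have h6' : (4 : ℝ) ^ (6 * l + 2) * ((12 * l + 4 + 1 : ℕ) * (2 ^ (12 * l + 4) * ((6 * l : ℕ) *
      (b * 12)) * (2 * x) ^ l)) ≤
      ((4 ^ 8 * (34 * (2 ^ 16 * (12 * (K * 2 ^ 16 * 3 ^ 16 * 12)) * (2 * x))) : ℕ) : ℝ) ^ l := by
    rw [hb]
    exact_mod_cast h6
  calc (4 : ℝ) ^ (6 * l + 2) * (|GG (regionD l) c (2 * (3 * l) + 2) t T w| *
        T ^ (((2 * (3 * l) + 2 : ℕ) : ℤ) - t))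
      ≤ 4 ^ (6 * l + 2) * ((12 * l + 4 + 1 : ℕ) *
        (2 ^ (12 * l + 4) * ((6 * l : ℕ) * (b * 12)) * (2 * x) ^ l / y ^ (l - t))) :=
        mul_le_mul_of_nonneg_left hsum (by positivity)
    _ = (4 ^ (6 * l + 2) * ((12 * l + 4 + 1 : ℕ) *
        (2 ^ (12 * l + 4) * ((6 * l : ℕ) * (b * 12)) * (2 * x) ^ l))) / y ^ (l - t) := by ring
    _ ≤ _ := div_le_div_of_nonneg_right h6' (by positivity)

end Pool.Agent.TwoRep
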