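import Pool.Agent.Lib.MP_56ee40_nt.Defs

namespace Pool.Agent.TwoRep

open Finset Polynomial

private theorem dnum_sqrt {a : ℝ} (h0 : 0 ≤ a) (h1 : a ≤ 1) : 1 - a ≤ √(1 - a) ∧
    √(1 - a) ≤ 1 := by
  have h2 : √(1 - a) ≤ 1 := Real.sqrt_le_one.2 (by linarith)
  refine ⟨?_, h2⟩
  have h3 : √(1 - a) * √(1 - a) = 1 - a := Real.mul_self_sqrt (by linarith)
  nlinarith [Real.sqrt_nonneg (1 - a)]

/-- **DCLOSE.** PROOF. `z₀ = (√x √(1-1/y) - √(1-x/y))/√(x-1)`,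
`z₀⁻¹ = (√x √(1-1/y) + √(1-x/y))/√(x-1)`; `|√x √(1-1/y) - √x| ≤ √x/y`, `|√(1-x/y) - 1| ≤ x/y`,
`√(x-1) ≥ 1`, `(√x + x)/y ≤ 2x/y`. -/
theorem closeD (x y : ℝ) (hx : 2 ≤ x) (hy : 16 * x ≤ y) :
    |zz0 (√(x * (y - 1))) (√(y * (x - 1))) (√(y - x)) - (√x - 1) / √(x - 1)| ≤ 2 * x / y ∧
    |(zz0 (√(x * (y - 1))) (√(y * (x - 1))) (√(y - x)))⁻¹ - (√x + 1) / √(x - 1)| ≤
      2 * x / y := by
  have hx0 : 0 < x := by linarith
  have hy0 : 0 < y := by linarith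
  have hx1 : 0 < x - 1 := by linarith
  have hyx : 0 < y - x := by linarith
  have hy1 : 0 < y - 1 := by linarith
  have hsy := Real.sqrt_pos.2 hy0
  have hsx1 := Real.sqrt_pos.2 hx1
  have hsx := Real.sqrt_pos.2 hx0
  have hone : 1 ≤ √(x - 1) := Real.one_le_sqrt.2 (by linarith)
  -- the two square roots near one
  obtain ⟨hu1, hu2⟩ := dnum_sqrt (a := 1 / y) (by positivity)
    (by rw [div_le_one hy0]; linarith)
  obtain ⟨hv1, hv2⟩ := dnum_sqrt (a := x / y) (by positivity)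
    (by rw [div_le_one hy0]; linarith)
  set u := √(1 - 1 / y) with hu
  set v := √(1 - x / y) with hv
  have hA : √(x * (y - 1)) = √y * (√x * u) := by
    rw [hu, ← Real.sqrt_mul hx0.le, ← Real.sqrt_mul hy0.le]
    congr 1
    field_simp
  have hC : √(y - x) = √y * v := by
    rw [hv, ← Real.sqrt_mul hy0.le]
    congr 1
    field_simp
  have hB : √(y * (x - 1)) = √y * √(x - 1) := Real.sqrt_mul hy0.le _
  have hz : zz0 (√(x * (y - 1))) (√(y * (x - 1))) (√(y - x)) = (√x * u - v) / √(x - 1) := by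
    unfold zz0
    rw [hA, hB, hC, ← mul_sub, mul_div_mul_left _ _ hsy.ne']
  have hAA : √(x * (y - 1)) * √(x * (y - 1)) = x * (y - 1) :=
    Real.mul_self_sqrt (by positivity)
  have hCC : √(y - x) * √(y - x) = y - x := Real.mul_self_sqrt hyx.le
  have hBB : √(y * (x - 1)) * √(y * (x - 1)) = y * (x - 1) :=
    Real.mul_self_sqrt (by positivity)
  have hzi : (zz0 (√(x * (y - 1))) (√(y * (x - 1))) (√(y - x)))⁻¹ =
      (√x * u + v) / √(x - 1) := by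
    have h1 : (√x * u + v) / √(x - 1) =
        (√(x * (y - 1)) + √(y - x)) / √(y * (x - 1)) := by
      rw [hA, hB, hC, ← mul_add, mul_div_mul_left _ _ hsy.ne']
    rw [h1]
    refine inv_eq_of_mul_eq_one_right ?_
    unfold zz0
    rw [div_mul_div_comm, hBB, div_eq_one_iff_eq (by positivity)]
    linear_combination hAA - hCC
  have hsxx : √x ≤ x := by
    rw [Real.sqrt_le_left hx0.le]
    nlinarith
  have hbound : √x * (1 - u) + (1 - v) ≤ 2 * x / y := by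
    have h1 : √x * (1 - u) ≤ x * (1 / y) :=
      mul_le_mul hsxx (by linarith) (by linarith) hx0.le
    have h2 : 2 * x / y = x * (1 / y) + x / y := by ring
    linarith
  have hnn : 0 ≤ √x * (1 - u) := mul_nonneg hsx.le (by linarith)
  constructor
  · rw [hz, ← sub_div, abs_div, abs_of_pos hsx1]
    refine (div_le_self (abs_nonneg _) hone).trans ?_
    refine le_trans ?_ hbound
    rw [abs_le]
    constructor <;> nlinarith
  · rw [hzi, ← sub_div, abs_div, abs_of_pos hsx1]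
    refine (div_le_self (abs_nonneg _) hone).trans ?_
    refine le_trans ?_ hbound
    rw [abs_le]
    constructor <;> nlinarith

private theorem dnum_lin (a b l : ℕ) (hl : 1 ≤ l) :
    a * l + b ≤ (2 * (a + b)) ^ l := by
  have h2 : l < 2 ^ l := Nat.lt_two_pow_self
  have h3 : a + b ≤ (a + b) ^ l := Nat.le_self_pow (by omega) _
  calc a * l + b ≤ (a + b) * l := by nlinarith
    _ ≤ (a + b) ^ l * 2 ^ l := Nat.mul_le_mul h3 h2.le
    _ = (2 * (a + b)) ^ l := by rw [mul_pow, mul_comm]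

private theorem dnum_zb (K l : ℕ) (hl : 1 ≤ l) :
    zb (3 * l) 2 (K ^ l) ≤ (120 * (14 * K * 34 ^ 5) ^ 5) ^ l := by
  unfold zb
  have h1 : (2 * 2 + 1).factorial = 120 := by decide
  have h2 : 120 ≤ 120 ^ l := Nat.le_self_pow (by omega) _
  have h3 : 2 * (3 * l) + 1 ≤ 14 ^ l := by
    have := dnum_lin 6 1 l hl
    norm_num at this
    omega
  have h4 : 4 * (3 * l) + 2 * 2 + 1 ≤ 34 ^ l := by
    have := dnum_lin 12 5 l hl
    norm_num at this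
    omega
  rw [h1]
  calc 120 * ((2 * (3 * l) + 1) * K ^ l * (4 * (3 * l) + 2 * 2 + 1) ^ (2 * 2 + 1)) ^ (2 * 2 + 1)
      ≤ 120 ^ l * (14 ^ l * K ^ l * (34 ^ l) ^ (2 * 2 + 1)) ^ (2 * 2 + 1) := by gcongr
    _ = (120 * (14 * K * 34 ^ 5) ^ 5) ^ l := by
        have key : ∀ a b c : ℕ, b ^ l * (a ^ l * K ^ l * (c ^ l) ^ 5) ^ 5 =
            (b * (a * K * c ^ 5) ^ 5) ^ l := by
          intro a b c
          rw [mul_pow b, ← pow_mul (a * K * c ^ 5) 5 l, mul_comm 5 l,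
            pow_mul (a * K * c ^ 5) l 5, mul_pow (a * K), mul_pow a, ← pow_mul c 5 l,
            mul_comm 5 l, pow_mul c l 5]
        exact key 14 120 34

/-- **DNUM.** `zb (3l) 2 (K^l) = 5! ((6l+1) K^l (12l+5)^5)^5` grows at most like `K3^l`. So for `y`
large (depending on `K`) and `l ≥ 200` the first inequality fails: `y^(l/10-5)` with
`l/10 - 5 ≥ l/20 - 1`.  Second: `y^(l/2) / y^(l-t) ≤ y^(-(l/2 - l/10))` for `t < l/10`, exponent
`≥ 2l/5` (`l - t - l/2 ≥ l - l/10 - l/2`), beats `(x-1)^(3l+2) K1^l`. -/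
theorem numD (x K K1 : ℕ) (hx : 2 ≤ x) (hK : 1 ≤ K) (hK1 : 1 ≤ K1) : ∃ y0 l0 : ℕ, 16 * x ≤ y0 ∧
    200 ≤ l0 ∧ ∀ y l : ℕ, y0 ≤ y → l0 ≤ l →
      (4 ^ (l / 10 - 5) * (zb (3 * l) 2 (K ^ l) : ℝ) ^ 2 < (y : ℝ) ^ (l / 10 - 5)) ∧
      ∀ t < l / 10, (y : ℝ) ^ (l / 2) * ((x : ℝ) - 1) ^ (3 * l + 2) *
        ((K1 : ℝ) ^ l / (y : ℝ) ^ (l - t)) < 1 := by
  obtain ⟨K3, hK3⟩ : ∃ K3 : ℕ, K3 = 120 * (14 * K * 34 ^ 5) ^ 5 := ⟨_, rfl⟩
  have hK3pos : 1 ≤ K3 := by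
    rw [hK3]
    exact Nat.succ_le_of_lt (by positivity)
  refine ⟨16 * x + 4 * K3 ^ 28 + (x ^ 4 * K1) ^ 6 + 1, 200, by omega, le_rfl, ?_⟩
  intro y l hy hl
  have hy1 : 1 ≤ y := by omega
  have hyr : (1 : ℝ) ≤ y := by exact_mod_cast hy1
  constructor
  · obtain ⟨q, hq⟩ : ∃ q : ℕ, q = l / 10 - 5 := ⟨_, rfl⟩
    rw [← hq]
    have hq1 : 15 ≤ q := by omega
    have hlq : l ≤ 14 * q := by omega
    have h1 : zb (3 * l) 2 (K ^ l) ≤ K3 ^ (14 * q) := by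
      refine (dnum_zb K l (by omega)).trans ?_
      rw [← hK3]
      exact Nat.pow_le_pow_right hK3pos hlq
    have h2 : 4 ^ q * (zb (3 * l) 2 (K ^ l)) ^ 2 < y ^ q := by
      calc 4 ^ q * (zb (3 * l) 2 (K ^ l)) ^ 2 ≤ 4 ^ q * (K3 ^ (14 * q)) ^ 2 :=
            Nat.mul_le_mul le_rfl (Nat.pow_le_pow_left h1 2)
        _ = (4 * K3 ^ 28) ^ q := by rw [mul_pow]; ring
        _ < y ^ q := Nat.pow_lt_pow_left (by omega) (by omega)
    exact_mod_cast h2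
  · intro t ht
    have h1 : l / 2 + l / 5 ≤ l - t := by omega
    have h2 : l ≤ 6 * (l / 5) := by omega
    have h3 : (x ^ 4 * K1) ^ 6 < y := by omega
    have hxK : 1 ≤ x ^ 4 * K1 := Nat.succ_le_of_lt (by positivity)
    have h4 : x ^ (3 * l + 2) * K1 ^ l < y ^ (l / 5) := by
      calc x ^ (3 * l + 2) * K1 ^ l ≤ x ^ (4 * l) * K1 ^ l :=
            Nat.mul_le_mul (Nat.pow_le_pow_right (by omega) (by omega)) le_rfl
        _ = (x ^ 4 * K1) ^ l := by rw [mul_pow, pow_mul]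
        _ ≤ (x ^ 4 * K1) ^ (6 * (l / 5)) := Nat.pow_le_pow_right hxK h2
        _ = ((x ^ 4 * K1) ^ 6) ^ (l / 5) := by rw [pow_mul]
        _ < y ^ (l / 5) := Nat.pow_lt_pow_left h3 (by omega)
    have h4' : (x : ℝ) ^ (3 * l + 2) * (K1 : ℝ) ^ l < (y : ℝ) ^ (l / 5) := by exact_mod_cast h4
    have hxr : (2 : ℝ) ≤ x := by exact_mod_cast hx
    have h5 : ((x : ℝ) - 1) ^ (3 * l + 2) ≤ (x : ℝ) ^ (3 * l + 2) :=
      pow_le_pow_left₀ (by linarith) (by linarith) _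
    have hyp : (0 : ℝ) < (y : ℝ) ^ (l - t) := by positivity
    rw [← mul_div_assoc, div_lt_one hyp]
    calc (y : ℝ) ^ (l / 2) * ((x : ℝ) - 1) ^ (3 * l + 2) * (K1 : ℝ) ^ l
        ≤ (y : ℝ) ^ (l / 2) * (x : ℝ) ^ (3 * l + 2) * (K1 : ℝ) ^ l := by gcongr
      _ = (y : ℝ) ^ (l / 2) * ((x : ℝ) ^ (3 * l + 2) * (K1 : ℝ) ^ l) := by ring
      _ < (y : ℝ) ^ (l / 2) * (y : ℝ) ^ (l / 5) := by
          refine mul_lt_mul_of_pos_left h4' (by positivity)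
      _ = (y : ℝ) ^ (l / 2 + l / 5) := (pow_add _ _ _).symm
      _ ≤ (y : ℝ) ^ (l - t) := pow_le_pow_right₀ hyr h1

end Pool.Agent.TwoRep
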