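import Pool.Agent.Lib.MP_56ee40_nt.Integ

namespace Pool.Agent.TwoRep

open Finset Polynomial

/-- **GINT (a).** conjugation inverts `z₀`. Needs `rB ≠ 0`: from `rB^2 = B = A - C`, `hB : B ≠ 0`. -/
theorem zz0_conj {K : Type*} [Field K] (rA rB rC : K) (hB : rB ≠ 0)
    (h : rA ^ 2 = rB ^ 2 + rC ^ 2) : zz0 rA rB (-rC) = (zz0 rA rB rC)⁻¹ := by
  have hne : rA - rC ≠ 0 := by
    intro h0
    apply pow_ne_zero 2 hB
    linear_combination (rA + rC) * h0 - h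
  unfold zz0
  rw [inv_div, div_eq_div_iff hB hne]
  linear_combination h

/-- **GINT (b).** conjugation inverts `z`. -/
theorem zz_conj {K : Type*} [Field K] (X Y ε : ℤ) (hε : ε = 1 ∨ ε = -1) (rA rB rC : K)
    (hB : rB * (Y : K) ≠ 0)
    (h : rA ^ 2 * (X : K) ^ 2 = rB ^ 2 * (Y : K) ^ 2 + rC ^ 2) :
    zz X Y ε rA rB (-rC) = (zz X Y ε rA rB rC)⁻¹ := by
  have hε2 : (ε : K) ^ 2 = 1 := by
    rcases hε with rfl | rfl <;> simp
  have hne : rA * (X : K) - ε * rC ≠ 0 := by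
    intro h0
    apply pow_ne_zero 2 hB
    linear_combination (rA * X + ε * rC) * h0 - h + rC ^ 2 * hε2
  unfold zz
  rw [inv_div, div_eq_div_iff hB hne]
  linear_combination h - rC ^ 2 * hε2

/-- **GINT (c).** The value of the auxiliary function times the common denominator is
`U + V √(AC)` with integers `U, V` that do not depend on the field.
PROOF: for each `v ∈ S` take `u_v, w_v` from `integrality d v.1 v.2`; multiply by
`y^(a0 - |s+lj|) Y2^(J-|j|) b^(b0-|s|-|j|) * c v * choose (ex E v) t` and sum. -/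
theorem G_integral (d : Dat) (S : Finset (ℤ × ℤ)) (c : ℤ × ℤ → ℤ) (E t a0 J b0 : ℕ)
    (h1 : ∀ v ∈ S, (v.1 + d.l * v.2).natAbs ≤ a0) (h2 : ∀ v ∈ S, v.2.natAbs ≤ J)
    (h3 : ∀ v ∈ S, v.1.natAbs + v.2.natAbs ≤ b0) :
    ∃ U V : ℤ, ∀ (K : Type) [Field K] [CharZero K] (rA rB rC : K),
      rA ^ 2 = (d.A : K) → rB ^ 2 = (d.B : K) → rC ^ 2 = (d.C : K) →
      (U : K) + V * (rA * rC) =
        (d.y : K) ^ a0 * (d.Y2 : K) ^ J * (d.b : K) ^ b0 *
          GG S c E t (zz0 rA rB rC) (zz d.X d.Y d.ε rA rB rC) := by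
  choose u w huw using fun v : ℤ × ℤ => integrality d v.1 v.2
  let m : ℤ × ℤ → ℤ := fun v => d.y ^ (a0 - (v.1 + d.l * v.2).natAbs) * d.Y2 ^ (J - v.2.natAbs) *
    d.b ^ (b0 - (v.1.natAbs + v.2.natAbs)) * (c v * ((ex E v).choose t : ℤ))
  refine ⟨∑ v ∈ S, m v * u v, ∑ v ∈ S, m v * w v, ?_⟩
  intro K _ _ rA rB rC hA hB hC
  have key : ∀ v ∈ S, ((m v * u v : ℤ) : K) + ((m v * w v : ℤ) : K) * (rA * rC) =
      (d.y : K) ^ a0 * (d.Y2 : K) ^ J * (d.b : K) ^ b0 *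
        ((c v : K) * ((ex E v).choose t : K) * (zz0 rA rB rC) ^ (2 * v.1 - v.2) *
          (zz d.X d.Y d.ε rA rB rC) ^ v.2) := by
    intro v hv
    have e := huw v K rA rB rC hA hB hC
    have e1 : (d.y : K) ^ a0 = (d.y : K) ^ (a0 - (v.1 + d.l * v.2).natAbs) *
        (d.y : K) ^ (v.1 + d.l * v.2).natAbs := by
      rw [← pow_add, Nat.sub_add_cancel (h1 v hv)]
    have e2 : (d.Y2 : K) ^ J = (d.Y2 : K) ^ (J - v.2.natAbs) * (d.Y2 : K) ^ v.2.natAbs := by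
      rw [← pow_add, Nat.sub_add_cancel (h2 v hv)]
    have e3 : (d.b : K) ^ b0 = (d.b : K) ^ (b0 - (v.1.natAbs + v.2.natAbs)) *
        (d.b : K) ^ (v.1.natAbs + v.2.natAbs) := by
      rw [← pow_add, Nat.sub_add_cancel (h3 v hv)]
    rw [e1, e2, e3]
    have e4 : ((m v : ℤ) : K) = (d.y : K) ^ (a0 - (v.1 + d.l * v.2).natAbs) *
        (d.Y2 : K) ^ (J - v.2.natAbs) * (d.b : K) ^ (b0 - (v.1.natAbs + v.2.natAbs)) *
        ((c v : K) * ((ex E v).choose t : K)) := by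
      simp only [m]
      push_cast
      ring
    push_cast
    rw [e4]
    linear_combination ((d.y : K) ^ (a0 - (v.1 + d.l * v.2).natAbs) *
        (d.Y2 : K) ^ (J - v.2.natAbs) * (d.b : K) ^ (b0 - (v.1.natAbs + v.2.natAbs)) *
        ((c v : K) * ((ex E v).choose t : K))) * e
  unfold GG
  rw [Int.cast_sum, Int.cast_sum, Finset.sum_mul, ← Finset.sum_add_distrib, Finset.mul_sum]
  exact Finset.sum_congr rfl key

end Pool.Agent.TwoRep
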