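import Pool.Agent.Lib.MP_56ee40_nt.Defs

namespace Pool.Agent.TwoRep

open Finset Polynomial

private theorem NormIneq_int (p : ℕ) [Fact p.Prime] (N : ℤ) (hN : N ≠ 0) :
    1 ≤ |(N : ℝ)| * ‖(N : PadicAlgCl p)‖ := by
  have h1 : ‖(N : PadicAlgCl p)‖ = ‖(N : ℚ_[p])‖ := by
    have := PadicAlgCl.norm_extends p (N : ℚ_[p])
    rw [← this]
    congr 1
  have hp1 : 1 < (p : ℝ) := by exact_mod_cast (Fact.out : p.Prime).one_lt
  have hp0 : 0 < (p : ℝ) := by linarith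
  have hN' : (N : ℚ_[p]) ≠ 0 := by exact_mod_cast hN
  rw [h1, Padic.norm_eq_zpow_neg_valuation hN', Padic.valuation_intCast, zpow_neg,
    zpow_natCast]
  have h2 : (p : ℤ) ^ (padicValInt p N) ∣ N := padicValInt_dvd N
  have h3 : (p : ℤ) ^ (padicValInt p N) ≤ |N| := by
    refine Int.le_of_dvd (abs_pos.mpr hN) ?_
    exact (dvd_abs _ _).mpr h2
  have h4 : (p : ℝ) ^ (padicValInt p N) ≤ |(N : ℝ)| := by
    exact_mod_cast h3
  rw [← div_eq_mul_inv, le_div_iff₀ (by positivity), one_mul]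
  exact h4

/-- **NORM (a).** product formula for `U + V √D`, with the `p`-adic place.
PROOF. `N = U^2 - D V^2`. If `N ≠ 0` then `1 ≤ |N| ‖N‖_p` (`‖(N:PadicAlgCl p)‖` equals the norm of
`(N:ℚ_[p])`, `padicNorm`; `|N| * ‖N‖_p ≥ 1` for a nonzero integer since `p^v ∣ N`), and
`|N| ≤ P^2`, `‖N‖_p ≤ Q^2`, so `1 ≤ (P Q)^2`, and `P, Q ≥ 0`.
If `N = 0`: `(U - Vρ)(U + Vρ) = 0` with `U + Vρ ≠ 0`, so `U = Vρ` and `U + Vρ = 2U ≠ 0`, `|2U| ≤ P`;
`p`-adically `U = ± V ρp`, so `2U` equals `U + V ρp` or `U - V ρp` and `‖2U‖ ≤ Q`. Again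
`1 ≤ |2U| ‖2U‖_p ≤ P Q`. -/
theorem norm_ineq (p : ℕ) [Fact p.Prime] (D U V : ℤ) (ρ : ℝ) (hρ : ρ ^ 2 = D)
    (ρp : PadicAlgCl p) (hρp : ρp ^ 2 = (D : PadicAlgCl p)) (P Q : ℝ)
    (h1 : |(U : ℝ) + V * ρ| ≤ P) (h2 : |(U : ℝ) - V * ρ| ≤ P)
    (h3 : ‖(U : PadicAlgCl p) + V * ρp‖ ≤ Q) (h4 : ‖(U : PadicAlgCl p) - V * ρp‖ ≤ Q)
    (hne : (U : ℝ) + V * ρ ≠ 0) : 1 ≤ P * Q := by
  have hP : 0 ≤ P := (abs_nonneg _).trans h1
  have hQ : 0 ≤ Q := (norm_nonneg _).trans h3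
  have e1 : ((U ^ 2 - D * V ^ 2 : ℤ) : ℝ) = ((U : ℝ) + V * ρ) * ((U : ℝ) - V * ρ) := by
    push_cast
    rw [← hρ]
    ring
  have e2 : ((U ^ 2 - D * V ^ 2 : ℤ) : PadicAlgCl p) =
      ((U : PadicAlgCl p) + V * ρp) * ((U : PadicAlgCl p) - V * ρp) := by
    push_cast
    rw [← hρp]
    ring
  by_cases hN : U ^ 2 - D * V ^ 2 = 0
  · rw [hN, Int.cast_zero] at e1 e2
    have f1 : (U : ℝ) - V * ρ = 0 := by
      rcases mul_eq_zero.mp e1.symm with h | h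
      · exact absurd h hne
      · exact h
    have f2 : (U : ℝ) + V * ρ = ((2 * U : ℤ) : ℝ) := by
      push_cast
      linear_combination -f1
    have h2U : (2 * U : ℤ) ≠ 0 := by
      intro h
      rw [f2, h, Int.cast_zero] at hne
      exact hne rfl
    have f3 : ‖((2 * U : ℤ) : PadicAlgCl p)‖ ≤ Q := by
      rcases mul_eq_zero.mp e2.symm with h | h
      · have : ((2 * U : ℤ) : PadicAlgCl p) = (U : PadicAlgCl p) - V * ρp := by
          push_cast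
          linear_combination h
        rw [this]
        exact h4
      · have : ((2 * U : ℤ) : PadicAlgCl p) = (U : PadicAlgCl p) + V * ρp := by
          push_cast
          linear_combination h
        rw [this]
        exact h3
    have f4 : |((2 * U : ℤ) : ℝ)| ≤ P := by
      rw [← f2]
      exact h1
    calc (1 : ℝ) ≤ |((2 * U : ℤ) : ℝ)| * ‖((2 * U : ℤ) : PadicAlgCl p)‖ := NormIneq_int p _ h2U
      _ ≤ P * Q := mul_le_mul f4 f3 (norm_nonneg _) hP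
  · have f1 := NormIneq_int p _ hN
    rw [e1, e2, abs_mul, norm_mul] at f1
    have f2 : |(U : ℝ) + V * ρ| * |(U : ℝ) - V * ρ| ≤ P * P :=
      mul_le_mul h1 h2 (abs_nonneg _) hP
    have f3 : ‖(U : PadicAlgCl p) + V * ρp‖ * ‖(U : PadicAlgCl p) - V * ρp‖ ≤ Q * Q :=
      mul_le_mul h3 h4 (norm_nonneg _) hQ
    have f4 : (1 : ℝ) ≤ (P * P) * (Q * Q) := by
      refine f1.trans ?_
      exact mul_le_mul f2 f3 (by positivity) (by positivity)
    by_contra hcon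
    push Not at hcon
    have f5 : (P * Q) * (P * Q) < 1 := by
      have h0 : 0 ≤ P * Q := mul_nonneg hP hQ
      nlinarith
    nlinarith

/-- **NORM (b).** the same with the archimedean places only. -/
theorem norm_ineq_real (D U V : ℤ) (ρ : ℝ) (hρ : ρ ^ 2 = D) (P : ℝ)
    (h1 : |(U : ℝ) + V * ρ| ≤ P) (h2 : |(U : ℝ) - V * ρ| ≤ P)
    (hne : (U : ℝ) + V * ρ ≠ 0) : 1 ≤ P := by
  have hP : 0 ≤ P := (abs_nonneg _).trans h1
  have e1 : ((U ^ 2 - D * V ^ 2 : ℤ) : ℝ) = ((U : ℝ) + V * ρ) * ((U : ℝ) - V * ρ) := by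
    push_cast
    rw [← hρ]
    ring
  have hint : ∀ N : ℤ, N ≠ 0 → (1 : ℝ) ≤ |(N : ℝ)| := by
    intro N hN
    have := Int.one_le_abs hN
    exact_mod_cast this
  by_cases hN : U ^ 2 - D * V ^ 2 = 0
  · rw [hN, Int.cast_zero] at e1
    have f1 : (U : ℝ) - V * ρ = 0 := by
      rcases mul_eq_zero.mp e1.symm with h | h
      · exact absurd h hne
      · exact h
    have f2 : (U : ℝ) + V * ρ = ((2 * U : ℤ) : ℝ) := by
      push_cast
      linear_combination -f1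
    have h2U : (2 * U : ℤ) ≠ 0 := by
      intro h
      rw [f2, h, Int.cast_zero] at hne
      exact hne rfl
    rw [f2] at h1
    exact (hint _ h2U).trans h1
  · have f1 := hint _ hN
    rw [e1, abs_mul] at f1
    have f2 : |(U : ℝ) + V * ρ| * |(U : ℝ) - V * ρ| ≤ P * P :=
      mul_le_mul h1 h2 (abs_nonneg _) hP
    by_contra hcon
    push Not at hcon
    nlinarith

end Pool.Agent.TwoRep
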