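import Pool.Agent.Lib.MP_56ee40_nt.Defs

namespace Pool.Agent.TwoRep

open Finset Polynomial

private theorem rclose_core {κ ρ : ℝ} (hκ : 0 < κ) (hρ : 0 < ρ) (h : ρ ^ 2 = 1 + κ ^ 2) :
    1 < ρ ∧ ρ < 1 + κ ∧ κ < ρ ∧ (ρ - κ)⁻¹ = ρ + κ ∧ (ρ + κ)⁻¹ = ρ - κ := by
  have h1 : 1 < ρ := by nlinarith
  have h2 : ρ < 1 + κ := by nlinarith
  have h3 : κ < ρ := by nlinarith
  refine ⟨h1, h2, h3, ?_, ?_⟩
  · refine inv_eq_of_mul_eq_one_right ?_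
    nlinarith
  · refine inv_eq_of_mul_eq_one_right ?_
    nlinarith

private theorem rclose_rho {β γ : ℝ} (hβ : 0 < β) (hγ : 0 < γ) :
    (√(β + γ) / √β) ^ 2 = 1 + (√γ / √β) ^ 2 := by
  rw [div_pow, div_pow, Real.sq_sqrt (by linarith), Real.sq_sqrt hβ.le, Real.sq_sqrt hγ.le]
  field_simp

private theorem rclose_lt {β γ : ℝ} (hβ : 0 < β) (hγ : 0 < γ) :
    (√(β + γ) - √γ) / √β < 1 := by
  have hb := Real.sqrt_pos.2 hβ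
  have hg := Real.sqrt_pos.2 hγ
  have hbg := Real.sqrt_pos.2 (add_pos hβ hγ)
  have h := rclose_core (κ := √γ / √β) (ρ := √(β + γ) / √β) (by positivity) (by positivity)
    (rclose_rho hβ hγ)
  rw [sub_div]
  linarith [h.2.1]

/-- **RCLOSE (a).** General: for reals `0 < β`, `0 < γ ≤ β`, `κ = √(γ/β) ≤ 1`:
`(√(β+γ) ∓ √γ)/√β = √(1+κ²) ∓ κ`, `√(1+κ²) - κ ∈ [1-κ, 1)`, `√(1+κ²)+κ ∈ (1, 1+2κ]`. -/
theorem close_aux (β γ ε : ℝ) (hβ : 0 < β) (hγ : 0 < γ) (h : γ ≤ β) (hε : ε = 1 ∨ ε = -1) :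
    0 < (√(β + γ) - ε * √γ) / √β ∧ (√(β + γ) - ε * √γ) / √β ≠ 1 ∧
      |(√(β + γ) - ε * √γ) / √β - 1| ≤ 2 * √(γ / β) ∧
      |((√(β + γ) - ε * √γ) / √β)⁻¹ - 1| ≤ 2 * √(γ / β) := by
  have hb := Real.sqrt_pos.2 hβ
  have hg := Real.sqrt_pos.2 hγ
  have hbg := Real.sqrt_pos.2 (add_pos hβ hγ)
  obtain ⟨h1, h2, h3, h4, h5⟩ := rclose_core (κ := √γ / √β) (ρ := √(β + γ) / √β)
    (by positivity) (by positivity) (rclose_rho hβ hγ)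
  have hk : √(γ / β) = √γ / √β := Real.sqrt_div hγ.le β
  have hk0 : 0 < √γ / √β := by positivity
  rw [hk]
  rcases hε with rfl | rfl
  · have e : (√(β + γ) - 1 * √γ) / √β = √(β + γ) / √β - √γ / √β := by ring
    rw [e, h4]
    refine ⟨by linarith, by intro h6; linarith, ?_, ?_⟩
    · rw [abs_le]; constructor <;> linarith
    · rw [abs_le]; constructor <;> linarith
  · have e : (√(β + γ) - (-1) * √γ) / √β = √(β + γ) / √β + √γ / √β := by ring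
    rw [e, h5]
    refine ⟨by linarith, by intro h6; linarith, ?_, ?_⟩
    · rw [abs_le]; constructor <;> linarith
    · rw [abs_le]; constructor <;> linarith

/-- **RCLOSE (b).** `z₀` at the real place. From `C x ≤ A = B + C`: `C/B ≤ 1/(x-1) ≤ 2/x`. -/
theorem close_z0 (d : Dat) (x : ℝ) (hx : 2 ≤ x) (h : (d.C : ℝ) * x ≤ d.A) :
    0 < zz0 (√(d.A : ℝ)) (√(d.B : ℝ)) (√(d.C : ℝ)) ∧
      zz0 (√(d.A : ℝ)) (√(d.B : ℝ)) (√(d.C : ℝ)) < 1 ∧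
      |zz0 (√(d.A : ℝ)) (√(d.B : ℝ)) (√(d.C : ℝ)) - 1| ≤ 4 / √x ∧
      |(zz0 (√(d.A : ℝ)) (√(d.B : ℝ)) (√(d.C : ℝ)))⁻¹ - 1| ≤ 4 / √x := by
  have hB : (0 : ℝ) < d.B := by
    have : 0 < d.B := by rw [d.hB]; exact mul_pos d.hy0 d.hb0
    exact_mod_cast this
  have hC : (0 : ℝ) < d.C := by exact_mod_cast d.hC0
  have hA : (d.A : ℝ) = d.B + d.C := by
    have := d.hABC
    exact_mod_cast this
  have hx0 : 0 < x := by linarith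
  rw [hA] at h
  have hCB : (d.C : ℝ) * x ≤ 2 * d.B := by nlinarith
  have hle : (d.C : ℝ) ≤ d.B := by nlinarith
  obtain ⟨h1, -, h3, h4⟩ := close_aux (d.B : ℝ) d.C 1 hB hC hle (Or.inl rfl)
  have hlt := rclose_lt hB hC
  have hz : zz0 (√(d.A : ℝ)) (√(d.B : ℝ)) (√(d.C : ℝ)) =
      (√((d.B : ℝ) + d.C) - 1 * √(d.C : ℝ)) / √(d.B : ℝ) := by
    unfold zz0
    rw [hA, one_mul]
  have hk : 2 * √((d.C : ℝ) / d.B) ≤ 4 / √x := by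
    have hsx := Real.sqrt_pos.2 hx0
    have h5 : √((d.C : ℝ) / d.B) ≤ √(4 / x) := by
      refine Real.sqrt_le_sqrt ?_
      rw [div_le_div_iff₀ hB hx0]
      linarith
    rw [Real.sqrt_div (by norm_num : (0 : ℝ) ≤ 4) x, show (4 : ℝ) = 2 ^ 2 by norm_num,
      Real.sqrt_sq (by norm_num)] at h5
    calc 2 * √((d.C : ℝ) / d.B) ≤ 2 * (2 / √x) := by linarith
      _ = 4 / √x := by ring
  rw [hz]
  refine ⟨h1, ?_, h3.trans hk, h4.trans hk⟩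
  rwa [one_mul]

/-- **RCLOSE (c).** `z` at the real place: `√A X = √(B Y² + C)`. -/
theorem close_z (d : Dat) (W : ℝ) (hW : 2 ≤ W)
    (h : (d.C : ℝ) * W ^ 2 ≤ 2 * (d.B * (d.Y : ℝ) ^ 2)) :
    0 < zz d.X d.Y d.ε (√(d.A : ℝ)) (√(d.B : ℝ)) (√(d.C : ℝ)) ∧
      zz d.X d.Y d.ε (√(d.A : ℝ)) (√(d.B : ℝ)) (√(d.C : ℝ)) ≠ 1 ∧
      |zz d.X d.Y d.ε (√(d.A : ℝ)) (√(d.B : ℝ)) (√(d.C : ℝ)) - 1| ≤ 4 / W ∧
      |(zz d.X d.Y d.ε (√(d.A : ℝ)) (√(d.B : ℝ)) (√(d.C : ℝ)))⁻¹ - 1| ≤ 4 / W := by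
  have hB : (0 : ℝ) < d.B := by
    have : 0 < d.B := by rw [d.hB]; exact mul_pos d.hy0 d.hb0
    exact_mod_cast this
  have hC : (0 : ℝ) < d.C := by exact_mod_cast d.hC0
  have hX : (0 : ℝ) < d.X := by exact_mod_cast d.hX0
  have hY : (0 : ℝ) < d.Y := by
    have : 0 < d.Y := by rw [d.hY]; exact mul_pos (pow_pos d.hy0 _) d.hY20
    exact_mod_cast this
  have hW0 : 0 < W := by linarith
  have hA : (d.A : ℝ) = d.B + d.C := by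
    have := d.hABC
    exact_mod_cast this
  have hA0 : (0 : ℝ) < d.A := by rw [hA]; linarith
  have heq : (d.A : ℝ) * d.X ^ 2 = d.B * d.Y ^ 2 + d.C := by
    have := d.heq
    exact_mod_cast this
  have hβ : (0 : ℝ) < d.B * d.Y ^ 2 := by positivity
  have hW2 : (4 : ℝ) ≤ W ^ 2 := by nlinarith
  have hle : (d.C : ℝ) ≤ d.B * d.Y ^ 2 := by nlinarith
  have hεr : (d.ε : ℝ) = 1 ∨ (d.ε : ℝ) = -1 := by
    rcases d.hε with h5 | h5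
    · left; rw [h5]; norm_num
    · right; rw [h5]; norm_num
  obtain ⟨h1, h2, h3, h4⟩ := close_aux ((d.B : ℝ) * d.Y ^ 2) d.C d.ε hβ hC hle hεr
  have hz : zz d.X d.Y d.ε (√(d.A : ℝ)) (√(d.B : ℝ)) (√(d.C : ℝ)) =
      (√((d.B : ℝ) * d.Y ^ 2 + d.C) - d.ε * √(d.C : ℝ)) / √((d.B : ℝ) * d.Y ^ 2) := by
    unfold zz
    rw [← heq, Real.sqrt_mul hA0.le, Real.sqrt_mul hB.le, Real.sqrt_sq hX.le, Real.sqrt_sq hY.le]
  have hk : 2 * √((d.C : ℝ) / (d.B * d.Y ^ 2)) ≤ 4 / W := by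
    have h5 : √((d.C : ℝ) / (d.B * d.Y ^ 2)) ≤ √((2 / W) ^ 2) := by
      refine Real.sqrt_le_sqrt ?_
      rw [div_pow, div_le_div_iff₀ hβ (by positivity)]
      linarith
    rw [Real.sqrt_sq (by positivity)] at h5
    calc 2 * √((d.C : ℝ) / (d.B * d.Y ^ 2)) ≤ 2 * (2 / W) := by linarith
      _ = 4 / W := by ring
  rw [hz]
  exact ⟨h1, h2, h3.trans hk, h4.trans hk⟩

end Pool.Agent.TwoRep
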