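import Pool.Agent.Lib.MP_56ee40_nt.Wr

namespace Pool.Agent.TwoRep

open Finset Polynomial

/-- **EXPD (a).** PROOF: `P = 0` trivial. Otherwise write `P = (X - C (z0^2))^m * R` with
`R.eval (z0^2) ≠ 0` (`m = rootMultiplicity`).  `expand 2 P = (X - C z0)^m (X + C z0)^m (expand 2 R)`,
and `X^N (X + C z0)^m expand 2 R` does not vanish at `z0` (value
`z0^N (2 z0)^m R(z0^2)`), so the multiplicity of `z0` is exactly `m`, hence `k ≤ m`. -/
theorem expand_root (P : ℝ[X]) (z0 : ℝ) (hz0 : z0 ≠ 0) (k N : ℕ)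
    (h : (X - C z0) ^ k ∣ X ^ N * expand ℝ 2 P) : (X - C (z0 ^ 2)) ^ k ∣ P := by
  by_cases hP : P = 0
  · rw [hP]
    exact dvd_zero _
  obtain ⟨Q, hQ, hQd⟩ := exists_eq_pow_rootMultiplicity_mul_and_not_dvd P hP (z0 ^ 2)
  set m := P.rootMultiplicity (z0 ^ 2) with hm
  have hkm : k ≤ m := by
    by_contra hcon
    push Not at hcon
    have h1 : (X - C z0) ^ (m + 1) ∣ X ^ N * expand ℝ 2 P :=
      (pow_dvd_pow _ (by omega)).trans h
    have h2 : X ^ N * expand ℝ 2 P =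
        (X - C z0) ^ m * (X ^ N * (X + C z0) ^ m * expand ℝ 2 Q) := by
      rw [hQ, map_mul, map_pow, map_sub, expand_X, expand_C]
      have h3 : (X ^ 2 - C (z0 ^ 2) : ℝ[X]) = (X - C z0) * (X + C z0) := by
        rw [C_pow]
        ring
      rw [h3, mul_pow]
      ring
    rw [h2, pow_succ] at h1
    have h4 : (X - C z0) ∣ X ^ N * (X + C z0) ^ m * expand ℝ 2 Q :=
      (mul_dvd_mul_iff_left (pow_ne_zero _ (X_sub_C_ne_zero z0))).mp h1
    rw [dvd_iff_isRoot, IsRoot.def, eval_mul, eval_mul, eval_pow, eval_pow, eval_add, eval_X,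
      eval_C, expand_eval] at h4
    rcases mul_eq_zero.mp h4 with h5 | h5
    · rcases mul_eq_zero.mp h5 with h6 | h6
      · exact hz0 (eq_zero_of_pow_eq_zero h6)
      · have h7 : z0 + z0 = 0 := eq_zero_of_pow_eq_zero h6
        exact hz0 (by linarith)
    · exact hQd (dvd_iff_isRoot.mpr h5)
  rw [hQ]
  exact Dvd.dvd.mul_right (pow_dvd_pow _ hkm) _

/-- **EXPD (b).** PROOF: for `v ∈ S` with `v.2 = j`: `ex E v = 2 (s + R) + (J - j)` where
`E = 2R + J`, so `δ^a (fam S c E j) = X^(J-j) * expand ℤ 2 (pent S c R E a j)` (`del_coeff`).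
Factor `X^(J - g i)` out of the `i`-th column (`Matrix.det_mul_row`/`det_mul_column`) and use
`AlgHom.map_det`/`RingHom.map_det` for `expand`. -/
theorem wr_expand (S : Finset (ℤ × ℤ)) (c : ℤ × ℤ → ℤ) (R J : ℕ)
    (h1 : ∀ v ∈ S, v.1.natAbs ≤ R) (h2 : ∀ v ∈ S, v.2.natAbs ≤ J) {r : ℕ} (g : Fin r → ℤ)
    (hg : ∀ i, (g i).natAbs ≤ J) :
    ∃ N : ℕ, (wrM (fun i => fam S c (2 * R + J) (g i))).det =
      X ^ N * expand ℤ 2 (Matrix.det (Matrix.of fun (a i : Fin r) =>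
        pent S c R (2 * R + J) (a : ℕ) (g i))) := by
  have hdel : ∀ (a n : ℕ) (b : ℤ), ((del ℤ) ^ a) (C b * X ^ n) = C (b * (n : ℤ) ^ a) * X ^ n := by
    intro a n b
    ext k
    rw [del_coeff, coeff_C_mul, coeff_C_mul, coeff_X_pow]
    split_ifs with hk
    · rw [hk]
      push_cast
      ring
    · ring
  have key : ∀ (a : ℕ) (j : ℤ), j.natAbs ≤ J → ((del ℤ) ^ a) (fam S c (2 * R + J) j) =
      X ^ ((J : ℤ) - j).toNat * expand ℤ 2 (pent S c R (2 * R + J) a j) := by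
    intro a j hj
    unfold fam pent
    rw [map_sum, map_sum, Finset.mul_sum]
    refine Finset.sum_congr rfl fun v hv => ?_
    rw [Finset.mem_filter] at hv
    have h6 : expand ℤ 2 (C (c v * (ex (2 * R + J) v : ℤ) ^ a) * X ^ (v.1 + R).toNat) =
        C (c v * (ex (2 * R + J) v : ℤ) ^ a) * (X ^ 2) ^ (v.1 + R).toNat := by
      rw [map_mul (expand ℤ 2), map_pow (expand ℤ 2) X, expand_X, expand_C]
    rw [hdel, h6]
    have h3 := h1 v hv.1
    have h4 : ex (2 * R + J) v = ((J : ℤ) - j).toNat + 2 * (v.1 + R).toNat := by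
      unfold ex
      rw [hv.2]
      push_cast
      omega
    have h5 : (X : ℤ[X]) ^ ex (2 * R + J) v =
        X ^ ((J : ℤ) - j).toNat * (X ^ 2) ^ (v.1 + R).toNat := by
      rw [h4, pow_add, pow_mul]
    rw [h5]
    ring
  refine ⟨∑ i, ((J : ℤ) - g i).toNat, ?_⟩
  have h3 : wrM (fun i => fam S c (2 * R + J) (g i)) = Matrix.of fun (a i : Fin r) =>
      (fun i => (X : ℤ[X]) ^ ((J : ℤ) - g i).toNat) i *
        ((expand ℤ 2).mapMatrix (Matrix.of fun (a i : Fin r) =>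
          pent S c R (2 * R + J) (a : ℕ) (g i))) a i := by
    ext a i : 2
    rw [wrM, Matrix.of_apply, Matrix.of_apply, key a (g i) (hg i)]
    rfl
  rw [h3, Matrix.det_mul_row, Finset.prod_pow_eq_pow_sum, AlgHom.map_det]

end Pool.Agent.TwoRep
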