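import Pool.Agent.Lib.MP_56ee40_nt.Defs

namespace Pool.Agent.TwoRep

open Finset Polynomial

/-- **HASSED.** PROOF: `f = ∑ C(c_v z^j) X^(e_v)`; the `t`-th Hasse derivative at `z₀` is
`∑ c_v z^j choose(e_v,t) z₀^(e_v - t) = z₀^(E-t) * GG S c E t z₀ z = 0` for `t < M`.  So the Taylor
polynomial `taylor z₀ f` (`Polynomial.taylor_coeff`) is divisible by `X^M`
(`Polynomial.X_pow_dvd_iff`), i.e. `(X - C z₀)^M ∣ f` (`Polynomial.X_sub_C_pow_dvd_iff`). -/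
theorem dvd_of_GG (S : Finset (ℤ × ℤ)) (c : ℤ × ℤ → ℤ) (E M : ℕ) (z0 z : ℝ) (hz0 : z0 ≠ 0)
    (hE : ∀ v ∈ S, 0 ≤ 2 * v.1 - v.2 + E)
    (hG : ∀ t < M, GG S c E t z0 z = 0) :
    (X - C z0) ^ M ∣ ∑ v ∈ S, C ((c v : ℝ) * z ^ v.2) * X ^ (ex E v) := by
  rw [Polynomial.X_sub_C_pow_dvd_iff, Polynomial.X_pow_dvd_iff]
  intro t ht
  rw [← Polynomial.taylor_apply, Polynomial.taylor_coeff, map_sum, Polynomial.eval_finsetSum]
  have key : ∀ v ∈ S, (Polynomial.hasseDeriv t (C ((c v : ℝ) * z ^ v.2) * X ^ (ex E v))).eval z0 =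
      z0 ^ ((E : ℤ) - t) *
        ((c v : ℝ) * ((ex E v).choose t : ℝ) * z0 ^ (2 * v.1 - v.2) * z ^ v.2) := by
    intro v hv
    rw [Polynomial.C_mul_X_pow_eq_monomial, Polynomial.hasseDeriv_monomial,
      Polynomial.eval_monomial]
    by_cases hle : t ≤ ex E v
    · have hex : ((ex E v : ℕ) : ℤ) = 2 * v.1 - v.2 + E := by
        unfold ex
        exact Int.toNat_of_nonneg (hE v hv)
      have h1 : z0 ^ (ex E v - t) = z0 ^ ((E : ℤ) - t) * z0 ^ (2 * v.1 - v.2) := by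
        rw [← zpow_add₀ hz0, ← zpow_natCast]
        congr 1
        rw [Nat.cast_sub hle, hex]
        ring
      rw [h1]
      ring
    · rw [Nat.choose_eq_zero_of_lt (not_le.1 hle)]
      simp
  rw [Finset.sum_congr rfl key, ← Finset.mul_sum]
  have h2 := hG t ht
  unfold GG at h2
  rw [h2, mul_zero]

end Pool.Agent.TwoRep
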