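import Pool.Agent.Lib.MP_56ee40_nt.Defs

namespace Pool.Agent.TwoRep

open Finset Polynomial

private theorem l1_eq {P : ℤ[X]} {s : Finset ℕ} (h : P.support ⊆ s) :
    l1 P = ∑ i ∈ s, |P.coeff i| := by
  unfold l1
  refine sum_subset h ?_
  intro i _ hi
  rw [notMem_support_iff.1 hi, abs_zero]

private theorem l1_nonneg (P : ℤ[X]) : 0 ≤ l1 P := sum_nonneg fun _ _ => abs_nonneg _

private theorem l1_zero : l1 (0 : ℤ[X]) = 0 := by simp [l1]

private theorem l1_add_le (P Q : ℤ[X]) : l1 (P + Q) ≤ l1 P + l1 Q := by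
  rw [l1_eq (s := P.support ∪ Q.support) support_add, l1_eq (s := P.support ∪ Q.support)
    subset_union_left, l1_eq (P := Q) (s := P.support ∪ Q.support) subset_union_right,
    ← sum_add_distrib]
  refine sum_le_sum fun i _ => ?_
  rw [coeff_add]
  exact abs_add_le _ _

private theorem l1_sum_le {ι : Type*} (s : Finset ι) (f : ι → ℤ[X]) :
    l1 (∑ i ∈ s, f i) ≤ ∑ i ∈ s, l1 (f i) := by
  classical
  induction s using Finset.induction_on with
  | empty => simp [l1_zero]
  | insert a s ha ih =>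
    rw [sum_insert ha, sum_insert ha]
    exact (l1_add_le _ _).trans (by linarith)

private theorem l1_monomial_le (n : ℕ) (a : ℤ) : l1 (monomial n a) ≤ |a| := by
  rw [l1_eq (s := {n}) (support_monomial_subset n a), sum_singleton, coeff_monomial_same]

private theorem l1_monomial_mul_le (n : ℕ) (a : ℤ) (Q : ℤ[X]) :
    l1 (monomial n a * Q) ≤ |a| * l1 Q := by
  have h : monomial n a * Q = ∑ j ∈ Q.support, monomial (n + j) (a * Q.coeff j) := by
    conv_lhs => rw [Q.as_sum_support]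
    rw [mul_sum]
    refine sum_congr rfl fun j _ => ?_
    rw [monomial_mul_monomial]
  rw [h]
  refine (l1_sum_le _ _).trans ?_
  unfold l1
  rw [mul_sum]
  refine sum_le_sum fun j _ => ?_
  rw [← abs_mul]
  exact l1_monomial_le _ _

private theorem l1_mul_le (P Q : ℤ[X]) : l1 (P * Q) ≤ l1 P * l1 Q := by
  have h : P * Q = ∑ j ∈ P.support, monomial j (P.coeff j) * Q := by
    conv_lhs => rw [P.as_sum_support]
    rw [sum_mul]
  rw [h]
  refine (l1_sum_le _ _).trans ?_
  have h2 : l1 P * l1 Q = ∑ j ∈ P.support, |P.coeff j| * l1 Q := by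
    rw [← sum_mul]; rfl
  rw [h2]
  exact sum_le_sum fun j _ => l1_monomial_mul_le _ _ _

private theorem l1_one_le : l1 (1 : ℤ[X]) ≤ 1 := by
  have h := l1_monomial_le 0 1
  rw [abs_one] at h
  exact h

private theorem l1_prod_le {ι : Type*} (s : Finset ι) (f : ι → ℤ[X]) :
    l1 (∏ i ∈ s, f i) ≤ ∏ i ∈ s, l1 (f i) := by
  classical
  induction s using Finset.induction_on with
  | empty => simpa using l1_one_le
  | insert a s ha ih =>
    rw [prod_insert ha, prod_insert ha]
    exact (l1_mul_le _ _).trans (mul_le_mul_of_nonneg_left ih (l1_nonneg _))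

private theorem l1_neg (P : ℤ[X]) : l1 (-P) = l1 P := by
  unfold l1
  rw [support_neg]
  refine sum_congr rfl fun i _ => ?_
  rw [coeff_neg, abs_neg]

private theorem abs_lc_le_l1 (P : ℤ[X]) : |P.leadingCoeff| ≤ l1 P := by
  by_cases hP : P = 0
  · rw [hP, leadingCoeff_zero, abs_zero]
    exact l1_nonneg _
  · unfold l1
    exact single_le_sum (f := fun i => |P.coeff i|) (fun _ _ => abs_nonneg _)
      (natDegree_mem_support_of_nonzero hP)

/-- **L1 (a).** `l1` (sum of absolute values of coefficients) is subadditive and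
submultiplicative; hence the determinant bound. -/
theorem det_lc_le {r : ℕ} (M : Matrix (Fin r) (Fin r) ℤ[X]) (b : ℤ)
    (hb : ∀ a i, l1 (M a i) ≤ b) : |M.det.leadingCoeff| ≤ (r.factorial : ℤ) * b ^ r := by
  refine (abs_lc_le_l1 _).trans ?_
  rw [Matrix.det_apply]
  refine (l1_sum_le _ _).trans ?_
  have h1 : ∀ σ ∈ (univ : Finset (Equiv.Perm (Fin r))),
      l1 (Equiv.Perm.sign σ • ∏ i, M (σ i) i) ≤ b ^ r := by
    intro σ _
    have h2 : l1 (Equiv.Perm.sign σ • ∏ i, M (σ i) i) = l1 (∏ i, M (σ i) i) := by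
      rcases Int.units_eq_one_or (Equiv.Perm.sign σ) with h | h
      · rw [h, one_smul]
      · rw [h, Units.neg_smul, one_smul, l1_neg]
    rw [h2]
    refine (l1_prod_le _ _).trans ?_
    calc ∏ i, l1 (M (σ i) i) ≤ ∏ _i : Fin r, b :=
          prod_le_prod (fun i _ => l1_nonneg _) (fun i _ => hb _ _)
      _ = b ^ r := by rw [prod_const, card_univ, Fintype.card_fin]
  refine (sum_le_sum h1).trans ?_
  rw [sum_const, card_univ, Fintype.card_perm, Fintype.card_fin, nsmul_eq_mul]

/-- **L1 (b).** at most `2R+1` terms, each `|c_v| e_v^a ≤ H (4R+2J+1)^(2J+1)` for `a ≤ 2J`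
(`e_v = ex (2R+J) v ≤ 4R+2J`). -/
theorem l1_pent (S : Finset (ℤ × ℤ)) (c : ℤ × ℤ → ℤ) (R J H : ℕ)
    (h1 : ∀ v ∈ S, v.1.natAbs ≤ R) (h2 : ∀ v ∈ S, v.2.natAbs ≤ J)
    (hH : ∀ v ∈ S, |c v| ≤ (H : ℤ)) (a : ℕ) (ha : a ≤ 2 * J) (j : ℤ) :
    l1 (pent S c R (2 * R + J) a j) ≤
      (2 * R + 1) * H * (4 * R + 2 * J + 1) ^ (2 * J + 1) := by
  classical
  unfold pent
  refine (l1_sum_le _ _).trans ?_
  have hterm : ∀ v ∈ S.filter (fun v => v.2 = j),
      l1 (C (c v * (ex (2 * R + J) v : ℤ) ^ a) * X ^ (v.1 + R).toNat) ≤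
        (H : ℤ) * (4 * R + 2 * J + 1) ^ (2 * J + 1) := by
    intro v hv
    rw [mem_filter] at hv
    rw [C_mul_X_pow_eq_monomial]
    refine (l1_monomial_le _ _).trans ?_
    rw [abs_mul]
    have hx : ex (2 * R + J) v ≤ 4 * R + 2 * J := by
      unfold ex
      have e1 := h1 v hv.1
      have e2 := h2 v hv.1
      push_cast
      omega
    have hx2 : (ex (2 * R + J) v : ℤ) ≤ 4 * R + 2 * J + 1 := by
      have : ex (2 * R + J) v ≤ 4 * R + 2 * J + 1 := by omega
      exact_mod_cast this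
    have hpow : |(ex (2 * R + J) v : ℤ) ^ a| ≤ (4 * R + 2 * J + 1) ^ (2 * J + 1) := by
      rw [abs_of_nonneg (by positivity)]
      calc (ex (2 * R + J) v : ℤ) ^ a ≤ (4 * R + 2 * J + 1) ^ a :=
            pow_le_pow_left₀ (by positivity) hx2 a
        _ ≤ (4 * R + 2 * J + 1) ^ (2 * J + 1) :=
            pow_le_pow_right₀ (by linarith [Int.natCast_nonneg R, Int.natCast_nonneg J]) (by omega)
    exact mul_le_mul (hH v hv.1) hpow (abs_nonneg _) (by positivity)
  refine (sum_le_sum hterm).trans ?_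
  rw [sum_const, nsmul_eq_mul]
  have hcard : (S.filter (fun v => v.2 = j)).card ≤ 2 * R + 1 := by
    have h3 : (S.filter (fun v => v.2 = j)).card ≤ (Icc (-(R : ℤ)) R).card := by
      refine card_le_card_of_injOn (fun v => v.1) ?_ ?_
      · intro v hv
        rw [mem_coe, mem_filter] at hv
        have e1 := h1 v hv.1
        rw [mem_coe, mem_Icc]
        show -(R : ℤ) ≤ v.1 ∧ v.1 ≤ R
        omega
      · intro v hv w hw hvw
        rw [mem_coe, mem_filter] at hv hw
        exact Prod.ext hvw (hv.2.trans hw.2.symm)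
    rw [Int.card_Icc] at h3
    omega
  have hcard2 : ((S.filter (fun v => v.2 = j)).card : ℤ) ≤ 2 * R + 1 := by exact_mod_cast hcard
  rw [mul_assoc]
  exact mul_le_mul_of_nonneg_right hcard2 (by positivity)

end Pool.Agent.TwoRep
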