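import Pool.Agent.Lib.MP_56ee40_nt.Defs

namespace Pool.Agent.TwoRep

open Finset Polynomial

/-- **MULT (a).** For real algebraic `ζ` with minimal polynomial `m` over `ℚ`:
`(X - ζ)^k ∣ P` over `ℝ`, `P ∈ ℚ[X]`, implies `m^k ∣ P` over `ℚ`.
PROOF: induction on `k`: `P(ζ) = 0` so `P = m P₁`; `m = (X - ζ) m₁` with `m₁(ζ) ≠ 0`
(separability); cancel one factor and use coprimality of `(X-ζ)^k` and `m₁`. -/
theorem minpoly_pow_dvd (ζ : ℝ) (hζ : IsIntegral ℚ ζ) (k : ℕ) (P : ℚ[X])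
    (h : (X - C ζ) ^ k ∣ P.map (algebraMap ℚ ℝ)) : (minpoly ℚ ζ) ^ k ∣ P := by
  have hsep : (minpoly ℚ ζ).Separable := (minpoly.irreducible hζ).separable
  have hsepR : ((minpoly ℚ ζ).map (algebraMap ℚ ℝ)).Separable := hsep.map
  have hroot : ((minpoly ℚ ζ).map (algebraMap ℚ ℝ)).IsRoot ζ := by
    rw [IsRoot.def, eval_map_algebraMap]
    exact minpoly.aeval ℚ ζ
  obtain ⟨m1, hm1⟩ := dvd_iff_isRoot.2 hroot
  have hcop : IsCoprime (X - C ζ) m1 := by
    rw [hm1] at hsepR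
    exact hsepR.isCoprime
  induction k generalizing P with
  | zero => simp
  | succ k ih =>
    have h1 : (X - C ζ) ∣ P.map (algebraMap ℚ ℝ) :=
      (dvd_pow_self _ (Nat.succ_ne_zero k)).trans h
    have h2 : aeval ζ P = 0 := by
      rw [dvd_iff_isRoot, IsRoot.def, eval_map_algebraMap] at h1
      exact h1
    obtain ⟨P1, rfl⟩ := minpoly.dvd ℚ ζ h2
    have h3 : (X - C ζ) ^ k ∣ m1 * P1.map (algebraMap ℚ ℝ) := by
      rw [Polynomial.map_mul, hm1, pow_succ', mul_assoc] at h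
      exact (mul_dvd_mul_iff_left (X_sub_C_ne_zero ζ)).1 h
    have h4 : (X - C ζ) ^ k ∣ P1.map (algebraMap ℚ ℝ) :=
      (hcop.pow_left (m := k)).dvd_of_dvd_mul_left h3
    rw [pow_succ']
    exact mul_dvd_mul_left _ (ih P1 h4)

private theorem mult_prim_pow {N : ℤ[X]} (hN : N.IsPrimitive) (k : ℕ) : (N ^ k).IsPrimitive := by
  induction k with
  | zero => rw [pow_zero]; exact isPrimitive_one
  | succ k ih => rw [pow_succ]; exact ih.mul hN

private theorem mult_lc (ζ : ℝ) (hζ : IsIntegral ℚ ζ) (N : ℤ[X]) (hN : N.IsPrimitive) (l : ℤ)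
    (hl : N.leadingCoeff = l) (hl0 : 0 < l)
    (hmin : N.map (Int.castRingHom ℚ) = C (l : ℚ) * minpoly ℚ ζ) (P : ℤ[X]) (hP : P ≠ 0) (k : ℕ)
    (hk : (X - C ζ) ^ k ∣ P.map (Int.castRingHom ℝ)) :
    (l : ℝ) ^ k ≤ |(P.leadingCoeff : ℝ)| := by
  have h1 : (minpoly ℚ ζ) ^ k ∣ P.map (Int.castRingHom ℚ) := by
    apply minpoly_pow_dvd ζ hζ k
    rw [Polynomial.map_map]
    have h2 : (algebraMap ℚ ℝ).comp (Int.castRingHom ℚ) = Int.castRingHom ℝ :=
      RingHom.ext_int _ _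
    rw [h2]
    exact hk
  have hlq : ((l : ℚ)) ^ k ≠ 0 := pow_ne_zero _ (by exact_mod_cast hl0.ne')
  have h3 : (N ^ k).map (Int.castRingHom ℚ) ∣ P.map (Int.castRingHom ℚ) := by
    rw [Polynomial.map_pow, hmin, mul_pow, ← C_pow, C_mul_dvd hlq]
    exact h1
  have hc0 : ((P.content : ℤ) : ℚ) ≠ 0 := by
    have : P.content ≠ 0 := by rwa [Ne, content_eq_zero_iff]
    exact_mod_cast this
  have h4 : (N ^ k).map (Int.castRingHom ℚ) ∣ P.primPart.map (Int.castRingHom ℚ) := by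
    have h5 : P.map (Int.castRingHom ℚ) = C ((P.content : ℤ) : ℚ) *
        P.primPart.map (Int.castRingHom ℚ) := by
      conv_lhs => rw [P.eq_C_content_mul_primPart]
      rw [Polynomial.map_mul, map_C]
      rfl
    rw [h5, dvd_C_mul hc0] at h3
    exact h3
  have h6 : N ^ k ∣ P.primPart :=
    (IsPrimitive.Int.dvd_iff_map_cast_dvd_map_cast _ _ (mult_prim_pow hN k)).2 h4
  have h7 : N ^ k ∣ P := h6.trans P.primPart_dvd
  have h8 : l ^ k ∣ P.leadingCoeff := by
    have h9 := leadingCoeff_dvd_leadingCoeff h7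
    rwa [leadingCoeff_pow, hl] at h9
  have h10 : l ^ k ≤ |P.leadingCoeff| :=
    Int.le_of_dvd (abs_pos.2 (leadingCoeff_ne_zero.2 hP)) ((dvd_abs _ _).2 h8)
  exact_mod_cast h10

/-- **MULT (b).** PROOF: `Q(t) = B t² - 2(A+C) t + B` kills `ζ`; `A + C = B + 2C`, the two roots are
`ζ` and `1/ζ > 1`, distinct.
Case 1, `ζ` irrational: `Q` is (up to a unit) the minimal polynomial; let `g = gcd(B, 2(A+C))`,
`Q = g Q'`, `Q'` primitive with leading coefficient `B/g`.  `Q'^k ∣ P` over `ℚ`, hence over `ℤ`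
(Gauss, `Polynomial.IsPrimitive.Int.dvd_iff_map_cast_dvd_map_cast`), so `(B/g)^k ∣ lc(P)`,
`(B/g)^k ≤ |lc P| ≤ |lc P|^2`.  `gcd(y, g)` divides `gcd(y, 2B+4C)`, hence divides `4 C`, hence `4`
(`y ∣ B`, `y` coprime to `C`); `y / gcd(y,g)` divides `B/g`, so `y ≤ 4 (B/g)`.
Case 2, `ζ = u/v` in lowest terms, `0 < u < v`: `(v X - u)^k ∣ P` over `ℤ`, so
`v^k ≤ |lc P|`.  `B (u² + v²) = 2 (A+C) u v`, `gcd(u²+v², uv) = 1`, so `B = u v m`,
`2(A+C) = (u²+v²) m`, `gcd(y,m) ∣ 4` as before and `y/gcd(y,m) ∣ u v`, so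
`y ≤ 4 u v ≤ 4 v²` and `y^k ≤ 4^k (v^k)^2`. -/
theorem mult_bound (A B C' y : ℤ) (hABC : A = B + C') (hB0 : 0 < B) (hC0 : 0 < C') (hy0 : 0 < y)
    (hyB : y ∣ B) (hyC : IsCoprime y C') (ζ : ℝ) (h0 : 0 < ζ) (h1 : ζ < 1)
    (hζ : (B : ℝ) * ζ ^ 2 - 2 * (A + C') * ζ + B = 0) (P : ℤ[X]) (hP : P ≠ 0) (k : ℕ)
    (hk : (X - C ζ) ^ k ∣ P.map (Int.castRingHom ℝ)) :
    (y : ℝ) ^ k ≤ 4 ^ k * (P.leadingCoeff : ℝ) ^ 2 := by
  have key : ∀ T m : ℤ, 0 < T → y ∣ T * m → m ∣ 4 * C' → y ≤ 4 * T := by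
    intro T m hT h2 h3
    have h4 : y ∣ (T * 4) * C' := by
      refine h2.trans ?_
      rw [mul_assoc]
      exact mul_dvd_mul_left T h3
    have h5 : y ∣ T * 4 := hyC.dvd_of_dvd_mul_right h4
    have h6 := Int.le_of_dvd (by omega) h5
    omega
  have hy0R : (0 : ℝ) < y := by exact_mod_cast hy0
  have hlc1 : (1 : ℝ) ≤ |(P.leadingCoeff : ℝ)| := by
    have : (1 : ℤ) ≤ |P.leadingCoeff| := Int.one_le_abs (leadingCoeff_ne_zero.2 hP)
    exact_mod_cast this
  by_cases hrat : ζ ∈ (algebraMap ℚ ℝ).range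
  · obtain ⟨q, hq⟩ := hrat
    have hq' : (q : ℝ) = ζ := hq
    have hq0 : 0 < q := by
      have : (0 : ℝ) < (q : ℝ) := by rw [hq']; exact h0
      exact_mod_cast this
    have hq1 : q < 1 := by
      have : (q : ℝ) < 1 := by rw [hq']; exact h1
      exact_mod_cast this
    set u : ℤ := q.num with hu
    set v : ℤ := (q.den : ℤ) with hv
    have hv0 : 0 < v := by rw [hv]; exact_mod_cast q.pos
    have hu0 : 0 < u := Rat.num_pos.2 hq0
    have hquv : q = (u : ℚ) / v := by rw [hu, hv]; exact_mod_cast (Rat.num_div_den q).symm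
    have huv : u < v := by
      rw [hquv, div_lt_one (by exact_mod_cast hv0)] at hq1
      exact_mod_cast hq1
    have hcop : IsCoprime u v := by
      rw [Int.isCoprime_iff_gcd_eq_one]
      have := q.reduced
      rw [hu, hv, Int.gcd_eq_natAbs, Int.natAbs_natCast]
      exact this
    have hint : IsIntegral ℚ ζ := by
      rw [← hq]
      exact isIntegral_algebraMap
    have hmin : minpoly ℚ ζ = X - C q := by
      rw [← hq]
      exact minpoly.eq_X_sub_C ℝ q
    have hN : (C v * X + C (-u) : ℤ[X]).leadingCoeff = v := leadingCoeff_linear hv0.ne'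
    have hprim : (C v * X + C (-u) : ℤ[X]).IsPrimitive := by
      intro r hr
      rw [C_dvd_iff_dvd_coeff] at hr
      have e1 := hr 1
      have e0 := hr 0
      simp only [coeff_add, coeff_C_mul, coeff_X_one, mul_one, coeff_C_succ, add_zero] at e1
      simp only [coeff_add, mul_coeff_zero, coeff_C_zero, coeff_X_zero, mul_zero, zero_add] at e0
      exact hcop.isUnit_of_dvd' ((dvd_neg).1 e0) e1
    have hle := mult_lc ζ hint (C v * X + C (-u)) hprim v hN hv0 (by
      rw [hmin]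
      simp only [Polynomial.map_add, Polynomial.map_mul, map_C, map_X, eq_intCast, Int.cast_neg]
      rw [mul_sub, ← C_mul, hquv, mul_div_cancel₀ _ (by exact_mod_cast hv0.ne')]
      simp [sub_eq_add_neg]) P hP k hk
    -- arithmetic
    have hz : B * (u ^ 2 + v ^ 2) = 2 * (A + C') * (u * v) := by
      have hvR : (v : ℝ) ≠ 0 := by exact_mod_cast hv0.ne'
      have hζ' : ζ = (u : ℝ) / v := by
        rw [← hq', hquv]
        push_cast
        rfl
      rw [hζ'] at hζ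
      field_simp at hζ
      have : (B : ℝ) * (u ^ 2 + v ^ 2) = 2 * (A + C') * (u * v) := by linear_combination hζ
      exact_mod_cast this
    have hcop2 : IsCoprime (u * v) (u ^ 2 + v ^ 2) := by
      apply IsCoprime.mul_left
      · have : IsCoprime u (v ^ 2) := hcop.pow_right
        have h3 := this.add_mul_left_right u
        have e : v ^ 2 + u * u = u ^ 2 + v ^ 2 := by ring
        rwa [e] at h3
      · have : IsCoprime v (u ^ 2) := hcop.symm.pow_right
        have h3 := this.add_mul_left_right v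
        have e : u ^ 2 + v * v = u ^ 2 + v ^ 2 := by ring
        rwa [e] at h3
    have hdvd : u * v ∣ B := by
      have : u * v ∣ B * (u ^ 2 + v ^ 2) := by rw [hz]; exact dvd_mul_left _ _
      exact hcop2.dvd_of_dvd_mul_right this
    obtain ⟨m, hm⟩ := hdvd
    have hm4 : m ∣ 4 * C' := by
      have huv0 : u * v ≠ 0 := (mul_pos hu0 hv0).ne'
      have e1 : (u * v) * (m * (u ^ 2 + v ^ 2)) = (u * v) * (2 * (A + C')) := by
        rw [hm] at hz
        linear_combination hz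
      have e2 := mul_left_cancel₀ huv0 e1
      refine ⟨(v - u) ^ 2, ?_⟩
      rw [hABC] at e2
      linear_combination -e2 - 2 * hm
    have hyle := key (u * v) m (mul_pos hu0 hv0) (by rw [← hm]; exact hyB) hm4
    have hyle2 : (y : ℝ) ≤ 4 * (v : ℝ) ^ 2 := by
      have : y ≤ 4 * v ^ 2 := by nlinarith
      exact_mod_cast this
    have hv0R : (0 : ℝ) < v := by exact_mod_cast hv0
    calc (y : ℝ) ^ k ≤ (4 * (v : ℝ) ^ 2) ^ k := pow_le_pow_left₀ hy0R.le hyle2 k
      _ = 4 ^ k * ((v : ℝ) ^ k) ^ 2 := by rw [mul_pow, ← pow_mul, ← pow_mul, mul_comm 2 k]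
      _ ≤ 4 ^ k * |(P.leadingCoeff : ℝ)| ^ 2 := by
          have : ((v : ℝ) ^ k) ^ 2 ≤ |(P.leadingCoeff : ℝ)| ^ 2 :=
            pow_le_pow_left₀ (by positivity) hle 2
          have h4 : (0 : ℝ) < 4 ^ k := by positivity
          exact mul_le_mul_of_nonneg_left this h4.le
      _ = 4 ^ k * (P.leadingCoeff : ℝ) ^ 2 := by rw [sq_abs]
  · -- irrational case
    set D : ℤ := 2 * (A + C') with hD
    set g : ℤ := (Int.gcd B D : ℤ) with hg
    have hg0 : 0 < g := by
      rw [hg]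
      exact_mod_cast Int.gcd_pos_of_ne_zero_left _ hB0.ne'
    obtain ⟨b, hb⟩ : g ∣ B := Int.gcd_dvd_left ..
    obtain ⟨s, hs⟩ : g ∣ D := Int.gcd_dvd_right ..
    have hb0 : 0 < b := by
      rw [hb] at hB0
      exact (pos_iff_pos_of_mul_pos hB0).1 hg0
    have hcop : IsCoprime b s := by
      have h2 : IsCoprime (B / g) (D / g) := by
        rw [Int.isCoprime_iff_gcd_eq_one, hg]
        exact Int.gcd_div_gcd_div_gcd (Int.gcd_pos_of_ne_zero_left _ hB0.ne')
      have e1 : B / g = b := by rw [hb]; exact Int.mul_ediv_cancel_left b hg0.ne'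
      have e2 : D / g = s := by
        conv_lhs => rw [hs]
        exact Int.mul_ediv_cancel_left s hg0.ne'
      rwa [e1, e2] at h2
    have hbq : (b : ℚ) ≠ 0 := by exact_mod_cast hb0.ne'
    have hbr : (b : ℝ) ≠ 0 := by exact_mod_cast hb0.ne'
    have hgr : (g : ℝ) ≠ 0 := by exact_mod_cast hg0.ne'
    have hζ2 : (b : ℝ) * ζ ^ 2 - s * ζ + b = 0 := by
      have e1 : (B : ℝ) = g * b := by exact_mod_cast hb
      have e2 : 2 * ((A : ℝ) + C') = g * s := by
        have : 2 * (A + C') = g * s := hs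
        exact_mod_cast this
      have e3 : (g : ℝ) * ((b : ℝ) * ζ ^ 2 - s * ζ + b) = 0 := by
        rw [e1, e2] at hζ
        linear_combination hζ
      exact (mul_eq_zero.1 e3).resolve_left hgr
    -- the monic rational polynomial
    have hmonic : (X ^ 2 + (C (-(s : ℚ) / b) * X + C 1) : ℚ[X]).Monic :=
      monic_X_pow_add (by
        refine lt_of_le_of_lt (degree_linear_le) ?_
        norm_num)
    have haev : aeval ζ (X ^ 2 + (C (-(s : ℚ) / b) * X + C 1) : ℚ[X]) = 0 := by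
      simp only [map_add, map_mul, map_pow, aeval_X, aeval_C, map_one]
      have e3 : (algebraMap ℚ ℝ) (-(s : ℚ) / b) = -(s : ℝ) / b := by
        simp
      rw [e3]
      field_simp
      linear_combination hζ2
    have hint : IsIntegral ℚ ζ := ⟨_, hmonic, haev⟩
    have hdeg : (X ^ 2 + (C (-(s : ℚ) / b) * X + C 1) : ℚ[X]).natDegree ≤ 2 := by
      compute_degree
    have hmin : X ^ 2 + (C (-(s : ℚ) / b) * X + C 1) = minpoly ℚ ζ := by
      refine Polynomial.eq_of_monic_of_dvd_of_natDegree_le (minpoly.monic hint) hmonic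
        (minpoly.dvd ℚ ζ haev) ?_
      exact hdeg.trans ((minpoly.two_le_natDegree_iff hint).2 hrat)
    have hN : (C b * X ^ 2 + C (-s) * X + C b : ℤ[X]).leadingCoeff = b :=
      leadingCoeff_quadratic hb0.ne'
    have hprim : (C b * X ^ 2 + C (-s) * X + C b : ℤ[X]).IsPrimitive := by
      intro r hr
      rw [C_dvd_iff_dvd_coeff] at hr
      have e1 := hr 1
      have e0 := hr 0
      have f1 : (C b * X ^ 2 + C (-s) * X + C b : ℤ[X]).coeff 1 = -s := by
        rw [coeff_add, coeff_add, coeff_C_mul, coeff_C_mul, coeff_X_pow, coeff_X_one, coeff_C]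
        norm_num
      have f0 : (C b * X ^ 2 + C (-s) * X + C b : ℤ[X]).coeff 0 = b := by
        simp
      rw [f1] at e1
      rw [f0] at e0
      exact hcop.isUnit_of_dvd' e0 ((dvd_neg).1 e1)
    have hle := mult_lc ζ hint (C b * X ^ 2 + C (-s) * X + C b) hprim b hN hb0 (by
      rw [← hmin]
      rw [Polynomial.map_add, Polynomial.map_add, Polynomial.map_mul, Polynomial.map_mul,
        Polynomial.map_pow, map_X, map_C, map_C, eq_intCast, eq_intCast, Int.cast_neg,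
        mul_add, mul_add, ← mul_assoc, ← C_mul, ← C_mul, mul_one,
        mul_div_cancel₀ _ hbq, add_assoc]) P hP k hk
    have hg4 : g ∣ 4 * C' := by
      have e1 : g ∣ B := ⟨b, hb⟩
      have e2 : g ∣ D := ⟨s, hs⟩
      have e3 : 4 * C' = D - 2 * B := by rw [hD, hABC]; ring
      rw [e3]
      exact dvd_sub e2 (e1.mul_left 2)
    have hyle := key b g hb0 (by rw [mul_comm, ← hb]; exact hyB) hg4
    have hyle2 : (y : ℝ) ≤ 4 * (b : ℝ) := by exact_mod_cast hyle
    have hb0R : (0 : ℝ) < b := by exact_mod_cast hb0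
    calc (y : ℝ) ^ k ≤ (4 * (b : ℝ)) ^ k := pow_le_pow_left₀ hy0R.le hyle2 k
      _ = 4 ^ k * (b : ℝ) ^ k := by rw [mul_pow]
      _ ≤ 4 ^ k * |(P.leadingCoeff : ℝ)| ^ 2 := by
          have h5 : (b : ℝ) ^ k ≤ |(P.leadingCoeff : ℝ)| ^ 2 := by nlinarith
          have h4 : (0 : ℝ) < 4 ^ k := by positivity
          exact mul_le_mul_of_nonneg_left h5 h4.le
      _ = 4 ^ k * (P.leadingCoeff : ℝ) ^ 2 := by rw [sq_abs]

end Pool.Agent.TwoRep
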