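import Pool.Agent.Lib.MP_56ee40_nt.SubF
import Pool.Agent.Lib.MP_56ee40_nt.HasseD
import Pool.Agent.Lib.MP_56ee40_nt.Expd
import Pool.Agent.Lib.MP_56ee40_nt.Mult
import Pool.Agent.Lib.MP_56ee40_nt.L1

namespace Pool.Agent.TwoRep

open Finset Polynomial

private theorem ZL_sum (S : Finset (ℤ × ℤ)) (c : ℤ × ℤ → ℤ) (E J : ℕ) (z : ℝ)
    (hS2 : ∀ v ∈ S, v.2.natAbs ≤ J) :
    ∑ j : {j : ℤ // j ∈ Icc (-(J : ℤ)) J}, C (z ^ (j : ℤ)) *
        (fam S c E (j : ℤ)).map (Int.castRingHom ℝ) =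
      ∑ v ∈ S, C ((c v : ℝ) * z ^ v.2) * X ^ (ex E v) := by
  classical
  rw [Finset.sum_coe_sort (Icc (-(J : ℤ)) J)
    (fun j => C (z ^ j) * (fam S c E j).map (Int.castRingHom ℝ))]
  have h1 : ∀ v ∈ S, v.2 ∈ Icc (-(J : ℤ)) J := by
    intro v hv
    have := hS2 v hv
    rw [Finset.mem_Icc]
    omega
  rw [← Finset.sum_fiberwise_of_maps_to h1]
  refine Finset.sum_congr rfl fun j _ => ?_
  unfold fam
  rw [Polynomial.map_sum, Finset.mul_sum]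
  refine Finset.sum_congr rfl fun v hv => ?_
  rw [Finset.mem_filter] at hv
  rw [Polynomial.map_mul, Polynomial.map_pow, Polynomial.map_X, Polynomial.map_C, ← mul_assoc,
    ← C_mul, hv.2]
  congr 2
  simp [mul_comm]

private theorem ZL_ne (S : Finset (ℤ × ℤ)) (c : ℤ × ℤ → ℤ) (R J : ℕ) (z : ℝ)
    (hS1 : ∀ v ∈ S, v.1.natAbs ≤ R) (hS2 : ∀ v ∈ S, v.2.natAbs ≤ J)
    (hne : ∃ e : ℤ, ∑ v ∈ S with 2 * v.1 - v.2 = e, (c v : ℝ) * z ^ v.2 ≠ 0) :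
    ∑ v ∈ S, C ((c v : ℝ) * z ^ v.2) * X ^ (ex (2 * R + J) v) ≠ 0 := by
  classical
  obtain ⟨e, he⟩ := hne
  intro h0
  apply he
  obtain ⟨v0, hv0, -⟩ := Finset.exists_ne_zero_of_sum_ne_zero he
  rw [Finset.mem_filter] at hv0
  have h1 := congrArg (fun p : ℝ[X] => p.coeff (ex (2 * R + J) v0)) h0
  simp only [Polynomial.finsetSum_coeff, Polynomial.coeff_C_mul, Polynomial.coeff_X_pow,
    Polynomial.coeff_zero, mul_ite, mul_one, mul_zero] at h1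
  rw [← h1, Finset.sum_filter]
  refine Finset.sum_congr rfl fun v hv => ?_
  have hR := hS1 v hv
  have hJ := hS2 v hv
  have hR0 := hS1 v0 hv0.1
  have hJ0 := hS2 v0 hv0.1
  have h2 : (2 * v.1 - v.2 = e) ↔ (ex (2 * R + J) v0 = ex (2 * R + J) v) := by
    rw [← hv0.2]
    unfold ex
    omega
  by_cases h3 : 2 * v.1 - v.2 = e
  · rw [if_pos h3, if_pos (h2.mp h3)]
  · rw [if_neg h3, if_neg (fun h4 => h3 (h2.mpr h4))]

/-- **ZL: the zero estimate.** PROOF (assembly): `E = 2R + J`.  Let `ι = Icc (-J) J` (subtype),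
`F j = fam S c E j`, `ω j = z^j`.  `f = ∑_j C(ω j) (F j) = ∑_{v∈S} C(c_v z^{v.2}) X^{ex E v}` is
nonzero by `hne` (its coefficient at `e + E` is that sum; exponents are injective in `2s-j`), and
`(X - z₀)^M ∣ f` by `dvd_of_GG`.  `sub_family` gives `g : Fin r → ι` injective (`r ≤ 2J+1`,
`r > 0`), `W = (wrM (F ∘ g)).det ≠ 0`, `(X - z₀)^(M-(r-1)) ∣ W`.  `wr_expand`: `W = X^N expand 2 P`,
so `P ≠ 0` and by `expand_root` (note `(expand ℤ 2 P).map = expand ℝ 2 (P.map)`),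
`(X - z₀²)^(M-(r-1)) ∣ P` over `ℝ`.  `mult_bound` with `ζ = z₀²`, `k = M-(r-1) ≥ M - (2J+1)`:
(use it with the smaller exponent `k = M - (2J+1)`, divisibility by the smaller power),
`y^k ≤ 4^k lc(P)^2` and `|lc P| ≤ r! b^r ≤ zb R J H` by `det_lc_le`, `l1_pent`
(`b = (2R+1) H (4R+2J+1)^(2J+1) ≥ 1`, `r ≤ 2J+1`). -/
theorem zero_estimate (A B C' y : ℤ) (hABC : A = B + C') (hB0 : 0 < B) (hC0 : 0 < C')
    (hy0 : 0 < y) (hyB : y ∣ B) (hyC : IsCoprime y C') (z0 z : ℝ) (h0 : 0 < z0) (h1 : z0 < 1)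
    (hz0 : (B : ℝ) * z0 ^ 4 - 2 * (A + C') * z0 ^ 2 + B = 0) (hz : z ≠ 0)
    (S : Finset (ℤ × ℤ)) (c : ℤ × ℤ → ℤ) (R J H : ℕ)
    (hS1 : ∀ v ∈ S, v.1.natAbs ≤ R) (hS2 : ∀ v ∈ S, v.2.natAbs ≤ J)
    (hH : ∀ v ∈ S, |c v| ≤ (H : ℤ)) (hH1 : 1 ≤ H)
    (hne : ∃ e : ℤ, ∑ v ∈ S with 2 * v.1 - v.2 = e, (c v : ℝ) * z ^ v.2 ≠ 0)
    (M : ℕ) (hG : ∀ t < M, GG S c (2 * R + J) t z0 z = 0) :
    (y : ℝ) ^ (M - (2 * J + 1)) ≤ 4 ^ (M - (2 * J + 1)) * (zb R J H : ℝ) ^ 2 := by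
  classical
  have hz00 : z0 ≠ 0 := h0.ne'
  have hE : ∀ v ∈ S, 0 ≤ 2 * v.1 - v.2 + ((2 * R + J : ℕ) : ℤ) := by
    intro v hv
    have h1 := hS1 v hv
    have h2 := hS2 v hv
    push_cast
    omega
  have hdvd := dvd_of_GG S c (2 * R + J) M z0 z hz00 hE hG
  have hf := ZL_ne S c R J z hS1 hS2 hne
  rw [← ZL_sum S c (2 * R + J) J z hS2] at hf hdvd
  obtain ⟨r, g, hg, hr, hdet, hW⟩ := sub_family
    (ι := {j : ℤ // j ∈ Icc (-(J : ℤ)) J}) (fun j => fam S c (2 * R + J) (j : ℤ))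
    (fun j => z ^ (j : ℤ)) hf z0 M hdvd
  have hrJ : r ≤ 2 * J + 1 := by
    have h2 := Fintype.card_le_of_injective g hg
    rw [Fintype.card_fin, Fintype.card_coe, Int.card_Icc] at h2
    omega
  obtain ⟨N, hN⟩ := wr_expand S c R J hS1 hS2 (fun i => (g i : ℤ)) (fun i => by
    have h2 := (g i).2
    rw [Finset.mem_Icc] at h2
    omega)
  set P : ℤ[X] := Matrix.det (Matrix.of fun (a i : Fin r) =>
    pent S c R (2 * R + J) (a : ℕ) (g i : ℤ)) with hP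
  have hP0 : P ≠ 0 := by
    intro h
    apply hdet
    rw [hN, h, map_zero, mul_zero]
  rw [hN, Polynomial.map_mul, Polynomial.map_pow, Polynomial.map_X, Polynomial.map_expand] at hW
  have hroot := expand_root _ z0 hz00 _ _ hW
  have hroot' : (X - C (z0 ^ 2)) ^ (M - (2 * J + 1)) ∣ P.map (Int.castRingHom ℝ) :=
    (pow_dvd_pow _ (by omega)).trans hroot
  have hz01 : z0 ^ 2 < 1 := by nlinarith
  have hmb := mult_bound A B C' y hABC hB0 hC0 hy0 hyB hyC (z0 ^ 2) (by positivity) hz01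
    (by rw [← hz0]; ring) P hP0 (M - (2 * J + 1)) hroot'
  refine hmb.trans ?_
  have hlc := det_lc_le (Matrix.of fun (a i : Fin r) => pent S c R (2 * R + J) (a : ℕ) (g i : ℤ))
    ((2 * R + 1) * H * (4 * R + 2 * J + 1) ^ (2 * J + 1)) (fun a i => by
      rw [Matrix.of_apply]
      exact l1_pent S c R J H hS1 hS2 hH a (by have := a.2; omega) _)
  rw [← hP] at hlc
  have hb1 : (1 : ℤ) ≤ (2 * R + 1) * H * (4 * R + 2 * J + 1) ^ (2 * J + 1) := by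
    have h2 : (0 : ℤ) < (2 * R + 1) * H * (4 * R + 2 * J + 1) ^ (2 * J + 1) := by
      have : (0 : ℤ) < H := by exact_mod_cast hH1
      positivity
    omega
  have hlc2 : |P.leadingCoeff| ≤ (zb R J H : ℤ) := by
    refine hlc.trans ?_
    unfold zb
    push_cast
    have h2 : ((r.factorial : ℕ) : ℤ) ≤ (((2 * J + 1).factorial : ℕ) : ℤ) := by
      exact_mod_cast Nat.factorial_le hrJ
    have h3 := pow_le_pow_right₀ hb1 hrJ
    exact mul_le_mul h2 h3 (by positivity) (by positivity)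
  have hlc3 : (P.leadingCoeff : ℝ) ^ 2 ≤ (zb R J H : ℝ) ^ 2 := by
    rw [← sq_abs]
    have h2 : |(P.leadingCoeff : ℝ)| ≤ (zb R J H : ℝ) := by exact_mod_cast hlc2
    exact pow_le_pow_left₀ (abs_nonneg _) h2 2
  exact mul_le_mul_of_nonneg_left hlc3 (by positivity)


end Pool.Agent.TwoRep
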