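import Pool.Agent.Lib.MP_56ee40_nt.DSieg
import Pool.Agent.Lib.MP_56ee40_nt.DEst
import Pool.Agent.Lib.MP_56ee40_nt.DNum
import Pool.Agent.Lib.MP_56ee40_nt.GInt
import Pool.Agent.Lib.MP_56ee40_nt.NormIneq
import Pool.Agent.Lib.MP_56ee40_nt.RClose
import Pool.Agent.Lib.MP_56ee40_nt.ZL
import Pool.Agent.Lib.MP_56ee40_nt.MkDat

namespace Pool.Agent.TwoRep

open Finset Polynomial

/-- **DMAIN: fixed `x`, `y → ∞`** (assembly). PROOF. `K` from `siegelD`, `K1` from `real_estD`,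
`y0, l0` from `numD`.  Given a solution with `y ≥ y0`, `l ≥ l0`: `d` from `exists_dat` with anchor
`(0,0)`: `A = x(y-1)`, `B = (x-1) y`, `C = y-x`, `X = x^k`, `Y = y^l`, `d.y = y`, `b = x-1`, `Y2 = 1`,
`d.l = l`.  Real `z0 = zz0 √A √B √C`, `z = zz ...`; `close_z` with `W = y^l`
(`C y^(2l) ≤ 2 B Y^2`), `closeD`.  `c` from `siegelD`.  `zero_estimate` with `S = regionD l`,
`R = 3l`, `J = 2`, `H = K^l`, `M = l/10`, `regionD_ne`, and `numD` give `t < l/10` with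
`GG (z0,z) ≠ 0`.  `G_integral` with `a0 = l/2`, `J = 2`, `b0 = 3l+2`:
`U ± V ρ = y^(l/2) (x-1)^(3l+2) GG(z0^(±1), z^(±1))`, `ρ = √A √C`; `real_estD` for
`(τ, z0, z)` and `(1/τ, z0⁻¹, z⁻¹)`; `norm_ineq_real` contradicts `numD`. -/
theorem D_thm (x : ℕ) (hx : 2 ≤ x) : ∃ y0 l0 : ℕ, ∀ y k l : ℕ, y0 ≤ y → l0 ≤ l →
    ¬ Sol x y k l := by
  obtain ⟨K, hK, hsieg⟩ := siegelD x hx
  obtain ⟨K1, hK1, hest⟩ := real_estD x hx K hK
  obtain ⟨y0, l0, hy0, hl0, hnum⟩ := numD x K K1 hx hK hK1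
  refine ⟨y0, l0, fun y k l hyy hll hSol => ?_⟩
  obtain ⟨hn1, hn2⟩ := hnum y l hyy hll
  have hl200 : 200 ≤ l := hl0.trans hll
  have hl1 : 1 ≤ l := by omega
  have hy16 : 16 * x ≤ y := hy0.trans hyy
  have hlt := hSol.lt
  have hR00 : Rep x y 0 0 := by
    unfold Rep
    simp
  obtain ⟨-, d, hA, hB, hC, hX, hY, hdy, hb, hY2, hdl⟩ :=
    exists_dat x y 0 0 k l hx hSol.ppy hSol.cop hlt hR00 hSol.eq (by omega)
  have hdl' : d.l = l := by rw [hdl]; simp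
  have hdy' : d.y = (y : ℤ) := by rw [hdy]; simp
  have hY2' : d.Y2 = 1 := by rw [hY2]; simp [Nat.mod_one]
  have hY' : d.Y = (y : ℤ) ^ l := by rw [hY]; simp
  have hxR : (2 : ℝ) ≤ x := by exact_mod_cast hx
  have hy16R : 16 * (x : ℝ) ≤ y := by exact_mod_cast hy16
  have hAR : (d.A : ℝ) = x * (y - 1) := by
    rw [hA]; push_cast; ring
  have hBR : (d.B : ℝ) = y * (x - 1) := by
    rw [hB]; push_cast; ring
  have hCR : (d.C : ℝ) = y - x := by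
    rw [hC]; push_cast; ring
  have hYR : (d.Y : ℝ) = (y : ℝ) ^ l := by rw [hY']; push_cast; ring
  have hyR : (d.y : ℝ) = (y : ℝ) := by rw [hdy']; push_cast; ring
  have hbR : (d.b : ℝ) = (x : ℝ) - 1 := by rw [hb]; push_cast; ring
  have hy0p := d.hy0
  have hb0 := d.hb0
  have hC0 := d.hC0
  have hX0 := d.hX0
  have hY20 := d.hY20
  have hB0 : 0 < d.B := by rw [d.hB]; positivity
  have hA0 : 0 < d.A := by rw [d.hABC]; positivity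
  have hY0 : 0 < d.Y := by rw [d.hY]; positivity
  have hBr : (0 : ℝ) < d.B := by exact_mod_cast hB0
  have hAr : (0 : ℝ) < d.A := by exact_mod_cast hA0
  have hCr : (0 : ℝ) < d.C := by exact_mod_cast hC0
  have hYr : (0 : ℝ) < d.Y := by exact_mod_cast hY0
  have hXr : (0 : ℝ) < d.X := by exact_mod_cast hX0
  have hyr : (0 : ℝ) < (y : ℝ) := by linarith
  have hABCr : (d.A : ℝ) = d.B + d.C := by exact_mod_cast d.hABC
  have heqr : (d.A : ℝ) * d.X ^ 2 = d.B * d.Y ^ 2 + d.C := by exact_mod_cast d.heq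
  -- real place
  obtain ⟨z0, hz0⟩ : ∃ z0 : ℝ, z0 = zz0 (√(d.A : ℝ)) (√(d.B : ℝ)) (√(d.C : ℝ)) := ⟨_, rfl⟩
  obtain ⟨z, hz⟩ : ∃ z : ℝ, z = zz d.X d.Y d.ε (√(d.A : ℝ)) (√(d.B : ℝ)) (√(d.C : ℝ)) := ⟨_, rfl⟩
  have hc0 := close_z0 d x hxR (by
    rw [hAR, hCR]
    nlinarith)
  have hyl2 : (2 : ℝ) ≤ (y : ℝ) ^ l := by
    calc (2 : ℝ) ≤ y := by linarith
      _ = (y : ℝ) ^ 1 := (pow_one _).symm
      _ ≤ (y : ℝ) ^ l := pow_le_pow_right₀ (by linarith) (by omega)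
  have hcz := close_z d ((y : ℝ) ^ l) hyl2 (by
    rw [hYR, hBR, hCR]
    have h1 : (0 : ℝ) ≤ ((y : ℝ) ^ l) ^ 2 := by positivity
    have h2 : (y : ℝ) - x ≤ 2 * (y * (x - 1)) := by nlinarith
    calc ((y : ℝ) - x) * ((y : ℝ) ^ l) ^ 2 ≤ (2 * (y * (x - 1))) * ((y : ℝ) ^ l) ^ 2 :=
          mul_le_mul_of_nonneg_right h2 h1
      _ = 2 * (y * (x - 1) * ((y : ℝ) ^ l) ^ 2) := by ring)
  have hcD := closeD x y hxR hy16R
  rw [← hAR, ← hBR, ← hCR, ← hz0] at hcD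
  rw [← hz0] at hc0
  rw [← hz] at hcz
  obtain ⟨hz0p, hz01, -, -⟩ := hc0
  obtain ⟨hzp, hz1, hzc, hzc'⟩ := hcz
  obtain ⟨hcD1, hcD2⟩ := hcD
  -- Siegel
  obtain ⟨c, hcne, hcH, hlev⟩ := hsieg l hl1
  have hreg := regionD_mem l hl1
  have hR1 : ∀ v ∈ regionD l, v.1.natAbs ≤ 3 * l := fun v hv => (hreg v hv).2.2.1
  have hR2 : ∀ v ∈ regionD l, v.2.natAbs ≤ 2 := fun v hv => by
    rcases (hreg v hv).1 with h | h | h <;> rw [h] <;> decide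
  have hR3 : ∀ v ∈ regionD l, (v.1 + d.l * v.2).natAbs ≤ l / 2 := fun v hv => by
    rw [hdl']; exact (hreg v hv).2.1
  have hR4 : ∀ v ∈ regionD l, v.1.natAbs + v.2.natAbs ≤ 3 * l + 2 := fun v hv => by
    have := hR1 v hv
    have := hR2 v hv
    omega
  -- nonvanishing
  have hne := regionD_ne l hl1 c hcne z hzp
  have hsA : √(d.A : ℝ) ^ 2 = d.A := Real.sq_sqrt hAr.le
  have hsB : √(d.B : ℝ) ^ 2 = d.B := Real.sq_sqrt hBr.le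
  have hsC : √(d.C : ℝ) ^ 2 = d.C := Real.sq_sqrt hCr.le
  have hsB0 : √(d.B : ℝ) ≠ 0 := (Real.sqrt_pos.mpr hBr).ne'
  have hz4 : (d.B : ℝ) * z0 ^ 4 - 2 * (d.A + d.C) * z0 ^ 2 + d.B = 0 := by
    have e1 : √(d.B : ℝ) * z0 = √(d.A : ℝ) - √(d.C : ℝ) := by
      rw [hz0]; unfold zz0; field_simp
    have e2 : (d.B : ℝ) * z0 ^ 2 = d.A + d.C - 2 * (√(d.A : ℝ) * √(d.C : ℝ)) := by
      calc (d.B : ℝ) * z0 ^ 2 = (√(d.B : ℝ) * z0) ^ 2 := by rw [mul_pow, hsB]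
        _ = _ := by rw [e1]; ring_nf; rw [hsA, hsC]
    have e3 : (√(d.A : ℝ) * √(d.C : ℝ)) ^ 2 = d.A * d.C := by rw [mul_pow, hsA, hsC]
    have e4 : (d.B : ℝ) * ((d.B : ℝ) * z0 ^ 4 - 2 * (d.A + d.C) * z0 ^ 2 + d.B) = 0 := by
      have : (d.B : ℝ) * ((d.B : ℝ) * z0 ^ 4 - 2 * (d.A + d.C) * z0 ^ 2 + d.B) =
          (d.B * z0 ^ 2) ^ 2 - 2 * (d.A + d.C) * (d.B * z0 ^ 2) + d.B ^ 2 := by ring
      rw [this, e2]
      have hB' : (d.B : ℝ) = d.A - d.C := by linarith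
      rw [hB']
      linear_combination 4 * e3
    rcases mul_eq_zero.mp e4 with h | h
    · exact absurd h hBr.ne'
    · exact h
  have hyB : d.y ∣ d.B := ⟨d.b, d.hB⟩
  have hyC : IsCoprime d.y d.C := by
    rw [hdy', hC]
    have h1 : IsCoprime (y : ℤ) (x : ℤ) := Nat.isCoprime_iff_coprime.mpr hSol.cop.symm
    have h2 : ((y : ℤ) - x) = -(x : ℤ) + (y : ℤ) * 1 := by ring
    rw [h2]
    exact IsCoprime.add_mul_left_right h1.neg_right 1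
  obtain ⟨t, htM, htne⟩ : ∃ t < l / 10, GG (regionD l) c (2 * (3 * l) + 2) t z0 z ≠ 0 := by
    by_contra hcon
    push Not at hcon
    have hze := zero_estimate d.A d.B d.C d.y d.hABC hB0 hC0 hy0p hyB hyC z0 z hz0p hz01 hz4
      hzp.ne' (regionD l) c (3 * l) 2 (K ^ l) hR1 hR2 hcH (Nat.one_le_pow _ _ hK) hne (l / 10) hcon
    rw [hyR] at hze
    norm_num at hze hn1
    linarith
  -- integrality
  obtain ⟨U, V, hUV⟩ := G_integral d (regionD l) c (2 * (3 * l) + 2) t (l / 2) 2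
    (3 * l + 2) hR3 hR2 hR4
  obtain ⟨N0, hN0⟩ : ∃ N0 : ℝ, N0 = (y : ℝ) ^ (l / 2) * ((x : ℝ) - 1) ^ (3 * l + 2) := ⟨_, rfl⟩
  have hN0p : 0 < N0 := by
    rw [hN0]
    have : (0 : ℝ) < (x : ℝ) - 1 := by linarith
    positivity
  have hN0' : (d.y : ℝ) ^ (l / 2) * (d.Y2 : ℝ) ^ 2 * (d.b : ℝ) ^ (3 * l + 2) = N0 := by
    rw [hN0, hyR, hbR, hY2']; push_cast; ring
  have hr1 : (U : ℝ) + V * (√(d.A : ℝ) * √(d.C : ℝ)) =
      N0 * GG (regionD l) c (2 * (3 * l) + 2) t z0 z := by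
    have := hUV ℝ (√(d.A : ℝ)) (√(d.B : ℝ)) (√(d.C : ℝ)) hsA hsB hsC
    rw [← hz0, ← hz, hN0'] at this
    exact this
  have hr2 : (U : ℝ) - V * (√(d.A : ℝ) * √(d.C : ℝ)) =
      N0 * GG (regionD l) c (2 * (3 * l) + 2) t z0⁻¹ z⁻¹ := by
    have := hUV ℝ (√(d.A : ℝ)) (√(d.B : ℝ)) (-√(d.C : ℝ)) hsA hsB (by rw [neg_sq]; exact hsC)
    rw [zz0_conj _ _ _ hsB0 (by rw [hsA, hsB, hsC]; exact hABCr),
      zz_conj d.X d.Y d.ε d.hε _ _ _ (mul_ne_zero hsB0 hYr.ne') (by rw [hsA, hsB, hsC]; exact heqr),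
      ← hz0, ← hz, hN0'] at this
    rw [← this]; ring
  -- real bounds
  have htl : t ≤ l := by omega
  have hb1 := hest l t y c ((√(x : ℝ) - 1) / √((x : ℝ) - 1)) z0 z hl1 htl hy16R hcH (Or.inl rfl)
    hcD1 hzp hzc hzc' (fun a ha => (hlev a ha).1)
  have hb2 := hest l t y c ((√(x : ℝ) + 1) / √((x : ℝ) - 1)) z0⁻¹ z⁻¹ hl1 htl hy16R hcH
    (Or.inr rfl) hcD2 (inv_pos.mpr hzp) hzc' (by rw [inv_inv]; exact hzc)
    (fun a ha => (hlev a ha).2)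
  have hfin := norm_ineq_real (d.A * d.C) U V (√(d.A : ℝ) * √(d.C : ℝ))
    (by rw [mul_pow, hsA, hsC]; push_cast; ring)
    (N0 * ((K1 : ℝ) ^ l / (y : ℝ) ^ (l - t)))
    (by rw [hr1, abs_mul, abs_of_pos hN0p]; exact mul_le_mul_of_nonneg_left hb1 hN0p.le)
    (by rw [hr2, abs_mul, abs_of_pos hN0p]; exact mul_le_mul_of_nonneg_left hb2 hN0p.le)
    (by rw [hr1]; exact mul_ne_zero hN0p.ne' htne)
  have hlast := hn2 t htM
  rw [← hN0] at hlast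
  linarith

end Pool.Agent.TwoRep
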