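import Pool.Agent.Lib.MP_56ee40_nt.RungeA

namespace Pool.Agent.TwoRep

open Finset Polynomial

private theorem rb_geo (a n : ℕ) (ha : 2 ≤ a) :
    a ^ n ≤ ∑ i ∈ range (n + 1), a ^ i ∧ ∑ i ∈ range (n + 1), a ^ i ≤ 2 * a ^ n := by
  constructor
  · rw [Finset.sum_range_succ]
    exact Nat.le_add_left _ _
  · induction n with
    | zero => simp
    | succ n ih =>
      rw [Finset.sum_range_succ]
      have : 2 * a ^ n ≤ a ^ (n + 1) := by
        rw [pow_succ']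
        exact Nat.mul_le_mul_right _ ha
      omega

private theorem rb_pow {x y k l : ℕ} (hx : 2 ≤ x) (hy : 2 ≤ y) (h : Rep x y k l) :
    x ^ k ≤ 2 * y ^ l := by
  have h1 := (rb_geo x (2 * k) hx).1
  have h2 := (rb_geo y (2 * l) hy).2
  unfold Rep at h
  rw [h] at h1
  have h3 : (x ^ k) ^ 2 ≤ (2 * y ^ l) ^ 2 := by
    rw [mul_pow, ← pow_mul, ← pow_mul, mul_comm k 2, mul_comm l 2]
    have := h1.trans h2
    omega
  exact (Nat.pow_le_pow_iff_left (by norm_num)).1 h3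

private theorem rb_P (k x : ℕ) : x ^ k ≤
    ∑ i ∈ range (k + 1), Nat.centralBinom i * 4 ^ (k - i) * x ^ (k - i) := by
  refine le_trans ?_ (Finset.single_le_sum
    (f := fun i => Nat.centralBinom i * 4 ^ (k - i) * x ^ (k - i))
    (fun i _ => Nat.zero_le _) (Finset.mem_range.2 (Nat.succ_pos k)))
  simp only [Nat.centralBinom_zero, one_mul, Nat.sub_zero]
  exact Nat.le_mul_of_pos_left _ (by positivity)

/-- the difference of two different squares -/
private theorem rb_sq {U V a b : ℕ} (h : U ^ 2 + a = V ^ 2 + b) (hUV : U < V) : V ≤ a := by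
  have h1 : U ^ 2 + V ≤ V ^ 2 := by
    have h2 : U * U ≤ U * V := Nat.mul_le_mul_left _ hUV.le
    have h3 : (U + 1) * V ≤ V * V := Nat.mul_le_mul_right _ hUV
    rw [sq, sq]
    nlinarith
  omega

private theorem rb_cancel {x c n : ℕ} (hx : 0 < x) (h : x ^ (n + 1) ≤ c * x ^ n) : x ≤ c := by
  rw [pow_succ'] at h
  exact Nat.le_of_mul_le_mul_right h (pow_pos hx n)

/-- one of the numbers is bounded, or the polynomial parts agree -/
private theorem rb_half {x y k l R R' P P' : ℕ} (hx : 2 ≤ x) (hk : 1 ≤ k)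
    (hR : R ≤ 16 ^ k * k * x ^ (k - 1)) (hP' : y ^ l ≤ P')
    (hxy : x ^ k ≤ 2 * y ^ l)
    (h : (4 ^ l * P) ^ 2 + 16 ^ l * R = (4 ^ k * P') ^ 2 + 16 ^ k * R')
    (hlt : 4 ^ l * P < 4 ^ k * P') : x ≤ 2 * (k + l) * 16 ^ (k + l) := by
  have h1 := rb_sq h hlt
  have h2 : y ^ l ≤ 16 ^ l * (16 ^ k * k * x ^ (k - 1)) := by
    calc y ^ l ≤ P' := hP'
      _ ≤ 4 ^ k * P' := Nat.le_mul_of_pos_left _ (by positivity)
      _ ≤ 16 ^ l * R := h1
      _ ≤ _ := Nat.mul_le_mul_left _ hR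
  obtain ⟨m, rfl⟩ : ∃ m, k = m + 1 := ⟨k - 1, by omega⟩
  apply rb_cancel (n := m) (by omega)
  calc x ^ (m + 1) ≤ 2 * y ^ l := hxy
    _ ≤ 2 * (16 ^ l * (16 ^ (m + 1) * (m + 1) * x ^ (m + 1 - 1))) := Nat.mul_le_mul_left _ h2
    _ = 2 * (m + 1) * 16 ^ (m + 1 + l) * x ^ m := by
        rw [pow_add 16 (m + 1) l, Nat.add_sub_cancel]
        ring
    _ ≤ 2 * (m + 1 + l) * 16 ^ (m + 1 + l) * x ^ m := by
        apply Nat.mul_le_mul_right
        apply Nat.mul_le_mul_right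
        omega

/-- **RUNGEB.** PROOF. Let `N` be the common value, `P_k(x)`, `R_k(x)` from `sqrt_part`
(`l ≥ 1`, `k ≥ 1`).  `U = 4^l P_k(x)`, `V = 4^k P_l(y)`:
`U² + 16^l R_k(x) = 16^(k+l) N = V² + 16^k R_l(y)`.
If `U ≠ V` then `|U² - V²| ≥ U + V ≥ V ≥ y^l` (`P_l(y) ≥ 4^l y^l`), but
`|U²-V²| ≤ max(16^l R_k, 16^k R_l) ≤ 16^(k+l) (k x^(k-1) + l y^(l-1))`; with `x^k ≤ U + ...`,
i.e. `x^(2k) ≤ N ≤ 2 y^(2l)` (`y ≥ 2`), `x^k ≤ 2 y^l`: `y^l ≤ 16^(k+l)(2 k y^l/x + l y^l/y)`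
so `x` or `y` is bounded by a constant depending on `k, l` (e.g. `x ≤ 16^(k+l) 4k` or
`y ≤ 16^(k+l) 2l`), and then both are (one determines a bound for the other through `N`;
`N ≤ x^(2k+1)`, `N ≥ y^(2l) ≥ y`).
If `U = V` then `16^l R_k(x) = 16^k R_l(y)`, so `x^(k-1) ≤ 16^l R_k(x) ≤ 16^(k+l) l y^(l-1)`;
multiply by `y`: `x^(k-1) y ≤ 16^(k+l) l y^l ≤ 16^(k+l) l * 2 x^k`
(`y^(2l) ≤ N ≤ 2 x^(2k)`, `x ≥ 2`), so `y ≤ c x`, `c = 2 l 16^(k+l)`; and `x^(2k) ≤ 2 y^(2l) ≤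
2 c^(2l) x^(2l)`, so `x^(2(k-l)) ≤ 2 c^(2l)` and `x` is bounded (`l < k`), then `y ≤ c x`. -/
theorem runge (k l : ℕ) (hl : 1 ≤ l) (hkl : l < k) :
    {t : ℕ × ℕ | 2 ≤ t.1 ∧ 2 ≤ t.2 ∧ Rep t.1 t.2 k l}.Finite := by
  set c := 2 * (k + l) * 16 ^ (k + l) with hc
  have hc1 : 1 ≤ c := by
    have : 0 < 2 * (k + l) * 16 ^ (k + l) := Nat.mul_pos (by omega) (by positivity)
    omega
  refine Set.Finite.subset ((Set.finite_Iic (c + 2 * c ^ (2 * k) + 2 * c ^ (2 * l) + 2 * c ^ l +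
    c * (2 * c ^ l))).prod (Set.finite_Iic (c + 2 * c ^ (2 * k) + 2 * c ^ (2 * l) + 2 * c ^ l +
    c * (2 * c ^ l)))) ?_
  rintro ⟨x, y⟩ ⟨hx, hy, hrep⟩
  simp only at hx hy hrep
  rw [Set.mem_prod, Set.mem_Iic, Set.mem_Iic]
  simp only
  have hrep' : Rep y x l k := by
    unfold Rep at hrep ⊢
    exact hrep.symm
  have b1 := rb_pow hx hy hrep
  have b2 := rb_pow hy hx hrep'
  obtain ⟨R, e1, lo1, up1⟩ := sqrt_part k x (by omega) (by omega)
  obtain ⟨R', e2, lo2, up2⟩ := sqrt_part l y hl (by omega)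
  set P := ∑ i ∈ range (k + 1), Nat.centralBinom i * 4 ^ (k - i) * x ^ (k - i) with hPdef
  set P' := ∑ i ∈ range (l + 1), Nat.centralBinom i * 4 ^ (l - i) * y ^ (l - i) with hP'def
  have hP : x ^ k ≤ P := rb_P k x
  have hP' : y ^ l ≤ P' := rb_P l y
  have hrel : (4 ^ l * P) ^ 2 + 16 ^ l * R = (4 ^ k * P') ^ 2 + 16 ^ k * R' := by
    have s1 : (4 ^ l * P) ^ 2 + 16 ^ l * R = 16 ^ l * (P ^ 2 + R) := by
      rw [mul_pow, ← pow_mul, mul_comm l 2, pow_mul]
      norm_num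
      ring
    have s2 : (4 ^ k * P') ^ 2 + 16 ^ k * R' = 16 ^ k * (P' ^ 2 + R') := by
      rw [mul_pow, ← pow_mul, mul_comm k 2, pow_mul]
      norm_num
      ring
    unfold Rep at hrep
    rw [s1, s2, e1, e2, hrep]
    ring
  -- bounds for one number from a bound for the other
  have fromx : x ≤ c → y ≤ 2 * c ^ (2 * k) := by
    intro h
    have g1 := (rb_geo y (2 * l) hy).1
    have g2 := (rb_geo x (2 * k) hx).2
    unfold Rep at hrep
    calc y = y ^ 1 := (pow_one y).symm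
      _ ≤ y ^ (2 * l) := Nat.pow_le_pow_right (by omega) (by omega)
      _ ≤ _ := g1
      _ = _ := hrep.symm
      _ ≤ 2 * x ^ (2 * k) := g2
      _ ≤ 2 * c ^ (2 * k) := Nat.mul_le_mul_left _ (Nat.pow_le_pow_left h _)
  have fromy : y ≤ c → x ≤ 2 * c ^ (2 * l) := by
    intro h
    have g1 := (rb_geo x (2 * k) hx).1
    have g2 := (rb_geo y (2 * l) hy).2
    unfold Rep at hrep
    calc x = x ^ 1 := (pow_one x).symm
      _ ≤ x ^ (2 * k) := Nat.pow_le_pow_right (by omega) (by omega)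
      _ ≤ _ := g1
      _ = _ := hrep
      _ ≤ 2 * y ^ (2 * l) := g2
      _ ≤ 2 * c ^ (2 * l) := Nat.mul_le_mul_left _ (Nat.pow_le_pow_left h _)
  rcases lt_trichotomy (4 ^ l * P) (4 ^ k * P') with h | h | h
  · have hxc : x ≤ c := rb_half hx (by omega) up1 hP' b1 hrel h
    have := fromx hxc
    exact ⟨by omega, by omega⟩
  · -- the polynomial parts agree
    have hRR : 16 ^ l * R = 16 ^ k * R' := by
      rw [h] at hrel
      exact Nat.add_left_cancel hrel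
    have h1 : x ^ (k - 1) ≤ 16 ^ (k + l) * l * y ^ (l - 1) := by
      calc x ^ (k - 1) ≤ R := lo1
        _ ≤ 16 ^ l * R := Nat.le_mul_of_pos_left _ (by positivity)
        _ = 16 ^ k * R' := hRR
        _ ≤ 16 ^ k * (16 ^ l * l * y ^ (l - 1)) := Nat.mul_le_mul_left _ up2
        _ = _ := by rw [pow_add]; ring
    have h2 : y ≤ c * x := by
      have h3 : y * x ^ (k - 1) ≤ c * x * x ^ (k - 1) := by
        calc y * x ^ (k - 1) ≤ y * (16 ^ (k + l) * l * y ^ (l - 1)) := Nat.mul_le_mul_left _ h1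
          _ = 16 ^ (k + l) * l * y ^ l := by
              obtain ⟨m, rfl⟩ : ∃ m, l = m + 1 := ⟨l - 1, by omega⟩
              rw [Nat.add_sub_cancel, pow_succ y m]
              ring
          _ ≤ 16 ^ (k + l) * l * (2 * x ^ k) := Nat.mul_le_mul_left _ b2
          _ = 2 * l * 16 ^ (k + l) * x ^ k := by ring
          _ ≤ c * x ^ k := by
              apply Nat.mul_le_mul_right
              rw [hc]
              apply Nat.mul_le_mul_right
              omega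
          _ = c * x * x ^ (k - 1) := by
              obtain ⟨m, rfl⟩ : ∃ m, k = m + 1 := ⟨k - 1, by omega⟩
              rw [Nat.add_sub_cancel, pow_succ x m]
              ring
      exact Nat.le_of_mul_le_mul_right h3 (pow_pos (by omega) _)
    have h4 : x ≤ 2 * c ^ l := by
      apply rb_cancel (n := l) (by omega)
      calc x ^ (l + 1) ≤ x ^ k := Nat.pow_le_pow_right (by omega) hkl
        _ ≤ 2 * y ^ l := b1
        _ ≤ 2 * (c * x) ^ l := Nat.mul_le_mul_left _ (Nat.pow_le_pow_left h2 _)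
        _ = 2 * c ^ l * x ^ l := by rw [mul_pow]; ring
    have h5 : y ≤ c * (2 * c ^ l) := h2.trans (Nat.mul_le_mul_left _ h4)
    exact ⟨by omega, by omega⟩
  · have hyc : y ≤ c := by
      have := rb_half (k := l) (l := k) hy hl up2 hP b2 hrel.symm h
      rw [hc]
      rwa [add_comm l k] at this
    have := fromy hyc
    exact ⟨by omega, by omega⟩

end Pool.Agent.TwoRep
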