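import Pool.Agent.Lib.MP_56ee40_nt.F1
import Pool.Agent.Lib.MP_56ee40_nt.RungeB

namespace Pool.Agent.TwoRep

open Finset Polynomial

private theorem F3_lt {x y k l : ℕ} (h : Sol x y k l) : l < k := by
  by_contra hkl
  push Not at hkl
  have h1 : ∑ i ∈ range (2 * k + 1), x ^ i ≤ ∑ i ∈ range (2 * l + 1), x ^ i :=
    Finset.sum_le_sum_of_subset (Finset.range_subset_range.2 (by omega))
  have h2 : ∑ i ∈ range (2 * l + 1), x ^ i < ∑ i ∈ range (2 * l + 1), y ^ i := by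
    refine Finset.sum_lt_sum (fun i _ => Nat.pow_le_pow_left h.lt.le i) ⟨1, ?_, ?_⟩
    · rw [Finset.mem_range]
      have := h.one_le
      omega
    · simpa using h.lt
  have h3 := h.eq
  omega

/-- **F3.** For fixed `l` finitely many solutions.  PROOF.  `l < k` (as `x < y`).
`y ≤ (4x)^(l+1) ≤ x^(3(l+1))` (`x ≥ 2`), `x^(2k) ≤ N ≤ y^(2l+1) ≤ x^(3(l+1)(2l+1))`, so
`2k ≤ 3(l+1)(2l+1)`; for each of the finitely many `k` use `runge`. -/
theorem F_thm (l : ℕ) : {t : ℕ × ℕ × ℕ | Sol t.1 t.2.1 t.2.2 l}.Finite := by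
  have hfin : (⋃ k ∈ Set.Iic (3 * (l + 1) * (2 * l + 1)),
      (fun t : ℕ × ℕ => ((t.1, t.2, k) : ℕ × ℕ × ℕ)) ''
        {t : ℕ × ℕ | 1 ≤ l ∧ l < k ∧ 2 ≤ t.1 ∧ 2 ≤ t.2 ∧ Rep t.1 t.2 k l}).Finite := by
    refine Set.Finite.biUnion (Set.finite_Iic _) fun k _ => Set.Finite.image _ ?_
    by_cases h : 1 ≤ l ∧ l < k
    · exact (runge k l h.1 h.2).subset fun t ht => ht.2.2
    · refine Set.finite_empty.subset fun t ht => ?_
      exact absurd ⟨ht.1, ht.2.1⟩ h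
  refine hfin.subset ?_
  rintro ⟨x, y, k⟩ (h : Sol x y k l)
  have hx : 2 ≤ x := h.ppx.one_lt
  have hy : 2 ≤ y := h.ppy.one_lt
  have hy1 := y_le x y k l h
  have hy2 : y ≤ x ^ (3 * (l + 1)) := by
    refine hy1.trans ?_
    rw [pow_mul]
    refine Nat.pow_le_pow_left ?_ _
    nlinarith [Nat.mul_le_mul hx hx]
  have hx1 : x ^ (2 * k) ≤ ∑ i ∈ range (2 * k + 1), x ^ i :=
    Finset.single_le_sum (f := fun i => x ^ i) (fun i _ => Nat.zero_le _)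
      (Finset.mem_range.2 (by omega))
  have hx2 : ∑ i ∈ range (2 * l + 1), y ^ i < y ^ (2 * l + 1) :=
    Nat.geomSum_lt hy (fun i hi => Finset.mem_range.1 hi)
  have hx3 : x ^ (2 * k) ≤ x ^ (3 * (l + 1) * (2 * l + 1)) := by
    calc x ^ (2 * k) ≤ y ^ (2 * l + 1) := by rw [h.eq] at hx1; omega
      _ ≤ (x ^ (3 * (l + 1))) ^ (2 * l + 1) := Nat.pow_le_pow_left hy2 _
      _ = _ := by rw [← pow_mul]
  have hk : 2 * k ≤ 3 * (l + 1) * (2 * l + 1) := (Nat.pow_le_pow_iff_right (by omega)).1 hx3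
  rw [Set.mem_iUnion₂]
  refine ⟨k, ?_, ⟨(x, y), ⟨h.one_le, F3_lt h, hx, hy, h.eq⟩, rfl⟩⟩
  rw [Set.mem_Iic]
  omega

end Pool.Agent.TwoRep
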