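import Pool.Agent.Lib.MP_56ee40_nt.CE
import Pool.Agent.Lib.MP_56ee40_nt.F3
import Pool.Agent.Lib.MP_56ee40_nt.DMain

namespace Pool.Agent.TwoRep

open Finset Polynomial

private theorem Core_l (L : ℕ) :
    {t : ℕ × ℕ × ℕ × ℕ | Sol t.1 t.2.1 t.2.2.1 t.2.2.2 ∧ t.2.2.2 < L}.Finite := by
  have hfin : (⋃ l ∈ Set.Iio L, (fun t : ℕ × ℕ × ℕ => ((t.1, t.2.1, t.2.2, l) : ℕ × ℕ × ℕ × ℕ)) ''
      {t : ℕ × ℕ × ℕ | Sol t.1 t.2.1 t.2.2 l}).Finite :=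
    Set.Finite.biUnion (Set.finite_Iio _) fun l _ => (F_thm l).image _
  refine hfin.subset ?_
  rintro ⟨x, y, k, l⟩ ⟨h, hl⟩
  rw [Set.mem_iUnion₂]
  exact ⟨l, hl, ⟨(x, y, k), h, rfl⟩⟩

private theorem Core_y (x Y : ℕ) :
    {t : ℕ × ℕ × ℕ × ℕ | Sol t.1 t.2.1 t.2.2.1 t.2.2.2 ∧ t.1 = x ∧ t.2.1 < Y}.Finite := by
  have hfin : (⋃ y ∈ Set.Iio Y, (fun t : ℕ × ℕ => ((x, y, t.1, t.2) : ℕ × ℕ × ℕ × ℕ)) ''
      {t : ℕ × ℕ | Sol x y t.1 t.2}).Finite :=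
    Set.Finite.biUnion (Set.finite_Iio _) fun y _ => (E_thm x y).image _
  refine hfin.subset ?_
  rintro ⟨x', y, k, l⟩ ⟨h, hx, hy⟩
  rw [Set.mem_iUnion₂]
  simp only at h hx hy
  subst hx
  exact ⟨y, hy, ⟨(k, l), h, rfl⟩⟩

private theorem Core_x (x : ℕ) :
    {t : ℕ × ℕ × ℕ × ℕ | Sol t.1 t.2.1 t.2.2.1 t.2.2.2 ∧ t.1 = x}.Finite := by
  by_cases hx : 2 ≤ x
  · obtain ⟨y0, l0, hD⟩ := D_thm x hx
    refine ((Core_l l0).union (Core_y x y0)).subset ?_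
    rintro ⟨x', y, k, l⟩ ⟨h, hx'⟩
    simp only at h hx'
    subst hx'
    by_cases hl : l < l0
    · exact Or.inl ⟨h, hl⟩
    · by_cases hy : y < y0
      · exact Or.inr ⟨h, rfl, hy⟩
      · exact absurd h (hD y k l (by omega) (by omega))
  · refine Set.finite_empty.subset ?_
    rintro ⟨x', y, k, l⟩ ⟨h, hx'⟩
    simp only at h hx'
    have := h.ppx.one_lt
    omega

/-- **CORE.** The final finiteness. PROOF: `l < 10000`: finitely many by `F_thm`.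
`l ≥ 10000`: `x < 2^K0` by `C_thm`; for each such `x` (`x ≥ 2`), `D_thm` gives `y0, l0`: solutions
with `y ≥ y0` have `l < l0` (`F_thm`), solutions with `y < y0`: finitely many pairs, `E_thm`. -/
theorem core_finite :
    {t : ℕ × ℕ × ℕ × ℕ | Sol t.1 t.2.1 t.2.2.1 t.2.2.2}.Finite := by
  have hfin : (⋃ x ∈ Set.Iio (2 ^ K0),
      {t : ℕ × ℕ × ℕ × ℕ | Sol t.1 t.2.1 t.2.2.1 t.2.2.2 ∧ t.1 = x}).Finite :=
    Set.Finite.biUnion (Set.finite_Iio _) fun x _ => Core_x x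
  refine ((Core_l 10000).union hfin).subset ?_
  rintro ⟨x, y, k, l⟩ h
  have h' : Sol x y k l := h
  by_cases hl : l < 10000
  · exact Or.inl ⟨h, hl⟩
  · right
    rw [Set.mem_iUnion₂]
    refine ⟨x, ?_, h', rfl⟩
    rw [Set.mem_Iio]
    by_contra hx
    exact C_thm x y k l h' (not_lt.1 hx) (by omega)

end Pool.Agent.TwoRep
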