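import Pool.Agent.Lib.MP_56ee40_nt.Defs

namespace Pool.Agent.TwoRep

open Finset Polynomial

/-- **CRAM.** PROOF: `f = ∑ ω_i F_i`, `(X - z₀)^M ∣ f`, so `(X-z₀)^(M-a) ∣ δ^a f` (`δ = X d/dX`).
With `A = wrM F`, `A *ᵥ (C ∘ ω) = (δ^a f)_a`, hence `adjugate A *ᵥ (δ^a f)_a = det A • (C ∘ ω)`;
the `i0`-th entry gives `C (ω i0) * det A = ∑_a adj_{i0,a} δ^a f`, each term divisible by
`(X - z₀)^(M-(r-1))`; divide by the unit `C (ω i0)`. -/
theorem cram_dvd {r : ℕ} (F : Fin r → ℝ[X]) (ω : Fin r → ℝ) (i0 : Fin r) (h0 : ω i0 ≠ 0)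
    (z0 : ℝ) (M : ℕ) (hd : (X - C z0) ^ M ∣ ∑ i, C (ω i) * F i) :
    (X - C z0) ^ (M - (r - 1)) ∣ (wrM F).det := by
  classical
  set f : ℝ[X] := ∑ i, C (ω i) * F i with hf
  have hdel : ∀ (g : ℝ[X]) (n : ℕ), (X - C z0) ^ n ∣ g → (X - C z0) ^ (n - 1) ∣ del ℝ g := by
    intro g n hg
    have h1 : del ℝ g = X * derivative g := rfl
    rw [h1]
    exact Dvd.dvd.mul_left (pow_sub_one_dvd_derivative_of_pow_dvd hg) _
  have hw : ∀ a : ℕ, (X - C z0) ^ (M - a) ∣ ((del ℝ) ^ a) f := by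
    intro a
    induction a with
    | zero => simpa using hd
    | succ a ih =>
      rw [pow_succ', Module.End.mul_apply, Nat.sub_add_eq]
      exact hdel _ _ ih
  have hlin : ∀ a : ℕ, ((del ℝ) ^ a) f = ∑ i, ((del ℝ) ^ a) (F i) * C (ω i) := by
    intro a
    rw [hf, map_sum]
    refine Finset.sum_congr rfl fun i _ => ?_
    rw [C_mul', map_smul, ← C_mul', mul_comm]
  set v : Fin r → ℝ[X] := fun i => C (ω i) with hv
  set w : Fin r → ℝ[X] := fun a => ((del ℝ) ^ (a : ℕ)) f with hw'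
  have hmul : (wrM F).mulVec v = w := by
    funext a
    simp only [hw', hv]
    rw [hlin]
    rfl
  have hadj : (wrM F).adjugate.mulVec w = (wrM F).det • v := by
    rw [← hmul, Matrix.mulVec_mulVec, Matrix.adjugate_mul, Matrix.smul_mulVec, Matrix.one_mulVec]
  have h1 := congrFun hadj i0
  rw [Pi.smul_apply, smul_eq_mul] at h1
  have h2 : (X - C z0) ^ (M - (r - 1)) ∣ (wrM F).det * v i0 := by
    rw [← h1]
    show (X - C z0) ^ (M - (r - 1)) ∣ ∑ a, (wrM F).adjugate i0 a * w a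
    refine Finset.dvd_sum fun a _ => ?_
    refine Dvd.dvd.mul_left ?_ _
    refine dvd_trans (pow_dvd_pow _ ?_) (hw a)
    have := a.2
    omega
  have hu : IsUnit (v i0) := by
    simp only [hv]
    exact isUnit_C.2 (isUnit_iff_ne_zero.2 h0)
  exact (hu.dvd_mul_right).1 h2

end Pool.Agent.TwoRep
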