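import Pool.Agent.Lib.MP_56ee40_nt.Defs

namespace Pool.Agent.TwoRep

open Finset Polynomial

private theorem dreg_mem_iff (l : ℕ) (v : ℤ × ℤ) : v ∈ regionD l ↔
    ((v.2 = -2 ∨ v.2 = 0 ∨ v.2 = 2) ∧ -((l / 2 : ℕ) : ℤ) ≤ v.1 + l * v.2 ∧
      v.1 + l * v.2 ≤ ((l / 2 : ℕ) : ℤ)) := by
  unfold regionD
  rw [mem_image]
  constructor
  · rintro ⟨p, hp, rfl⟩
    rw [mem_product, mem_Icc] at hp
    simp only [mem_insert, mem_singleton] at hp
    obtain ⟨h1, h2, h3⟩ := hp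
    refine ⟨h1, ?_, ?_⟩
    · simpa using h2
    · simpa using h3
  · rintro ⟨h1, h2, h3⟩
    refine ⟨(v.2, v.1 + l * v.2), ?_, ?_⟩
    · rw [mem_product, mem_Icc]
      simp only [mem_insert, mem_singleton]
      exact ⟨h1, h2, h3⟩
    · ext <;> simp

/-- **DREG.** -/
theorem regionD_card (l : ℕ) (hl : 1 ≤ l) : (regionD l).card = 3 * (2 * (l / 2) + 1) := by
  unfold regionD
  rw [card_image_of_injective, card_product, Int.card_Icc]
  · have h1 : (({-2, 0, 2} : Finset ℤ)).card = 3 := by decide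
    rw [h1]
    congr 1
    omega
  · rintro ⟨a, b⟩ ⟨c, d⟩ h
    simp only [Prod.mk.injEq] at h
    obtain ⟨h1, h2⟩ := h
    subst h2
    have : b = d := by linarith
    rw [this]

theorem regionD_mem (l : ℕ) (hl : 1 ≤ l) (v : ℤ × ℤ) (hv : v ∈ regionD l) :
    (v.2 = -2 ∨ v.2 = 0 ∨ v.2 = 2) ∧ (v.1 + l * v.2).natAbs ≤ l / 2 ∧ v.1.natAbs ≤ 3 * l ∧
      0 ≤ 2 * v.1 - v.2 + (2 * (3 * l) + 2 : ℕ) ∧ ex (2 * (3 * l) + 2) v ≤ 12 * l + 4 := by
  obtain ⟨s, j⟩ := v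
  rw [dreg_mem_iff] at hv
  obtain ⟨h1, h2, h3⟩ := hv
  simp only at h1 h2 h3
  refine ⟨h1, ?_, ?_, ?_, ?_⟩
  · simp only; omega
  · simp only
    rcases h1 with h | h | h <;> subst h <;> omega
  · simp only
    push_cast
    rcases h1 with h | h | h <;> subst h <;> omega
  · unfold ex
    simp only
    rcases h1 with h | h | h <;> subst h <;> omega

/-- exponents `2s - j = -(2l+1) j + 2 s'` with `|s'| ≤ l/2` are pairwise different. -/
theorem regionD_inj (l : ℕ) (hl : 1 ≤ l) (v v' : ℤ × ℤ) (hv : v ∈ regionD l)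
    (hv' : v' ∈ regionD l) (h : 2 * v.1 - v.2 = 2 * v'.1 - v'.2) : v = v' := by
  obtain ⟨s, j⟩ := v
  obtain ⟨s', j'⟩ := v'
  rw [dreg_mem_iff] at hv hv'
  obtain ⟨h1, h2, h3⟩ := hv
  obtain ⟨h1', h2', h3'⟩ := hv'
  simp only at h1 h2 h3 h1' h2' h3' h
  rw [Prod.mk.injEq]
  rcases h1 with e | e | e <;> subst e <;> rcases h1' with e | e | e <;> subst e <;>
    constructor <;> omega

/-- the auxiliary function is not identically zero (each exponent occurs once). -/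
theorem regionD_ne (l : ℕ) (hl : 1 ≤ l) (c : ℤ × ℤ → ℤ) (hc : ∃ v ∈ regionD l, c v ≠ 0)
    (z : ℝ) (hz : 0 < z) :
    ∃ e : ℤ, ∑ v ∈ regionD l with 2 * v.1 - v.2 = e, (c v : ℝ) * z ^ v.2 ≠ 0 := by
  obtain ⟨v, hv, hcv⟩ := hc
  refine ⟨2 * v.1 - v.2, ?_⟩
  have h1 : (regionD l).filter (fun v' => 2 * v'.1 - v'.2 = 2 * v.1 - v.2) = {v} := by
    ext v'
    rw [mem_filter, mem_singleton]
    constructor
    · rintro ⟨h2, h3⟩
      exact regionD_inj l hl v' v h2 hv h3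
    · rintro rfl
      exact ⟨hv, rfl⟩
  rw [h1, sum_singleton]
  exact mul_ne_zero (by exact_mod_cast hcv) (zpow_pos hz _).ne'

end Pool.Agent.TwoRep
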