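import Pool.Agent.Lib.MP_56ee40_nt.DReg

namespace Pool.Agent.TwoRep

open Finset Polynomial

section

open Matrix

attribute [local instance] Matrix.seminormedAddCommGroup

private theorem dsieg_aux {α : Type} [Fintype α] [Nonempty α] (S : Finset (ℤ × ℤ))
    (A : α → ℤ × ℤ → ℤ) (M : ℕ) (hM : 1 ≤ M) (hA : ∀ i, ∀ v ∈ S, |A i v| ≤ M)
    (hcount : 3 * Fintype.card α ≤ 2 * S.card) :
    ∃ c : ℤ × ℤ → ℤ, (∃ v ∈ S, c v ≠ 0) ∧ (∀ v ∈ S, |c v| ≤ (((S.card * M) ^ 2 : ℕ) : ℤ)) ∧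
      ∀ i, ∑ v ∈ S, c v * A i v = 0 := by
  classical
  have hm : 0 < Fintype.card α := Fintype.card_pos
  have hcS : Fintype.card S = S.card := Fintype.card_coe S
  have hn : Fintype.card α < Fintype.card S := by rw [hcS]; omega
  let B : Matrix α S ℤ := fun i v => A i v.1
  obtain ⟨t, ht0, htB, htn⟩ := Int.Matrix.exists_ne_zero_int_vec_norm_le B hn hm
  have hBn : ‖B‖ ≤ M := by
    rw [Matrix.norm_le_iff (by positivity)]
    intro i v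
    rw [Int.norm_eq_abs]
    exact_mod_cast hA i v.1 v.2
  have hbound : ‖t‖ ≤ ((S.card * M) ^ 2 : ℕ) := by
    refine htn.trans ?_
    rw [hcS]
    rw [hcS] at hn
    have hm' : (0 : ℝ) < Fintype.card α := by exact_mod_cast hm
    have hn' : (Fintype.card α : ℝ) < S.card := by exact_mod_cast hn
    have hc' : 3 * (Fintype.card α : ℝ) ≤ 2 * S.card := by exact_mod_cast hcount
    have hS1 : (1 : ℝ) ≤ S.card := by
      have : 1 ≤ S.card := by omega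
      exact_mod_cast this
    have hM' : (1 : ℝ) ≤ M := by exact_mod_cast hM
    have hmax : max 1 ‖B‖ ≤ M := max_le hM' hBn
    have hbase : (1 : ℝ) ≤ S.card * max 1 ‖B‖ := by
      calc (1 : ℝ) = 1 * 1 := by ring
        _ ≤ S.card * max 1 ‖B‖ := mul_le_mul hS1 (le_max_left _ _) (by norm_num) (by positivity)
    have hexp : (Fintype.card α : ℝ) / (S.card - Fintype.card α) ≤ (2 : ℕ) := by
      rw [div_le_iff₀ (by linarith)]
      push_cast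
      linarith
    calc ((S.card : ℝ) * max 1 ‖B‖) ^ ((Fintype.card α : ℝ) / (S.card - Fintype.card α))
        ≤ ((S.card : ℝ) * max 1 ‖B‖) ^ (((2 : ℕ) : ℝ)) :=
          Real.rpow_le_rpow_of_exponent_le hbase hexp
      _ = ((S.card : ℝ) * max 1 ‖B‖) ^ 2 := Real.rpow_natCast _ _
      _ ≤ ((S.card : ℝ) * M) ^ 2 := by gcongr
      _ = (((S.card * M) ^ 2 : ℕ) : ℝ) := by push_cast; ring
  refine ⟨fun v => if h : v ∈ S then t ⟨v, h⟩ else 0, ?_, ?_, ?_⟩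
  · by_contra hcon
    push Not at hcon
    apply ht0
    funext v
    have := hcon v.1 v.2
    rw [dif_pos v.2] at this
    exact this
  · intro v hv
    simp only [dif_pos hv]
    have h1 := norm_le_pi_norm t ⟨v, hv⟩
    rw [Int.norm_eq_abs] at h1
    have h2 := h1.trans hbound
    exact_mod_cast h2
  · intro i
    have h1 : (B *ᵥ t) i = 0 := by rw [htB]; rfl
    rw [Matrix.mulVec, dotProduct] at h1
    rw [← Finset.sum_coe_sort S (fun v => (if h : v ∈ S then t ⟨v, h⟩ else 0) * A i v), ← h1]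
    refine Finset.sum_congr rfl fun v _ => ?_
    rw [dif_pos v.2, mul_comm]

end

private theorem dsieg_pow (x : ℕ) (hx : 2 ≤ x) (n : ℕ) : ∃ p q : ℤ, 0 ≤ p ∧ 0 ≤ q ∧
    p ≤ (x + 1 : ℤ) ^ n ∧ q ≤ (x + 1 : ℤ) ^ n ∧
    (√(x : ℝ) + 1) ^ n = p + q * √(x : ℝ) ∧ (1 - √(x : ℝ)) ^ n = p - q * √(x : ℝ) := by
  have hs : √(x : ℝ) * √(x : ℝ) = x := Real.mul_self_sqrt (by positivity)
  have hx' : (2 : ℤ) ≤ x := by exact_mod_cast hx
  induction n with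
  | zero => exact ⟨1, 0, by norm_num, by norm_num, by norm_num, by norm_num, by norm_num,
      by norm_num⟩
  | succ n ih =>
    obtain ⟨p, q, hp, hq, hp1, hq1, h1, h2⟩ := ih
    refine ⟨p + x * q, p + q, by positivity, by positivity, ?_, ?_, ?_, ?_⟩
    · rw [pow_succ]; nlinarith
    · rw [pow_succ]; nlinarith
    · rw [pow_succ, h1]; push_cast; linear_combination (q : ℝ) * hs
    · rw [pow_succ, h2]; push_cast; linear_combination (q : ℝ) * hs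

/-- **DSIEG (a).** The powers of `ζ = ((√x-1)/√(x-1))² = (√x-1)/(√x+1)` in integer coordinates:
for `|m| ≤ R` there are integers `u, v` with `|u|, |v| ≤ (x+1)^(2R)` and
`(x-1)^R ζ^m = u + v √x`, and with the same `u, v`, `(x-1)^R ζ^(-m) = u - v √x`.
PROOF: `(√x ∓ 1)^(2|m|) (x-1)^(R-|m|)`; coordinates of `(√x ∓ 1)^n` are bounded by `(x+1)^n`. -/
theorem zeta_pow (x : ℕ) (hx : 2 ≤ x) (R : ℕ) (m : ℤ) (hm : m.natAbs ≤ R) : ∃ u v : ℤ,
    |u| ≤ (x + 1 : ℤ) ^ (2 * R) ∧ |v| ≤ (x + 1 : ℤ) ^ (2 * R) ∧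
    ((x : ℝ) - 1) ^ R * ((√(x : ℝ) - 1) / √((x : ℝ) - 1)) ^ (2 * m) = u + v * √(x : ℝ) ∧
    ((x : ℝ) - 1) ^ R * ((√(x : ℝ) + 1) / √((x : ℝ) - 1)) ^ (2 * m) = u - v * √(x : ℝ) := by
  have hxr : (2 : ℝ) ≤ x := by exact_mod_cast hx
  have hx' : (2 : ℤ) ≤ x := by exact_mod_cast hx
  have hx1 : (0 : ℝ) < (x : ℝ) - 1 := by linarith
  have hs : √(x : ℝ) * √(x : ℝ) = x := Real.mul_self_sqrt (by positivity)
  have hs1 : 1 < √(x : ℝ) := by
    rw [Real.lt_sqrt (by norm_num)]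
    linarith
  have hr : √((x : ℝ) - 1) * √((x : ℝ) - 1) = (x : ℝ) - 1 := Real.mul_self_sqrt hx1.le
  have hr0 : 0 < √((x : ℝ) - 1) := Real.sqrt_pos.2 hx1
  set s := √(x : ℝ) with hsdef
  set ρ := √((x : ℝ) - 1) with hρdef
  have hinv1 : ((s - 1) / ρ)⁻¹ = (s + 1) / ρ := by
    rw [inv_div, div_eq_div_iff (by linarith) hr0.ne', hr]
    linear_combination -hs
  have hinv2 : ((s + 1) / ρ)⁻¹ = (s - 1) / ρ := by rw [← hinv1, inv_inv]
  obtain ⟨n, hn⟩ : ∃ n : ℕ, n = m.natAbs := ⟨_, rfl⟩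
  obtain ⟨p, q, hp, hq, hp1, hq1, h1, h2⟩ := dsieg_pow x hx (2 * n)
  rw [← hsdef] at h1 h2
  have hnR : n ≤ R := hn ▸ hm
  have hP : ((x : ℝ) - 1) ^ R * ((s + 1) / ρ) ^ (2 * n) =
      ((x : ℝ) - 1) ^ (R - n) * (p + q * s) := by
    rw [div_pow, h1, pow_mul ρ, pow_two ρ, hr, ← mul_div_assoc, div_eq_iff (by positivity)]
    have : ((x : ℝ) - 1) ^ R = ((x : ℝ) - 1) ^ (R - n) * ((x : ℝ) - 1) ^ n := by
      rw [← pow_add]; congr 1; omega
    rw [this]; ring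
  have hM : ((x : ℝ) - 1) ^ R * ((s - 1) / ρ) ^ (2 * n) =
      ((x : ℝ) - 1) ^ (R - n) * (p - q * s) := by
    have e : (s - 1) ^ (2 * n) = (1 - s) ^ (2 * n) := by
      rw [pow_mul, pow_mul]; congr 1; ring
    rw [div_pow, e, h2, pow_mul ρ, pow_two ρ, hr, ← mul_div_assoc, div_eq_iff (by positivity)]
    have : ((x : ℝ) - 1) ^ R = ((x : ℝ) - 1) ^ (R - n) * ((x : ℝ) - 1) ^ n := by
      rw [← pow_add]; congr 1; omega
    rw [this]; ring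
  have hbd : ∀ w : ℤ, 0 ≤ w → w ≤ (x + 1 : ℤ) ^ (2 * n) →
      |((x : ℤ) - 1) ^ (R - n) * w| ≤ (x + 1 : ℤ) ^ (2 * R) := by
    intro w hw0 hw1
    have h3 : (0 : ℤ) ≤ ((x : ℤ) - 1) ^ (R - n) := pow_nonneg (by linarith) _
    rw [abs_of_nonneg (mul_nonneg h3 hw0)]
    calc ((x : ℤ) - 1) ^ (R - n) * w ≤ (x + 1 : ℤ) ^ (R - n) * (x + 1 : ℤ) ^ (2 * n) :=
          mul_le_mul (pow_le_pow_left₀ (by linarith) (by linarith) _) hw1 hw0 (by positivity)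
      _ = (x + 1 : ℤ) ^ (R - n + 2 * n) := (pow_add _ _ _).symm
      _ ≤ (x + 1 : ℤ) ^ (2 * R) := pow_le_pow_right₀ (by linarith) (by omega)
  have hbd' : ∀ w : ℤ, 0 ≤ w → w ≤ (x + 1 : ℤ) ^ (2 * n) →
      |-(((x : ℤ) - 1) ^ (R - n) * w)| ≤ (x + 1 : ℤ) ^ (2 * R) := by
    intro w hw0 hw1
    rw [abs_neg]
    exact hbd w hw0 hw1
  rcases le_total 0 m with hm0 | hm0
  · have hmn : 2 * m = ((2 * n : ℕ) : ℤ) := by
      rw [hn]; push_cast; rw [abs_of_nonneg hm0]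
    refine ⟨((x : ℤ) - 1) ^ (R - n) * p, -(((x : ℤ) - 1) ^ (R - n) * q), hbd p hp hp1,
      hbd' q hq hq1, ?_, ?_⟩
    · rw [hmn, zpow_natCast, hM]; push_cast; ring
    · rw [hmn, zpow_natCast, hP]; push_cast; ring
  · have hmn : 2 * m = -((2 * n : ℕ) : ℤ) := by
      rw [hn]; push_cast; rw [abs_of_nonpos hm0]; ring
    refine ⟨((x : ℤ) - 1) ^ (R - n) * p, ((x : ℤ) - 1) ^ (R - n) * q, hbd p hp hp1,
      hbd q hq hq1, ?_, ?_⟩
    · rw [hmn, zpow_neg, ← inv_zpow, hinv1, zpow_natCast, hP]; push_cast; ring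
    · rw [hmn, zpow_neg, ← inv_zpow, hinv2, zpow_natCast, hM]; push_cast; ring

private theorem dsieg_lev (S : Finset (ℤ × ℤ)) (c : ℤ × ℤ → ℤ) (E : ℕ) {τ : ℝ} (hτ : τ ≠ 0)
    (a : ℕ) (hE : ∀ v ∈ S, 0 ≤ 2 * v.1 - v.2 + E) :
    lev S c E τ a 1 = τ ^ ((E : ℤ) - a) *
      ∑ v ∈ S, (c v : ℝ) * ((ex E v).choose a : ℝ) * τ ^ (2 * v.1 - v.2) := by
  unfold lev
  rw [Finset.mul_sum]
  refine Finset.sum_congr rfl fun v hv => ?_
  rw [one_zpow, mul_one]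
  by_cases hle : a ≤ ex E v
  · have hex : ((ex E v : ℕ) : ℤ) = 2 * v.1 - v.2 + E := by
      unfold ex
      exact Int.toNat_of_nonneg (hE v hv)
    have h1 : τ ^ (ex E v - a) = τ ^ ((E : ℤ) - a) * τ ^ (2 * v.1 - v.2) := by
      rw [← zpow_add₀ hτ, ← zpow_natCast]
      congr 1
      rw [Nat.cast_sub hle, hex]
      ring
    rw [h1]
    ring
  · rw [Nat.choose_eq_zero_of_lt (not_le.1 hle)]
    simp

private theorem dsieg_bound (x l C : ℕ) (hl : 1 ≤ l) (hC : C ≤ 6 * l) :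
    (C * (2 ^ (12 * l + 4) * (x + 1) ^ (2 * (3 * l + 1)))) ^ 2 ≤
      ((12 * 2 ^ 16 * (x + 1) ^ 8) ^ 2) ^ l := by
  rw [← pow_mul (12 * 2 ^ 16 * (x + 1) ^ 8) 2 l, mul_comm 2 l,
    pow_mul (12 * 2 ^ 16 * (x + 1) ^ 8) l 2]
  refine Nat.pow_le_pow_left ?_ 2
  have h1 : C ≤ 12 ^ l := by
    have h2 : l < 2 ^ l := Nat.lt_two_pow_self
    have h3 : 6 ≤ 6 ^ l := Nat.le_self_pow (by omega) 6
    calc C ≤ 6 * l := hC
      _ ≤ 6 ^ l * 2 ^ l := Nat.mul_le_mul h3 h2.le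
      _ = (6 * 2) ^ l := (mul_pow 6 2 l).symm
      _ = 12 ^ l := by norm_num
  have h4 : 2 ^ (12 * l + 4) ≤ (2 ^ 16) ^ l := by
    rw [← pow_mul]
    exact Nat.pow_le_pow_right (by norm_num) (by omega)
  have h5 : (x + 1) ^ (2 * (3 * l + 1)) ≤ ((x + 1) ^ 8) ^ l := by
    rw [← pow_mul]
    exact Nat.pow_le_pow_right (by omega) (by omega)
  calc C * (2 ^ (12 * l + 4) * (x + 1) ^ (2 * (3 * l + 1)))
      ≤ 12 ^ l * ((2 ^ 16) ^ l * ((x + 1) ^ 8) ^ l) :=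
        Nat.mul_le_mul h1 (Nat.mul_le_mul h4 h5)
    _ = (12 * 2 ^ 16 * (x + 1) ^ 8) ^ l := by rw [mul_pow, mul_pow]; ring

/-- **DSIEG (b).** Siegel's lemma for fixed `x`: vanishing to order `l` at
`τ = (√x-1)/√(x-1)` and at `1/τ = (√x+1)/√(x-1)`.
PROOF. `lev (regionD l) c E τ a 1 = τ^(E-a) ∑ c_v choose(e_v,a) τ^(2s-j)` (terms with `a > e_v`
vanish), `j` is even, `2s - j = 2m` with `m = s - j/2`, `|m| ≤ 3l+1 =: R`.  Multiply by `(x-1)^R`: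
`∑ c_v choose(e_v,a) (u_m + v_m √x)` (and `u_m - v_m √x` for `1/τ`).  So ask for
`∑ c_v choose(e_v,a) u_m = 0` and `∑ c_v choose(e_v,a) v_m = 0` for all `a < l`: `2l` equations,
`n = 3(2(l/2)+1) ≥ 3l` unknowns, `m/(n-m) ≤ 2`, entries `≤ 2^(12l+4) (x+1)^(6l+2)`,
`n ≤ 6 l ≤ 6^l * ...`; the bound `(n * entries)^2 ≤ K^l` with e.g. `K = (6 * 2^16 * (x+1)^8)^2`.
Use `Int.Matrix.exists_ne_zero_int_vec_norm_le`. -/
theorem siegelD (x : ℕ) (hx : 2 ≤ x) : ∃ K : ℕ, 1 ≤ K ∧ ∀ l : ℕ, 1 ≤ l →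
    ∃ c : ℤ × ℤ → ℤ, (∃ v ∈ regionD l, c v ≠ 0) ∧ (∀ v ∈ regionD l, |c v| ≤ ((K ^ l : ℕ) : ℤ)) ∧
      ∀ a < l, lev (regionD l) c (2 * (3 * l) + 2) ((√(x : ℝ) - 1) / √((x : ℝ) - 1)) a 1 = 0 ∧
        lev (regionD l) c (2 * (3 * l) + 2) ((√(x : ℝ) + 1) / √((x : ℝ) - 1)) a 1 = 0 := by
  classical
  refine ⟨(12 * 2 ^ 16 * (x + 1) ^ 8) ^ 2, Nat.succ_le_of_lt (by positivity), ?_⟩
  intro l hl
  have hxr : (2 : ℝ) ≤ x := by exact_mod_cast hx
  have hx1 : (0 : ℝ) < (x : ℝ) - 1 := by linarith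
  have hs1 : 1 < √(x : ℝ) := by
    rw [Real.lt_sqrt (by norm_num)]
    linarith
  have hr0 : 0 < √((x : ℝ) - 1) := Real.sqrt_pos.2 hx1
  have hτ1 : (√(x : ℝ) - 1) / √((x : ℝ) - 1) ≠ 0 := div_ne_zero (by linarith) hr0.ne'
  have hτ2 : (√(x : ℝ) + 1) / √((x : ℝ) - 1) ≠ 0 := div_ne_zero (by linarith) hr0.ne'
  have hpar : ∀ v ∈ regionD l, ∃ m : ℤ, 2 * m = 2 * v.1 - v.2 ∧ m.natAbs ≤ 3 * l + 1 := by
    intro v hv
    obtain ⟨h1, h2, h3, h4, h5⟩ := regionD_mem l hl v hv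
    rcases h1 with h | h | h
    · exact ⟨v.1 + 1, by omega, by omega⟩
    · exact ⟨v.1, by omega, by omega⟩
    · exact ⟨v.1 - 1, by omega, by omega⟩
  have hex : ∀ v : ℤ × ℤ, ∃ u w : ℤ, v ∈ regionD l →
      (|u| ≤ (x + 1 : ℤ) ^ (2 * (3 * l + 1)) ∧ |w| ≤ (x + 1 : ℤ) ^ (2 * (3 * l + 1)) ∧
      ((x : ℝ) - 1) ^ (3 * l + 1) * ((√(x : ℝ) - 1) / √((x : ℝ) - 1)) ^ (2 * v.1 - v.2) =
        u + w * √(x : ℝ) ∧
      ((x : ℝ) - 1) ^ (3 * l + 1) * ((√(x : ℝ) + 1) / √((x : ℝ) - 1)) ^ (2 * v.1 - v.2) =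
        u - w * √(x : ℝ)) := by
    intro v
    by_cases hv : v ∈ regionD l
    · obtain ⟨m, hm1, hm2⟩ := hpar v hv
      obtain ⟨u, w, h⟩ := zeta_pow x hx (3 * l + 1) m hm2
      rw [hm1] at h
      exact ⟨u, w, fun _ => h⟩
    · exact ⟨0, 0, fun h => absurd h hv⟩
  choose u w huw using hex
  let A : Fin l ⊕ Fin l → ℤ × ℤ → ℤ := fun i v =>
    Sum.elim (fun a : Fin l => ((ex (2 * (3 * l) + 2) v).choose a : ℤ) * u v)
      (fun a : Fin l => ((ex (2 * (3 * l) + 2) v).choose a : ℤ) * w v) i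
  have : Nonempty (Fin l ⊕ Fin l) := ⟨Sum.inl ⟨0, hl⟩⟩
  have hchoose : ∀ v ∈ regionD l, ∀ a : ℕ,
      |(((ex (2 * (3 * l) + 2) v).choose a : ℕ) : ℤ)| ≤ 2 ^ (12 * l + 4) := by
    intro v hv a
    obtain ⟨h1, h2, h3, h4, h5⟩ := regionD_mem l hl v hv
    rw [abs_of_nonneg (by positivity)]
    calc (((ex (2 * (3 * l) + 2) v).choose a : ℕ) : ℤ)
        ≤ ((2 ^ (ex (2 * (3 * l) + 2) v) : ℕ) : ℤ) := by
          exact_mod_cast Nat.choose_le_two_pow _ a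
      _ = 2 ^ (ex (2 * (3 * l) + 2) v) := by push_cast; ring
      _ ≤ 2 ^ (12 * l + 4) := pow_le_pow_right₀ (by norm_num) h5
  have hA : ∀ i, ∀ v ∈ regionD l,
      |A i v| ≤ ((2 ^ (12 * l + 4) * (x + 1) ^ (2 * (3 * l + 1)) : ℕ) : ℤ) := by
    intro i v hv
    obtain ⟨h1, h2, -, -⟩ := huw v hv
    push_cast
    rcases i with a | a
    · show |((ex (2 * (3 * l) + 2) v).choose a : ℤ) * u v| ≤ _
      rw [abs_mul]
      exact mul_le_mul (hchoose v hv a) h1 (abs_nonneg _) (by positivity)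
    · show |((ex (2 * (3 * l) + 2) v).choose a : ℤ) * w v| ≤ _
      rw [abs_mul]
      exact mul_le_mul (hchoose v hv a) h2 (abs_nonneg _) (by positivity)
  have hcard := regionD_card l hl
  obtain ⟨c, hc0, hc1, hc2⟩ := dsieg_aux (regionD l) A
    (2 ^ (12 * l + 4) * (x + 1) ^ (2 * (3 * l + 1))) (Nat.succ_le_of_lt (by positivity)) hA
    (by rw [hcard, Fintype.card_sum, Fintype.card_fin]; omega)
  refine ⟨c, hc0, fun v hv => (hc1 v hv).trans ?_, ?_⟩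
  · exact_mod_cast dsieg_bound x l _ hl (by rw [hcard]; omega)
  · intro a ha
    have hE : ∀ v ∈ regionD l, 0 ≤ 2 * v.1 - v.2 + ((2 * (3 * l) + 2 : ℕ) : ℤ) :=
      fun v hv => (regionD_mem l hl v hv).2.2.2.1
    have hu : ∑ v ∈ regionD l, (c v : ℝ) * (((ex (2 * (3 * l) + 2) v).choose a : ℝ) * u v) = 0 := by
      have := hc2 (Sum.inl ⟨a, ha⟩)
      exact_mod_cast this
    have hw : ∑ v ∈ regionD l, (c v : ℝ) * (((ex (2 * (3 * l) + 2) v).choose a : ℝ) * w v) = 0 := by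
      have := hc2 (Sum.inr ⟨a, ha⟩)
      exact_mod_cast this
    have hxR : ((x : ℝ) - 1) ^ (3 * l + 1) ≠ 0 := by positivity
    constructor
    · rw [dsieg_lev _ _ _ hτ1 _ hE]
      refine mul_eq_zero_of_right _ ?_
      refine (mul_eq_zero.1 (?_ : ((x : ℝ) - 1) ^ (3 * l + 1) * _ = 0)).resolve_left hxR
      rw [Finset.mul_sum]
      calc _ = ∑ v ∈ regionD l,
            ((c v : ℝ) * (((ex (2 * (3 * l) + 2) v).choose a : ℝ) * u v) +
              (c v : ℝ) * (((ex (2 * (3 * l) + 2) v).choose a : ℝ) * w v) * √(x : ℝ)) := by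
            refine Finset.sum_congr rfl fun v hv => ?_
            have := (huw v hv).2.2.1
            linear_combination (c v : ℝ) * ((ex (2 * (3 * l) + 2) v).choose a : ℝ) * this
        _ = 0 := by
            rw [Finset.sum_add_distrib, hu, ← Finset.sum_mul, hw]
            ring
    · rw [dsieg_lev _ _ _ hτ2 _ hE]
      refine mul_eq_zero_of_right _ ?_
      refine (mul_eq_zero.1 (?_ : ((x : ℝ) - 1) ^ (3 * l + 1) * _ = 0)).resolve_left hxR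
      rw [Finset.mul_sum]
      calc _ = ∑ v ∈ regionD l,
            ((c v : ℝ) * (((ex (2 * (3 * l) + 2) v).choose a : ℝ) * u v) -
              (c v : ℝ) * (((ex (2 * (3 * l) + 2) v).choose a : ℝ) * w v) * √(x : ℝ)) := by
            refine Finset.sum_congr rfl fun v hv => ?_
            have := (huw v hv).2.2.2
            linear_combination (c v : ℝ) * ((ex (2 * (3 * l) + 2) v).choose a : ℝ) * this
        _ = 0 := by
            rw [Finset.sum_sub_distrib, hu, ← Finset.sum_mul, hw]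
            ring

end Pool.Agent.TwoRep
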