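import Mathlib

/-!
# Primes with two representations `(p^r-1)/(p^d-1)`: definitions

Everything is about solutions of `∑_{i<2k+1} x^i = ∑_{i<2l+1} y^i` in coprime prime powers
`1 < x < y`.  The method is a Thue-Siegel argument with auxiliary functions
`f(T) = ∑ c_{s,j} z^j T^(2s-j)`.
-/

namespace Pool.Agent.TwoRep

open Finset Polynomial

/-- A solution: `x < y` coprime prime powers with `1 + x + ... + x^(2k) = 1 + y + ... + y^(2l)`. -/
structure Sol (x y k l : ℕ) : Prop where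
  ppx : IsPrimePow x
  ppy : IsPrimePow y
  cop : Nat.Coprime x y
  lt : x < y
  one_le : 1 ≤ l
  eq : ∑ i ∈ range (2 * k + 1), x ^ i = ∑ i ∈ range (2 * l + 1), y ^ i

/-- The arithmetic data of the Thue-Siegel argument. -/
structure Dat where
  A : ℤ
  B : ℤ
  C : ℤ
  X : ℤ
  Y : ℤ
  ε : ℤ
  y : ℤ
  b : ℤ
  Y2 : ℤ
  l : ℕ
  hABC : A = B + C
  hB : B = y * b
  hY : Y = y ^ l * Y2
  heq : A * X ^ 2 = B * Y ^ 2 + C
  hε : ε = 1 ∨ ε = -1
  hdiv : y ∣ X - ε
  hC0 : 0 < C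
  hX0 : 0 < X
  hy0 : 0 < y
  hb0 : 0 < b
  hY20 : 0 < Y2

/-- exponent (as a natural number) of `T` in the monomial with index `v = (s, j)` after
multiplication by `T ^ E`. -/
def ex (E : ℕ) (v : ℤ × ℤ) : ℕ := (2 * v.1 - v.2 + E).toNat

/-- The (normalised) `t`-th derivative of the auxiliary function
`∑_{v = (s,j) ∈ S} c_v T^(2s-j+E) w^j` (divided by `T^(E-t)`). -/
def GG {K : Type*} [Field K] (S : Finset (ℤ × ℤ)) (c : ℤ × ℤ → ℤ) (E t : ℕ) (T w : K) : K :=
  ∑ v ∈ S, (c v : K) * ((ex E v).choose t : K) * T ^ (2 * v.1 - v.2) * w ^ v.2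

/-- `a`-th Taylor coefficient of the auxiliary function at `T = τ`. -/
def lev {K : Type*} [Field K] (S : Finset (ℤ × ℤ)) (c : ℤ × ℤ → ℤ) (E : ℕ) (τ : K) (a : ℕ)
    (w : K) : K :=
  ∑ v ∈ S, (c v : K) * ((ex E v).choose a : K) * τ ^ (ex E v - a) * w ^ v.2

/-- `z₀ = (√A - √C)/√B`. -/
def zz0 {K : Type*} [Field K] (rA rB rC : K) : K := (rA - rC) / rB

/-- `z = (√A X - ε √C)/(√B Y)`. -/
def zz {K : Type*} [Field K] (X Y ε : ℤ) (rA rB rC : K) : K := (rA * X - ε * rC) / (rB * Y)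

/-- sign twist `(-1)^s η^j` -/
def sg (η : ℤ) (v : ℤ × ℤ) : ℤ :=
  (if Even v.1 then 1 else -1) * (if Even v.2 then 1 else η)

/-- The index set: `|s| ≤ 2L` and, for each `s`, three consecutive values of `j` with
`|s + l j| ≤ 3l/2`. -/
noncomputable def region (L l : ℕ) : Finset (ℤ × ℤ) :=
  ((Icc (-(2 * L : ℤ)) (2 * L)) ×ˢ (Icc (-1 : ℤ) 1)).image
    (fun p => (p.1, p.2 - (2 * p.1 + l) / (2 * l)))

/-- The index set for fixed `x`: `j ∈ {-2,0,2}` and `|s + l j| ≤ l/2`. -/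
noncomputable def regionD (l : ℕ) : Finset (ℤ × ℤ) :=
  (({-2, 0, 2} : Finset ℤ) ×ˢ (Icc (-((l / 2 : ℕ) : ℤ)) ((l / 2 : ℕ) : ℤ))).image
    (fun p => (p.2 - l * p.1, p.1))

/-- bound for `|j|` on `region L l` -/
def JJ (L l : ℕ) : ℕ := 2 * L / l + 2

/-- The derivation `T d/dT` as a linear map. -/
noncomputable def del (R : Type*) [CommRing R] : R[X] →ₗ[R] R[X] :=
  (LinearMap.mulLeft R (X : R[X])) ∘ₗ (Polynomial.derivative : R[X] →ₗ[R] R[X])

/-- Wronskian matrix with respect to `T d/dT`. -/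
noncomputable def wrM {R : Type*} [CommRing R] {r : ℕ} (F : Fin r → R[X]) :
    Matrix (Fin r) (Fin r) R[X] :=
  Matrix.of fun a i => ((del R) ^ (a : ℕ)) (F i)

/-- sum of absolute values of the coefficients -/
noncomputable def l1 (P : ℤ[X]) : ℤ := ∑ i ∈ P.support, |P.coeff i|

/-- the part of the auxiliary polynomial with a given `j` -/
noncomputable def fam (S : Finset (ℤ × ℤ)) (c : ℤ × ℤ → ℤ) (E : ℕ) (j : ℤ) : ℤ[X] :=
  ∑ v ∈ S with v.2 = j, C (c v) * X ^ (ex E v)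

/-- entries of the Wronskian matrix after the substitution `t = T^2` -/
noncomputable def pent (S : Finset (ℤ × ℤ)) (c : ℤ × ℤ → ℤ) (R E a : ℕ) (j : ℤ) : ℤ[X] :=
  ∑ v ∈ S with v.2 = j, C (c v * (ex E v : ℤ) ^ a) * X ^ (v.1 + R).toNat

/-- bound of the zero estimate -/
def zb (R J H : ℕ) : ℕ :=
  (2 * J + 1).factorial * ((2 * R + 1) * H * (4 * R + 2 * J + 1) ^ (2 * J + 1)) ^ (2 * J + 1)

/-- the Siegel bound: `n` unknowns, exponents at most `N`, `|j| ≤ J`. -/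
def sb (n N J : ℕ) : ℕ := (n * (2 ^ N * (J + 1))) ^ 7

/-- shift of the exponents (`2R + J` with `R = 2L`) -/
def EE (L l : ℕ) : ℕ := 2 * (2 * L) + JJ L l

/-- bound for the coefficients -/
def HH (L l : ℕ) : ℕ := sb (12 * L + 3) (2 * EE L l) (JJ L l)

/-- number of conditions at level 0 -/
def g0 (L : ℕ) : ℕ := 3 * L + 5 * L / 8

/-- number of conditions at level 1 -/
def g1 (L : ℕ) : ℕ := L + 5 * L / 8

/-- `1 + x + ... + x^(2k) = 1 + y + ... + y^(2l)` (the trivial case `k = l = 0` is allowed) -/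
def Rep (x y k l : ℕ) : Prop :=
  ∑ i ∈ range (2 * k + 1), x ^ i = ∑ i ∈ range (2 * l + 1), y ^ i

/-- threshold for `log₂` of the base; a constant that should never be unfolded except in
numerical estimates -/
def K0 : ℕ := 500000

end Pool.Agent.TwoRep
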