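import Pool.Agent.Lib.MP_56ee40_nt.Defs

namespace Pool.Agent.TwoRep

open Finset Polynomial

private theorem red_succ (x m : ℕ) : ∑ i ∈ range (m + 1), x ^ i = 1 + x * ∑ i ∈ range m, x ^ i := by
  rw [Finset.sum_range_succ', Finset.mul_sum, pow_zero, add_comm]
  congr 1
  exact Finset.sum_congr rfl fun i _ => by rw [pow_succ]; ring

private theorem red_mul (x a b : ℕ) :
    ∑ i ∈ range (a * b), x ^ i = (∑ i ∈ range a, x ^ i) * ∑ j ∈ range b, (x ^ a) ^ j := by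
  induction b with
  | zero => simp
  | succ b ih =>
    rw [Nat.mul_succ, Finset.sum_range_add, ih, Finset.sum_range_succ, mul_add]
    congr 1
    rw [Finset.sum_mul]
    refine Finset.sum_congr rfl fun i _ => ?_
    rw [← pow_mul, ← pow_add, Nat.add_comm]

private theorem red_gt {x m : ℕ} (hx : 2 ≤ x) (hm : 2 ≤ m) : 1 < ∑ i ∈ range m, x ^ i := by
  obtain ⟨n, rfl⟩ : ∃ n, m = n + 1 + 1 := ⟨m - 2, by omega⟩
  rw [red_succ, red_succ]
  have h1 : 2 * 1 ≤ x * (1 + x * ∑ i ∈ range n, x ^ i) := Nat.mul_le_mul hx (by omega)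
  omega

private theorem red_mono {x m n : ℕ} (hx : 2 ≤ x) (h : m < n) :
    ∑ i ∈ range m, x ^ i < ∑ i ∈ range n, x ^ i := by
  have h1 : ∑ i ∈ range (m + 1), x ^ i ≤ ∑ i ∈ range n, x ^ i :=
    Finset.sum_le_sum_of_subset (Finset.range_mono h)
  rw [Finset.sum_range_succ] at h1
  have h2 : 0 < x ^ m := by positivity
  omega

private theorem red_rep {N p r d : ℕ} (hN : N.Prime) (hp : p.Prime) (hr : 3 ≤ r) (hd : 1 ≤ d)
    (h : N * (p ^ d - 1) = p ^ r - 1) :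
    ∃ m, r = d * m ∧ m.Prime ∧ N = ∑ i ∈ range m, (p ^ d) ^ i := by
  have hx : 2 ≤ p ^ d := by
    calc 2 ≤ p := hp.two_le
      _ = p ^ 1 := (pow_one p).symm
      _ ≤ p ^ d := Nat.pow_le_pow_right hp.pos hd
  have hdvd : p ^ d - 1 ∣ p ^ r - 1 := ⟨N, by rw [← h, mul_comm]⟩
  have hdr : d ∣ r := by
    have h1 := Nat.pow_sub_one_gcd_pow_sub_one p d r
    rw [Nat.gcd_eq_left hdvd] at h1
    have h2 : p ^ d = p ^ (d.gcd r) := by
      have h3 : 1 ≤ p ^ (d.gcd r) := Nat.one_le_pow _ _ hp.pos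
      omega
    have h4 : d = d.gcd r := Nat.pow_right_injective hp.two_le h2
    rw [h4]
    exact Nat.gcd_dvd_right d r
  obtain ⟨m, rfl⟩ := hdr
  have hsum : N = ∑ i ∈ range m, (p ^ d) ^ i := by
    have h1 : (∑ i ∈ range m, ((p : ℤ) ^ d) ^ i) * ((p : ℤ) ^ d - 1) = ((p : ℤ) ^ d) ^ m - 1 :=
      geom_sum_mul _ _
    have h2 : (N : ℤ) * ((p : ℤ) ^ d - 1) = (p : ℤ) ^ (d * m) - 1 := by
      have h3 : ((N * (p ^ d - 1) : ℕ) : ℤ) = ((p ^ (d * m) - 1 : ℕ) : ℤ) := by rw [h]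
      rw [Nat.cast_mul, Nat.cast_sub (by omega : 1 ≤ p ^ d),
        Nat.cast_sub (Nat.one_le_pow _ _ hp.pos)] at h3
      push_cast at h3
      exact h3
    have h4 : ((p : ℤ) ^ d - 1) ≠ 0 := by
      have : (2 : ℤ) ≤ (p : ℤ) ^ d := by exact_mod_cast hx
      omega
    have h5 : (N : ℤ) = ∑ i ∈ range m, ((p : ℤ) ^ d) ^ i := by
      apply mul_right_cancel₀ h4
      rw [h2, h1, pow_mul]
    exact_mod_cast h5
  refine ⟨m, rfl, ?_, hsum⟩
  have hm2 : 2 ≤ m := by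
    by_contra hm
    have hN2 := hN.two_le
    have : m = 0 ∨ m = 1 := by omega
    rcases this with rfl | rfl
    · simp at hsum; omega
    · simp at hsum; omega
  by_contra hmp
  obtain ⟨a, b, ha, hb, hab⟩ := (Nat.not_prime_iff_exists_mul_eq hm2).1 hmp
  have ha2 : 2 ≤ a := by
    by_contra hh
    have : a = 0 ∨ a = 1 := by omega
    rcases this with rfl | rfl
    · omega
    · omega
  have hb2 : 2 ≤ b := by
    by_contra hh
    have : b = 0 ∨ b = 1 := by omega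
    rcases this with rfl | rfl
    · omega
    · omega
  rw [← hab, red_mul] at hsum
  have g1 := red_gt hx ha2
  have g2 : 1 < ∑ j ∈ range b, ((p ^ d) ^ a) ^ j := by
    refine red_gt ?_ hb2
    calc 2 ≤ p ^ d := hx
      _ = (p ^ d) ^ 1 := (pow_one _).symm
      _ ≤ (p ^ d) ^ a := Nat.pow_le_pow_right (by omega) (by omega)
  rw [hsum] at hN
  exact Nat.not_prime_mul (by omega) (by omega) hN

private theorem red_val {p d d' u u' : ℕ} (hp : 2 ≤ p)
    (h : p ^ d * (1 + p * u) = p ^ d' * (1 + p * u')) : d ≤ d' := by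
  by_contra hlt
  push Not at hlt
  obtain ⟨e, rfl⟩ : ∃ e, d = d' + (e + 1) := ⟨d - d' - 1, by omega⟩
  rw [pow_add, mul_assoc] at h
  have h1 := Nat.eq_of_mul_eq_mul_left (by positivity) h
  have h2 : p ∣ 1 + p * u' := by
    rw [← h1, pow_succ', mul_assoc]
    exact dvd_mul_right _ _
  have h3 : p ∣ 1 := (Nat.dvd_add_left (dvd_mul_right p u')).1 h2
  have h4 := Nat.le_of_dvd one_pos h3
  omega

/-- `m ≥ 2` terms -/
private theorem red_form {p d m : ℕ} (hd : 1 ≤ d) (hm : 2 ≤ m) :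
    ∃ u, ∑ i ∈ range m, (p ^ d) ^ i = 1 + p ^ d * (1 + p * u) := by
  obtain ⟨n, rfl⟩ : ∃ n, m = n + 1 + 1 := ⟨m - 2, by omega⟩
  obtain ⟨e, rfl⟩ : ∃ e, d = e + 1 := ⟨d - 1, by omega⟩
  refine ⟨p ^ e * ∑ i ∈ range n, (p ^ (e + 1)) ^ i, ?_⟩
  rw [red_succ, red_succ]
  congr 3
  rw [← mul_assoc, pow_succ']

private theorem red_pow {p d : ℕ} (hp : p.Prime) (hd : 1 ≤ d) : 2 ≤ p ^ d := by
  calc 2 ≤ p := hp.two_le
    _ = p ^ 1 := (pow_one p).symm
    _ ≤ p ^ d := Nat.pow_le_pow_right hp.pos hd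

/-- the case `m = 2`: `p = 2` -/
private theorem red_two {N p r d : ℕ} (hN : N.Prime) (hp : p.Prime) (hr : 3 ≤ r)
    (hr2 : r = d * 2) (h : N = ∑ i ∈ range 2, (p ^ d) ^ i) : p = 2 ∧ N = 1 + p ^ d := by
  have hN1 : N = 1 + p ^ d := by
    rw [h]
    simp [Finset.sum_range_succ]
  refine ⟨?_, hN1⟩
  by_contra hp2
  have hodd : Odd p := hp.odd_of_ne_two hp2
  have h1 : Odd (p ^ d) := hodd.pow
  have h2 : Even N := by
    rw [hN1, add_comm]
    exact h1.add_one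
  have h3 : N = 2 := (hN.even_iff).1 h2
  have h4 : 2 ≤ p ^ d := red_pow hp (by omega)
  omega

private theorem red_mixed {N p d r p' d' m' : ℕ} (hN : N.Prime) (hp : p.Prime) (hr : 3 ≤ r)
    (hr2 : r = d * 2) (h : N = ∑ i ∈ range 2, (p ^ d) ^ i) (hp' : p'.Prime) (hd' : 1 ≤ d')
    (hm' : 3 ≤ m') (h' : N = ∑ i ∈ range m', (p' ^ d') ^ i) : False := by
  obtain ⟨rfl, hN1⟩ := red_two hN hp hr hr2 h
  obtain ⟨n, rfl⟩ : ∃ n, m' = n + 1 + 1 + 1 := ⟨m' - 3, by omega⟩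
  rw [red_succ] at h'
  have h1 : 2 ^ d = p' ^ d' * ∑ i ∈ range (n + 1 + 1), (p' ^ d') ^ i := by
    have h0 := hN1.symm.trans h'
    exact Nat.add_left_cancel h0
  have h2 : p' ∣ 2 ^ d := by
    rw [h1]
    exact (dvd_pow_self p' (by omega)).trans (dvd_mul_right _ _)
  have h3 : p' = 2 := (Nat.prime_dvd_prime_iff_eq hp' Nat.prime_two).1
    (hp'.dvd_of_dvd_pow h2)
  subst h3
  have h4 : (∑ i ∈ range (n + 1 + 1), (2 ^ d') ^ i) ∣ 2 ^ d := ⟨2 ^ d', by rw [h1, mul_comm]⟩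
  have h5 : 1 < ∑ i ∈ range (n + 1 + 1), (2 ^ d') ^ i :=
    red_gt (red_pow Nat.prime_two hd') (by omega)
  obtain ⟨j, hj, hj2⟩ := (Nat.dvd_prime_pow Nat.prime_two).1 h4
  have hj0 : j ≠ 0 := by
    rintro rfl
    rw [pow_zero] at hj2
    omega
  have h6 : 2 ∣ ∑ i ∈ range (n + 1 + 1), (2 ^ d') ^ i := by
    rw [hj2]
    exact dvd_pow_self 2 hj0
  rw [red_succ] at h6
  have h7 : 2 ∣ 2 ^ d' * ∑ i ∈ range (n + 1), (2 ^ d') ^ i :=
    (dvd_pow_self 2 (by omega)).trans (dvd_mul_right _ _)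
  have h8 : 2 ∣ 1 := (Nat.dvd_add_left h7).1 h6
  omega

/-- both odd and `p^d < p'^d'` -/
private theorem red_odd {N p d k p' d' l : ℕ} (hp : p.Prime) (hd : 1 ≤ d) (hk : 1 ≤ k)
    (h : N = ∑ i ∈ range (2 * k + 1), (p ^ d) ^ i) (hp' : p'.Prime) (hd' : 1 ≤ d')
    (hl : 1 ≤ l) (h' : N = ∑ i ∈ range (2 * l + 1), (p' ^ d') ^ i) (hlt : p ^ d < p' ^ d') :
    ∃ x y k l : ℕ, Sol x y k l ∧ N = ∑ i ∈ range (2 * k + 1), x ^ i := by
  refine ⟨p ^ d, p' ^ d', k, l, ⟨hp.isPrimePow.pow (by omega), hp'.isPrimePow.pow (by omega), ?_,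
    hlt, hl, ?_⟩, h⟩
  · apply Nat.Coprime.pow
    rw [Nat.coprime_primes hp hp']
    rintro rfl
    obtain ⟨u, hu⟩ := red_form (p := p) hd (by omega : 2 ≤ 2 * k + 1)
    obtain ⟨u', hu'⟩ := red_form (p := p) hd' (by omega : 2 ≤ 2 * l + 1)
    rw [hu] at h
    rw [hu'] at h'
    have h1 : p ^ d * (1 + p * u) = p ^ d' * (1 + p * u') := by omega
    have h2 := red_val hp.two_le h1
    have h3 := red_val hp.two_le h1.symm
    have h4 : d = d' := le_antisymm h2 h3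
    rw [h4] at hlt
    exact lt_irrefl _ hlt
  · rw [← h, h']

/-- **RED.** Reduction: a prime with two different representations is the value of a solution.
PROOF. `N (p^d - 1) = p^r - 1` with `N` prime: `d ∣ r` (`p^d - 1 ∣ p^r - 1`), `r = d m`, `x = p^d`,
`N = 1 + x + ... + x^(m-1)`.  `m ≥ 2` (`N ≠ 1`), `m` is prime (if `m = a b`, `a, b ≥ 2`, then
`N = (1+...+x^(a-1)) (1 + x^a + ... + x^(a(b-1)))`).  So `m = 2` or `m` odd.
`m = 2`: `N = p^d + 1`, `r = 2d ≥ 3` so `d ≥ 2`, `N > 3` odd (prime), so `p = 2`.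
Two representations with `m = m' = 2`: `2^d = 2^d'`, equal triples.  `m = 2`, `m'` odd `≥ 3`:
`2^d = N - 1 = x' (1 + ... + x'^(m'-2))`, so `x'` is a power of two (`p' = 2`), and
`1 + x' + ... + x'^(m'-2)` is odd, divides `2^d`, is `> 1`: contradiction.
Both odd `m = 2k+1`, `m' = 2l+1`, `k, l ≥ 1`: if `x = x'` then `p = p'`, `d = d'` and `m = m'`
(strict monotonicity), equal triples.  So `x ≠ x'`; by symmetry let `x < x' =: y`.  If `p = p'` then the
exact power of `p` dividing `N - 1 = x(1+x+...) = y(1+y+...)` is `x` and also `y`, contradiction.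
So `x, y` are coprime prime powers and `Sol x y k l` holds (`N = ∑ x^i`). -/
theorem reduction (N : ℕ) (hN : N.Prime) (p r d p' r' d' : ℕ) (hp : p.Prime) (hr : 3 ≤ r)
    (hd : 1 ≤ d) (hp' : p'.Prime) (hr' : 3 ≤ r') (hd' : 1 ≤ d')
    (hne : (p, r, d) ≠ (p', r', d')) (h : N * (p ^ d - 1) = p ^ r - 1)
    (h' : N * (p' ^ d' - 1) = p' ^ r' - 1) :
    ∃ x y k l : ℕ, Sol x y k l ∧ N = ∑ i ∈ range (2 * k + 1), x ^ i := by
  obtain ⟨m, hm1, hm2, hm3⟩ := red_rep hN hp hr hd h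
  obtain ⟨m', hm1', hm2', hm3'⟩ := red_rep hN hp' hr' hd' h'
  rcases hm2.eq_two_or_odd' with rfl | ho
  · rcases hm2'.eq_two_or_odd' with rfl | ho'
    · exfalso
      obtain ⟨rfl, e1⟩ := red_two hN hp hr hm1 hm3
      obtain ⟨rfl, e2⟩ := red_two hN hp' hr' hm1' hm3'
      have e3 : 2 ^ d = 2 ^ d' := by omega
      have e4 : d = d' := Nat.pow_right_injective (le_refl 2) e3
      apply hne
      rw [hm1, hm1', e4]
    · exfalso
      have h3 : 3 ≤ m' := by
        have := hm2'.two_le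
        obtain ⟨j, hj⟩ := ho'
        omega
      exact red_mixed hN hp hr hm1 hm3 hp' hd' h3 hm3'
  · have h3 : 3 ≤ m := by
      have := hm2.two_le
      obtain ⟨j, hj⟩ := ho
      omega
    rcases hm2'.eq_two_or_odd' with rfl | ho'
    · exfalso
      exact red_mixed hN hp' hr' hm1' hm3' hp hd h3 hm3
    · obtain ⟨k, rfl⟩ := ho
      obtain ⟨l, rfl⟩ := ho'
      have hk : 1 ≤ k := by omega
      have hl : 1 ≤ l := by
        have := hm2'.two_le
        omega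
      rcases lt_trichotomy (p ^ d) (p' ^ d') with hlt | heq | hgt
      · exact red_odd hp hd hk hm3 hp' hd' hl hm3' hlt
      · exfalso
        have e1 : p = p' := by
          have : p ∣ p' ^ d' := by
            rw [← heq]
            exact dvd_pow_self p (by omega)
          exact (Nat.prime_dvd_prime_iff_eq hp hp').1 (hp.dvd_of_dvd_pow this)
        subst e1
        have e2 : d = d' := Nat.pow_right_injective hp.two_le heq
        subst e2
        have e3 : 2 * k + 1 = 2 * l + 1 := by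
          rcases lt_trichotomy (2 * k + 1) (2 * l + 1) with g | g | g
          · have := red_mono (red_pow hp hd) g
            omega
          · exact g
          · have := red_mono (red_pow hp hd) g
            omega
        apply hne
        rw [hm1, hm1', e3]
      · exact red_odd hp' hd' hl hm3' hp hd hk hm3 hgt

end Pool.Agent.TwoRep
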