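import Pool.Agent.Lib.MP_56ee40_nt.Core
import Pool.Agent.Lib.MP_56ee40_nt.Red

namespace Pool.Agent.TwoRep

open Finset Polynomial

theorem final_finite : {N : ℕ | N.Prime ∧ ∃ p r d p' r' d' : ℕ,
        p.Prime ∧ 3 ≤ r ∧ 1 ≤ d ∧ p'.Prime ∧ 3 ≤ r' ∧ 1 ≤ d' ∧
        (p, r, d) ≠ (p', r', d') ∧
        N * (p ^ d - 1) = p ^ r - 1 ∧ N * (p' ^ d' - 1) = p' ^ r' - 1}.Finite := by
  refine Set.Finite.subset (core_finite.image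
    (fun t : ℕ × ℕ × ℕ × ℕ => ∑ i ∈ range (2 * t.2.2.1 + 1), t.1 ^ i)) ?_
  rintro N ⟨hN, p, r, d, p', r', d', hp, hr, hd, hp', hr', hd', hne, h, h'⟩
  obtain ⟨x, y, k, l, hs, hN'⟩ :=
    reduction N hN p r d p' r' d' hp hr hd hp' hr' hd' hne h h'
  exact ⟨(x, y, k, l), hs, hN'.symm⟩

end Pool.Agent.TwoRep
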