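import Pool.Agent.Lib.MP_56ee40_nt.Defs

namespace Pool.Agent.TwoRep

open Finset Polynomial

/-- The values `F` are the values of a fixed element of `ℤ[√(AC)]`. -/
private def IT (d : Dat) (F : ∀ (K : Type) [Field K], K → K → K → K) : Prop :=
  ∃ u v : ℤ, ∀ (K : Type) [Field K] [CharZero K] (rA rB rC : K),
      rA ^ 2 = (d.A : K) → rB ^ 2 = (d.B : K) → rC ^ 2 = (d.C : K) →
      (u : K) + v * (rA * rC) = F K rA rB rC

private theorem IT.congr {d : Dat} {F G : ∀ (K : Type) [Field K], K → K → K → K} (h : IT d F)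
    (hFG : ∀ (K : Type) [Field K] [CharZero K] (rA rB rC : K),
      rA ^ 2 = (d.A : K) → rB ^ 2 = (d.B : K) → rC ^ 2 = (d.C : K) →
      F K rA rB rC = G K rA rB rC) : IT d G := by
  obtain ⟨u, v, h⟩ := h
  refine ⟨u, v, ?_⟩
  intro K _ _ rA rB rC hA hB hC
  rw [h K rA rB rC hA hB hC, hFG K rA rB rC hA hB hC]

private theorem IT.mul {d : Dat} {F G : ∀ (K : Type) [Field K], K → K → K → K} (hF : IT d F)
    (hG : IT d G) : IT d (fun K _ rA rB rC => F K rA rB rC * G K rA rB rC) := by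
  obtain ⟨u, v, hF⟩ := hF
  obtain ⟨u', v', hG⟩ := hG
  refine ⟨u * u' + v * v' * (d.A * d.C), u * v' + v * u', ?_⟩
  intro K _ _ rA rB rC hA hB hC
  beta_reduce
  rw [← hF K rA rB rC hA hB hC, ← hG K rA rB rC hA hB hC]
  push_cast
  rw [← hA, ← hC]
  ring

private theorem IT.one {d : Dat} : IT d (fun _ _ _ _ _ => 1) := by
  refine ⟨1, 0, ?_⟩
  intro K _ _ rA rB rC _ _ _
  simp

private theorem IT.pow {d : Dat} {F : ∀ (K : Type) [Field K], K → K → K → K} (hF : IT d F)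
    (n : ℕ) : IT d (fun K _ rA rB rC => F K rA rB rC ^ n) := by
  induction n with
  | zero => exact IT.one.congr (by intro K _ _ rA rB rC _ _ _; simp)
  | succ n ih => exact (ih.mul hF).congr (by intro K _ _ rA rB rC _ _ _; rw [pow_succ])

section basic
variable (d : Dat) {K : Type} [Field K] [CharZero K] {rA rB rC : K}
  (hA : rA ^ 2 = (d.A : K)) (hB : rB ^ 2 = (d.B : K)) (hC : rC ^ 2 = (d.C : K))

include hB in
private theorem IT_rB : rB ≠ 0 := by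
  intro h
  have h1 : (0 : ℤ) < d.B := by
    rw [d.hB]
    exact mul_pos d.hy0 d.hb0
  have h2 : (d.B : K) ≠ 0 := by exact_mod_cast h1.ne'
  apply h2
  rw [← hB, h]
  ring

private theorem IT_Y : (d.Y : K) ≠ 0 := by
  have h1 : (0 : ℤ) < d.Y := by
    rw [d.hY]
    exact mul_pos (pow_pos d.hy0 _) d.hY20
  exact_mod_cast h1.ne'

include hA hB hC in
private theorem IT_z0 : zz0 rA rB rC * ((rA + rC) / rB) = 1 := by
  have h0 := IT_rB d hB
  unfold zz0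
  rw [div_mul_div_comm, div_eq_one_iff_eq (mul_ne_zero h0 h0)]
  have h1 : (d.A : K) = d.B + d.C := by exact_mod_cast d.hABC
  linear_combination hA - hB - hC + h1

include hA hB hC in
private theorem IT_z0_ne : zz0 rA rB rC ≠ 0 := by
  intro h
  have h1 := IT_z0 d hA hB hC
  rw [h, zero_mul] at h1
  exact zero_ne_one h1

include hA hB hC in
private theorem IT_z0_inv : (zz0 rA rB rC)⁻¹ = (rA + rC) / rB :=
  inv_eq_of_mul_eq_one_right (IT_z0 d hA hB hC)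

include hA hB hC in
private theorem IT_z0_sq : (d.B : K) * zz0 rA rB rC ^ 2 = (d.A + d.C : K) - 2 * (rA * rC) := by
  have h0 := IT_rB d hB
  unfold zz0
  rw [← hA, ← hB, ← hC]
  field_simp
  ring

include hA hB hC in
private theorem IT_z0_sq_inv :
    (d.B : K) * (zz0 rA rB rC)⁻¹ ^ 2 = (d.A + d.C : K) + 2 * (rA * rC) := by
  have h0 := IT_rB d hB
  rw [IT_z0_inv d hA hB hC, ← hA, ← hB, ← hC]
  field_simp
  ring

include hA hB hC in
private theorem IT_W : zz d.X d.Y d.ε rA rB rC / zz0 rA rB rC * (d.B * d.Y) =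
    (d.A * d.X - d.ε * d.C) + (d.X - d.ε) * (rA * rC) := by
  have h0 := IT_rB d hB
  have hY := IT_Y (K := K) d
  rw [div_eq_mul_inv, IT_z0_inv d hA hB hC, ← hA, ← hB, ← hC]
  unfold zz
  field_simp
  ring

include hA hB hC in
private theorem IT_z_conj : zz d.X d.Y d.ε rA rB (-rC) = (zz d.X d.Y d.ε rA rB rC)⁻¹ := by
  have h0 := IT_rB d hB
  have hY := IT_Y (K := K) d
  symm
  apply inv_eq_of_mul_eq_one_right
  unfold zz
  rw [div_mul_div_comm, div_eq_one_iff_eq (mul_ne_zero (mul_ne_zero h0 hY) (mul_ne_zero h0 hY))]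
  have h1 : (d.A : K) * d.X ^ 2 = d.B * d.Y ^ 2 + d.C := by exact_mod_cast d.heq
  have h2 : (d.ε : K) ^ 2 = 1 := by
    rcases d.hε with h | h <;> rw [h] <;> simp
  linear_combination (d.X : K) ^ 2 * hA - (d.Y : K) ^ 2 * hB - (d.ε : K) ^ 2 * hC + h1 -
    (d.C : K) * h2

include hA hB hC in
private theorem IT_z0_conj : zz0 rA rB (-rC) = (zz0 rA rB rC)⁻¹ := by
  rw [IT_z0_inv d hA hB hC]
  unfold zz0
  rw [sub_neg_eq_add]

end basic

/-- `B z₀²` -/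
private theorem IT_sq (d : Dat) : IT d (fun K _ rA rB rC =>
    (d.y : K) * d.b * zz0 rA rB rC ^ 2) := by
  refine ⟨d.A + d.C, -2, ?_⟩
  intro K _ _ rA rB rC hA hB hC
  have h1 : (d.y : K) * d.b = d.B := by exact_mod_cast d.hB.symm
  simp only
  rw [h1, IT_z0_sq d hA hB hC]
  push_cast
  ring

/-- `B z₀⁻²` -/
private theorem IT_sq_inv (d : Dat) : IT d (fun K _ rA rB rC =>
    (d.y : K) * d.b * (zz0 rA rB rC)⁻¹ ^ 2) := by
  refine ⟨d.A + d.C, 2, ?_⟩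
  intro K _ _ rA rB rC hA hB hC
  have h1 : (d.y : K) * d.b = d.B := by exact_mod_cast d.hB.symm
  simp only
  rw [h1, IT_z0_sq_inv d hA hB hC]
  push_cast
  ring

private theorem IT_key (d : Dat) (t : ℕ) : ∃ p q α β : ℤ,
    p = -d.ε * d.A * d.X * (d.A ^ t * (d.X - d.ε) ^ (2 * t + 1)) + d.B * d.Y ^ 2 * α ∧
    q = d.A ^ t * (d.X - d.ε) ^ (2 * t + 1) + d.B * d.Y ^ 2 * β ∧
    ∀ (K : Type) [Field K] [CharZero K] (rA rB rC : K),
      rA ^ 2 = (d.A : K) → rB ^ 2 = (d.B : K) → rC ^ 2 = (d.C : K) →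
      (p : K) + q * (rA * rC) = ((d.A * d.X - d.ε * d.C) + (d.X - d.ε) * (rA * rC)) *
        ((d.A + d.C : K) + 2 * (rA * rC)) ^ t := by
  have hε : d.ε ^ 2 = 1 := by
    rcases d.hε with h | h <;> rw [h] <;> norm_num
  induction t with
  | zero =>
    refine ⟨d.A * d.X - d.ε * d.C, d.X - d.ε, d.ε, 0, ?_, by ring, ?_⟩
    · linear_combination d.ε * d.heq - d.A * d.X * hε
    · intro K _ _ rA rB rC hA hB hC
      push_cast
      ring
  | succ t ih =>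
    obtain ⟨p, q, α, β, hp, hq, hK⟩ := ih
    refine ⟨(d.A + d.C) * p + 2 * (d.A * d.C) * q, 2 * p + (d.A + d.C) * q,
      (d.A + d.C) * α + 2 * (d.A * d.C) * β +
        d.A * (d.ε * d.X - 2) * (d.A ^ t * (d.X - d.ε) ^ (2 * t + 1)),
      2 * α + (d.A + d.C) * β - d.A ^ t * (d.X - d.ε) ^ (2 * t + 1), ?_, ?_, ?_⟩
    · rw [hp, hq]
      have e1 : d.A ^ (t + 1) * (d.X - d.ε) ^ (2 * (t + 1) + 1) =
          (d.A ^ t * (d.X - d.ε) ^ (2 * t + 1)) * (d.A * (d.X - d.ε) ^ 2) := by ring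
      rw [e1]
      generalize d.A ^ t * (d.X - d.ε) ^ (2 * t + 1) = w
      linear_combination (w * d.A * (d.ε * d.X - 2)) * d.heq +
        w * d.A ^ 2 * d.X * (d.ε - 2 * d.X) * hε
    · rw [hp, hq]
      have e1 : d.A ^ (t + 1) * (d.X - d.ε) ^ (2 * (t + 1) + 1) =
          (d.A ^ t * (d.X - d.ε) ^ (2 * t + 1)) * (d.A * (d.X - d.ε) ^ 2) := by ring
      rw [e1]
      generalize d.A ^ t * (d.X - d.ε) ^ (2 * t + 1) = w
      linear_combination -w * d.heq - w * d.A * hε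
    · intro K _ _ rA rB rC hA hB hC
      have h := hK K rA rB rC hA hB hC
      rw [pow_succ]
      push_cast
      linear_combination ((d.A : K) + d.C + 2 * (rA * rC)) * h - 2 * (q : K) * d.C * hA -
        2 * (q : K) * rA ^ 2 * hC

/-- `b^(t+1) Y2 y^(l-t) W z₀^(-2t)` -/
private theorem IT_V (d : Dat) (t : ℕ) (ht : t ≤ d.l) : IT d (fun K _ rA rB rC =>
    (d.y : K) ^ (d.l - t) * d.Y2 * d.b ^ (t + 1) *
      ((zz0 rA rB rC)⁻¹ ^ (2 * t) * (zz d.X d.Y d.ε rA rB rC / zz0 rA rB rC))) := by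
  obtain ⟨p, q, α, β, hp, hq, hK⟩ := IT_key d t
  have h1 : d.y ^ (2 * t + 1) ∣ (d.X - d.ε) ^ (2 * t + 1) := pow_dvd_pow_of_dvd d.hdiv _
  have h2 : d.y ^ (2 * t + 1) ∣ d.B * d.Y ^ 2 := by
    have h3 : d.B * d.Y ^ 2 = d.y ^ (2 * d.l + 1) * (d.b * d.Y2 ^ 2) := by
      rw [d.hB, d.hY]
      ring
    rw [h3]
    exact (pow_dvd_pow _ (by omega)).trans (dvd_mul_right _ _)
  have hdp : d.y ^ (2 * t + 1) ∣ p := by
    rw [hp]
    exact dvd_add (dvd_mul_of_dvd_right (dvd_mul_of_dvd_right h1 _) _) (dvd_mul_of_dvd_left h2 _)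
  have hdq : d.y ^ (2 * t + 1) ∣ q := by
    rw [hq]
    exact dvd_add (dvd_mul_of_dvd_right h1 _) (dvd_mul_of_dvd_left h2 _)
  obtain ⟨u, hu⟩ := hdp
  obtain ⟨v, hv⟩ := hdq
  refine ⟨u, v, ?_⟩
  intro K _ _ rA rB rC hA hB hC
  have h3 := hK K rA rB rC hA hB hC
  rw [hu, hv, ← IT_z0_sq_inv d hA hB hC, ← IT_W d hA hB hC] at h3
  have hy : (d.y : K) ≠ 0 := by exact_mod_cast d.hy0.ne'
  have hy' : (d.y : K) ^ (2 * t + 1) ≠ 0 := pow_ne_zero _ hy
  apply mul_left_cancel₀ hy'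
  have h4 : (d.B : K) = d.y * d.b := by exact_mod_cast d.hB
  have h5 : (d.Y : K) = d.y ^ d.l * d.Y2 := by exact_mod_cast d.hY
  rw [h4, h5] at h3
  obtain ⟨m, hm⟩ := Nat.exists_eq_add_of_le ht
  have h6 : d.l - t = m := by omega
  rw [h6]
  push_cast at h3
  rw [hm] at h3
  rw [mul_add, ← mul_assoc, h3]
  beta_reduce
  generalize zz d.X d.Y d.ε rA rB rC / zz0 rA rB rC = W
  generalize (zz0 rA rB rC)⁻¹ = Z
  ring

/-- `y^(l j - m) Y2^j b^(m+j) W^j z₀^(-2m)` for `m ≤ l j` -/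
private theorem IT_P (d : Dat) (j : ℕ) : ∀ m : ℕ, m ≤ d.l * j → IT d (fun K _ rA rB rC =>
    (d.y : K) ^ (d.l * j - m) * d.Y2 ^ j * d.b ^ (m + j) *
      ((zz0 rA rB rC)⁻¹ ^ (2 * m) * (zz d.X d.Y d.ε rA rB rC / zz0 rA rB rC) ^ j)) := by
  induction j with
  | zero =>
    intro m hm
    have hm0 : m = 0 := by omega
    subst hm0
    exact IT.one.congr (by intro K _ _ rA rB rC _ _ _; simp)
  | succ j ih =>
    intro m hm
    have hmul : d.l * (j + 1) = d.l * j + d.l := by ring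
    obtain ⟨t, m', ht, hm', hmt⟩ : ∃ t m' : ℕ, t ≤ d.l ∧ m' ≤ d.l * j ∧ m = m' + t := by
      by_cases h : m ≤ d.l
      · exact ⟨m, 0, h, Nat.zero_le _, by omega⟩
      · exact ⟨d.l, m - d.l, le_rfl, by omega, by omega⟩
    refine ((ih m' hm').mul (IT_V d t ht)).congr ?_
    intro K _ _ rA rB rC hA hB hC
    have e1 : d.l * (j + 1) - m = (d.l * j - m') + (d.l - t) := by omega
    rw [e1, hmt]
    generalize zz d.X d.Y d.ε rA rB rC / zz0 rA rB rC = W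
    generalize (zz0 rA rB rC)⁻¹ = Z
    ring

private theorem IT_nonneg (d : Dat) (s : ℤ) (j : ℕ) : IT d (fun K _ rA rB rC =>
    (d.y : K) ^ (s + d.l * (j : ℤ)).natAbs * (d.Y2 : K) ^ j *
          (d.b : K) ^ (s.natAbs + j) *
          ((zz0 rA rB rC) ^ (2 * s - (j : ℤ)) * (zz d.X d.Y d.ε rA rB rC) ^ (j : ℤ))) := by
  rcases le_total 0 s with hs | hs
  · obtain ⟨n, rfl⟩ := Int.eq_ofNat_of_zero_le hs
    refine (((IT_sq d).pow n).mul ((IT_V d 0 (Nat.zero_le _)).pow j)).congr ?_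
    intro K _ _ rA rB rC hA hB hC
    have hz0 := IT_z0_ne d hA hB hC
    have e1 : ((n : ℤ) + d.l * (j : ℤ)).natAbs = n + d.l * j := by
      have : ((n : ℤ) + d.l * (j : ℤ)) = ((n + d.l * j : ℕ) : ℤ) := by push_cast; ring
      rw [this, Int.natAbs_natCast]
    have e2 : (zz0 rA rB rC) ^ (2 * (n : ℤ) - (j : ℤ)) =
        (zz0 rA rB rC) ^ (2 * n) / (zz0 rA rB rC) ^ j := by
      rw [zpow_sub₀ hz0, zpow_natCast]
      congr 1
      exact_mod_cast zpow_natCast (zz0 rA rB rC) (2 * n)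
    simp only [e1, e2, Int.natAbs_natCast, zpow_natCast, Nat.sub_zero, mul_zero, pow_zero,
      one_mul, zero_add, pow_one, div_pow, mul_pow]
    rw [pow_add, pow_add, pow_mul, pow_mul]
    ring
  · obtain ⟨m, hm⟩ := Int.eq_ofNat_of_zero_le (neg_nonneg.mpr hs)
    have hs' : s = -(m : ℤ) := by omega
    subst hs'
    rcases le_total m (d.l * j) with hmj | hmj
    · refine (IT_P d j m hmj).congr ?_
      intro K _ _ rA rB rC hA hB hC
      have hz0 := IT_z0_ne d hA hB hC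
      have e1 : (-(m : ℤ) + d.l * (j : ℤ)).natAbs = d.l * j - m := by
        have : (-(m : ℤ) + d.l * (j : ℤ)) = ((d.l * j - m : ℕ) : ℤ) := by
          push_cast [Nat.cast_sub hmj]; ring
        rw [this, Int.natAbs_natCast]
      have e2 : (zz0 rA rB rC) ^ (2 * (-(m : ℤ)) - (j : ℤ)) =
          (zz0 rA rB rC)⁻¹ ^ (2 * m) / (zz0 rA rB rC) ^ j := by
        rw [zpow_sub₀ hz0, zpow_natCast, mul_neg, zpow_neg, inv_pow]
        congr 2
        exact_mod_cast zpow_natCast (zz0 rA rB rC) (2 * m)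
      simp only [e1, e2, Int.natAbs_neg, Int.natAbs_natCast, zpow_natCast, div_pow]
      ring
    · refine ((IT_P d j (d.l * j) le_rfl).mul ((IT_sq_inv d).pow (m - d.l * j))).congr ?_
      intro K _ _ rA rB rC hA hB hC
      have hz0 := IT_z0_ne d hA hB hC
      obtain ⟨n, hn⟩ := Nat.exists_eq_add_of_le hmj
      have e0 : m - d.l * j = n := by omega
      have e1 : (-(m : ℤ) + d.l * (j : ℤ)).natAbs = n := by
        have : (-(m : ℤ) + d.l * (j : ℤ)) = -(n : ℤ) := by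
          rw [hn]; push_cast; ring
        rw [this, Int.natAbs_neg, Int.natAbs_natCast]
      have e2 : (zz0 rA rB rC) ^ (2 * (-(m : ℤ)) - (j : ℤ)) =
          (zz0 rA rB rC)⁻¹ ^ (2 * m) / (zz0 rA rB rC) ^ j := by
        rw [zpow_sub₀ hz0, zpow_natCast, mul_neg, zpow_neg, inv_pow]
        congr 2
        exact_mod_cast zpow_natCast (zz0 rA rB rC) (2 * m)
      simp only [e0, e1, e2, Int.natAbs_neg, Int.natAbs_natCast, zpow_natCast, div_pow,
        Nat.sub_self, pow_zero, one_mul]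
      rw [hn]
      generalize (zz0 rA rB rC)⁻¹ = Z
      ring

/-- **INTEG.** Denominators of `z₀^(2s-j) z^j`.

PROOF.  Let `D = A C`, work in the ring `ℤ√D` (`Zsqrtd (d.A * d.C)`) or directly with pairs of
integers; `ρ = rA * rC`.  Put
`η = (A X - ε C) + (X - ε) √D`, `θ = (A + C) + 2 √D`, `θ' = (A+C) - 2√D`; `θ θ' = B^2`.
In any `K`: `z₀^2 = θ'/B` (i.e. `(A+C-2ρ)/B`), `z₀^(-2) = θ/B`, and `W := z/z₀ = η/(B Y)`.
(`z₀ ≠ 0` because `(rA-rC)(rA+rC) = A - C = B ≠ 0`, `rB ≠ 0`; note `rB^2 = B`.)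
(1) KEY: `y^(2t+1) ∣ η θ^t` in `ℤ√D` for `t ≤ l`.  Modulo `B Y^2 ℤ√D` one has
 `η ≡ (X-ε)(√D - ε A X)`  [difference `= ε B Y^2`] and
 `θ (√D - ε A X) ≡ A (X-ε)^2 (√D - ε A X)` [difference: `√D`-part `-B Y^2`, rational part
 `B Y^2 A (ε X - 2)`; use `A X^2 - C = B Y^2`, `ε^2 = 1`], hence by induction
 `η θ^t ≡ A^t (X-ε)^(2t+1) (√D - ε A X) mod B Y^2`.  Now `y^(2t+1) ∣ (X-ε)^(2t+1)` and
 `y^(2t+1) ∣ y^(2l+1) ∣ B Y^2` (`B = y b`, `Y = y^l Y2`).
 So `η θ^t = y^(2t+1) V_t`, and `W z₀^(-2t) = η θ^t/(B^(t+1) Y)`, i.e.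
 `b^(t+1) Y2 y^(l-t) * (W z₀^(-2t)) = V_t ∈ ℤ√D` for `0 ≤ t ≤ l`.
(2) `z₀^(2s-j) z^j = (z₀^2)^s W^j`.  For `j ≥ 0`:
 * `s ≥ 0`: `(θ'/B)^s` needs `y^s b^s`, each `W` needs `b Y2 y^l` (t = 0). Total
   `y^(s+lj) b^(s+j) Y2^j`.
 * `s = -m`, `0 < m ≤ l j`: write `m = t_1 + ... + t_j` with `0 ≤ t_i ≤ l` and multiply the
   `j` numbers `W z₀^(-2 t_i)`; denominator `b^(m+j) Y2^j y^(l j - m)`.
 * `s = -m`, `m > l j`: take all `t_i = l` and `m - l j` extra factors `z₀^(-2) = θ/B`: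
   `y^(m - l j) b^(m+j) Y2^j`.
 (e.g. induction on `j` or on `m`; a clean way: call a pair `(m, N)` good ...)
(3) For `j < 0` apply the case `(-s,-j)` with `rC` replaced by `-rC` (allowed since the statement
 quantifies over all square roots): `zz0 rA rB (-rC) = (zz0 rA rB rC)⁻¹` and
 `zz X Y ε rA rB (-rC) = (zz X Y ε rA rB rC)⁻¹` (because `(rA X)^2 - rC^2 = B Y^2`), so
 `(u, -v)` works. -/
theorem integrality (d : Dat) (s j : ℤ) : ∃ u v : ℤ,
    ∀ (K : Type) [Field K] [CharZero K] (rA rB rC : K),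
      rA ^ 2 = (d.A : K) → rB ^ 2 = (d.B : K) → rC ^ 2 = (d.C : K) →
      (u : K) + v * (rA * rC) =
        (d.y : K) ^ (s + d.l * j).natAbs * (d.Y2 : K) ^ j.natAbs *
          (d.b : K) ^ (s.natAbs + j.natAbs) *
          ((zz0 rA rB rC) ^ (2 * s - j) * (zz d.X d.Y d.ε rA rB rC) ^ j) := by
  rcases le_total 0 j with hj | hj
  · obtain ⟨n, rfl⟩ := Int.eq_ofNat_of_zero_le hj
    obtain ⟨u, v, h⟩ := IT_nonneg d s n
    refine ⟨u, v, ?_⟩
    intro K _ _ rA rB rC hA hB hC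
    rw [h K rA rB rC hA hB hC, Int.natAbs_natCast]
  · obtain ⟨n, hn⟩ := Int.eq_ofNat_of_zero_le (neg_nonneg.mpr hj)
    have hj' : j = -(n : ℤ) := by omega
    subst hj'
    obtain ⟨u, v, h⟩ := IT_nonneg d (-s) n
    refine ⟨u, -v, ?_⟩
    intro K _ _ rA rB rC hA hB hC
    have h1 := h K rA rB (-rC) hA hB (by rw [neg_sq]; exact hC)
    beta_reduce at h1
    have e1 : (s + d.l * -(n : ℤ)).natAbs = (-s + d.l * (n : ℤ)).natAbs := by
      rw [← Int.natAbs_neg]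
      congr 1
      ring
    have e2 : (2 * s - -(n : ℤ)) = -(2 * (-s) - (n : ℤ)) := by ring
    rw [e1, e2, Int.natAbs_neg, Int.natAbs_natCast, zpow_neg, zpow_neg]
    rw [IT_z0_conj d hA hB hC, IT_z_conj d hA hB hC, Int.natAbs_neg, inv_zpow, inv_zpow] at h1
    rw [← h1]
    push_cast
    ring


end Pool.Agent.TwoRep
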