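import Pool.Agent.Lib.MP_56ee40_nt.Defs

namespace Pool.Agent.TwoRep

open Finset Polynomial

private theorem NumM_grow (T : ℕ) (hT : 100 ≤ T) : (1200 * (T + 1) + 3) ^ 2 ≤ 2 ^ T := by
  induction T, hT using Nat.le_induction with
  | base => norm_num
  | succ T hT ih =>
    rw [pow_succ 2 T]
    nlinarith

private theorem NumM_J (L l : ℕ) (hl : 10000 ≤ l) (hlL : l ≤ L) : 2500 * JJ L l ≤ L := by
  unfold JJ
  set D := 2 * L / l with hD
  have h1 : l * D ≤ 2 * L := Nat.mul_div_le (2 * L) l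
  have h2 : 10000 * D ≤ l * D := Nat.mul_le_mul_right D hl
  omega

private theorem NumM_HH (L l : ℕ) (hl : 10000 ≤ l) (hlL : l ≤ L) : HH L l ≤ 2 ^ (57 * L) := by
  have hJ := NumM_J L l hl hlL
  unfold HH sb EE
  generalize JJ L l = J at hJ ⊢
  have hg := NumM_grow (L / 100) (by omega)
  have hg' : 1200 * (L / 100 + 1) + 3 ≤ 2 ^ (L / 100) :=
    le_trans (by nlinarith) hg
  have h1 : 12 * L + 3 ≤ 2 ^ (L / 100) := by omega
  have h2 : J + 1 ≤ 2 ^ (L / 100) := by omega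
  have h3 : (12 * L + 3) * (2 ^ (2 * (2 * (2 * L) + J)) * (J + 1)) ≤
      2 ^ (L / 100 + (2 * (2 * (2 * L) + J) + L / 100)) := by
    rw [pow_add, pow_add]
    exact Nat.mul_le_mul h1 (Nat.mul_le_mul_left _ h2)
  refine (Nat.pow_le_pow_left h3 7).trans ?_
  rw [← pow_mul]
  refine Nat.pow_le_pow_right (by norm_num) ?_
  omega

/-- the constants, as a real number -/
private theorem NumM_const (L l : ℕ) (hl : 10000 ≤ l) (hlL : l ≤ L) :
    (((2 * EE L l : ℕ) : ℝ) + 1) * ((12 * L + 3 : ℕ) : ℝ) * (HH L l : ℝ) *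
        2 ^ (2 * (2 * EE L l) + JJ L l + 1 + EE L l) ≤ 2 ^ (79 * L) := by
  have hJ := NumM_J L l hl hlL
  have hH := NumM_HH L l hl hlL
  have hg := NumM_grow (L / 100) (by omega)
  have hE : EE L l = 4 * L + JJ L l := by unfold EE; ring
  rw [hE]
  generalize HH L l = H at hH ⊢
  generalize JJ L l = J at hJ ⊢
  have h1 : (2 * (4 * L + J) + 1) * (12 * L + 3) ≤ 2 ^ L := by
    have h2 : 2 * (4 * L + J) + 1 ≤ 1200 * (L / 100 + 1) + 3 := by omega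
    have h3 : 12 * L + 3 ≤ 1200 * (L / 100 + 1) + 3 := by omega
    calc (2 * (4 * L + J) + 1) * (12 * L + 3)
        ≤ (1200 * (L / 100 + 1) + 3) * (1200 * (L / 100 + 1) + 3) := Nat.mul_le_mul h2 h3
      _ = (1200 * (L / 100 + 1) + 3) ^ 2 := (sq _).symm
      _ ≤ 2 ^ (L / 100) := hg
      _ ≤ 2 ^ L := Nat.pow_le_pow_right (by norm_num) (by omega)
  have h4 : 2 ^ (2 * (2 * (4 * L + J)) + J + 1 + (4 * L + J)) ≤ 2 ^ (21 * L) :=
    Nat.pow_le_pow_right (by norm_num) (by omega)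
  have h5 : (2 * (4 * L + J) + 1) * (12 * L + 3) * H *
      2 ^ (2 * (2 * (4 * L + J)) + J + 1 + (4 * L + J)) ≤ 2 ^ (79 * L) := by
    have e : 79 * L = L + 57 * L + 21 * L := by ring
    rw [e, pow_add 2 (L + 57 * L), pow_add 2 L]
    exact Nat.mul_le_mul (Nat.mul_le_mul h1 hH) h4
  have h6 : (((2 * (4 * L + J) + 1) * (12 * L + 3) * H *
      2 ^ (2 * (2 * (4 * L + J)) + J + 1 + (4 * L + J)) : ℕ) : ℝ) ≤ ((2 ^ (79 * L) : ℕ) : ℝ) := by
    exact_mod_cast h5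
  refine le_trans (le_of_eq ?_) (h6.trans (le_of_eq ?_))
  · push_cast
    ring
  · push_cast
    ring

/-- bound of the maximum -/
private theorem NumM_max (r : ℝ) (hr : 1 ≤ r) (c : ℝ) (hc : 1 ≤ c) (L g g' t : ℕ)
    (hg : g = g' + 2 * L) (hg4 : g ≤ 4 * L) (ht : t ≤ g') :
    max ((c / r ^ (100 * L)) ^ 2) (max (c / r ^ (100 * L) * (c / r ^ 50) ^ (g' - t))
      ((c / r ^ 50) ^ (g - t))) ≤ c ^ (g + 2) / r ^ (50 * (g - t)) := by
  have hr0 : 0 < r := by linarith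
  have hc0 : 0 < c := by linarith
  refine max_le ?_ (max_le ?_ ?_)
  · rw [div_pow, ← pow_mul]
    refine div_le_div₀ (by positivity) (pow_le_pow_right₀ hc (by omega)) (by positivity)
      (pow_le_pow_right₀ hr (by omega))
  · rw [div_pow, div_mul_div_comm, ← pow_mul, ← pow_add, ← pow_succ']
    refine div_le_div₀ (by positivity) (pow_le_pow_right₀ hc (by omega)) (by positivity)
      (pow_le_pow_right₀ hr (by omega))
  · rw [div_pow, ← pow_mul]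
    refine div_le_div₀ (by positivity) (pow_le_pow_right₀ hc (by omega)) (by positivity)
      (pow_le_pow_right₀ hr (by omega))

private theorem NumM_K0 : 100 * 11 ≤ K0 := by unfold K0; norm_num

/-- **NUMM.** PROOF. `s = √xh`, `J = JJ L l ≤ L/2500`, `g = g0 L`, `g' = g1 L = g - 2L`,
`t < L/100`, `3L + 5L/8 - 1 < g ≤ 3L+5L/8`.
Real max: `(4/xh^L)^2 = 16 s^(-4L) ≤ 16 s^(-(g-t))` (`g ≤ 4L`);
`4/xh^L (4/s)^(g'-t) = 4^(g'-t+1) s^(-2L-(g'-t)) = 4^(g'-t+1) s^(-(g-t))`; `(4/s)^(g-t)`; so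
real max `≤ 4^(g+2) s^(-(g-t))`.  `p`-adic max `≤ s^(-(g-t))`.  Product `≤ 4^(g+2) xh^(-(g-t))`.
Constants: `HH ≤ 2^(57L)` (as `7 (log₂(12L+3)+8L+2J+log₂(J+1)) ≤ 57 L`), `(2EE+1)(12L+3) ≤ 2^L`,
`2^(5EE+J+1) ≤ 2^(21 L)`, `4^(g+2) ≤ 2^(8L)`: total `≤ 2^(90 L)`.
`yh^(3l/2) ≤ xh^(3(L+1)/2)` (square both sides: `yh^(3l) ≤ xh^(3(L+1))`; note `2*(3*l/2) ≤ 3l`),
`b^(2L+J) ≤ xh^(2L+J)`, `Y2^J ≤ xh^(L/50)` (50-th power).  So the product is at most
`2^(90L) xh^(1.5(L+1) + 2L + J + L/50 - (g-t))` and the exponent is `≤ -L/20`, while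
`xh ≥ 2^500000`.  (Suggestion: take `Real.log` of everything, or raise to the 100-th power.) -/
theorem num_m (xh yh b Y2 L l t : ℕ) (hx : 2 ^ K0 ≤ xh) (h2 : yh ^ l < xh ^ (L + 1))
    (hl : 10000 ≤ l) (hlL : l ≤ L) (hb : b < xh) (hY2 : Y2 ^ (50 * JJ L l) ≤ xh ^ L)
    (ht : t < L / 100) :
    ((yh : ℝ) ^ (3 * l / 2) * (Y2 : ℝ) ^ (JJ L l) * (b : ℝ) ^ (2 * L + JJ L l) *
      ((((2 * EE L l : ℕ) : ℝ) + 1) * ((12 * L + 3 : ℕ) : ℝ) * (HH L l : ℝ) *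
        2 ^ (2 * (2 * EE L l) + JJ L l + 1 + EE L l) *
        max ((4 / (xh : ℝ) ^ L) ^ 2) (max (4 / (xh : ℝ) ^ L * (4 / √(xh : ℝ)) ^ (g1 L - t))
          ((4 / √(xh : ℝ)) ^ (g0 L - t))))) *
      max ((1 / (xh : ℝ) ^ L) ^ 2) (max (1 / (xh : ℝ) ^ L * (1 / √(xh : ℝ)) ^ (g1 L - t))
          ((1 / √(xh : ℝ)) ^ (g0 L - t))) < 1 := by
  have hJ := NumM_J L l hl hlL
  have hconst := NumM_const L l hl hlL
  have hK := NumM_K0
  generalize K0 = K at hx hK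
  generalize hcc : (((2 * EE L l : ℕ) : ℝ) + 1) * ((12 * L + 3 : ℕ) : ℝ) * (HH L l : ℝ) *
        2 ^ (2 * (2 * EE L l) + JJ L l + 1 + EE L l) = cc at hconst ⊢
  have hcc0 : 0 ≤ cc := by rw [← hcc]; positivity
  generalize JJ L l = J at hJ hY2 ⊢
  have hg01 : g0 L = g1 L + 2 * L := by unfold g0 g1; omega
  have hg04 : g0 L ≤ 4 * L := by unfold g0; omega
  have hg0l : 29 * L ≤ 8 * g0 L + 7 := by unfold g0; omega
  have hg0u : 8 * g0 L ≤ 29 * L := by unfold g0; omega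
  have htg : t ≤ g1 L := by unfold g1; omega
  generalize g0 L = g at hg01 hg04 hg0l hg0u ⊢
  generalize g1 L = g' at hg01 htg ⊢
  -- the root
  obtain ⟨r, hr0, hr⟩ : ∃ r : ℝ, 0 < r ∧ r ^ 100 = (xh : ℝ) := by
    have hxpos : (0 : ℝ) < xh := by
      have : 0 < xh := lt_of_lt_of_le (by positivity) hx
      exact_mod_cast this
    refine ⟨(xh : ℝ) ^ (((100 : ℕ) : ℝ)⁻¹), by positivity, ?_⟩
    exact Real.rpow_inv_natCast_pow hxpos.le (by norm_num)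
  have hr11 : (2 : ℝ) ^ 11 ≤ r := by
    have h3 : ((2 : ℝ) ^ 11) ^ 100 ≤ r ^ 100 := by
      rw [hr, ← pow_mul]
      have h4 : 2 ^ (11 * 100) ≤ xh :=
        (Nat.pow_le_pow_right (by norm_num) (by omega)).trans hx
      have h5 : ((2 ^ (11 * 100) : ℕ) : ℝ) ≤ (xh : ℝ) := Nat.cast_le.2 h4
      rwa [Nat.cast_pow, Nat.cast_ofNat] at h5
    exact le_of_pow_le_pow_left₀ (by norm_num) hr0.le h3
  have hr1 : 1 ≤ r := le_trans (one_le_pow₀ (by norm_num)) hr11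
  have hsqrt : √(xh : ℝ) = r ^ 50 := by
    rw [← hr, show r ^ 100 = (r ^ 50) ^ 2 by rw [← pow_mul], Real.sqrt_sq (by positivity)]
  have hxp : ∀ n : ℕ, (xh : ℝ) ^ n = r ^ (100 * n) := by
    intro n
    rw [← hr, ← pow_mul]
  -- the factors
  have F1 : (yh : ℝ) ^ (3 * l / 2) ≤ r ^ (150 * (L + 1)) := by
    rcases Nat.eq_zero_or_pos yh with h0 | h0
    · rw [h0, Nat.cast_zero, zero_pow (by omega)]
      positivity
    · have hy1 : (1 : ℝ) ≤ yh := by exact_mod_cast h0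
      have h3 : ((yh : ℝ) ^ (3 * l / 2)) ^ 2 ≤ (r ^ (150 * (L + 1))) ^ 2 := by
        rw [← pow_mul, ← pow_mul]
        calc (yh : ℝ) ^ (3 * l / 2 * 2) ≤ (yh : ℝ) ^ (l * 3) :=
              pow_le_pow_right₀ hy1 (by omega)
          _ = ((yh : ℝ) ^ l) ^ 3 := by rw [pow_mul]
          _ ≤ ((xh : ℝ) ^ (L + 1)) ^ 3 := by
              refine pow_le_pow_left₀ (by positivity) ?_ 3
              exact_mod_cast h2.le
          _ = r ^ (150 * (L + 1) * 2) := by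
              rw [hxp, ← pow_mul]
              congr 1
              ring
      exact le_of_pow_le_pow_left₀ (by norm_num) (by positivity) h3
  have F2 : (Y2 : ℝ) ^ J ≤ r ^ (2 * L) := by
    have h3 : ((Y2 : ℝ) ^ J) ^ 50 ≤ (r ^ (2 * L)) ^ 50 := by
      rw [← pow_mul, ← pow_mul]
      have h4 : (Y2 : ℝ) ^ (50 * J) ≤ (xh : ℝ) ^ L := by exact_mod_cast hY2
      rw [hxp] at h4
      rw [mul_comm J 50, show 2 * L * 50 = 100 * L by ring]
      exact h4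
    exact le_of_pow_le_pow_left₀ (by norm_num) (by positivity) h3
  have F3 : (b : ℝ) ^ (2 * L + J) ≤ r ^ (100 * (2 * L + J)) := by
    rw [← hxp]
    exact pow_le_pow_left₀ (Nat.cast_nonneg b) (by exact_mod_cast hb.le) _
  have F4 := NumM_max r hr1 4 (by norm_num) L g g' t hg01 hg04 htg
  have F5 := NumM_max r hr1 1 le_rfl L g g' t hg01 hg04 htg
  rw [one_pow] at F5
  rw [hsqrt, hxp]
  generalize max ((4 / r ^ (100 * L)) ^ 2) (max (4 / r ^ (100 * L) * (4 / r ^ 50) ^ (g' - t))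
      ((4 / r ^ 50) ^ (g - t))) = m1 at F4 ⊢
  have hm2 : 0 ≤ max ((1 / r ^ (100 * L)) ^ 2) (max (1 / r ^ (100 * L) * (1 / r ^ 50) ^ (g' - t))
      ((1 / r ^ 50) ^ (g - t))) := le_max_of_le_left (by positivity)
  generalize max ((1 / r ^ (100 * L)) ^ 2) (max (1 / r ^ (100 * L) * (1 / r ^ 50) ^ (g' - t))
      ((1 / r ^ 50) ^ (g - t))) = m2 at F5 hm2 ⊢
  have G1 : cc * m1 ≤ 2 ^ (79 * L) * (4 ^ (g + 2) / r ^ (50 * (g - t))) := by
    refine le_trans (mul_le_mul_of_nonneg_left F4 hcc0) ?_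
    exact mul_le_mul_of_nonneg_right hconst (by positivity)
  have G2 : (yh : ℝ) ^ (3 * l / 2) * (Y2 : ℝ) ^ J * (b : ℝ) ^ (2 * L + J) ≤
      r ^ (150 * (L + 1) + 2 * L + 100 * (2 * L + J)) := by
    rw [pow_add r (150 * (L + 1) + 2 * L), pow_add r (150 * (L + 1))]
    exact mul_le_mul (mul_le_mul F1 F2 (by positivity) (by positivity)) F3 (by positivity)
      (by positivity)
  have G3 : (yh : ℝ) ^ (3 * l / 2) * (Y2 : ℝ) ^ J * (b : ℝ) ^ (2 * L + J) * (cc * m1) ≤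
      r ^ (150 * (L + 1) + 2 * L + 100 * (2 * L + J)) *
        (2 ^ (79 * L) * (4 ^ (g + 2) / r ^ (50 * (g - t)))) := by
    refine le_trans (mul_le_mul_of_nonneg_left G1 (by positivity)) ?_
    exact mul_le_mul_of_nonneg_right G2 (by positivity)
  have G4 : (yh : ℝ) ^ (3 * l / 2) * (Y2 : ℝ) ^ J * (b : ℝ) ^ (2 * L + J) * (cc * m1) * m2 ≤
      r ^ (150 * (L + 1) + 2 * L + 100 * (2 * L + J)) *
        (2 ^ (79 * L) * (4 ^ (g + 2) / r ^ (50 * (g - t)))) * (1 / r ^ (50 * (g - t))) := by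
    refine le_trans (mul_le_mul_of_nonneg_right G3 hm2) ?_
    exact mul_le_mul_of_nonneg_left F5 (by positivity)
  refine lt_of_le_of_lt G4 ?_
  set E1 := 150 * (L + 1) + 2 * L + 100 * (2 * L + J) with hE1
  have e1 : r ^ E1 * (2 ^ (79 * L) * (4 ^ (g + 2) / r ^ (50 * (g - t)))) *
      (1 / r ^ (50 * (g - t))) = 2 ^ (79 * L + 2 * (g + 2)) * r ^ E1 / r ^ (100 * (g - t)) := by
    have : (4 : ℝ) ^ (g + 2) = 2 ^ (2 * (g + 2)) := by rw [pow_mul]; norm_num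
    rw [this, pow_add 2 (79 * L), show 100 * (g - t) = 50 * (g - t) + 50 * (g - t) by ring,
      pow_add r (50 * (g - t))]
    field_simp
  rw [e1, div_lt_one (by positivity)]
  have e2 : 100 * (g - t) = E1 + (100 * (g - t) - E1) := by omega
  rw [e2, pow_add r E1, mul_comm]
  refine mul_lt_mul_of_pos_left ?_ (by positivity)
  calc (2 : ℝ) ^ (79 * L + 2 * (g + 2)) < 2 ^ (11 * (9 * L)) :=
        pow_lt_pow_right₀ (by norm_num) (by omega)
    _ = (2 ^ 11) ^ (9 * L) := by rw [pow_mul]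
    _ ≤ r ^ (9 * L) := pow_le_pow_left₀ (by norm_num) hr11 _
    _ ≤ r ^ (100 * (g - t) - E1) := pow_le_pow_right₀ hr1 (by omega)

end Pool.Agent.TwoRep
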