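import Pool.Agent.Lib.MP_56ee40_nt.Defs

namespace Pool.Agent.TwoRep

open Finset Polynomial

private theorem PClose_norm_int (p : ℕ) [Fact p.Prime] (N : ℤ) :
    ‖(N : PadicAlgCl p)‖ = ‖(N : ℚ_[p])‖ := by
  have := PadicAlgCl.norm_extends p (N : ℚ_[p])
  rw [← this]
  congr 1

private theorem PClose_norm_le_one (p : ℕ) [Fact p.Prime] (N : ℤ) :
    ‖(N : PadicAlgCl p)‖ ≤ 1 := by
  rw [PClose_norm_int]
  exact Padic.norm_int_le_one N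

private theorem PClose_norm_eq_one (p : ℕ) [Fact p.Prime] (N : ℤ) (h : ¬ (p : ℤ) ∣ N) :
    ‖(N : PadicAlgCl p)‖ = 1 := by
  rw [PClose_norm_int]
  refine le_antisymm (Padic.norm_int_le_one N) ?_
  by_contra hcon
  push Not at hcon
  exact h (Padic.norm_intCast_lt_one_iff.mp hcon)

private theorem PClose_norm_le_pow (p : ℕ) [Fact p.Prime] (N : ℤ) (k : ℕ)
    (h : (p : ℤ) ^ k ∣ N) : ‖(N : PadicAlgCl p)‖ ≤ 1 / (p : ℝ) ^ k := by
  rw [PClose_norm_int]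
  have h1 := (Padic.norm_int_le_pow_iff_dvd (p := p) N k).mpr (by exact_mod_cast h)
  rw [zpow_neg, zpow_natCast] at h1
  rw [one_div]
  exact h1

private theorem PClose_sub_max (p : ℕ) [Fact p.Prime] (x y : PadicAlgCl p) :
    ‖x - y‖ ≤ max ‖x‖ ‖y‖ := by
  have h := IsUltrametricDist.norm_add_le_max x (-y)
  rwa [norm_neg, ← sub_eq_add_neg] at h

private theorem PClose_sub_le (p : ℕ) [Fact p.Prime] (x y : PadicAlgCl p) (r : ℝ)
    (hx : ‖x‖ ≤ r) (hy : ‖y‖ ≤ r) : ‖x - y‖ ≤ r :=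
  (PClose_sub_max p x y).trans (max_le hx hy)

/-- one of `z - i`, `z + i` is small -/
private theorem PClose_root (p : ℕ) [Fact p.Prime] (z i : PadicAlgCl p) (hi : i ^ 2 = -1) (r : ℝ)
    (h : ‖z ^ 2 + 1‖ ≤ ‖(2 : PadicAlgCl p)‖ * r) : ‖z - i‖ ≤ r ∨ ‖z + i‖ ≤ r := by
  have hi1 : ‖i‖ = 1 := by
    have h1 : ‖i‖ ^ 2 = 1 := by
      rw [← norm_pow, hi, norm_neg, norm_one]
    exact (pow_eq_one_iff_of_nonneg (norm_nonneg _) two_ne_zero).mp h1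
  have h2pos : 0 < ‖(2 : PadicAlgCl p)‖ := norm_pos_iff.mpr two_ne_zero
  have hfac : z ^ 2 + 1 = (z - i) * (z + i) := by
    linear_combination hi
  have h2i : ‖(2 : PadicAlgCl p)‖ ≤ max ‖z + i‖ ‖z - i‖ := by
    have h1 : ‖(2 : PadicAlgCl p)‖ = ‖(z + i) - (z - i)‖ := by
      have : (z + i) - (z - i) = 2 * i := by ring
      rw [this, norm_mul, hi1, mul_one]
    rw [h1]
    exact PClose_sub_max p _ _
  rw [hfac, norm_mul] at h
  rcases le_total ‖z - i‖ ‖z + i‖ with hle | hle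
  · left
    rw [max_eq_left hle] at h2i
    have h3 : ‖(2 : PadicAlgCl p)‖ * ‖z - i‖ ≤ ‖(2 : PadicAlgCl p)‖ * r := by
      refine le_trans ?_ h
      rw [mul_comm]
      exact mul_le_mul_of_nonneg_left h2i (norm_nonneg _)
    exact le_of_mul_le_mul_left h3 h2pos
  · right
    rw [max_eq_right hle] at h2i
    have h3 : ‖(2 : PadicAlgCl p)‖ * ‖z + i‖ ≤ ‖(2 : PadicAlgCl p)‖ * r := by
      refine le_trans ?_ h
      exact mul_le_mul_of_nonneg_right h2i (norm_nonneg _)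
    exact le_of_mul_le_mul_left h3 h2pos

/-- **PCLOSE.** `p`-adic closeness: `z₀` is close to a square root `i` of `-1` and `z` is close to
`i` or `-i`.
PROOF (all norms in `PadicAlgCl p`; integers have norm `≤ 1`, integers prime to `p` norm `1`,
`‖(p:PadicAlgCl p)‖ = 1/p`, see `PadicAlgCl.norm_extends`, `PadicAlgCl.valuation_p`).
`‖rB‖ = ‖rC‖ = 1`, `‖rA‖^2 = ‖A‖ ≤ p^(-e)`.
`z₀^2 + 1 = 2 rA (rA - rC)/B` (using `A = B + C`), so `‖z₀^2+1‖ ≤ ‖2‖ ‖rA‖`.  Choose `i` with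
`i^2 = -1` (algebraically closed) and, exchanging `i` and `-i`, `‖z₀ - i‖ ≤ ‖z₀ + i‖`.  Then
`‖2‖ = ‖2i‖ ≤ max ‖z₀-i‖ ‖z₀+i‖ = ‖z₀+i‖`, so `‖z₀-i‖ ‖2‖ ≤ ‖z₀-i‖‖z₀+i‖ ≤ ‖2‖ ‖rA‖`, hence
`‖z₀ - i‖ ≤ ‖rA‖`.  `T := z₀/i`, `‖T - 1‖ = ‖z₀-i‖`.
`z`: `p ∤ B Y^2` because `B Y^2 = A X^2 - C` and `p ∣ A`, `p ∤ C`.
`z^2 + 1 = 2 X rA (rA X - ε rC)/(B Y^2)` (using `A X^2 = B Y^2 + C`, `ε^2 = 1`), and
`‖X rA‖^2 = ‖A X^2‖ ≤ p^(-u)`.  As before one of `‖z ∓ i‖ ≤ ‖X rA‖`; `η = ±1` accordingly,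
`w := z/(η i)`. -/
theorem padic_close (p : ℕ) [Fact p.Prime] (A B C X Y ε : ℤ) (e u : ℕ) (he : 1 ≤ e)
    (hABC : A = B + C) (heq : A * X ^ 2 = B * Y ^ 2 + C) (hε : ε = 1 ∨ ε = -1)
    (hA : (p : ℤ) ^ e ∣ A) (hB : ¬ (p : ℤ) ∣ B) (hC : ¬ (p : ℤ) ∣ C)
    (hu : (p : ℤ) ^ u ∣ A * X ^ 2)
    (rA rB rC : PadicAlgCl p) (hrA : rA ^ 2 = (A : PadicAlgCl p))
    (hrB : rB ^ 2 = (B : PadicAlgCl p)) (hrC : rC ^ 2 = (C : PadicAlgCl p)) :
    ∃ (i T w : PadicAlgCl p) (η : ℤ), i ^ 2 = -1 ∧ (η = 1 ∨ η = -1) ∧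
      zz0 rA rB rC = i * T ∧ zz X Y ε rA rB rC = (η : PadicAlgCl p) * i * w ∧
      ‖T - 1‖ ^ 2 ≤ 1 / (p : ℝ) ^ e ∧ ‖w - 1‖ ^ 2 ≤ 1 / (p : ℝ) ^ u := by
  have hpA : (p : ℤ) ∣ A := (dvd_pow_self _ (by omega)).trans hA
  -- norms
  have nB : ‖(B : PadicAlgCl p)‖ = 1 := PClose_norm_eq_one p B hB
  have nC : ‖(C : PadicAlgCl p)‖ = 1 := PClose_norm_eq_one p C hC
  have nA : ‖(A : PadicAlgCl p)‖ ≤ 1 / (p : ℝ) ^ e := PClose_norm_le_pow p A e hA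
  have nrB : ‖rB‖ = 1 := by
    have h1 : ‖rB‖ ^ 2 = 1 := by rw [← norm_pow, hrB, nB]
    exact (pow_eq_one_iff_of_nonneg (norm_nonneg _) two_ne_zero).mp h1
  have nrC : ‖rC‖ = 1 := by
    have h1 : ‖rC‖ ^ 2 = 1 := by rw [← norm_pow, hrC, nC]
    exact (pow_eq_one_iff_of_nonneg (norm_nonneg _) two_ne_zero).mp h1
  have nrA2 : ‖rA‖ ^ 2 ≤ 1 / (p : ℝ) ^ e := by rw [← norm_pow, hrA]; exact nA
  have nrA : ‖rA‖ ≤ 1 := by
    have h1 : ‖rA‖ ^ 2 ≤ 1 := by rw [← norm_pow, hrA]; exact PClose_norm_le_one p A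
    exact (sq_le_one_iff₀ (norm_nonneg _)).mp h1
  have hB0 : rB ≠ 0 := by
    intro h
    rw [h, norm_zero] at nrB
    exact zero_ne_one nrB
  have hpY : ¬ (p : ℤ) ∣ Y := by
    intro h
    apply hC
    have h1 : C = A * X ^ 2 - B * Y ^ 2 := by linarith
    rw [h1]
    exact dvd_sub (Dvd.dvd.mul_right hpA _)
      (Dvd.dvd.mul_left (dvd_pow h two_ne_zero) _)
  have nY : ‖(Y : PadicAlgCl p)‖ = 1 := PClose_norm_eq_one p Y hpY
  have hY0 : (Y : PadicAlgCl p) ≠ 0 := by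
    intro h
    rw [h, norm_zero] at nY
    exact zero_ne_one nY
  have hABC' : (A : PadicAlgCl p) = B + C := by rw [hABC]; push_cast; ring
  have heq' : (A : PadicAlgCl p) * X ^ 2 = B * Y ^ 2 + C := by exact_mod_cast congrArg (Int.cast : ℤ → PadicAlgCl p) heq
  have hε2 : (ε : PadicAlgCl p) ^ 2 = 1 := by
    rcases hε with h | h <;> rw [h] <;> push_cast <;> ring
  have nε : ‖(ε : PadicAlgCl p)‖ = 1 := by
    have h1 : ‖(ε : PadicAlgCl p)‖ ^ 2 = 1 := by rw [← norm_pow, hε2, norm_one]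
    exact (pow_eq_one_iff_of_nonneg (norm_nonneg _) two_ne_zero).mp h1
  have nX : ‖(X : PadicAlgCl p)‖ ≤ 1 := PClose_norm_le_one p X
  -- the first point
  set z0 := zz0 rA rB rC with hz0
  have hz0eq : z0 * rB = rA - rC := by
    rw [hz0, zz0, div_mul_cancel₀ _ hB0]
  have hz0sq : (z0 ^ 2 + 1) * rB ^ 2 = 2 * rA * (rA - rC) := by
    have h1 : (z0 ^ 2 + 1) * rB ^ 2 = (z0 * rB) ^ 2 + rB ^ 2 := by ring
    rw [h1, hz0eq, hrB]
    linear_combination hrC - hrA - hABC' 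
  have hz0n : ‖z0 ^ 2 + 1‖ ≤ ‖(2 : PadicAlgCl p)‖ * ‖rA‖ := by
    have h1 := congrArg (fun t => ‖t‖) hz0sq
    simp only [norm_mul, norm_pow, nrB, one_pow, mul_one] at h1
    rw [← norm_mul] at h1 ⊢
    have h2 : ‖rA - rC‖ ≤ 1 := PClose_sub_le p _ _ 1 nrA nrC.le
    rw [h1]
    exact mul_le_of_le_one_right (norm_nonneg _) h2
  -- the second point
  set z := zz X Y ε rA rB rC with hz
  have hBY0 : rB * (Y : PadicAlgCl p) ≠ 0 := mul_ne_zero hB0 hY0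
  have hzeq : z * (rB * Y) = rA * X - ε * rC := by
    rw [hz, zz, div_mul_cancel₀ _ hBY0]
  have hzsq : (z ^ 2 + 1) * (rB * Y) ^ 2 = 2 * (X * rA) * (rA * X - ε * rC) := by
    have h1 : (z ^ 2 + 1) * (rB * Y) ^ 2 = (z * (rB * Y)) ^ 2 + rB ^ 2 * Y ^ 2 := by ring
    rw [h1, hzeq, hrB]
    linear_combination (-(X : PadicAlgCl p) ^ 2) * hrA - heq' + (ε : PadicAlgCl p) ^ 2 * hrC +
      (C : PadicAlgCl p) * hε2
  have hzn : ‖z ^ 2 + 1‖ ≤ ‖(2 : PadicAlgCl p)‖ * ‖(X : PadicAlgCl p) * rA‖ := by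
    have h1 := congrArg (fun t => ‖t‖) hzsq
    simp only [norm_mul, norm_pow, nrB, nY, one_pow, mul_one] at h1
    have h2 : ‖rA * X - ε * rC‖ ≤ 1 := by
      refine PClose_sub_le p _ _ 1 ?_ ?_
      · rw [norm_mul]
        exact mul_le_one₀ nrA (norm_nonneg _) nX
      · rw [norm_mul, nε, nrC, mul_one]
    rw [h1, norm_mul]
    exact mul_le_of_le_one_right (by positivity) h2
  have nXA : ‖(X : PadicAlgCl p) * rA‖ ^ 2 ≤ 1 / (p : ℝ) ^ u := by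
    rw [← norm_pow, mul_pow, hrA, mul_comm]
    have h1 : (A : PadicAlgCl p) * X ^ 2 = ((A * X ^ 2 : ℤ) : PadicAlgCl p) := by push_cast; ring
    rw [h1]
    exact PClose_norm_le_pow p _ u hu
  -- choice of i
  obtain ⟨i₀, hi₀⟩ := IsAlgClosed.exists_pow_nat_eq (-1 : PadicAlgCl p) (n := 2) (by norm_num)
  obtain ⟨i, hi, hiz⟩ : ∃ i : PadicAlgCl p, i ^ 2 = -1 ∧ ‖z0 - i‖ ≤ ‖rA‖ := by
    rcases PClose_root p z0 i₀ hi₀ ‖rA‖ hz0n with h | h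
    · exact ⟨i₀, hi₀, h⟩
    · refine ⟨-i₀, by rw [neg_sq, hi₀], ?_⟩
      rw [sub_neg_eq_add]
      exact h
  have hi1 : ‖i‖ = 1 := by
    have h1 : ‖i‖ ^ 2 = 1 := by
      rw [← norm_pow, hi, norm_neg, norm_one]
    exact (pow_eq_one_iff_of_nonneg (norm_nonneg _) two_ne_zero).mp h1
  have hi0 : i ≠ 0 := by
    intro h
    rw [h, norm_zero] at hi1
    exact zero_ne_one hi1
  have hT : ‖z0 / i - 1‖ ^ 2 ≤ 1 / (p : ℝ) ^ e := by
    have h1 : z0 / i - 1 = (z0 - i) / i := by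
      field_simp
    rw [h1, norm_div, hi1, div_one]
    exact (pow_le_pow_left₀ (norm_nonneg _) hiz 2).trans nrA2
  rcases PClose_root p z i hi _ hzn with h | h
  · refine ⟨i, z0 / i, z / i, 1, hi, Or.inl rfl, ?_, ?_, hT, ?_⟩
    · field_simp
    · push_cast
      field_simp
    · have h1 : z / i - 1 = (z - i) / i := by
        field_simp
      rw [h1, norm_div, hi1, div_one]
      exact (pow_le_pow_left₀ (norm_nonneg _) h 2).trans nXA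
  · refine ⟨i, z0 / i, -(z / i), -1, hi, Or.inr rfl, ?_, ?_, hT, ?_⟩
    · field_simp
    · push_cast
      field_simp
    · have h1 : -(z / i) - 1 = -((z + i) / i) := by
        field_simp
        ring
      rw [h1, norm_neg, norm_div, hi1, div_one]
      exact (pow_le_pow_left₀ (norm_nonneg _) h 2).trans nXA

end Pool.Agent.TwoRep
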