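import Pool.Agent.Lib.MP_56ee40_nt.Taylor

namespace Pool.Agent.TwoRep

open Finset Polynomial

private theorem rest_pow_le {u : ℝ} (hu : 0 < u) (hu2 : u ≤ 2) (n : ℕ) : u ^ n ≤ 2 ^ n :=
  pow_le_pow_left₀ hu.le hu2 n

private theorem rest_one {u β : ℝ} (hu : 0 < u) (hu2 : u ≤ 2) (hβ : |u - 1| ≤ β) (n : ℕ) :
    |u ^ n - 1| ≤ (2 ^ n - 1) * β := by
  induction n with
  | zero => simp
  | succ n ih =>
    have h1 : u ^ (n + 1) - 1 = u * (u ^ n - 1) + (u - 1) := by ring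
    rw [h1]
    have h2 : |u * (u ^ n - 1)| ≤ 2 * ((2 ^ n - 1) * β) := by
      rw [abs_mul, abs_of_pos hu]
      exact mul_le_mul hu2 ih (abs_nonneg _) (by norm_num)
    calc |u * (u ^ n - 1) + (u - 1)| ≤ |u * (u ^ n - 1)| + |u - 1| := abs_add_le _ _
      _ ≤ 2 * ((2 ^ n - 1) * β) + β := add_le_add h2 hβ
      _ = (2 ^ (n + 1) - 1) * β := by ring

private theorem rest_two {u β : ℝ} (hu : 0 < u) (hu2 : u ≤ 2) (hβ : |u - 1| ≤ β) (n : ℕ) :
    |u ^ n - 1 - n * (u - 1)| ≤ (2 ^ n - n - 1) * β ^ 2 := by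
  induction n with
  | zero => simp
  | succ n ih =>
    have h1 : u ^ (n + 1) - 1 - ((n + 1 : ℕ) : ℝ) * (u - 1) =
        u * (u ^ n - 1 - n * (u - 1)) + n * (u - 1) ^ 2 := by push_cast; ring
    rw [h1]
    have h2 : |u * (u ^ n - 1 - n * (u - 1))| ≤ 2 * ((2 ^ n - n - 1) * β ^ 2) := by
      rw [abs_mul, abs_of_pos hu]
      exact mul_le_mul hu2 ih (abs_nonneg _) (by norm_num)
    have h3 : |(n : ℝ) * (u - 1) ^ 2| ≤ n * β ^ 2 := by
      rw [abs_mul, abs_of_nonneg (Nat.cast_nonneg n), abs_of_nonneg (sq_nonneg _)]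
      refine mul_le_mul_of_nonneg_left ?_ (Nat.cast_nonneg n)
      rw [← sq_abs]
      exact pow_le_pow_left₀ (abs_nonneg _) hβ 2
    calc |u * (u ^ n - 1 - n * (u - 1)) + n * (u - 1) ^ 2|
        ≤ |u * (u ^ n - 1 - n * (u - 1))| + |(n : ℝ) * (u - 1) ^ 2| := abs_add_le _ _
      _ ≤ 2 * ((2 ^ n - n - 1) * β ^ 2) + n * β ^ 2 := add_le_add h2 h3
      _ = (2 ^ (n + 1) - ((n + 1 : ℕ) : ℝ) - 1) * β ^ 2 := by push_cast; ring

private theorem rest_z0 {w : ℝ} (hw : 0 < w) (hw2 : w ≤ 2) (hw3 : w⁻¹ ≤ 2) {j : ℤ} {J : ℕ}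
    (hj : j.natAbs ≤ J) : |w ^ j| ≤ 2 ^ J := by
  have hJ : (2 : ℝ) ^ j.natAbs ≤ 2 ^ J := pow_le_pow_right₀ (by norm_num) hj
  rw [abs_of_pos (zpow_pos hw j)]
  rcases Int.natAbs_eq j with h | h
  · rw [h, zpow_natCast]
    exact (rest_pow_le hw hw2 _).trans hJ
  · rw [h, zpow_neg, ← inv_zpow, zpow_natCast]
    exact (rest_pow_le (inv_pos.2 hw) hw3 _).trans hJ

private theorem rest_z1 {w β : ℝ} (hw : 0 < w) (hw2 : w ≤ 2) (hw3 : w⁻¹ ≤ 2) (hβ : |w - 1| ≤ β)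
    (hβ' : |w⁻¹ - 1| ≤ β) {j : ℤ} {J : ℕ} (hj : j.natAbs ≤ J) : |w ^ j - 1| ≤ 2 ^ J * β := by
  have hJ : (2 : ℝ) ^ j.natAbs ≤ 2 ^ J := pow_le_pow_right₀ (by norm_num) hj
  have hβ0 : 0 ≤ β := (abs_nonneg _).trans hβ
  have key : ((2 : ℝ) ^ j.natAbs - 1) * β ≤ 2 ^ J * β :=
    mul_le_mul_of_nonneg_right (by linarith) hβ0
  rcases Int.natAbs_eq j with h | h
  · refine le_trans ?_ key
    have h2 := rest_one hw hw2 hβ j.natAbs
    rw [← zpow_natCast, ← h] at h2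
    exact h2
  · refine le_trans ?_ key
    have h2 := rest_one (inv_pos.2 hw) hw3 hβ' j.natAbs
    rw [← zpow_natCast, inv_zpow, ← zpow_neg, ← h] at h2
    exact h2

private theorem rest_z2 {w β : ℝ} (hw : 0 < w) (hw2 : w ≤ 2) (hw3 : w⁻¹ ≤ 2) (hβ : |w - 1| ≤ β)
    (hβ' : |w⁻¹ - 1| ≤ β) {j : ℤ} {J : ℕ} (hj : j.natAbs ≤ J) :
    |w ^ j - 1 - j * (w - 1)| ≤ 2 ^ J * β ^ 2 := by
  have hJ : (2 : ℝ) ^ j.natAbs ≤ 2 ^ J := pow_le_pow_right₀ (by norm_num) hj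
  have hn0 : (0 : ℝ) ≤ (j.natAbs : ℝ) := Nat.cast_nonneg _
  have key : ((2 : ℝ) ^ j.natAbs - 1) * β ^ 2 ≤ 2 ^ J * β ^ 2 :=
    mul_le_mul_of_nonneg_right (by linarith) (sq_nonneg β)
  rcases Int.natAbs_eq j with h | h
  · refine le_trans ?_ key
    have h2 := rest_two hw hw2 hβ j.natAbs
    have hj' : ((j.natAbs : ℕ) : ℝ) = (j : ℝ) := by
      have : ((j.natAbs : ℤ) : ℝ) = (j : ℝ) := by rw [← h]
      rwa [Int.cast_natCast] at this
    rw [← zpow_natCast, ← h] at h2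
    have h3 : ((2 : ℝ) ^ j.natAbs - (j.natAbs : ℝ) - 1) * β ^ 2 ≤ ((2 : ℝ) ^ j.natAbs - 1) * β ^ 2 :=
      mul_le_mul_of_nonneg_right (by linarith) (sq_nonneg β)
    rw [hj'] at h2 h3
    exact h2.trans h3
  · refine le_trans ?_ key
    have h2 := rest_two (inv_pos.2 hw) hw3 hβ' j.natAbs
    have hj' : ((j.natAbs : ℕ) : ℝ) = -(j : ℝ) := by
      have : ((-(j.natAbs : ℤ) : ℤ) : ℝ) = (j : ℝ) := by rw [← h]
      rw [Int.cast_neg, Int.cast_natCast] at this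
      rw [← this, neg_neg]
    rw [← zpow_natCast, inv_zpow, ← zpow_neg, ← h] at h2
    have h4 : w ^ j - 1 - (j : ℝ) * (w - 1) = (w ^ j - 1 - (j.natAbs : ℝ) * (w⁻¹ - 1)) +
        (j.natAbs : ℝ) * (-((w - 1) * (w⁻¹ - 1))) := by
      have h5 : (w - 1) * (w⁻¹ - 1) = 2 - w - w⁻¹ := by
        field_simp
        ring
      rw [h5, hj']
      ring
    have h6 : |(j.natAbs : ℝ) * (-((w - 1) * (w⁻¹ - 1)))| ≤ (j.natAbs : ℝ) * β ^ 2 := by
      rw [abs_mul, abs_neg, abs_mul, abs_of_nonneg hn0, sq]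
      exact mul_le_mul_of_nonneg_left
        (mul_le_mul hβ hβ' (abs_nonneg _) ((abs_nonneg _).trans hβ)) hn0
    rw [h4]
    calc _ ≤ |w ^ j - 1 - (j.natAbs : ℝ) * (w⁻¹ - 1)| +
          |(j.natAbs : ℝ) * (-((w - 1) * (w⁻¹ - 1)))| := abs_add_le _ _
      _ ≤ (2 ^ j.natAbs - j.natAbs - 1) * β ^ 2 + (j.natAbs : ℝ) * β ^ 2 := add_le_add h2 h6
      _ = (2 ^ j.natAbs - 1) * β ^ 2 := by ring

private theorem rest_sum (S : Finset (ℤ × ℤ)) (c : ℤ × ℤ → ℤ) (E J H M a : ℕ) (f : ℤ → ℝ) (q : ℝ)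
    (hM : ∀ v ∈ S, ex E v ≤ M) (hJ : ∀ v ∈ S, v.2.natAbs ≤ J) (hH : ∀ v ∈ S, |c v| ≤ (H : ℤ))
    (hf : ∀ j : ℤ, j.natAbs ≤ J → |f j| ≤ 2 ^ J * q) :
    |∑ v ∈ S, (c v : ℝ) * ((ex E v).choose a : ℝ) * f v.2| ≤
      (S.card : ℝ) * H * 2 ^ M * 2 ^ J * q := by
  calc |∑ v ∈ S, (c v : ℝ) * ((ex E v).choose a : ℝ) * f v.2|
      ≤ ∑ v ∈ S, |(c v : ℝ) * ((ex E v).choose a : ℝ) * f v.2| := Finset.abs_sum_le_sum_abs _ _
    _ ≤ ∑ v ∈ S, (H : ℝ) * 2 ^ M * (2 ^ J * q) := by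
        refine Finset.sum_le_sum fun v hv => ?_
        rw [abs_mul, abs_mul]
        have h1 : |(c v : ℝ)| ≤ H := by
          have := hH v hv
          have h2 : ((|c v| : ℤ) : ℝ) ≤ ((H : ℤ) : ℝ) := by exact_mod_cast this
          simpa using h2
        have h3 : |((ex E v).choose a : ℝ)| ≤ 2 ^ M := by
          rw [abs_of_nonneg (Nat.cast_nonneg _)]
          have h4 : (ex E v).choose a ≤ 2 ^ M :=
            (Nat.choose_le_two_pow _ _).trans (Nat.pow_le_pow_right (by norm_num) (hM v hv))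
          exact_mod_cast h4
        have h5 := hf v.2 (hJ v hv)
        exact mul_le_mul (mul_le_mul h1 h3 (abs_nonneg _) (Nat.cast_nonneg _)) h5 (abs_nonneg _)
          (by positivity)
    _ = (S.card : ℝ) * H * 2 ^ M * 2 ^ J * q := by
        rw [Finset.sum_const, nsmul_eq_mul]
        ring

/-- **REST.** Archimedean estimate.
PROOF: `T ≥ 1/2`, `T ≤ 3/2`, `0 < w ≤ 2`, `0 < w⁻¹ ≤ 2`.  By `taylor_GG` with `τ = 1`,
`GG * T^(E-t) = ∑_{a=t}^M choose(a,t) (T-1)^(a-t) lev_a(w)`; `|T^(-(E-t))| ≤ 2^E`; `choose ≤ 2^M`.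
For every integer `j`, `|j| ≤ J`: `|w^j| ≤ 2^J`, `|w^j - 1| ≤ 2^(J+1) β`,
`|w^j - 1 - j(w-1)| ≤ 2^(J+1) β^2` (`j ≥ 0`: binomial theorem, `∑_{i≥2} choose j i β^i ≤ 2^j β^2`;
`j < 0`: apply to `w⁻¹` and use `(w⁻¹-1)+(w-1) = -(w-1)(w⁻¹-1)`, `|j| ≤ 2^|j|`).
So `|lev_a| ≤ card S * H * 2^M * 2^(J+1) * q_a` with `q_a = β^2` for `a < g1`, `β` for `a < g`,
`1` for `a ≥ g`, and `|T-1|^(a-t) q_a ≤` the max for each `a ≥ t`. -/
theorem real_est (S : Finset (ℤ × ℤ)) (c : ℤ × ℤ → ℤ) (E J H g g1 t M : ℕ) (α β : ℝ) (T w : ℝ)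
    (hE : ∀ v ∈ S, 0 ≤ 2 * v.1 - v.2 + E) (hM : ∀ v ∈ S, ex E v ≤ M)
    (hJ : ∀ v ∈ S, v.2.natAbs ≤ J) (hH : ∀ v ∈ S, |c v| ≤ (H : ℤ))
    (hα : |T - 1| ≤ α) (hα1 : α ≤ 1 / 2) (hw : 0 < w) (hβ : |w - 1| ≤ β)
    (hβ' : |w⁻¹ - 1| ≤ β) (hβ1 : β ≤ 1)
    (hg : g1 ≤ g) (ht : t ≤ g1) (htE : t ≤ E)
    (c0 : ∀ a < g, ∑ v ∈ S, c v * ((ex E v).choose a : ℤ) = 0)
    (c1 : ∀ a < g1, ∑ v ∈ S, c v * v.2 * ((ex E v).choose a : ℤ) = 0) :
    |GG S c E t T w| ≤ ((M : ℝ) + 1) * (S.card : ℝ) * H * 2 ^ (2 * M + J + 1 + E) *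
      max (β ^ 2) (max (β * α ^ (g1 - t)) (α ^ (g - t))) := by
  have hT := abs_le.1 hα
  have hT1 : 1 / 2 ≤ T := by linarith [hT.1]
  have hT0 : 0 < T := by linarith
  have hw2 : w ≤ 2 := by linarith [(abs_le.1 hβ).2]
  have hw3 : w⁻¹ ≤ 2 := by linarith [(abs_le.1 hβ').2]
  have hβ0 : 0 ≤ β := (abs_nonneg _).trans hβ
  have hα0 : 0 ≤ α := (abs_nonneg _).trans hα
  set Q := max (β ^ 2) (max (β * α ^ (g1 - t)) (α ^ (g - t))) with hQ
  have hQ0 : 0 ≤ Q := le_trans (sq_nonneg β) (le_max_left _ _)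
  set Z : ℝ := (S.card : ℝ) * H * 2 ^ M * 2 ^ J with hZ
  have hZ0 : 0 ≤ Z := by positivity
  -- the levels
  have hlev : ∀ a, |lev S c E (1 : ℝ) a w| ≤ Z ∧ (a < g → |lev S c E (1 : ℝ) a w| ≤ Z * β) ∧
      (a < g1 → |lev S c E (1 : ℝ) a w| ≤ Z * β ^ 2) := by
    intro a
    have h0 : lev S c E (1 : ℝ) a w =
        ∑ v ∈ S, (c v : ℝ) * ((ex E v).choose a : ℝ) * (fun j : ℤ => w ^ j) v.2 := by
      unfold lev
      refine Finset.sum_congr rfl fun v _ => ?_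
      rw [one_pow, mul_one]
    have s0 : a < g → ∑ v ∈ S, (c v : ℝ) * ((ex E v).choose a : ℝ) = 0 := by
      intro ha
      have := c0 a ha
      exact_mod_cast this
    have s1 : a < g1 → ∑ v ∈ S, (c v : ℝ) * v.2 * ((ex E v).choose a : ℝ) = 0 := by
      intro ha
      have := c1 a ha
      exact_mod_cast this
    refine ⟨?_, ?_, ?_⟩
    · rw [h0]
      have := rest_sum S c E J H M a (fun j : ℤ => w ^ j) 1 hM hJ hH
        (fun j hj => by rw [mul_one]; exact rest_z0 hw hw2 hw3 hj)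
      rwa [mul_one] at this
    · intro ha
      have h1 : lev S c E (1 : ℝ) a w =
          ∑ v ∈ S, (c v : ℝ) * ((ex E v).choose a : ℝ) * (fun j : ℤ => w ^ j - 1) v.2 := by
        rw [h0]
        have h2 := s0 ha
        rw [← sub_zero (∑ v ∈ S, (c v : ℝ) * ((ex E v).choose a : ℝ) * (fun j : ℤ => w ^ j) v.2),
          ← h2, ← Finset.sum_sub_distrib]
        refine Finset.sum_congr rfl fun v _ => ?_
        simp only
        ring
      rw [h1]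
      exact rest_sum S c E J H M a _ β hM hJ hH
        (fun j hj => rest_z1 hw hw2 hw3 hβ hβ' hj)
    · intro ha
      have h1 : lev S c E (1 : ℝ) a w = ∑ v ∈ S, (c v : ℝ) * ((ex E v).choose a : ℝ) *
          (fun j : ℤ => w ^ j - 1 - j * (w - 1)) v.2 := by
        rw [h0]
        have h2 := s0 (lt_of_lt_of_le ha hg)
        have h3 := s1 ha
        have h4 : ∑ v ∈ S, (c v : ℝ) * ((ex E v).choose a : ℝ) * (fun j : ℤ => w ^ j) v.2 =
            ∑ v ∈ S, (c v : ℝ) * ((ex E v).choose a : ℝ) * (fun j : ℤ => w ^ j) v.2 -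
            ∑ v ∈ S, (c v : ℝ) * ((ex E v).choose a : ℝ) -
            (∑ v ∈ S, (c v : ℝ) * v.2 * ((ex E v).choose a : ℝ)) * (w - 1) := by
          rw [h2, h3]; ring
        rw [h4, Finset.sum_mul, ← Finset.sum_sub_distrib, ← Finset.sum_sub_distrib]
        refine Finset.sum_congr rfl fun v _ => ?_
        simp only
        ring
      rw [h1]
      exact rest_sum S c E J H M a _ (β ^ 2) hM hJ hH
        (fun j hj => rest_z2 hw hw2 hw3 hβ hβ' hj)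
  -- the terms of the Taylor expansion
  have hterm : ∀ a ∈ range (M + 1),
      |((a.choose t : ℝ)) * (T - 1) ^ (a - t) * lev S c E (1 : ℝ) a w| ≤ 2 ^ M * (Z * Q) := by
    intro a ha
    have haM : a ≤ M := by
      have := Finset.mem_range.1 ha
      omega
    rcases Nat.lt_or_ge a t with hat | hat
    · rw [Nat.choose_eq_zero_of_lt hat]
      simp only [Nat.cast_zero, zero_mul, abs_zero]
      positivity
    · have hch : |(a.choose t : ℝ)| ≤ 2 ^ M := by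
        rw [abs_of_nonneg (Nat.cast_nonneg _)]
        have h4 : a.choose t ≤ 2 ^ M :=
          (Nat.choose_le_two_pow _ _).trans (Nat.pow_le_pow_right (by norm_num) haM)
        exact_mod_cast h4
      have hpow : ∀ m, m ≤ a - t → |(T - 1) ^ (a - t)| ≤ α ^ m := by
        intro m hm
        rw [abs_pow]
        calc |T - 1| ^ (a - t) ≤ α ^ (a - t) := pow_le_pow_left₀ (abs_nonneg _) hα _
          _ ≤ α ^ m := pow_le_pow_of_le_one hα0 (by linarith) hm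
      have hmain : |(T - 1) ^ (a - t)| * |lev S c E (1 : ℝ) a w| ≤ Z * Q := by
        obtain ⟨l0, l1, l2⟩ := hlev a
        rcases Nat.lt_or_ge a g1 with h1 | h1
        · calc |(T - 1) ^ (a - t)| * |lev S c E (1 : ℝ) a w|
              ≤ 1 * (Z * β ^ 2) := mul_le_mul (by simpa using hpow 0 (Nat.zero_le _)) (l2 h1)
                (abs_nonneg _) (by norm_num)
            _ = Z * β ^ 2 := one_mul _
            _ ≤ Z * Q := mul_le_mul_of_nonneg_left (le_max_left _ _) hZ0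
        · rcases Nat.lt_or_ge a g with h2 | h2
          · calc |(T - 1) ^ (a - t)| * |lev S c E (1 : ℝ) a w|
                ≤ α ^ (g1 - t) * (Z * β) := mul_le_mul (hpow _ (by omega)) (l1 h2)
                  (abs_nonneg _) (by positivity)
              _ = Z * (β * α ^ (g1 - t)) := by ring
              _ ≤ Z * Q := mul_le_mul_of_nonneg_left
                  (le_trans (le_max_left _ _) (le_max_right _ _)) hZ0
          · calc |(T - 1) ^ (a - t)| * |lev S c E (1 : ℝ) a w|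
                ≤ α ^ (g - t) * Z := mul_le_mul (hpow _ (by omega)) l0
                  (abs_nonneg _) (by positivity)
              _ = Z * α ^ (g - t) := by ring
              _ ≤ Z * Q := mul_le_mul_of_nonneg_left
                  (le_trans (le_max_right _ _) (le_max_right _ _)) hZ0
      rw [abs_mul, abs_mul, mul_assoc]
      exact mul_le_mul hch hmain (by positivity) (by positivity)
  have hsum : |GG S c E t T w * T ^ ((E : ℤ) - t)| ≤ ((M : ℝ) + 1) * (2 ^ M * (Z * Q)) := by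
    rw [taylor_GG S c E t M T 1 w hT0.ne' hE hM]
    calc _ ≤ ∑ a ∈ range (M + 1),
          |((a.choose t : ℝ)) * (T - 1) ^ (a - t) * lev S c E (1 : ℝ) a w| :=
          Finset.abs_sum_le_sum_abs _ _
      _ ≤ ∑ a ∈ range (M + 1), 2 ^ M * (Z * Q) := Finset.sum_le_sum hterm
      _ = ((M : ℝ) + 1) * (2 ^ M * (Z * Q)) := by
          rw [Finset.sum_const, Finset.card_range, nsmul_eq_mul]
          push_cast
          ring
  have hTp : (1 : ℝ) ≤ 2 ^ E * T ^ ((E : ℤ) - t) := by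
    have h1 : ((E : ℤ) - t) = ((E - t : ℕ) : ℤ) := by omega
    rw [h1, zpow_natCast]
    calc (1 : ℝ) = 2 ^ (E - t) * (1 / 2) ^ (E - t) := by rw [← mul_pow]; norm_num
      _ ≤ 2 ^ E * T ^ (E - t) := by
          refine mul_le_mul ?_ ?_ (by positivity) (by positivity)
          · exact pow_le_pow_right₀ (by norm_num) (Nat.sub_le _ _)
          · exact pow_le_pow_left₀ (by norm_num) hT1 _
  have hTp0 : 0 ≤ T ^ ((E : ℤ) - t) := (zpow_pos hT0 _).le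
  calc |GG S c E t T w| ≤ |GG S c E t T w| * (2 ^ E * T ^ ((E : ℤ) - t)) :=
        le_mul_of_one_le_right (abs_nonneg _) hTp
    _ = 2 ^ E * |GG S c E t T w * T ^ ((E : ℤ) - t)| := by
        rw [abs_mul, abs_of_nonneg hTp0]; ring
    _ ≤ 2 ^ E * (((M : ℝ) + 1) * (2 ^ M * (Z * Q))) :=
        mul_le_mul_of_nonneg_left hsum (by positivity)
    _ = ((M : ℝ) + 1) * (S.card : ℝ) * H * 2 ^ (2 * M + J + E) * Q := by
        rw [hZ]
        ring
    _ ≤ ((M : ℝ) + 1) * (S.card : ℝ) * H * 2 ^ (2 * M + J + 1 + E) * Q := by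
        refine mul_le_mul_of_nonneg_right ?_ hQ0
        refine mul_le_mul_of_nonneg_left ?_ (by positivity)
        exact pow_le_pow_right₀ (by norm_num) (by omega)

end Pool.Agent.TwoRep
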