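import Pool.Agent.Lib.MP_56ee40_nt.Defs

namespace Pool.Agent.TwoRep

open Finset Polynomial

/-- **REGION (a).** With `q = (2s+l)/(2l)` (floor), `2(s - l q) ∈ [-l, l)`; the map
`(s,i) ↦ (s, i - q(s))` is injective, so `card = 3 (4L+1)`. -/
theorem region_card (L l : ℕ) (hl : 1 ≤ l) : (region L l).card = 12 * L + 3 := by
  unfold region
  rw [Finset.card_image_of_injective, Finset.card_product, Int.card_Icc, Int.card_Icc]
  · have h1 : (2 * (L : ℤ) + 1 - -(2 * (L : ℤ))).toNat = 4 * L + 1 := by omega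
    have h2 : (1 + 1 - -1 : ℤ).toNat = 3 := by decide
    rw [h1, h2]
    omega
  · rintro ⟨a, b⟩ ⟨a', b'⟩ h
    simp only [Prod.mk.injEq] at h
    obtain ⟨h1, h2⟩ := h
    subst h1
    simp only [Prod.mk.injEq, true_and]
    omega

private theorem Region_iff {L l : ℕ} {v : ℤ × ℤ} (hv : v ∈ region L l) :
    ∃ i q : ℤ, -(2 * L : ℤ) ≤ v.1 ∧ v.1 ≤ 2 * L ∧ -1 ≤ i ∧ i ≤ 1 ∧ q = (2 * v.1 + l) / (2 * l) ∧
      v.2 = i - q := by
  unfold region at hv
  rw [Finset.mem_image] at hv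
  obtain ⟨⟨s, i⟩, hp, rfl⟩ := hv
  rw [Finset.mem_product, Finset.mem_Icc, Finset.mem_Icc] at hp
  exact ⟨i, _, hp.1.1, hp.1.2, hp.2.1, hp.2.2, rfl, rfl⟩

private theorem Region_q {l : ℕ} (hl : 1 ≤ l) (s : ℤ) :
    2 * (l : ℤ) * ((2 * s + l) / (2 * l)) ≤ 2 * s + l ∧
      2 * s + l < 2 * (l : ℤ) * ((2 * s + l) / (2 * l)) + 2 * l := by
  have hl' : (0 : ℤ) < 2 * l := by omega
  exact ⟨Int.mul_ediv_self_le hl'.ne', Int.lt_mul_ediv_self_add hl'⟩

theorem region_mem (L l : ℕ) (hl : 1 ≤ l) (v : ℤ × ℤ) (hv : v ∈ region L l) :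
    v.1.natAbs ≤ 2 * L ∧ -(3 * l : ℤ) ≤ 2 * (v.1 + l * v.2) ∧ 2 * (v.1 + l * v.2) < 3 * l ∧
      v.2.natAbs ≤ JJ L l := by
  obtain ⟨i, q, h1, h2, h3, h4, hq, h5⟩ := Region_iff hv
  obtain ⟨g1, g2⟩ := Region_q hl v.1
  rw [← hq] at g1 g2
  have hl' : (1 : ℤ) ≤ l := by exact_mod_cast hl
  have e1 : (l : ℤ) * v.2 = l * i - l * q := by rw [h5]; ring
  have e2 : -(l : ℤ) ≤ l * i := by nlinarith
  have e3 : (l : ℤ) * i ≤ l := by nlinarith
  have e4 : 2 * (l : ℤ) * q = 2 * (l * q) := by ring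
  rw [e4] at g1 g2
  refine ⟨by omega, by omega, by omega, ?_⟩
  unfold JJ
  set D : ℕ := 2 * L / l with hD
  have hD1 : 2 * L < l * D + l := by
    have := Nat.lt_mul_div_succ (2 * L) (show 0 < l by omega)
    rw [← hD] at this
    rw [Nat.mul_add, Nat.mul_one] at this
    exact this
  have hD2 : (2 * L : ℤ) < l * D + l := by exact_mod_cast hD1
  have q1 : q ≤ D + 1 := by
    by_contra hcon
    have h6 : (D : ℤ) + 2 ≤ q := by omega
    have h7 : (l : ℤ) * (D + 2) ≤ l * q := mul_le_mul_of_nonneg_left h6 (by omega)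
    have h8 : (l : ℤ) * (D + 2) = l * D + 2 * l := by ring
    omega
  have q2 : -(D + 1 : ℤ) ≤ q := by
    by_contra hcon
    have h6 : q ≤ -(D + 2 : ℤ) := by omega
    have h7 : (l : ℤ) * q ≤ l * (-(D + 2 : ℤ)) := mul_le_mul_of_nonneg_left h6 (by omega)
    have h8 : (l : ℤ) * (-(D + 2 : ℤ)) = -(l * D) - 2 * l := by ring
    omega
  omega

/-- if two elements of the region have the same exponent `2s-j` then `|s-s'| ≤ 1`:
`j-j' = 2(s-s')` and `2(s-s') + 2l(j-j') = 2(s-s')(1+2l)` has absolute value `≤ 6l`. -/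
theorem region_exp (L l : ℕ) (hl : 1 ≤ l) (v v' : ℤ × ℤ) (hv : v ∈ region L l)
    (hv' : v' ∈ region L l) (h : 2 * v.1 - v.2 = 2 * v'.1 - v'.2) : |v.1 - v'.1| ≤ 1 := by
  obtain ⟨-, a1, a2, -⟩ := region_mem L l hl v hv
  obtain ⟨-, b1, b2, -⟩ := region_mem L l hl v' hv'
  have hl' : (1 : ℤ) ≤ l := by exact_mod_cast hl
  have e : (l : ℤ) * v.2 - l * v'.2 = 2 * (l * (v.1 - v'.1)) := by
    have : v.2 = v'.2 + 2 * (v.1 - v'.1) := by omega
    rw [this]; ring
  rw [abs_le]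
  constructor
  · by_contra hcon
    have h6 : v.1 - v'.1 ≤ -2 := by omega
    have h7 : (l : ℤ) * (v.1 - v'.1) ≤ l * (-2) := mul_le_mul_of_nonneg_left h6 (by omega)
    omega
  · by_contra hcon
    have h6 : 2 ≤ v.1 - v'.1 := by omega
    have h7 : (l : ℤ) * 2 ≤ l * (v.1 - v'.1) := mul_le_mul_of_nonneg_left h6 (by omega)
    omega

private theorem Region_aux (z : ℝ) (hz : 0 < z) (hz1 : z ≠ 1) (H : ℕ)
    (hzH : |z ^ 2 - 1| * (H : ℝ) < 1) (a b : ℤ) (hab : a ≠ 0 ∨ b ≠ 0) (hb : |b| ≤ (H : ℤ))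
    (h : (a : ℝ) + b * z ^ 2 = 0) : False := by
  have h1 : (a + b : ℝ) = -(b * (z ^ 2 - 1)) := by linarith
  have hz2 : z ^ 2 - 1 ≠ 0 := by
    intro h0
    have : (z - 1) * (z + 1) = 0 := by linarith
    rcases mul_eq_zero.1 this with h2 | h2
    · exact hz1 (by linarith)
    · linarith
  by_cases hs : a + b = 0
  · have h2 : (a + b : ℝ) = 0 := by exact_mod_cast hs
    rw [h2] at h1
    have h3 : (b : ℝ) * (z ^ 2 - 1) = 0 := by linarith
    have h4 : (b : ℝ) = 0 := (mul_eq_zero.1 h3).resolve_right hz2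
    have h5 : b = 0 := by exact_mod_cast h4
    rcases hab with h6 | h6
    · exact h6 (by omega)
    · exact h6 h5
  · have h2 : (1 : ℤ) ≤ |a + b| := Int.one_le_abs hs
    have h3 : (1 : ℝ) ≤ |(a + b : ℝ)| := by exact_mod_cast h2
    rw [h1, abs_neg, abs_mul] at h3
    have h4 : |(b : ℝ)| ≤ H := by exact_mod_cast hb
    have h5 := mul_le_mul_of_nonneg_right h4 (abs_nonneg (z ^ 2 - 1))
    linarith

/-- **REGION (d).** The auxiliary function is not identically zero: some exponent `e` has a nonzero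
coefficient.  PROOF: take `v₀` with `c v₀ ≠ 0`, `e = 2 v₀.1 - v₀.2`.  By `region_exp` the filter has
at most two elements (three would contain `s, s+1, s+2`...), `v₀` and possibly
`v₁ = v₀ ± (1, 2)`.  If the sum vanishes then there are two, and (up to exchanging names)
`c₀ + c₁ z² = 0` with `c₀, c₁` not both, hence both nonzero; then `z² - 1 = -(c₀+c₁)/c₁ ≠ 0`
has absolute value `≥ 1/|c₁| ≥ 1/H`, contradiction. -/
theorem f_ne_zero (L l : ℕ) (hl : 1 ≤ l) (c : ℤ × ℤ → ℤ) (hc : ∃ v ∈ region L l, c v ≠ 0)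
    (H : ℕ) (hH : ∀ v ∈ region L l, |c v| ≤ (H : ℤ)) (z : ℝ) (hz : 0 < z) (hz1 : z ≠ 1)
    (hzH : |z ^ 2 - 1| * (H : ℝ) < 1) :
    ∃ e : ℤ, ∑ v ∈ region L l with 2 * v.1 - v.2 = e, (c v : ℝ) * z ^ v.2 ≠ 0 := by
  classical
  obtain ⟨v0, hv0, hc0⟩ := hc
  refine ⟨2 * v0.1 - v0.2, ?_⟩
  set S := (region L l).filter (fun v => 2 * v.1 - v.2 = 2 * v0.1 - v0.2) with hS
  intro hsum
  have hmem : ∀ v, v ∈ S → v ∈ region L l ∧ 2 * v.1 - v.2 = 2 * v0.1 - v0.2 := by
    intro v hv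
    rw [hS, Finset.mem_filter] at hv
    exact hv
  have hv0S : v0 ∈ S := by rw [hS, Finset.mem_filter]; exact ⟨hv0, rfl⟩
  have hz0 : z ≠ 0 := hz.ne'
  have hpos : ∀ n : ℤ, z ^ n ≠ 0 := fun n => zpow_ne_zero n hz0
  have hdich : ∀ v ∈ S, v ≠ v0 → (v = (v0.1 + 1, v0.2 + 2) ∨ v = (v0.1 - 1, v0.2 - 2)) := by
    intro v hv hne
    obtain ⟨h1, h2⟩ := hmem v hv
    have h3 := region_exp L l hl v v0 h1 hv0 h2
    rw [abs_le] at h3
    have h4 : v.1 ≠ v0.1 := by
      intro h4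
      apply hne
      refine Prod.ext h4 (by omega)
    rcases lt_or_gt_of_ne h4 with h5 | h5
    · right
      refine Prod.ext ?_ ?_
      · show v.1 = v0.1 - 1
        omega
      · show v.2 = v0.2 - 2
        omega
    · left
      refine Prod.ext ?_ ?_
      · show v.1 = v0.1 + 1
        omega
      · show v.2 = v0.2 + 2
        omega
  by_cases hone : ∀ v ∈ S, v = v0
  · have hS1 : S = {v0} := Finset.eq_singleton_iff_unique_mem.2 ⟨hv0S, hone⟩
    rw [hS1, Finset.sum_singleton] at hsum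
    rcases mul_eq_zero.1 hsum with h | h
    · exact hc0 (by exact_mod_cast h)
    · exact hpos _ h
  · push Not at hone
    obtain ⟨v1, hv1, hne⟩ := hone
    have hS2 : S = {v0, v1} := by
      ext v
      simp only [Finset.mem_insert, Finset.mem_singleton]
      constructor
      · intro hv
        by_cases h0 : v = v0
        · exact Or.inl h0
        · right
          have hd := hdich v hv h0
          have hd1 := hdich v1 hv1 hne
          have hr := region_exp L l hl v v1 (hmem v hv).1 (hmem v1 hv1).1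
            (by rw [(hmem v hv).2, (hmem v1 hv1).2])
          rcases hd with hd | hd <;> rcases hd1 with hd1 | hd1
          · rw [hd, hd1]
          · rw [hd, hd1, abs_le] at hr
            simp only at hr
            omega
          · rw [hd, hd1, abs_le] at hr
            simp only at hr
            omega
          · rw [hd, hd1]
      · rintro (rfl | rfl)
        · exact hv0S
        · exact hv1
    rw [hS2, Finset.sum_pair hne.symm] at hsum
    rcases hdich v1 hv1 hne with hd | hd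
    · -- `v1 = v0 + (1, 2)`
      have e : z ^ v1.2 = z ^ v0.2 * z ^ 2 := by
        rw [hd]
        show z ^ (v0.2 + 2) = _
        rw [zpow_add₀ hz0]
        norm_cast
      rw [e] at hsum
      have h1 : z ^ v0.2 * ((c v0 : ℝ) + c v1 * z ^ 2) = 0 := by linarith
      exact Region_aux z hz hz1 H hzH (c v0) (c v1) (Or.inl hc0) (hH v1 (hmem v1 hv1).1)
        ((mul_eq_zero.1 h1).resolve_left (hpos _))
    · have e : z ^ v0.2 = z ^ v1.2 * z ^ 2 := by
        rw [hd]
        show z ^ v0.2 = z ^ (v0.2 - 2) * z ^ 2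
        have : z ^ (2 : ℕ) = z ^ (2 : ℤ) := by norm_cast
        rw [this, ← zpow_add₀ hz0]
        congr 1
        ring
      rw [e] at hsum
      have h1 : z ^ v1.2 * ((c v1 : ℝ) + c v0 * z ^ 2) = 0 := by linarith
      exact Region_aux z hz hz1 H hzH (c v1) (c v0) (Or.inr hc0) (hH v0 hv0)
        ((mul_eq_zero.1 h1).resolve_left (hpos _))

end Pool.Agent.TwoRep
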