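import Pool.Agent.Lib.MP_56ee40_nt.Defs

namespace Pool.Agent.TwoRep

open Finset Polynomial

section

open Matrix

attribute [local instance] Matrix.seminormedAddCommGroup

private theorem siegel_sg_abs (η : ℤ) (hη : η = 1 ∨ η = -1) (v : ℤ × ℤ) : |sg η v| = 1 := by
  unfold sg
  rw [abs_mul]
  have h1 : |(if Even v.1 then (1 : ℤ) else -1)| = 1 := by split_ifs <;> simp
  have h2 : |(if Even v.2 then (1 : ℤ) else η)| = 1 := by
    rcases hη with rfl | rfl <;> split_ifs <;> simp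
  rw [h1, h2, one_mul]

private theorem siegel_choose (e N a : ℕ) (h : e ≤ N) : |((e.choose a : ℕ) : ℤ)| ≤ 2 ^ N := by
  rw [abs_of_nonneg (by positivity)]
  calc ((e.choose a : ℕ) : ℤ) ≤ ((2 ^ e : ℕ) : ℤ) := by exact_mod_cast Nat.choose_le_two_pow e a
    _ = 2 ^ e := by push_cast; ring
    _ ≤ 2 ^ N := pow_le_pow_right₀ (by norm_num) h

/-- Siegel's lemma in the form needed here. -/
private theorem siegel_aux {α : Type} [Fintype α] [Nonempty α] (S : Finset (ℤ × ℤ))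
    (A : α → ℤ × ℤ → ℤ) (M : ℕ) (hM : 1 ≤ M) (hA : ∀ i, ∀ v ∈ S, |A i v| ≤ M)
    (hcount : 8 * Fintype.card α ≤ 7 * S.card) :
    ∃ c : ℤ × ℤ → ℤ, (∃ v ∈ S, c v ≠ 0) ∧ (∀ v ∈ S, |c v| ≤ (((S.card * M) ^ 7 : ℕ) : ℤ)) ∧
      ∀ i, ∑ v ∈ S, c v * A i v = 0 := by
  classical
  have hm : 0 < Fintype.card α := Fintype.card_pos
  have hcS : Fintype.card S = S.card := Fintype.card_coe S
  have hn : Fintype.card α < Fintype.card S := by rw [hcS]; omega
  let B : Matrix α S ℤ := fun i v => A i v.1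
  obtain ⟨t, ht0, htB, htn⟩ := Int.Matrix.exists_ne_zero_int_vec_norm_le B hn hm
  have hBn : ‖B‖ ≤ M := by
    rw [Matrix.norm_le_iff (by positivity)]
    intro i v
    rw [Int.norm_eq_abs]
    exact_mod_cast hA i v.1 v.2
  have hbound : ‖t‖ ≤ ((S.card * M) ^ 7 : ℕ) := by
    refine htn.trans ?_
    rw [hcS]
    rw [hcS] at hn
    have hm' : (0 : ℝ) < Fintype.card α := by exact_mod_cast hm
    have hn' : (Fintype.card α : ℝ) < S.card := by exact_mod_cast hn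
    have hc' : 8 * (Fintype.card α : ℝ) ≤ 7 * S.card := by exact_mod_cast hcount
    have hS1 : (1 : ℝ) ≤ S.card := by
      have : 1 ≤ S.card := by omega
      exact_mod_cast this
    have hM' : (1 : ℝ) ≤ M := by exact_mod_cast hM
    have hmax : max 1 ‖B‖ ≤ M := max_le hM' hBn
    have hbase : (1 : ℝ) ≤ S.card * max 1 ‖B‖ := by
      calc (1 : ℝ) = 1 * 1 := by ring
        _ ≤ S.card * max 1 ‖B‖ := mul_le_mul hS1 (le_max_left _ _) (by norm_num) (by positivity)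
    have hexp : (Fintype.card α : ℝ) / (S.card - Fintype.card α) ≤ (7 : ℕ) := by
      rw [div_le_iff₀ (by linarith)]
      push_cast
      linarith
    calc ((S.card : ℝ) * max 1 ‖B‖) ^ ((Fintype.card α : ℝ) / (S.card - Fintype.card α))
        ≤ ((S.card : ℝ) * max 1 ‖B‖) ^ (((7 : ℕ) : ℝ)) :=
          Real.rpow_le_rpow_of_exponent_le hbase hexp
      _ = ((S.card : ℝ) * max 1 ‖B‖) ^ 7 := Real.rpow_natCast _ _
      _ ≤ ((S.card : ℝ) * M) ^ 7 := by gcongr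
      _ = (((S.card * M) ^ 7 : ℕ) : ℝ) := by push_cast; ring
  refine ⟨fun v => if h : v ∈ S then t ⟨v, h⟩ else 0, ?_, ?_, ?_⟩
  · by_contra hcon
    push Not at hcon
    apply ht0
    funext v
    have := hcon v.1 v.2
    rw [dif_pos v.2] at this
    exact this
  · intro v hv
    simp only [dif_pos hv]
    have h1 := norm_le_pi_norm t ⟨v, hv⟩
    rw [Int.norm_eq_abs] at h1
    have h2 := h1.trans hbound
    exact_mod_cast h2
  · intro i
    have h1 : (B *ᵥ t) i = 0 := by rw [htB]; rfl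
    rw [Matrix.mulVec, dotProduct] at h1
    rw [← Finset.sum_coe_sort S (fun v => (if h : v ∈ S then t ⟨v, h⟩ else 0) * A i v), ← h1]
    refine Finset.sum_congr rfl fun v _ => ?_
    rw [dif_pos v.2, mul_comm]

end

/-- **SIEGEL.** Apply `Int.Matrix.exists_ne_zero_int_vec_norm_le` (Mathlib) with unknowns indexed
by `S` (`n = card S`) and `m = 2(g+g1)` equations (index type e.g.
`(Fin g ⊕ Fin g1) ⊕ (Fin g ⊕ Fin g1)`); entries of absolute value `≤ 2^N * (J+1)`;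
`m/(n-m) ≤ 7` since `8 m ≤ 7 n`; base `≥ 1`; so the solution is bounded by
`(n * (2^N (J+1)))^7 = sb n N J`. -/
theorem siegel (S : Finset (ℤ × ℤ)) (E N J g g1 : ℕ) (η : ℤ) (hη : η = 1 ∨ η = -1)
    (hN : ∀ v ∈ S, ex E v ≤ N) (hJ : ∀ v ∈ S, v.2.natAbs ≤ J)
    (hcount : 16 * (g + g1) ≤ 7 * S.card) (hpos : 0 < g) :
    ∃ c : ℤ × ℤ → ℤ, (∃ v ∈ S, c v ≠ 0) ∧ (∀ v ∈ S, |c v| ≤ (sb S.card N J : ℤ)) ∧
      (∀ a < g, ∑ v ∈ S, c v * ((ex E v).choose a : ℤ) = 0) ∧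
      (∀ a < g1, ∑ v ∈ S, c v * v.2 * ((ex E v).choose a : ℤ) = 0) ∧
      (∀ a < g, ∑ v ∈ S, (c v * sg η v) * ((ex E v).choose a : ℤ) = 0) ∧
      (∀ a < g1, ∑ v ∈ S, (c v * sg η v) * v.2 * ((ex E v).choose a : ℤ) = 0) := by
  let A : (Fin g ⊕ Fin g1) ⊕ (Fin g ⊕ Fin g1) → ℤ × ℤ → ℤ := fun i v =>
    Sum.elim (Sum.elim (fun a : Fin g => ((ex E v).choose a : ℤ))
      (fun a : Fin g1 => v.2 * ((ex E v).choose a : ℤ)))
      (Sum.elim (fun a : Fin g => sg η v * ((ex E v).choose a : ℤ))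
      (fun a : Fin g1 => sg η v * v.2 * ((ex E v).choose a : ℤ))) i
  have : Nonempty ((Fin g ⊕ Fin g1) ⊕ (Fin g ⊕ Fin g1)) := ⟨Sum.inl (Sum.inl ⟨0, hpos⟩)⟩
  have hcard : Fintype.card ((Fin g ⊕ Fin g1) ⊕ (Fin g ⊕ Fin g1)) = 2 * (g + g1) := by
    simp only [Fintype.card_sum, Fintype.card_fin]; ring
  have hA : ∀ i, ∀ v ∈ S, |A i v| ≤ ((2 ^ N * (J + 1) : ℕ) : ℤ) := by
    intro i v hv
    have h1 : ∀ a : ℕ, |(((ex E v).choose a : ℕ) : ℤ)| ≤ 2 ^ N := fun a =>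
      siegel_choose _ _ _ (hN v hv)
    have h2 : |v.2| ≤ J := by
      have := hJ v hv
      rw [Int.abs_eq_natAbs]
      exact_mod_cast this
    have h3 := siegel_sg_abs η hη v
    have h4 : (0 : ℤ) < 2 ^ N := by positivity
    have h5 : ∀ a : ℕ, |v.2| * |(((ex E v).choose a : ℕ) : ℤ)| ≤ 2 ^ N * (J + 1) := by
      intro a
      calc |v.2| * |(((ex E v).choose a : ℕ) : ℤ)| ≤ J * 2 ^ N :=
            mul_le_mul h2 (h1 a) (abs_nonneg _) (by positivity)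
        _ ≤ 2 ^ N * (J + 1) := by nlinarith
    have h6 : ∀ a : ℕ, |(((ex E v).choose a : ℕ) : ℤ)| ≤ 2 ^ N * (J + 1) := by
      intro a
      refine (h1 a).trans ?_
      have : (0 : ℤ) ≤ J := by positivity
      nlinarith
    push_cast
    rcases i with (a | a) | (a | a)
    · exact h6 a
    · show |v.2 * (((ex E v).choose a : ℕ) : ℤ)| ≤ _
      rw [abs_mul]; exact h5 a
    · show |sg η v * (((ex E v).choose a : ℕ) : ℤ)| ≤ _
      rw [abs_mul, h3, one_mul]; exact h6 a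
    · show |sg η v * v.2 * (((ex E v).choose a : ℕ) : ℤ)| ≤ _
      rw [abs_mul, abs_mul, h3, one_mul]; exact h5 a
  obtain ⟨c, hc0, hc1, hc2⟩ := siegel_aux S A (2 ^ N * (J + 1)) (Nat.succ_le_of_lt (by positivity))
    hA (by rw [hcard]; omega)
  refine ⟨c, hc0, ?_, ?_, ?_, ?_, ?_⟩
  · intro v hv
    exact hc1 v hv
  · intro a ha
    exact hc2 (Sum.inl (Sum.inl ⟨a, ha⟩))
  · intro a ha
    rw [← hc2 (Sum.inl (Sum.inr ⟨a, ha⟩))]
    refine Finset.sum_congr rfl fun v _ => ?_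
    show _ = c v * (v.2 * ((ex E v).choose a : ℤ))
    ring
  · intro a ha
    rw [← hc2 (Sum.inr (Sum.inl ⟨a, ha⟩))]
    refine Finset.sum_congr rfl fun v _ => ?_
    show _ = c v * (sg η v * ((ex E v).choose a : ℤ))
    ring
  · intro a ha
    rw [← hc2 (Sum.inr (Sum.inr ⟨a, ha⟩))]
    refine Finset.sum_congr rfl fun v _ => ?_
    show _ = c v * (sg η v * v.2 * ((ex E v).choose a : ℤ))
    ring

end Pool.Agent.TwoRep
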