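import Pool.Agent.Lib.MP_56ee40_nt.Defs

namespace Pool.Agent.TwoRep

open Finset Polynomial

/-- **TWIST.** `(iT)^(2s-j) (η i w)^j = i^(2s) η^j T^(2s-j) w^j = (-1)^s η^j T^(2s-j) w^j`. -/
theorem GG_twist {K : Type*} [Field K] (S : Finset (ℤ × ℤ)) (c : ℤ × ℤ → ℤ) (E t : ℕ)
    (i T w : K) (η : ℤ) (hi : i ^ 2 = -1) (hη : η = 1 ∨ η = -1) :
    GG S c E t (i * T) ((η : K) * i * w) = GG S (fun v => c v * sg η v) E t T w := by
  have hi0 : i ≠ 0 := by
    rintro rfl
    rw [zero_pow two_ne_zero] at hi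
    exact one_ne_zero (neg_eq_zero.mp hi.symm)
  unfold GG
  refine Finset.sum_congr rfl fun v _ => ?_
  have h1 : i ^ (2 * v.1 - v.2) * i ^ v.2 = if Even v.1 then 1 else -1 := by
    rw [← zpow_add₀ hi0, sub_add_cancel, zpow_mul]
    have h2 : i ^ (2 : ℤ) = -1 := by
      rw [← hi]
      norm_cast
    rw [h2]
    split_ifs with he
    · exact he.neg_one_zpow
    · exact (Int.not_even_iff_odd.mp he).neg_one_zpow
  have h3 : (η : K) ^ v.2 = if Even v.2 then 1 else (η : K) := by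
    rcases hη with rfl | rfl
    · simp
    · push_cast
      split_ifs with he
      · exact he.neg_one_zpow
      · exact (Int.not_even_iff_odd.mp he).neg_one_zpow
  have h4 : ((sg η v : ℤ) : K) = (if Even v.1 then 1 else -1) * (if Even v.2 then 1 else (η : K)) := by
    unfold sg
    split_ifs <;> push_cast <;> ring
  rw [mul_zpow, mul_zpow, mul_zpow, h3]
  push_cast
  rw [h4, ← h1]
  ring

/-- the same for the inverses (`i⁻¹ = -i` also has square `-1`, `(η:K)⁻¹ = η`). -/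
theorem GG_twist_inv {K : Type*} [Field K] (S : Finset (ℤ × ℤ)) (c : ℤ × ℤ → ℤ) (E t : ℕ)
    (i T w : K) (η : ℤ) (hi : i ^ 2 = -1) (hη : η = 1 ∨ η = -1) :
    GG S c E t (i * T)⁻¹ ((η : K) * i * w)⁻¹ =
      GG S (fun v => c v * sg η v) E t T⁻¹ w⁻¹ := by
  have hi2 : i⁻¹ = -i := by
    apply inv_eq_of_mul_eq_one_left
    linear_combination -hi
  have hη2 : (η : K)⁻¹ = η := by
    rcases hη with rfl | rfl
    · simp
    · push_cast
      rw [inv_neg, inv_one]
  have h := GG_twist S c E t (-i) T⁻¹ w⁻¹ η (by rw [neg_sq]; exact hi) hη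
  rw [mul_inv, mul_inv, mul_inv, hi2, hη2]
  exact h

end Pool.Agent.TwoRep
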