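import Pool.Agent.Lib.MP_56ee40_nt.Taylor

namespace Pool.Agent.TwoRep

open Finset Polynomial

private theorem uest_norm_one {K : Type*} [NormedField K] [IsUltrametricDist K] {w : K} {β : ℝ}
    (hβ : ‖w - 1‖ ≤ β) (hβ1 : β < 1) : ‖w‖ = 1 := by
  have h1 : ‖w - 1‖ < 1 := lt_of_le_of_lt hβ hβ1
  have h2 : ‖w - 1‖ ≠ ‖(1 : K)‖ := by rw [norm_one]; exact ne_of_lt h1
  have h3 := IsUltrametricDist.norm_add_eq_max_of_norm_ne_norm h2
  rw [sub_add_cancel, norm_one, max_eq_right h1.le] at h3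
  exact h3

private theorem uest_nat1 {K : Type*} [NormedField K] [IsUltrametricDist K] {w : K} {β : ℝ}
    (hβ : ‖w - 1‖ ≤ β) (hβ1 : β < 1) (n : ℕ) : ‖w ^ n - 1‖ ≤ β := by
  have hw := uest_norm_one hβ hβ1
  have hβ0 : 0 ≤ β := (norm_nonneg _).trans hβ
  induction n with
  | zero => simpa using hβ0
  | succ n ih =>
    have e : w ^ (n + 1) - 1 = w * (w ^ n - 1) + (w - 1) := by ring
    rw [e]
    refine (IsUltrametricDist.norm_add_le_max _ _).trans (max_le ?_ hβ)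
    rw [norm_mul, hw, one_mul]
    exact ih

private theorem uest_nat2 {K : Type*} [NormedField K] [IsUltrametricDist K] {w : K} {β : ℝ}
    (hβ : ‖w - 1‖ ≤ β) (hβ1 : β < 1) (n : ℕ) : ‖w ^ n - 1 - n * (w - 1)‖ ≤ β ^ 2 := by
  have hw := uest_norm_one hβ hβ1
  have hβ0 : 0 ≤ β := (norm_nonneg _).trans hβ
  induction n with
  | zero => simpa using sq_nonneg β
  | succ n ih =>
    have e : w ^ (n + 1) - 1 - ((n + 1 : ℕ) : K) * (w - 1) =
        w * (w ^ n - 1 - n * (w - 1)) + n * (w - 1) ^ 2 := by push_cast; ring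
    rw [e]
    refine (IsUltrametricDist.norm_add_le_max _ _).trans (max_le ?_ ?_)
    · rw [norm_mul, hw, one_mul]
      exact ih
    · rw [norm_mul, norm_pow]
      calc ‖(n : K)‖ * ‖w - 1‖ ^ 2 ≤ 1 * β ^ 2 :=
            mul_le_mul (IsUltrametricDist.norm_natCast_le_one K n)
              (pow_le_pow_left₀ (norm_nonneg _) hβ 2) (by positivity) zero_le_one
        _ = β ^ 2 := one_mul _

private theorem uest_inv {K : Type*} [NormedField K] [IsUltrametricDist K] {w : K} {β : ℝ}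
    (hβ : ‖w - 1‖ ≤ β) (hβ1 : β < 1) : ‖w⁻¹ - 1‖ ≤ β := by
  have hw := uest_norm_one hβ hβ1
  have hw0 : w ≠ 0 := by
    intro h
    rw [h, norm_zero] at hw
    exact zero_ne_one hw
  have e : w⁻¹ - 1 = -(w - 1) * w⁻¹ := by field_simp; ring
  rw [e, norm_mul, norm_neg, norm_inv, hw, inv_one, mul_one]
  exact hβ

private theorem uest_int1 {K : Type*} [NormedField K] [IsUltrametricDist K] {w : K} {β : ℝ}
    (hβ : ‖w - 1‖ ≤ β) (hβ1 : β < 1) (j : ℤ) : ‖w ^ j - 1‖ ≤ β := by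
  rcases Int.eq_nat_or_neg j with ⟨n, rfl | rfl⟩
  · rw [zpow_natCast]
    exact uest_nat1 hβ hβ1 n
  · rw [zpow_neg, zpow_natCast, ← inv_pow]
    exact uest_nat1 (uest_inv hβ hβ1) hβ1 n

private theorem uest_int2 {K : Type*} [NormedField K] [IsUltrametricDist K] {w : K} {β : ℝ}
    (hβ : ‖w - 1‖ ≤ β) (hβ1 : β < 1) (j : ℤ) : ‖w ^ j - 1 - j * (w - 1)‖ ≤ β ^ 2 := by
  have hw := uest_norm_one hβ hβ1
  have hw0 : w ≠ 0 := by
    intro h
    rw [h, norm_zero] at hw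
    exact zero_ne_one hw
  rcases Int.eq_nat_or_neg j with ⟨n, rfl | rfl⟩
  · rw [zpow_natCast, Int.cast_natCast]
    exact uest_nat2 hβ hβ1 n
  · rw [zpow_neg, zpow_natCast, ← inv_pow]
    have e : w⁻¹ ^ n - 1 - ((-(n : ℤ) : ℤ) : K) * (w - 1) =
        (w⁻¹ ^ n - 1 - n * (w⁻¹ - 1)) + n * ((w - 1) ^ 2 * w⁻¹) := by
      push_cast
      have : w * w⁻¹ = 1 := mul_inv_cancel₀ hw0
      linear_combination (-(n : K)) * (w - 2) * this
    rw [e]
    refine (IsUltrametricDist.norm_add_le_max _ _).trans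
      (max_le (uest_nat2 (uest_inv hβ hβ1) hβ1 n) ?_)
    rw [norm_mul, norm_mul, norm_pow, norm_inv, hw, inv_one, mul_one]
    calc ‖(n : K)‖ * ‖w - 1‖ ^ 2 ≤ 1 * β ^ 2 :=
          mul_le_mul (IsUltrametricDist.norm_natCast_le_one K n)
            (pow_le_pow_left₀ (norm_nonneg _) hβ 2) (by positivity) zero_le_one
      _ = β ^ 2 := one_mul _

private theorem uest_int0 {K : Type*} [NormedField K] [IsUltrametricDist K] {w : K} {β : ℝ}
    (hβ : ‖w - 1‖ ≤ β) (hβ1 : β < 1) (j : ℤ) : ‖w ^ j‖ = 1 := by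
  rw [norm_zpow, uest_norm_one hβ hβ1, one_zpow]

/-- **UEST.** Ultrametric estimate.
PROOF: `‖T‖ = ‖w‖ = 1`. By `taylor_GG` with `τ = 1`,
`‖GG‖ ≤ max_{a ≥ t} ‖T-1‖^(a-t) ‖lev_a(w)‖` (integers have norm ≤ 1; terms with `a < t` vanish
because `choose a t = 0`).
`lev_a(w) = ∑ c_v choose(e_v,a) w^j`.  For every integer `j`: `‖w^j - 1‖ ≤ β` and
`‖w^j - 1 - j(w-1)‖ ≤ β^2` (`j ≥ 0`: binomial theorem or induction; `j < 0`: apply it to `w⁻¹`,
`w⁻¹ - 1 = -(w-1)/w` and `(w⁻¹-1)+(w-1) = (w-1)^2/w`).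
So `‖lev_a‖ ≤ β^2` for `a < g1` (conditions c0 and c1), `≤ β` for `a < g` (c0), `≤ 1` always.
For `t ≤ a < g1`: `≤ β^2`; `g1 ≤ a < g`: `≤ β α^(g1-t)`; `a ≥ g`: `≤ α^(g-t)`. -/
theorem ultra_est {K : Type*} [NormedField K] [IsUltrametricDist K]
    (S : Finset (ℤ × ℤ)) (c : ℤ × ℤ → ℤ) (E g g1 t : ℕ) (α β : ℝ) (T w : K)
    (hE : ∀ v ∈ S, 0 ≤ 2 * v.1 - v.2 + E)
    (hα : ‖T - 1‖ ≤ α) (hα1 : α < 1) (hβ : ‖w - 1‖ ≤ β) (hβ1 : β < 1)
    (hg : g1 ≤ g) (ht : t ≤ g1)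
    (c0 : ∀ a < g, ∑ v ∈ S, c v * ((ex E v).choose a : ℤ) = 0)
    (c1 : ∀ a < g1, ∑ v ∈ S, c v * v.2 * ((ex E v).choose a : ℤ) = 0) :
    ‖GG S c E t T w‖ ≤ max (β ^ 2) (max (β * α ^ (g1 - t)) (α ^ (g - t))) := by
  have hα0 : 0 ≤ α := (norm_nonneg _).trans hα
  have hβ0 : 0 ≤ β := (norm_nonneg _).trans hβ
  have hT := uest_norm_one hα hα1
  have hT0 : T ≠ 0 := by
    intro h
    rw [h, norm_zero] at hT
    exact zero_ne_one hT
  have hlev : ∀ a, lev S c E 1 a w = ∑ v ∈ S, (c v : K) * ((ex E v).choose a : K) * w ^ v.2 := by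
    intro a
    unfold lev
    refine Finset.sum_congr rfl fun v _ => ?_
    rw [one_pow, mul_one]
  have hint : ∀ n : ℤ, ‖(n : K)‖ ≤ 1 := IsUltrametricDist.norm_intCast_le_one K
  have hcoef : ∀ (v : ℤ × ℤ) (a : ℕ), ‖(c v : K) * ((ex E v).choose a : K)‖ ≤ 1 := by
    intro v a
    have := hint (c v * ((ex E v).choose a : ℤ))
    push_cast at this
    exact this
  -- the three bounds for the levels
  have l0 : ∀ a, ‖lev S c E 1 a w‖ ≤ 1 := by
    intro a
    rw [hlev]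
    refine IsUltrametricDist.norm_sum_le_of_forall_le_of_nonneg zero_le_one fun v _ => ?_
    rw [norm_mul, uest_int0 hβ hβ1, mul_one]
    exact hcoef v a
  have c0' : ∀ a < g, ∑ v ∈ S, (c v : K) * ((ex E v).choose a : K) = 0 := by
    intro a ha
    have := congrArg (fun n : ℤ => (n : K)) (c0 a ha)
    push_cast at this
    exact this
  have c1' : ∀ a < g1, ∑ v ∈ S, (c v : K) * (v.2 : K) * ((ex E v).choose a : K) = 0 := by
    intro a ha
    have := congrArg (fun n : ℤ => (n : K)) (c1 a ha)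
    push_cast at this
    exact this
  have l1 : ∀ a < g, ‖lev S c E 1 a w‖ ≤ β := by
    intro a ha
    have e : lev S c E 1 a w =
        ∑ v ∈ S, (c v : K) * ((ex E v).choose a : K) * (w ^ v.2 - 1) := by
      rw [hlev]
      have h := c0' a ha
      calc ∑ v ∈ S, (c v : K) * ((ex E v).choose a : K) * w ^ v.2
          = ∑ v ∈ S, ((c v : K) * ((ex E v).choose a : K) * (w ^ v.2 - 1) +
            (c v : K) * ((ex E v).choose a : K)) := Finset.sum_congr rfl fun v _ => by ring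
        _ = _ := by rw [Finset.sum_add_distrib, h, add_zero]
    rw [e]
    refine IsUltrametricDist.norm_sum_le_of_forall_le_of_nonneg hβ0 fun v _ => ?_
    rw [norm_mul]
    calc _ ≤ 1 * β := mul_le_mul (hcoef v a) (uest_int1 hβ hβ1 v.2) (norm_nonneg _) zero_le_one
      _ = β := one_mul _
  have l2 : ∀ a < g1, ‖lev S c E 1 a w‖ ≤ β ^ 2 := by
    intro a ha
    have e : lev S c E 1 a w =
        ∑ v ∈ S, (c v : K) * ((ex E v).choose a : K) * (w ^ v.2 - 1 - v.2 * (w - 1)) := by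
      rw [hlev]
      have h := c0' a (lt_of_lt_of_le ha hg)
      have h' := c1' a ha
      calc ∑ v ∈ S, (c v : K) * ((ex E v).choose a : K) * w ^ v.2
          = ∑ v ∈ S, ((c v : K) * ((ex E v).choose a : K) * (w ^ v.2 - 1 - v.2 * (w - 1)) +
            ((c v : K) * ((ex E v).choose a : K) +
              (c v : K) * (v.2 : K) * ((ex E v).choose a : K) * (w - 1))) :=
            Finset.sum_congr rfl fun v _ => by ring
        _ = _ := by
            rw [Finset.sum_add_distrib, Finset.sum_add_distrib, h, ← Finset.sum_mul, h', zero_mul,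
              add_zero, add_zero]
    rw [e]
    refine IsUltrametricDist.norm_sum_le_of_forall_le_of_nonneg (sq_nonneg β) fun v _ => ?_
    rw [norm_mul]
    calc _ ≤ 1 * β ^ 2 :=
          mul_le_mul (hcoef v a) (uest_int2 hβ hβ1 v.2) (norm_nonneg _) zero_le_one
      _ = β ^ 2 := one_mul _
  have htay := taylor_GG S c E t (S.sup (ex E)) T 1 w hT0 hE (fun v hv => Finset.le_sup hv)
  have hn : ‖GG S c E t T w‖ = ‖GG S c E t T w * T ^ ((E : ℤ) - t)‖ := by
    rw [norm_mul, uest_int0 hα hα1, mul_one]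
  rw [hn, htay]
  have hC : 0 ≤ max (β ^ 2) (max (β * α ^ (g1 - t)) (α ^ (g - t))) :=
    le_max_of_le_left (sq_nonneg β)
  refine IsUltrametricDist.norm_sum_le_of_forall_le_of_nonneg hC fun a _ => ?_
  rcases lt_or_ge a t with hat | hat
  · rw [Nat.choose_eq_zero_of_lt hat, Nat.cast_zero, zero_mul, zero_mul, norm_zero]
    exact hC
  rw [norm_mul, norm_mul, norm_pow]
  have hch : ‖((a.choose t : ℕ) : K)‖ ≤ 1 := IsUltrametricDist.norm_natCast_le_one K _
  have hpow : ‖T - 1‖ ^ (a - t) ≤ α ^ (a - t) := pow_le_pow_left₀ (norm_nonneg _) hα _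
  have hcp : ‖((a.choose t : ℕ) : K)‖ * ‖T - 1‖ ^ (a - t) ≤ α ^ (a - t) := by
    calc _ ≤ 1 * α ^ (a - t) := mul_le_mul hch hpow (by positivity) zero_le_one
      _ = _ := one_mul _
  have hap : 0 ≤ α ^ (a - t) := pow_nonneg hα0 _
  rcases lt_or_ge a g1 with h1 | h1
  · refine le_trans ?_ (le_max_left _ _)
    calc _ ≤ 1 * β ^ 2 :=
          mul_le_mul (hcp.trans (pow_le_one₀ hα0 hα1.le)) (l2 a h1) (norm_nonneg _) zero_le_one
      _ = β ^ 2 := one_mul _
  rcases lt_or_ge a g with h2 | h2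
  · refine le_trans ?_ ((le_max_left _ _).trans (le_max_right _ _))
    calc _ ≤ α ^ (a - t) * β := mul_le_mul hcp (l1 a h2) (norm_nonneg _) hap
      _ ≤ α ^ (g1 - t) * β := by
          apply mul_le_mul_of_nonneg_right _ hβ0
          exact pow_le_pow_of_le_one hα0 hα1.le (by omega)
      _ = β * α ^ (g1 - t) := mul_comm _ _
  · refine le_trans ?_ ((le_max_right _ _).trans (le_max_right _ _))
    calc _ ≤ α ^ (a - t) * 1 := mul_le_mul hcp (l0 a) (norm_nonneg _) hap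
      _ ≤ α ^ (g - t) := by
          rw [mul_one]
          exact pow_le_pow_of_le_one hα0 hα1.le (by omega)

end Pool.Agent.TwoRep
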