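import Pool.Agent.Lib.MP_56ee40_nt.GInt
import Pool.Agent.Lib.MP_56ee40_nt.NormIneq
import Pool.Agent.Lib.MP_56ee40_nt.UEst
import Pool.Agent.Lib.MP_56ee40_nt.REst
import Pool.Agent.Lib.MP_56ee40_nt.Twist
import Pool.Agent.Lib.MP_56ee40_nt.PClose
import Pool.Agent.Lib.MP_56ee40_nt.RClose
import Pool.Agent.Lib.MP_56ee40_nt.Siegel
import Pool.Agent.Lib.MP_56ee40_nt.Region
import Pool.Agent.Lib.MP_56ee40_nt.ZL
import Pool.Agent.Lib.MP_56ee40_nt.NumZ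
import Pool.Agent.Lib.MP_56ee40_nt.NumM

/-!
# The main lemma of the Thue-Siegel argument
-/

namespace Pool.Agent.TwoRep

open Finset Polynomial

private lemma MainL_J (L l : ℕ) (hl : 10000 ≤ l) (hlL : l ≤ L) : JJ L l ≤ L / 2500 := by
  have h : 2 * L / l ≤ 2 * L / 10000 := Nat.div_le_div_left hl (by norm_num)
  unfold JJ
  omega

/-- region facts in the form needed by the analytic estimates -/
private lemma MainL_reg (L l : ℕ) (hl : 1 ≤ l) :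
    (∀ v ∈ region L l, v.1.natAbs ≤ 2 * L) ∧ (∀ v ∈ region L l, v.2.natAbs ≤ JJ L l) ∧
    (∀ v ∈ region L l, 0 ≤ 2 * v.1 - v.2 + (EE L l : ℕ)) ∧
    (∀ v ∈ region L l, ex (EE L l) v ≤ 2 * EE L l) ∧
    (∀ v ∈ region L l, (v.1 + l * v.2).natAbs ≤ 3 * l / 2) ∧
    (∀ v ∈ region L l, v.1.natAbs + v.2.natAbs ≤ 2 * L + JJ L l) := by
  have key := region_mem L l hl
  refine ⟨fun v hv => (key v hv).1, fun v hv => (key v hv).2.2.2, ?_, ?_, ?_, ?_⟩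
  · intro v hv
    obtain ⟨h1, -, -, h4⟩ := key v hv
    unfold EE
    push_cast
    omega
  · intro v hv
    obtain ⟨h1, -, -, h4⟩ := key v hv
    unfold ex EE
    push_cast
    omega
  · intro v hv
    obtain ⟨-, h2, h3, -⟩ := key v hv
    have e : (v.1 + l * v.2).natAbs * 2 ≤ 3 * l := by
      generalize v.1 + l * v.2 = q at *
      omega
    omega
  · intro v hv
    obtain ⟨h1, -, -, h4⟩ := key v hv
    omega

private lemma MainL_inv_close {K : Type*} [NormedField K] [IsUltrametricDist K] (T : K) (α : ℝ)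
    (hα : α < 1) (h : ‖T - 1‖ ≤ α) : ‖T⁻¹ - 1‖ ≤ α := by
  have h1 : ‖T‖ = 1 := by
    have : ‖(T - 1) + 1‖ = max ‖T - 1‖ ‖(1 : K)‖ := by
      apply IsUltrametricDist.norm_add_eq_max_of_norm_ne_norm
      rw [norm_one]
      exact (lt_of_le_of_lt h hα).ne
    rw [sub_add_cancel, norm_one, max_eq_right (h.trans hα.le)] at this
    exact this
  have h0 : T ≠ 0 := by
    intro h0
    rw [h0, norm_zero] at h1
    norm_num at h1
  have : T⁻¹ - 1 = -(T - 1) * T⁻¹ := by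
    field_simp
    ring
  rw [this, norm_mul, norm_neg, norm_inv, h1, inv_one, mul_one]
  exact h

/-- **MAINL: the main lemma** (assembly). -/
theorem main_lemma (d : Dat) (p : ℕ) [Fact p.Prime] (e u L : ℕ) (he : 1 ≤ e)
    (hpA : (p : ℤ) ^ e ∣ d.A) (hpB : ¬ (p : ℤ) ∣ d.B) (hpC : ¬ (p : ℤ) ∣ d.C)
    (hCx : d.C * (p : ℤ) ^ e ≤ d.A) (hb : d.b < (p : ℤ) ^ e) (hyC : IsCoprime d.y d.C)
    (hU : (p : ℤ) ^ u ∣ d.A * d.X ^ 2) (hUy : d.y ^ (2 * d.l) ≤ (p : ℤ) ^ u)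
    (hUC : (p : ℤ) ^ u * d.C ≤ 2 * (d.B * d.Y ^ 2))
    (hL1 : ((p : ℤ) ^ e) ^ L ≤ d.y ^ d.l) (hL2 : d.y ^ d.l < ((p : ℤ) ^ e) ^ (L + 1))
    (hlL : d.l ≤ L) (hLl : L ≤ d.l ^ 3) (hY2 : d.Y2 ^ (50 * JJ L d.l) ≤ ((p : ℤ) ^ e) ^ L)
    (hx0 : 2 ^ K0 ≤ p ^ e) (hl0 : 10000 ≤ d.l) : False := by
  -- notation
  obtain ⟨xh, hxh⟩ : ∃ xh : ℕ, xh = p ^ e := ⟨_, rfl⟩
  have hxhZ : ((p : ℤ) ^ e) = (xh : ℤ) := by rw [hxh]; push_cast; ring
  rw [hxhZ] at hCx hb hL1 hL2 hY2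
  rw [← hxh] at hx0
  have hxbig : 2 ^ 20 ≤ xh := by
    refine le_trans (Nat.pow_le_pow_right (by norm_num) ?_) hx0
    unfold K0; norm_num
  have hl1 : 1 ≤ d.l := by omega
  have hL0 : 10000 ≤ L := by omega
  have hJ := MainL_J L d.l hl0 hlL
  have hy0 := d.hy0
  have hb0 := d.hb0
  have hC0 := d.hC0
  have hX0 := d.hX0
  have hY20 := d.hY20
  have hB0 : 0 < d.B := by rw [d.hB]; positivity
  have hA0 : 0 < d.A := by rw [d.hABC]; positivity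
  have hY0 : 0 < d.Y := by rw [d.hY]; positivity
  have hBr : (0 : ℝ) < d.B := by exact_mod_cast hB0
  have hAr : (0 : ℝ) < d.A := by exact_mod_cast hA0
  have hCr : (0 : ℝ) < d.C := by exact_mod_cast hC0
  have hYr : (0 : ℝ) < d.Y := by exact_mod_cast hY0
  have hXr : (0 : ℝ) < d.X := by exact_mod_cast hX0
  have hyr : (0 : ℝ) < d.y := by exact_mod_cast hy0
  have hABCr : (d.A : ℝ) = d.B + d.C := by exact_mod_cast d.hABC
  have heqr : (d.A : ℝ) * d.X ^ 2 = d.B * d.Y ^ 2 + d.C := by exact_mod_cast d.heq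
  have hxr : (0 : ℝ) < xh := by
    have : 0 < xh := by omega
    exact_mod_cast this
  have hxr2 : (2 ^ 20 : ℝ) ≤ xh := by exact_mod_cast hxbig
  -- real place
  obtain ⟨z0, hz0⟩ : ∃ z0 : ℝ, z0 = zz0 (√(d.A : ℝ)) (√(d.B : ℝ)) (√(d.C : ℝ)) := ⟨_, rfl⟩
  obtain ⟨z, hz⟩ : ∃ z : ℝ, z = zz d.X d.Y d.ε (√(d.A : ℝ)) (√(d.B : ℝ)) (√(d.C : ℝ)) := ⟨_, rfl⟩
  have hxL2 : (2 : ℝ) ≤ (xh : ℝ) ^ L := by
    calc (2 : ℝ) ≤ xh := by linarith
      _ = (xh : ℝ) ^ 1 := (pow_one _).symm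
      _ ≤ (xh : ℝ) ^ L := pow_le_pow_right₀ (by linarith) (by omega)
  have hpu : (xh : ℤ) ^ (2 * L) ≤ (p : ℤ) ^ u := by
    calc (xh : ℤ) ^ (2 * L) = ((xh : ℤ) ^ L) ^ 2 := by ring
      _ ≤ (d.y ^ d.l) ^ 2 := by
          apply pow_le_pow_left₀ (by positivity) hL1
      _ = d.y ^ (2 * d.l) := by ring
      _ ≤ _ := hUy
  have hc0 := close_z0 d xh (by linarith) (by exact_mod_cast hCx)
  have hcz := close_z d ((xh : ℝ) ^ L) hxL2 (by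
    have h1 : d.C * ((xh : ℤ) ^ L) ^ 2 ≤ 2 * (d.B * d.Y ^ 2) := by
      calc d.C * ((xh : ℤ) ^ L) ^ 2 = (xh : ℤ) ^ (2 * L) * d.C := by ring
        _ ≤ (p : ℤ) ^ u * d.C := by
            apply mul_le_mul_of_nonneg_right hpu hC0.le
        _ ≤ _ := hUC
    exact_mod_cast h1)
  rw [← hz0] at hc0
  rw [← hz] at hcz
  obtain ⟨hz0p, hz01, hz0c, hz0c'⟩ := hc0
  obtain ⟨hzp, hz1, hzc, hzc'⟩ := hcz
  -- p-adic place
  obtain ⟨rA, hrA⟩ := IsAlgClosed.exists_pow_nat_eq (d.A : PadicAlgCl p) (n := 2) (by norm_num)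
  obtain ⟨rB, hrB⟩ := IsAlgClosed.exists_pow_nat_eq (d.B : PadicAlgCl p) (n := 2) (by norm_num)
  obtain ⟨rC, hrC⟩ := IsAlgClosed.exists_pow_nat_eq (d.C : PadicAlgCl p) (n := 2) (by norm_num)
  obtain ⟨i, T, w, η, hi, hη, hpz0, hpz, hT, hw⟩ :=
    padic_close p d.A d.B d.C d.X d.Y d.ε e u he d.hABC d.heq d.hε hpA hpB hpC hU rA rB rC
      hrA hrB hrC
  -- Siegel
  obtain ⟨hR1, hR2, hR3, hR4, hR5, hR6⟩ := MainL_reg L d.l hl1
  have hcard := region_card L d.l hl1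
  obtain ⟨c, hcne, hcH, hc0, hc1, hc0', hc1'⟩ :=
    siegel (region L d.l) (EE L d.l) (2 * EE L d.l) (JJ L d.l) (g0 L) (g1 L) η hη hR4 hR2
      (by rw [hcard]; unfold g0 g1; omega) (by unfold g0; omega)
  have hHH : sb (region L d.l).card (2 * EE L d.l) (JJ L d.l) = HH L d.l := by
    rw [hcard]; rfl
  rw [hHH] at hcH
  have hH1 : 1 ≤ HH L d.l := by
    unfold HH sb
    exact Nat.one_le_pow _ _ (by positivity)
  -- non-vanishing
  have hzle : z ≤ 2 := by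
    have h4 : 4 / (xh : ℝ) ^ L ≤ 1 := by
      rw [div_le_one (by positivity)]
      calc (4 : ℝ) ≤ xh := by linarith
        _ = (xh : ℝ) ^ 1 := (pow_one _).symm
        _ ≤ (xh : ℝ) ^ L := pow_le_pow_right₀ (by linarith) (by omega)
    have := (abs_le.mp (hzc.trans h4)).2
    linarith
  have hzH : |z ^ 2 - 1| * (HH L d.l : ℝ) < 1 := by
    have h1 : |z ^ 2 - 1| ≤ 12 / (xh : ℝ) ^ L := by
      have : z ^ 2 - 1 = (z - 1) * (z + 1) := by ring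
      rw [this, abs_mul]
      have h2 : |z + 1| ≤ 3 := by rw [abs_of_pos (by linarith)]; linarith
      calc |z - 1| * |z + 1| ≤ (4 / (xh : ℝ) ^ L) * 3 := by
            apply mul_le_mul hzc h2 (abs_nonneg _) (by positivity)
        _ = 12 / (xh : ℝ) ^ L := by ring
    have h2 : (12 : ℝ) * (HH L d.l : ℝ) < (xh : ℝ) ^ L := by
      exact_mod_cast num_f xh L d.l hx0 hl0 hlL
    calc |z ^ 2 - 1| * (HH L d.l : ℝ) ≤ 12 / (xh : ℝ) ^ L * (HH L d.l : ℝ) := by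
          apply mul_le_mul_of_nonneg_right h1 (by positivity)
      _ = (12 * (HH L d.l : ℝ)) / (xh : ℝ) ^ L := by ring
      _ < 1 := by rw [div_lt_one (by positivity)]; exact h2
  have hne := f_ne_zero L d.l hl1 c hcne (HH L d.l) hcH z hzp hz1 hzH
  have hz4 : (d.B : ℝ) * z0 ^ 4 - 2 * (d.A + d.C) * z0 ^ 2 + d.B = 0 := by
    have hsA : √(d.A : ℝ) ^ 2 = d.A := Real.sq_sqrt hAr.le
    have hsB : √(d.B : ℝ) ^ 2 = d.B := Real.sq_sqrt hBr.le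
    have hsC : √(d.C : ℝ) ^ 2 = d.C := Real.sq_sqrt hCr.le
    have hsB0 : √(d.B : ℝ) ≠ 0 := (Real.sqrt_pos.mpr hBr).ne'
    have e1 : √(d.B : ℝ) * z0 = √(d.A : ℝ) - √(d.C : ℝ) := by
      rw [hz0]; unfold zz0; field_simp
    have e2 : (d.B : ℝ) * z0 ^ 2 = d.A + d.C - 2 * (√(d.A : ℝ) * √(d.C : ℝ)) := by
      calc (d.B : ℝ) * z0 ^ 2 = (√(d.B : ℝ) * z0) ^ 2 := by rw [mul_pow, hsB]
        _ = _ := by rw [e1]; ring_nf; rw [hsA, hsC]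
    have e3 : (√(d.A : ℝ) * √(d.C : ℝ)) ^ 2 = d.A * d.C := by rw [mul_pow, hsA, hsC]
    have e4 : (d.B : ℝ) * ((d.B : ℝ) * z0 ^ 4 - 2 * (d.A + d.C) * z0 ^ 2 + d.B) = 0 := by
      have : (d.B : ℝ) * ((d.B : ℝ) * z0 ^ 4 - 2 * (d.A + d.C) * z0 ^ 2 + d.B) =
          (d.B * z0 ^ 2) ^ 2 - 2 * (d.A + d.C) * (d.B * z0 ^ 2) + d.B ^ 2 := by ring
      rw [this, e2]
      have hB' : (d.B : ℝ) = d.A - d.C := by linarith
      rw [hB']
      linear_combination 4 * e3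
    rcases mul_eq_zero.mp e4 with h | h
    · exact absurd h hBr.ne'
    · exact h
  have hyB : d.y ∣ d.B := ⟨d.b, d.hB⟩
  obtain ⟨t, htM, htne⟩ : ∃ t < L / 100, GG (region L d.l) c (EE L d.l) t z0 z ≠ 0 := by
    by_contra hcon
    push Not at hcon
    have hze := zero_estimate d.A d.B d.C d.y d.hABC hB0 hC0 hy0 hyB hyC z0 z hz0p hz01 hz4
      hzp.ne' (region L d.l) c (2 * L) (JJ L d.l) (HH L d.l) hR1 hR2 hcH hH1 hne (L / 100) hcon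
    have hyn : ((d.y.toNat : ℕ) : ℤ) = d.y := Int.toNat_of_nonneg hy0.le
    have hnz := num_z xh d.y.toNat L d.l hx0 (by
      have : ((xh ^ L : ℕ) : ℤ) ≤ ((d.y.toNat ^ d.l : ℕ) : ℤ) := by
        push_cast; rw [hyn]; exact hL1
      exact_mod_cast this) hl0 hlL hLl
    have hnz' : (4 : ℝ) ^ (L / 100 - (2 * JJ L d.l + 1)) *
        (zb (2 * L) (JJ L d.l) (HH L d.l) : ℝ) ^ 2 <
        (d.y : ℝ) ^ (L / 100 - (2 * JJ L d.l + 1)) := by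
      have h3 : ((d.y.toNat : ℕ) : ℝ) = (d.y : ℝ) := by exact_mod_cast hyn
      rw [← h3]
      exact_mod_cast hnz
    linarith
  -- integrality
  obtain ⟨U, V, hUV⟩ := G_integral d (region L d.l) c (EE L d.l) t (3 * d.l / 2) (JJ L d.l)
    (2 * L + JJ L d.l) hR5 hR2 hR6
  have hsA : √(d.A : ℝ) ^ 2 = d.A := Real.sq_sqrt hAr.le
  have hsB : √(d.B : ℝ) ^ 2 = d.B := Real.sq_sqrt hBr.le
  have hsC : √(d.C : ℝ) ^ 2 = d.C := Real.sq_sqrt hCr.le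
  have hsB0 : √(d.B : ℝ) ≠ 0 := (Real.sqrt_pos.mpr hBr).ne'
  obtain ⟨N0, hN0⟩ : ∃ N0 : ℝ, N0 = (d.y : ℝ) ^ (3 * d.l / 2) * (d.Y2 : ℝ) ^ (JJ L d.l) *
      (d.b : ℝ) ^ (2 * L + JJ L d.l) := ⟨_, rfl⟩
  have hY2r : (0 : ℝ) < d.Y2 := by exact_mod_cast hY20
  have hbr : (0 : ℝ) < d.b := by exact_mod_cast hb0
  have hN0p : 0 < N0 := by rw [hN0]; positivity
  have hr1 : (U : ℝ) + V * (√(d.A : ℝ) * √(d.C : ℝ)) =
      N0 * GG (region L d.l) c (EE L d.l) t z0 z := by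
    have := hUV ℝ (√(d.A : ℝ)) (√(d.B : ℝ)) (√(d.C : ℝ)) hsA hsB hsC
    rw [← hz0, ← hz, ← hN0] at this
    exact this
  have hr2 : (U : ℝ) - V * (√(d.A : ℝ) * √(d.C : ℝ)) =
      N0 * GG (region L d.l) c (EE L d.l) t z0⁻¹ z⁻¹ := by
    have := hUV ℝ (√(d.A : ℝ)) (√(d.B : ℝ)) (-√(d.C : ℝ)) hsA hsB (by rw [neg_sq]; exact hsC)
    rw [zz0_conj _ _ _ hsB0 (by rw [hsA, hsB, hsC]; exact hABCr),
      zz_conj d.X d.Y d.ε d.hε _ _ _ (mul_ne_zero hsB0 hYr.ne') (by rw [hsA, hsB, hsC]; exact heqr),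
      ← hz0, ← hz, ← hN0] at this
    rw [← this]; ring
  -- real bounds
  have hsx : (2 ^ 10 : ℝ) ≤ √(xh : ℝ) := by
    apply Real.le_sqrt_of_sq_le
    calc ((2 : ℝ) ^ 10) ^ 2 = 2 ^ 20 := by norm_num
      _ ≤ _ := hxr2
  have hα1 : 4 / √(xh : ℝ) ≤ 1 / 2 := by
    rw [div_le_div_iff₀ (by linarith) (by norm_num)]
    linarith
  have hβ1 : 4 / (xh : ℝ) ^ L ≤ 1 := by
    rw [div_le_one (by positivity)]
    calc (4 : ℝ) ≤ xh := by linarith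
      _ = (xh : ℝ) ^ 1 := (pow_one _).symm
      _ ≤ (xh : ℝ) ^ L := pow_le_pow_right₀ (by linarith) (by omega)
  have hg : g1 L ≤ g0 L := by unfold g0 g1; omega
  have htg : t ≤ g1 L := by unfold g1; omega
  have htE : t ≤ EE L d.l := by unfold EE; omega
  have hb1 := real_est (region L d.l) c (EE L d.l) (JJ L d.l) (HH L d.l) (g0 L) (g1 L) t
    (2 * EE L d.l) (4 / √(xh : ℝ)) (4 / (xh : ℝ) ^ L) z0 z hR3 hR4 hR2 hcH hz0c hα1 hzp hzc hzc'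
    hβ1 hg htg htE hc0 hc1
  have hb2 := real_est (region L d.l) c (EE L d.l) (JJ L d.l) (HH L d.l) (g0 L) (g1 L) t
    (2 * EE L d.l) (4 / √(xh : ℝ)) (4 / (xh : ℝ) ^ L) z0⁻¹ z⁻¹ hR3 hR4 hR2 hcH hz0c' hα1
    (inv_pos.mpr hzp) hzc' (by rw [inv_inv]; exact hzc)
    hβ1 hg htg htE hc0 hc1
  rw [hcard] at hb1 hb2
  -- p-adic bounds
  have hTn : ‖T - 1‖ ≤ 1 / √(xh : ℝ) := by
    apply le_of_sq_le_sq _ (by positivity)
    rw [div_pow, Real.sq_sqrt hxr.le, one_pow]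
    refine hT.trans (le_of_eq ?_)
    rw [hxh]; push_cast; ring
  have hwn : ‖w - 1‖ ≤ 1 / (xh : ℝ) ^ L := by
    apply le_of_sq_le_sq _ (by positivity)
    refine hw.trans ?_
    rw [div_pow, one_pow]
    apply one_div_le_one_div_of_le (by positivity)
    have h1 : ((xh : ℤ) ^ L) ^ 2 ≤ (p : ℤ) ^ u := by
      calc ((xh : ℤ) ^ L) ^ 2 = (xh : ℤ) ^ (2 * L) := by ring
        _ ≤ _ := hpu
    exact_mod_cast h1
  have hαp : 1 / √(xh : ℝ) < 1 := by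
    rw [div_lt_one (by linarith)]; linarith
  have hβp : 1 / (xh : ℝ) ^ L < 1 := by
    rw [div_lt_one (by positivity)]; linarith
  have hT' := MainL_inv_close T _ hαp hTn
  have hw' := MainL_inv_close w _ hβp hwn
  have hu1 := ultra_est (region L d.l) (fun v => c v * sg η v) (EE L d.l) (g0 L) (g1 L) t
    (1 / √(xh : ℝ)) (1 / (xh : ℝ) ^ L) T w hR3 hTn hαp hwn hβp hg htg hc0' hc1'
  have hu2 := ultra_est (region L d.l) (fun v => c v * sg η v) (EE L d.l) (g0 L) (g1 L) t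
    (1 / √(xh : ℝ)) (1 / (xh : ℝ) ^ L) T⁻¹ w⁻¹ hR3 hT' hαp hw' hβp hg htg hc0' hc1'
  have hBK : (d.B : PadicAlgCl p) ≠ 0 := by
    exact_mod_cast hB0.ne'
  have hYK : (d.Y : PadicAlgCl p) ≠ 0 := by
    exact_mod_cast hY0.ne'
  have hrB0 : rB ≠ 0 := by
    intro h
    rw [h] at hrB
    apply hBK
    rw [← hrB]; norm_num
  have hABCK : (d.A : PadicAlgCl p) = d.B + d.C := by exact_mod_cast congrArg (Int.cast) d.hABC
  have heqK : (d.A : PadicAlgCl p) * (d.X : PadicAlgCl p) ^ 2 =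
      d.B * (d.Y : PadicAlgCl p) ^ 2 + d.C := by exact_mod_cast congrArg (Int.cast) d.heq
  obtain ⟨N1, hN1⟩ : ∃ N1 : PadicAlgCl p, N1 = (d.y : PadicAlgCl p) ^ (3 * d.l / 2) *
      (d.Y2 : PadicAlgCl p) ^ (JJ L d.l) * (d.b : PadicAlgCl p) ^ (2 * L + JJ L d.l) := ⟨_, rfl⟩
  have hN1n : ‖N1‖ ≤ 1 := by
    have : N1 = ((d.y ^ (3 * d.l / 2) * d.Y2 ^ (JJ L d.l) * d.b ^ (2 * L + JJ L d.l) : ℤ) :
        PadicAlgCl p) := by rw [hN1]; push_cast; ring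
    rw [this]
    exact IsUltrametricDist.norm_intCast_le_one _ _
  have hp1 : (U : PadicAlgCl p) + V * (rA * rC) =
      N1 * GG (region L d.l) (fun v => c v * sg η v) (EE L d.l) t T w := by
    have := hUV (PadicAlgCl p) rA rB rC hrA hrB hrC
    rw [hpz0, hpz, GG_twist _ _ _ _ i T w η hi hη, ← hN1] at this
    exact this
  have hp2 : (U : PadicAlgCl p) - V * (rA * rC) =
      N1 * GG (region L d.l) (fun v => c v * sg η v) (EE L d.l) t T⁻¹ w⁻¹ := by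
    have := hUV (PadicAlgCl p) rA rB (-rC) hrA hrB (by rw [neg_sq]; exact hrC)
    rw [zz0_conj _ _ _ hrB0 (by rw [hrA, hrB, hrC]; exact hABCK),
      zz_conj d.X d.Y d.ε d.hε _ _ _ (mul_ne_zero hrB0 hYK) (by rw [hrA, hrB, hrC]; exact heqK),
      hpz0, hpz, GG_twist_inv _ _ _ _ i T w η hi hη, ← hN1] at this
    rw [← this]; ring
  have hfin := norm_ineq p (d.A * d.C) U V (√(d.A : ℝ) * √(d.C : ℝ))
    (by rw [mul_pow, hsA, hsC]; push_cast; ring) (rA * rC)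
    (by rw [mul_pow, hrA, hrC]; push_cast; ring)
    (N0 * ((((2 * EE L d.l : ℕ) : ℝ) + 1) * ((12 * L + 3 : ℕ) : ℝ) * (HH L d.l : ℝ) *
        2 ^ (2 * (2 * EE L d.l) + JJ L d.l + 1 + EE L d.l) *
        max ((4 / (xh : ℝ) ^ L) ^ 2) (max (4 / (xh : ℝ) ^ L * (4 / √(xh : ℝ)) ^ (g1 L - t))
          ((4 / √(xh : ℝ)) ^ (g0 L - t)))))
    (max ((1 / (xh : ℝ) ^ L) ^ 2) (max (1 / (xh : ℝ) ^ L * (1 / √(xh : ℝ)) ^ (g1 L - t))
          ((1 / √(xh : ℝ)) ^ (g0 L - t))))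
    (by rw [hr1, abs_mul, abs_of_pos hN0p]; exact mul_le_mul_of_nonneg_left hb1 hN0p.le)
    (by rw [hr2, abs_mul, abs_of_pos hN0p]; exact mul_le_mul_of_nonneg_left hb2 hN0p.le)
    (by
      rw [hp1, norm_mul]
      calc ‖N1‖ * _ ≤ 1 * _ := mul_le_mul_of_nonneg_right hN1n (norm_nonneg _)
        _ ≤ _ := by rw [one_mul]; exact hu1)
    (by
      rw [hp2, norm_mul]
      calc ‖N1‖ * _ ≤ 1 * _ := mul_le_mul_of_nonneg_right hN1n (norm_nonneg _)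
        _ ≤ _ := by rw [one_mul]; exact hu2)
    (by rw [hr1]; exact mul_ne_zero hN0p.ne' htne)
  have hyn : ((d.y.toNat : ℕ) : ℤ) = d.y := Int.toNat_of_nonneg hy0.le
  have hbn : ((d.b.toNat : ℕ) : ℤ) = d.b := Int.toNat_of_nonneg hb0.le
  have hY2n : ((d.Y2.toNat : ℕ) : ℤ) = d.Y2 := Int.toNat_of_nonneg hY20.le
  have hnm := num_m xh d.y.toNat d.b.toNat d.Y2.toNat L d.l t hx0 (by
      have : ((d.y.toNat ^ d.l : ℕ) : ℤ) < ((xh ^ (L + 1) : ℕ) : ℤ) := by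
        push_cast; rw [hyn]; exact hL2
      exact_mod_cast this) hl0 hlL (by
      have : ((d.b.toNat : ℕ) : ℤ) < ((xh : ℕ) : ℤ) := by rw [hbn]; exact hb
      exact_mod_cast this) (by
      have : ((d.Y2.toNat ^ (50 * JJ L d.l) : ℕ) : ℤ) ≤ ((xh ^ L : ℕ) : ℤ) := by
        push_cast; rw [hY2n]; exact hY2
      exact_mod_cast this) htM
  have e1 : ((d.y.toNat : ℕ) : ℝ) = (d.y : ℝ) := by exact_mod_cast hyn
  have e2 : ((d.b.toNat : ℕ) : ℝ) = (d.b : ℝ) := by exact_mod_cast hbn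
  have e3 : ((d.Y2.toNat : ℕ) : ℝ) = (d.Y2 : ℝ) := by exact_mod_cast hY2n
  rw [e1, e2, e3, ← hN0] at hnm
  linarith

end Pool.Agent.TwoRep
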