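import Pool.Agent.Lib.MP_56ee40_nt.Defs

namespace Pool.Agent.TwoRep

open Finset Polynomial

private theorem NumZ_grow (T : ℕ) (hT : 100 ≤ T) : 1200 * (T + 1) + 3 ≤ 2 ^ T := by
  induction T, hT using Nat.le_induction with
  | base => norm_num
  | succ T hT ih =>
    rw [pow_succ]
    omega

private theorem NumZ_cube (l : ℕ) (hl : 10000 ≤ l) : 9 * l ^ 3 ≤ 2 ^ (l / 36) := by
  have key : ∀ T : ℕ, 277 ≤ T → 9 * (36 * (T + 1)) ^ 3 ≤ 2 ^ T := by
    intro T hT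
    induction T, hT using Nat.le_induction with
    | base =>
      exact le_trans (show 9 * (36 * (277 + 1)) ^ 3 ≤ 2 ^ 50 by norm_num)
        (Nat.pow_le_pow_right (by norm_num) (by norm_num))
    | succ T hT ih =>
      rw [pow_succ 2 T]
      have h1 : (36 * (T + 1 + 1)) ^ 3 ≤ 2 * (36 * (T + 1)) ^ 3 := by
        have e1 : (36 * (T + 1 + 1)) ^ 3 = 46656 * (T + 2) ^ 3 := by ring
        have e2 : (36 * (T + 1)) ^ 3 = 46656 * (T + 1) ^ 3 := by ring
        rw [e1, e2]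
        have h2 : (T + 2) ^ 3 ≤ 2 * (T + 1) ^ 3 := by
          obtain ⟨a, rfl⟩ : ∃ a, T = a + 277 := ⟨T - 277, by omega⟩
          ring_nf
          nlinarith [Nat.zero_le (a ^ 3), Nat.zero_le (a ^ 2), Nat.zero_le a]
        omega
      omega
  have h1 := key (l / 36) (by omega)
  refine le_trans ?_ h1
  have h2 : l ≤ 36 * (l / 36 + 1) := by omega
  exact Nat.mul_le_mul_left 9 (Nat.pow_le_pow_left h2 3)

private theorem NumZ_J (L l : ℕ) (hl : 10000 ≤ l) (hlL : l ≤ L) :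
    l * (2 * JJ L l + 1) ≤ 9 * L ∧ 10000 * (2 * JJ L l + 1) ≤ 9 * L ∧ 2500 * JJ L l ≤ L := by
  unfold JJ
  set D := 2 * L / l with hD
  have h1 : l * D ≤ 2 * L := Nat.mul_div_le (2 * L) l
  have h2 : 10000 * D ≤ l * D := Nat.mul_le_mul_right D hl
  have h3 : l * (2 * (D + 2) + 1) = 2 * (l * D) + 5 * l := by ring
  refine ⟨by rw [h3]; omega, by omega, by omega⟩

/-- **NUMZ (a).** crude size of the Siegel bound: `log₂ HH = 7 (log₂(12L+3) + 8L + 2 JJ + log₂(JJ+1))`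
and `JJ ≤ 4L/l ≤ L/2500`.  (Numerically `log₂ HH ≤ 56.1 L`.) Never unfold `K0` here. -/
theorem HH_le (L l : ℕ) (hl : 10000 ≤ l) (hlL : l ≤ L) : HH L l ≤ 2 ^ (57 * L) := by
  obtain ⟨-, -, hJ⟩ := NumZ_J L l hl hlL
  unfold HH sb EE
  generalize JJ L l = J at hJ ⊢
  have hg := NumZ_grow (L / 100) (by omega)
  have h1 : 12 * L + 3 ≤ 2 ^ (L / 100) := by omega
  have h2 : J + 1 ≤ 2 ^ (L / 100) := by omega
  have h3 : (12 * L + 3) * (2 ^ (2 * (2 * (2 * L) + J)) * (J + 1)) ≤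
      2 ^ (L / 100 + (2 * (2 * (2 * L) + J) + L / 100)) := by
    rw [pow_add, pow_add]
    exact Nat.mul_le_mul h1 (Nat.mul_le_mul_left _ h2)
  refine (Nat.pow_le_pow_left h3 7).trans ?_
  rw [← pow_mul]
  refine Nat.pow_le_pow_right (by norm_num) ?_
  omega

private theorem NumZ_K0 : 500000 ≤ K0 := by unfold K0; exact le_rfl

/-- **NUMZ (b).** -/
theorem num_f (xh L l : ℕ) (hx : 2 ^ K0 ≤ xh) (hl : 10000 ≤ l) (hlL : l ≤ L) :
    12 * HH L l < xh ^ L := by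
  have h1 := HH_le L l hl hlL
  have h2 := NumZ_K0
  generalize K0 = K at hx h2
  have h3 : 12 * HH L l ≤ 2 ^ (4 + 57 * L) := by
    rw [pow_add]
    have : 12 ≤ 2 ^ 4 := by norm_num
    exact Nat.mul_le_mul this h1
  refine lt_of_le_of_lt h3 ?_
  refine lt_of_lt_of_le ?_ (Nat.pow_le_pow_left hx L)
  rw [← pow_mul]
  refine Nat.pow_lt_pow_right (by norm_num) ?_
  have h4 : 58 * L ≤ K * L := Nat.mul_le_mul_right L (by omega)
  omega

/-- **NUMZ (c).** PROOF (all in powers of 2; keep `2 ^ K0` symbolic, `K0 = 500000` is used only in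
inequalities between exponents). Put `J = JJ L l`, `2J+1 ≤ 9L/l` (real), `M' = L/100 - (2J+1)`,
`M' ≥ 0.009 L`.
`yh^(l M') ≥ xh^(L M') ≥ 2^(K0 L M')`.  `log₂ zb ≤ (2J+1)(log₂(2J+1) + log₂(4L+1) + 57 L +
(2J+1) log₂(8L+2J+1))` and `(2J+1) log₂(9L) ≤ (9L/l) (3 log₂ l + 4) ≤ L/2` (`L ≤ l³`, `l ≥ 10⁴`), so
`log₂ zb ≤ (9L/l) (58 L)`, `l * 2 log₂ zb ≤ 1044 L²`; and `l * 2 M' ≤ L²/50`, while
`K0 L M' ≥ 500000 * 0.009 L² = 4500 L²`.  So `(4^M' zb²)^l < yh^(l M')`. -/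
theorem num_z (xh yh L l : ℕ) (hx : 2 ^ K0 ≤ xh) (h1 : xh ^ L ≤ yh ^ l) (hl : 10000 ≤ l)
    (hlL : l ≤ L) (hLl : L ≤ l ^ 3) :
    4 ^ (L / 100 - (2 * JJ L l + 1)) * (zb (2 * L) (JJ L l) (HH L l)) ^ 2 <
      yh ^ (L / 100 - (2 * JJ L l + 1)) := by
  obtain ⟨hJ1, hJ2, hJ3⟩ := NumZ_J L l hl hlL
  have hH := HH_le L l hl hlL
  have hK := NumZ_K0
  have hcube := NumZ_cube l hl
  have hg := NumZ_grow (L / 100) (by omega)
  generalize K0 = K at hx hK
  generalize HH L l = H at hH ⊢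
  generalize JJ L l = J at hJ1 hJ2 hJ3 ⊢
  -- bound of zb
  have hz : zb (2 * L) J H ≤ 2 ^ ((2 * J + 1) * (58 * L)) := by
    unfold zb
    have hm : 2 * J + 1 ≤ 2 ^ (L / 100) := by omega
    have hf : (2 * J + 1).factorial ≤ (2 ^ (L / 100)) ^ (2 * J + 1) :=
      (Nat.factorial_le_pow _).trans (Nat.pow_le_pow_left hm _)
    have h2 : 2 * (2 * L) + 1 ≤ 2 ^ (L / 100) := by omega
    have h3 : (4 * (2 * L) + 2 * J + 1) ^ (2 * J + 1) ≤ 2 ^ (L / 4) := by
      have h4 : 4 * (2 * L) + 2 * J + 1 ≤ 2 ^ (l / 36) := by omega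
      refine (Nat.pow_le_pow_left h4 _).trans ?_
      rw [← pow_mul]
      refine Nat.pow_le_pow_right (by norm_num) ?_
      have h5 : 36 * (l / 36) * (2 * J + 1) ≤ l * (2 * J + 1) :=
        Nat.mul_le_mul_right _ (by omega)
      have h6 : 36 * (l / 36) * (2 * J + 1) = 36 * (l / 36 * (2 * J + 1)) := by ring
      omega
    have h4 : (2 * (2 * L) + 1) * H * (4 * (2 * L) + 2 * J + 1) ^ (2 * J + 1) ≤
        2 ^ (L / 100 + 57 * L + L / 4) := by
      rw [pow_add 2 _ (L / 4), pow_add 2 (L / 100) (57 * L)]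
      exact Nat.mul_le_mul (Nat.mul_le_mul h2 hH) h3
    calc (2 * J + 1).factorial *
          ((2 * (2 * L) + 1) * H * (4 * (2 * L) + 2 * J + 1) ^ (2 * J + 1)) ^ (2 * J + 1)
        ≤ (2 ^ (L / 100)) ^ (2 * J + 1) * (2 ^ (L / 100 + 57 * L + L / 4)) ^ (2 * J + 1) :=
          Nat.mul_le_mul hf (Nat.pow_le_pow_left h4 _)
      _ = (2 ^ (L / 100 + (L / 100 + 57 * L + L / 4))) ^ (2 * J + 1) := by
          rw [← mul_pow, ← pow_add]
      _ ≤ (2 ^ (58 * L)) ^ (2 * J + 1) := by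
          refine Nat.pow_le_pow_left (Nat.pow_le_pow_right (by norm_num) (by omega)) _
      _ = 2 ^ ((2 * J + 1) * (58 * L)) := by rw [← pow_mul, mul_comm]
  generalize zb (2 * L) J H = Z at hz ⊢
  set m := 2 * J + 1 with hm
  clear_value m
  have hM : 9 * L ≤ 1000 * (L / 100 - m) := by omega
  have hM2 : L / 100 - m ≤ L / 100 := Nat.sub_le _ _
  generalize L / 100 - m = M at hM hM2 ⊢
  have h5 : 4 ^ M * Z ^ 2 ≤ 2 ^ (2 * M + 116 * (m * L)) := by
    have e1 : (4 : ℕ) ^ M = 2 ^ (2 * M) := by rw [pow_mul]; norm_num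
    rw [pow_add, e1]
    refine Nat.mul_le_mul_left _ ?_
    refine (Nat.pow_le_pow_left hz 2).trans ?_
    rw [← pow_mul]
    refine Nat.pow_le_pow_right (by norm_num) ?_
    have : m * (58 * L) * 2 = 116 * (m * L) := by ring
    omega
  refine lt_of_le_of_lt h5 ?_
  have h6 : 2 ^ (K * L) ≤ yh ^ l := by
    rw [pow_mul]
    exact (Nat.pow_le_pow_left hx L).trans h1
  have h7 : (2 ^ (2 * M + 116 * (m * L))) ^ l < (yh ^ M) ^ l := by
    rw [← pow_mul yh, mul_comm M l, pow_mul yh]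
    refine lt_of_lt_of_le ?_ (Nat.pow_le_pow_left h6 M)
    rw [← pow_mul, ← pow_mul]
    refine Nat.pow_lt_pow_right (by norm_num) ?_
    -- exponents
    have e1 : (2 * M + 116 * (m * L)) * l = 2 * (M * l) + 116 * (l * m * L) := by ring
    have e2 : M * l ≤ M * L := Nat.mul_le_mul_left _ hlL
    have e3 : l * m * L ≤ 9 * L * L := Nat.mul_le_mul_right _ hJ1
    have e4 : 9 * L * L = 9 * (L * L) := by ring
    have e5 : 500000 * (L * M) ≤ K * (L * M) := Nat.mul_le_mul_right _ hK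
    have e6 : K * (L * M) = K * L * M := by ring
    have e7 : 9 * L * L ≤ 1000 * M * L := Nat.mul_le_mul_right _ hM
    have e8 : 1000 * M * L = 1000 * (L * M) := by ring
    have e9 : M * L = L * M := by ring
    have e10 : 0 < L * L := by
      have : 0 < L := by omega
      positivity
    rw [e1]
    omega
  exact lt_of_pow_lt_pow_left₀ l (Nat.zero_le _) h7

end Pool.Agent.TwoRep
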