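import Pool.Agent.Lib.MP_56ee40_nt.Defs

namespace Pool.Agent.TwoRep

open Finset Polynomial

private theorem ra_conv (n : ℕ) :
    ∑ p ∈ antidiagonal n, Nat.centralBinom p.1 * Nat.centralBinom p.2 = 4 ^ n := by
  have hT : ∀ n, 2 * ∑ p ∈ antidiagonal n, p.1 * (Nat.centralBinom p.1 * Nat.centralBinom p.2) =
      n * ∑ p ∈ antidiagonal n, Nat.centralBinom p.1 * Nat.centralBinom p.2 := by
    intro n
    have hsw : ∑ p ∈ antidiagonal n, p.1 * (Nat.centralBinom p.1 * Nat.centralBinom p.2) =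
        ∑ p ∈ antidiagonal n, p.2 * (Nat.centralBinom p.1 * Nat.centralBinom p.2) := by
      rw [← Finset.Nat.sum_antidiagonal_swap]
      refine Finset.sum_congr rfl fun p _ => ?_
      simp only [Prod.fst_swap, Prod.snd_swap]
      ring
    rw [two_mul]
    nth_rewrite 2 [hsw]
    rw [← Finset.sum_add_distrib, Finset.mul_sum]
    refine Finset.sum_congr rfl fun p hp => ?_
    rw [← Finset.HasAntidiagonal.mem_antidiagonal.1 hp]
    ring
  induction n with
  | zero => simp
  | succ n ih =>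
    have h1 := hT (n + 1)
    rw [Finset.Nat.sum_antidiagonal_succ] at h1
    simp only [zero_mul, zero_add] at h1
    have h2 : ∑ p ∈ antidiagonal n, (p.1 + 1) *
        (Nat.centralBinom (p.1 + 1) * Nat.centralBinom p.2) =
        4 * ∑ p ∈ antidiagonal n, p.1 * (Nat.centralBinom p.1 * Nat.centralBinom p.2) +
        2 * ∑ p ∈ antidiagonal n, Nat.centralBinom p.1 * Nat.centralBinom p.2 := by
      rw [Finset.mul_sum, Finset.mul_sum, ← Finset.sum_add_distrib]
      refine Finset.sum_congr rfl fun p _ => ?_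
      rw [← mul_assoc, Nat.succ_mul_centralBinom_succ]
      ring
    rw [h2] at h1
    have h3 := hT n
    have h4 : (n + 1) * ∑ p ∈ antidiagonal (n + 1), Nat.centralBinom p.1 * Nat.centralBinom p.2 =
        (n + 1) * 4 ^ (n + 1) := by
      rw [← h1, pow_succ, ← ih]
      linear_combination 4 * h3
    exact Nat.eq_of_mul_eq_mul_left (Nat.succ_pos n) h4

/-- **RUNGEA (a).** PROOF: `S_n = ∑_{i ≤ n} cb(i) cb(n-i)`; by symmetry `∑ i cb(i) cb(n-i) = n/2 S_n`,
and with `(i+1) cb(i+1) = 2(2i+1) cb(i)`,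
`∑_{i≥1} i cb(i) cb(n-i) = ∑_{i<n} (4i+2) cb(i) cb(n-1-i) = 4 (n-1)/2 S_{n-1} + 2 S_{n-1} = 2n S_{n-1}`;
so `S_n = 4 S_{n-1}`. -/
theorem centralBinom_conv (n : ℕ) :
    ∑ i ∈ range (n + 1), Nat.centralBinom i * Nat.centralBinom (n - i) = 4 ^ n := by
  rw [← ra_conv n]
  exact (Finset.Nat.sum_antidiagonal_eq_sum_range_succ
    (fun i j => Nat.centralBinom i * Nat.centralBinom j) n).symm

private def raD (k n : ℕ) : ℕ :=
  ∑ p ∈ (range (k + 1) ×ˢ range (k + 1)) with p.1 + p.2 = n,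
    Nat.centralBinom p.1 * Nat.centralBinom p.2

private theorem raD_sub (k n : ℕ) :
    (range (k + 1) ×ˢ range (k + 1)).filter (fun p => p.1 + p.2 = n) ⊆ antidiagonal n := by
  intro p hp
  rw [Finset.mem_filter] at hp
  exact Finset.HasAntidiagonal.mem_antidiagonal.2 hp.2

private theorem raD_le (k n : ℕ) : raD k n ≤ 4 ^ n := by
  rw [← ra_conv n]
  exact Finset.sum_le_sum_of_subset (raD_sub k n)

private theorem raD_eq (k n : ℕ) (h : n ≤ k) : raD k n = 4 ^ n := by
  rw [← ra_conv n]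
  unfold raD
  congr 1
  apply Finset.Subset.antisymm (raD_sub k n)
  intro p hp
  have := Finset.HasAntidiagonal.mem_antidiagonal.1 hp
  rw [Finset.mem_filter, Finset.mem_product, Finset.mem_range, Finset.mem_range]
  omega

private theorem raD_lt (k : ℕ) : raD k (k + 1) < 4 ^ (k + 1) := by
  rw [← ra_conv (k + 1)]
  apply Finset.sum_lt_sum_of_subset (raD_sub k (k + 1)) (i := (k + 1, 0))
  · rw [Finset.HasAntidiagonal.mem_antidiagonal, add_zero]
  · rw [Finset.mem_filter, Finset.mem_product, Finset.mem_range]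
    omega
  · exact Nat.mul_pos (Nat.centralBinom_pos _) (Nat.centralBinom_pos _)
  · intro j _ _
    exact Nat.zero_le _

/-- **RUNGEA (b).** Polynomial part of the square root. With
`P = ∑_{i≤k} cb(i) 4^(k-i) x^(k-i)` one has `P^2 + R = 16^k (1 + x + ... + x^(2k))`, where
`R = 16^k ∑_{n=k+1}^{2k} (1 - c_n) x^(2k-n)`, `c_n = 4^(-n) ∑_{i,j ≤ k, i+j=n} cb(i)cb(j)`,
`0 ≤ c_n`, `c_n ≤ 1`, `c_(k+1) < 1` and `16^k c_n` is an integer (`n ≤ 2k`); hence
`x^(k-1) ≤ R ≤ 16^k k x^(k-1)`. -/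
theorem sqrt_part (k x : ℕ) (hk : 1 ≤ k) (hx : 1 ≤ x) : ∃ R : ℕ,
    (∑ i ∈ range (k + 1), Nat.centralBinom i * 4 ^ (k - i) * x ^ (k - i)) ^ 2 + R =
      16 ^ k * ∑ i ∈ range (2 * k + 1), x ^ i ∧
    x ^ (k - 1) ≤ R ∧ R ≤ 16 ^ k * k * x ^ (k - 1) := by
  have h16 : ∀ n ≤ 2 * k, (4 * x) ^ (2 * k - n) * 4 ^ n = 16 ^ k * x ^ (2 * k - n) := by
    intro n hn
    have e : (16 : ℕ) ^ k = 4 ^ (2 * k - n) * 4 ^ n := by
      rw [← pow_add, Nat.sub_add_cancel hn, pow_mul]
      norm_num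
    rw [e, mul_pow]
    ring
  refine ⟨∑ n ∈ range (2 * k + 1), (4 * x) ^ (2 * k - n) * (4 ^ n - raD k n), ?_, ?_, ?_⟩
  · have hP : (∑ i ∈ range (k + 1), Nat.centralBinom i * 4 ^ (k - i) * x ^ (k - i)) ^ 2 =
        ∑ n ∈ range (2 * k + 1), (4 * x) ^ (2 * k - n) * raD k n := by
      rw [sq, Finset.sum_mul_sum, ← Finset.sum_product']
      rw [← Finset.sum_fiberwise_of_maps_to (t := range (2 * k + 1))
        (g := fun p : ℕ × ℕ => p.1 + p.2)]
      · refine Finset.sum_congr rfl fun n hn => ?_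
        unfold raD
        rw [Finset.mul_sum]
        refine Finset.sum_congr rfl fun p hp => ?_
        rw [Finset.mem_filter, Finset.mem_product, Finset.mem_range, Finset.mem_range] at hp
        obtain ⟨⟨hp1, hp2⟩, hp3⟩ := hp
        have e : (4 * x) ^ (2 * k - n) = (4 ^ (k - p.1) * x ^ (k - p.1)) *
            (4 ^ (k - p.2) * x ^ (k - p.2)) := by
          rw [← mul_pow, ← mul_pow, ← pow_add]
          congr 1
          omega
        rw [e]
        ring
      · intro p hp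
        rw [Finset.mem_product, Finset.mem_range, Finset.mem_range] at hp
        rw [Finset.mem_range]
        omega
    have hS : 16 ^ k * ∑ i ∈ range (2 * k + 1), x ^ i =
        ∑ n ∈ range (2 * k + 1), (4 * x) ^ (2 * k - n) * 4 ^ n := by
      rw [← Finset.sum_range_reflect, Finset.mul_sum]
      refine Finset.sum_congr rfl fun n hn => ?_
      rw [Finset.mem_range] at hn
      rw [h16 n (by omega), show 2 * k + 1 - 1 - n = 2 * k - n by omega]
    rw [hP, hS, ← Finset.sum_add_distrib]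
    refine Finset.sum_congr rfl fun n _ => ?_
    rw [← mul_add, Nat.add_sub_cancel' (raD_le k n)]
  · have hmem : k + 1 ∈ range (2 * k + 1) := by
      rw [Finset.mem_range]; omega
    refine le_trans ?_ (Finset.single_le_sum (f := fun n => (4 * x) ^ (2 * k - n) *
      (4 ^ n - raD k n)) (fun n _ => Nat.zero_le _) hmem)
    have h1 : 1 ≤ 4 ^ (k + 1) - raD k (k + 1) := Nat.sub_pos_of_lt (raD_lt k)
    have e : 2 * k - (k + 1) = k - 1 := by omega
    simp only [e]
    calc x ^ (k - 1) ≤ (4 * x) ^ (k - 1) := Nat.pow_le_pow_left (by omega) _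
      _ ≤ (4 * x) ^ (k - 1) * (4 ^ (k + 1) - raD k (k + 1)) := Nat.le_mul_of_pos_right _ h1
  · have e : 2 * k + 1 = (k + 1) + k := by omega
    rw [e, Finset.sum_range_add]
    have h0 : ∑ n ∈ range (k + 1), (4 * x) ^ (2 * k - n) * (4 ^ n - raD k n) = 0 := by
      apply Finset.sum_eq_zero
      intro n hn
      rw [Finset.mem_range] at hn
      rw [raD_eq k n (by omega), Nat.sub_self, mul_zero]
    rw [h0, zero_add]
    calc ∑ n ∈ range k, (4 * x) ^ (2 * k - (k + 1 + n)) * (4 ^ (k + 1 + n) - raD k (k + 1 + n))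
        ≤ ∑ n ∈ range k, 16 ^ k * x ^ (k - 1) := by
          apply Finset.sum_le_sum
          intro n hn
          rw [Finset.mem_range] at hn
          calc _ ≤ (4 * x) ^ (2 * k - (k + 1 + n)) * 4 ^ (k + 1 + n) :=
                Nat.mul_le_mul_left _ (Nat.sub_le _ _)
            _ = 16 ^ k * x ^ (2 * k - (k + 1 + n)) := h16 _ (by omega)
            _ ≤ 16 ^ k * x ^ (k - 1) :=
                Nat.mul_le_mul_left _ (Nat.pow_le_pow_right hx (by omega))
      _ = 16 ^ k * k * x ^ (k - 1) := by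
          rw [Finset.sum_const, Finset.card_range, smul_eq_mul]
          ring

end Pool.Agent.TwoRep
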