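import Pool.Agent.Lib.MP_56ee40_nt.Wr
import Pool.Agent.Lib.MP_56ee40_nt.Cram

namespace Pool.Agent.TwoRep

open Finset Polynomial

private theorem subF_del_map {R S : Type*} [CommRing R] [CommRing S] (φ : R →+* S) (a : ℕ)
    (P : R[X]) : ((del S) ^ a) (P.map φ) = (((del R) ^ a) P).map φ := by
  induction a with
  | zero => simp
  | succ a ih =>
    rw [pow_succ', pow_succ', Module.End.mul_apply, Module.End.mul_apply, ih]
    simp [del, Polynomial.derivative_map]

private theorem subF_wr_map {R S : Type*} [CommRing R] [CommRing S] (φ : R →+* S) {r : ℕ}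
    (F : Fin r → R[X]) : (wrM fun i => (F i).map φ).det = ((wrM F).det).map φ := by
  rw [← Polynomial.coe_mapRingHom, RingHom.map_det]
  congr 1
  ext1 a i
  exact subF_del_map φ _ _

/-- **SUBF.** PROOF: let `G j = (F j).map (Int.castRingHom ℚ)`.  Take a maximal `ℚ`-linearly
independent subfamily of the `G j` (e.g. `exists_linearIndependent'`/`LinearIndepOn`), indexed by
`g : Fin r → ι` injective; every `G j` is a `ℚ`-combination `∑_i λ_{j i} G (g i)`.  So
`f = ∑_j ω_j F_j = ∑_i ω'_i F_{g i}` over `ℝ` with `ω'_i = ∑_j ω_j λ_{j i}`; since `f ≠ 0`, `r > 0`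
and some `ω'_{i0} ≠ 0`.  `wr_ne_zero` gives `det ≠ 0` over `ℚ`, hence over `ℤ` (the Wronskian matrix
commutes with `map`), and `cram_dvd` gives the divisibility over `ℝ`. -/
theorem sub_family {ι : Type} [Fintype ι] (F : ι → ℤ[X]) (ω : ι → ℝ)
    (hf : ∑ j, C (ω j) * (F j).map (Int.castRingHom ℝ) ≠ 0) (z0 : ℝ) (M : ℕ)
    (hd : (X - C z0) ^ M ∣ ∑ j, C (ω j) * (F j).map (Int.castRingHom ℝ)) :
    ∃ (r : ℕ) (g : Fin r → ι), Function.Injective g ∧ 0 < r ∧
      (wrM (fun i => F (g i))).det ≠ 0 ∧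
      (X - C z0) ^ (M - (r - 1)) ∣
        ((wrM (fun i => F (g i))).det).map (Int.castRingHom ℝ) := by
  classical
  set G : ι → ℚ[X] := fun j => (F j).map (Int.castRingHom ℚ) with hG
  obtain ⟨κ, a, ha, hspan, hli⟩ := exists_linearIndependent' ℚ G
  have : Finite κ := Finite.of_injective a ha
  obtain ⟨r, ⟨e⟩⟩ := Finite.exists_equiv_fin κ
  set g : Fin r → ι := a ∘ e.symm with hg
  have hli' : LinearIndependent ℚ (fun i => G (g i)) := hli.comp e.symm e.symm.injective
  have hrange : Set.range (fun i => G (g i)) = Set.range (G ∘ a) := by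
    have : (fun i => G (g i)) = (G ∘ a) ∘ e.symm := rfl
    rw [this, Set.range_comp, e.symm.surjective.range_eq, Set.image_univ]
  have hmem : ∀ j, ∃ lam : Fin r → ℚ, ∑ i, lam i • G (g i) = G j := by
    intro j
    rw [← Submodule.mem_span_range_iff_exists_fun, hrange, hspan]
    exact Submodule.subset_span (Set.mem_range_self j)
  choose lam hlam using hmem
  set φ : ℚ →+* ℝ := Rat.castHom ℝ with hφ
  have hmap : ∀ j, (F j).map (Int.castRingHom ℝ) = (G j).map φ := by
    intro j
    rw [hG]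
    simp only [Polynomial.map_map]
    congr 1
  set ω' : Fin r → ℝ := fun i => ∑ j, ω j * (lam j i : ℝ) with hω'
  have hsum : ∑ j, C (ω j) * (F j).map (Int.castRingHom ℝ) =
      ∑ i, C (ω' i) * (F (g i)).map (Int.castRingHom ℝ) := by
    have h1 : ∀ j, (F j).map (Int.castRingHom ℝ) =
        ∑ i, C (lam j i : ℝ) * (F (g i)).map (Int.castRingHom ℝ) := by
      intro j
      rw [hmap j, ← hlam j, Polynomial.map_sum]
      refine Finset.sum_congr rfl fun i _ => ?_
      rw [Polynomial.smul_eq_C_mul, Polynomial.map_mul, Polynomial.map_C, hmap (g i)]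
      rfl
    calc ∑ j, C (ω j) * (F j).map (Int.castRingHom ℝ)
        = ∑ j, ∑ i, C (ω j * (lam j i : ℝ)) * (F (g i)).map (Int.castRingHom ℝ) := by
          refine Finset.sum_congr rfl fun j _ => ?_
          rw [h1 j, Finset.mul_sum]
          refine Finset.sum_congr rfl fun i _ => ?_
          rw [C_mul, mul_assoc]
      _ = ∑ i, C (ω' i) * (F (g i)).map (Int.castRingHom ℝ) := by
          rw [Finset.sum_comm]
          refine Finset.sum_congr rfl fun i _ => ?_
          rw [hω', ← Finset.sum_mul, ← map_sum]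
  obtain ⟨i0, hi0⟩ : ∃ i0, ω' i0 ≠ 0 := by
    by_contra hcon
    push Not at hcon
    refine hf ?_
    rw [hsum]
    exact Finset.sum_eq_zero fun i _ => by rw [hcon i, C_0, zero_mul]
  refine ⟨r, g, ha.comp e.symm.injective, Fin.pos i0, ?_, ?_⟩
  · intro h0
    refine wr_ne_zero _ hli' ?_
    rw [hG]
    simp only
    rw [subF_wr_map (Int.castRingHom ℚ) (fun i => F (g i)), h0, Polynomial.map_zero]
  · rw [← subF_wr_map]
    refine cram_dvd _ ω' i0 hi0 z0 M ?_
    rw [← hsum]
    exact hd

end Pool.Agent.TwoRep
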