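import Pool.Agent.Lib.MP_56ee40_nt.Defs

namespace Pool.Agent.TwoRep

open Finset Polynomial

/-- **WR (a).** -/
theorem del_coeff {R : Type*} [CommRing R] (a : ℕ) (P : R[X]) (n : ℕ) :
    (((del R) ^ a) P).coeff n = (n : R) ^ a * P.coeff n := by
  induction a with
  | zero => simp
  | succ a ih =>
    rw [pow_succ', Module.End.mul_apply]
    have h1 : ∀ g : R[X], del R g = X * derivative g := fun _ => rfl
    rw [h1]
    rcases n with _ | n
    · simp
    · rw [coeff_X_mul, coeff_derivative, ih, pow_succ']
      push_cast
      ring

private theorem Wr_coeff_prod {R ι : Type*} [CommRing R] (s : Finset ι) (f : ι → R[X]) (d : ι → ℕ)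
    (h : ∀ i ∈ s, (f i).natDegree ≤ d i) :
    (∏ i ∈ s, f i).natDegree ≤ ∑ i ∈ s, d i ∧
      (∏ i ∈ s, f i).coeff (∑ i ∈ s, d i) = ∏ i ∈ s, (f i).coeff (d i) := by
  classical
  induction s using Finset.induction_on with
  | empty => simp
  | insert a s ha ih =>
    obtain ⟨h1, h2⟩ := ih fun i hi => h i (Finset.mem_insert_of_mem hi)
    have h3 := h a (Finset.mem_insert_self a s)
    rw [Finset.prod_insert ha, Finset.sum_insert ha, Finset.prod_insert ha]
    refine ⟨?_, ?_⟩
    · exact natDegree_mul_le_of_le h3 h1
    · rw [coeff_mul_add_eq_of_natDegree_le h3 h1, h2]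

private theorem Wr_del_natDegree (a : ℕ) (P : ℚ[X]) : (((del ℚ) ^ a) P).natDegree ≤ P.natDegree := by
  rw [natDegree_le_iff_coeff_eq_zero]
  intro n hn
  rw [del_coeff, coeff_eq_zero_of_natDegree_lt hn, mul_zero]

private theorem Wr_inj {r : ℕ} (F : Fin r → ℚ[X]) (h0 : ∀ i, F i ≠ 0)
    (hinj : Function.Injective fun i => (F i).natDegree) : (wrM F).det ≠ 0 := by
  classical
  have hc : (wrM F).det.coeff (∑ i, (F i).natDegree) =
      (∏ i, (F i).leadingCoeff) *
        (Matrix.vandermonde (fun i => ((F i).natDegree : ℚ))).transpose.det := by
    rw [Matrix.det_apply', Matrix.det_apply', finsetSum_coeff, Finset.mul_sum]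
    refine Finset.sum_congr rfl fun σ _ => ?_
    have h1 := (Wr_coeff_prod (Finset.univ) (fun i => wrM F (σ i) i) (fun i => (F i).natDegree)
      (fun i _ => Wr_del_natDegree _ _)).2
    have h2 : ((((Equiv.Perm.sign σ : ℤˣ) : ℤ) : ℚ[X])) = C ((((Equiv.Perm.sign σ : ℤˣ) : ℤ) : ℚ)) := by
      simp
    rw [h2, coeff_C_mul, h1]
    have h3 : ∏ i, (wrM F (σ i) i).coeff (F i).natDegree =
        (∏ i, (F i).leadingCoeff) *
          ∏ i, (Matrix.vandermonde (fun i => ((F i).natDegree : ℚ))).transpose (σ i) i := by
      rw [← Finset.prod_mul_distrib]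
      refine Finset.prod_congr rfl fun i _ => ?_
      have h4 : wrM F (σ i) i = ((del ℚ) ^ ((σ i : Fin r) : ℕ)) (F i) := rfl
      rw [h4, del_coeff, Matrix.transpose_apply, Matrix.vandermonde_apply, coeff_natDegree]
      ring
    rw [h3]
    ring
  intro hdet
  rw [hdet, coeff_zero] at hc
  have h1 : (∏ i, (F i).leadingCoeff) ≠ 0 :=
    Finset.prod_ne_zero_iff.2 fun i _ => leadingCoeff_ne_zero.2 (h0 i)
  have h2 : (Matrix.vandermonde (fun i => ((F i).natDegree : ℚ))).transpose.det ≠ 0 := by
    rw [Matrix.det_transpose]
    refine Matrix.det_vandermonde_ne_zero_iff.2 ?_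
    intro i j hij
    have hij' : ((F i).natDegree : ℚ) = ((F j).natDegree : ℚ) := hij
    exact hinj (show (F i).natDegree = (F j).natDegree by exact_mod_cast hij')
  exact mul_ne_zero h1 h2 hc.symm

/-- **WR (b).** The Wronskian of linearly independent polynomials is nonzero.
PROOF: strong induction on `∑ natDegree (F i)` (all `F i ≠ 0` by independence).
If `i ↦ natDegree (F i)` is injective: the coefficient of `X^(∑ d_i)` in the determinant is
`∏ lc(F i) * det (d_i^a)` (`Matrix.det_apply`, `Polynomial.coeff_prod_of_natDegree_le` or similar,
`del_coeff`), a nonzero Vandermonde determinant (`Matrix.det_vandermonde_ne_zero_iff`).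
Otherwise take `i ≠ k` with `natDegree (F i) = natDegree (F k)` and replace `F i` by
`F i - c F k`, `c = lc(F i)/lc(F k)`: linear independence is kept, the degree of the new entry is
smaller (it is nonzero; if the common degree is `0` the new entry would be `0`, impossible), and the
determinant does not change (column operation, `del` is linear). -/
theorem wr_ne_zero {r : ℕ} (F : Fin r → ℚ[X]) (hF : LinearIndependent ℚ F) :
    (wrM F).det ≠ 0 := by
  classical
  suffices H : ∀ n : ℕ, ∀ F : Fin r → ℚ[X], LinearIndependent ℚ F →
      ∑ i, (F i).natDegree = n → (wrM F).det ≠ 0 from H _ F hF rfl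
  intro n
  induction n using Nat.strong_induction_on with
  | _ n ih =>
    intro F hF hn
    have h0 : ∀ i, F i ≠ 0 := fun i => hF.ne_zero i
    by_cases hinj : Function.Injective fun i => (F i).natDegree
    · exact Wr_inj F h0 hinj
    · simp only [Function.Injective] at hinj
      push Not at hinj
      obtain ⟨i, k, hdeg, hik⟩ := hinj
      set c : ℚ := (F i).leadingCoeff / (F k).leadingCoeff with hc
      have hk0 : (F k).leadingCoeff ≠ 0 := leadingCoeff_ne_zero.2 (h0 k)
      have hi0 : (F i).leadingCoeff ≠ 0 := leadingCoeff_ne_zero.2 (h0 i)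
      have hc0 : c ≠ 0 := div_ne_zero hi0 hk0
      set F' : Fin r → ℚ[X] := Function.update F i (F i + C (-c) * F k) with hF'
      have hF'i : F' i = F i + C (-c) * F k := by simp [hF']
      have hF'j : ∀ j, j ≠ i → F' j = F j := fun j hj => by
        rw [hF', Function.update_of_ne hj]
      -- independence
      have hind : LinearIndependent ℚ F' := by
        rw [Fintype.linearIndependent_iff] at hF ⊢
        intro g hg
        have hs : ∑ j, (Function.update g k (g k - c * g i)) j • F j = 0 := by
          rw [← hg]
          have e1 : ∀ j, (Function.update g k (g k - c * g i)) j • F j =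
              g j • F j + (if j = k then (-(c * g i)) • F k else 0) := by
            intro j
            by_cases hj : j = k
            · subst hj
              rw [Function.update_self, if_pos rfl, ← add_smul, sub_eq_add_neg]
            · rw [Function.update_of_ne hj, if_neg hj, add_zero]
          have e2 : ∀ j, g j • F' j =
              g j • F j + (if j = i then (-(c * g i)) • F k else 0) := by
            intro j
            by_cases hj : j = i
            · subst hj
              rw [hF'i, if_pos rfl, smul_add, C_mul', smul_smul]
              congr 2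
              ring
            · rw [hF'j j hj, if_neg hj, add_zero]
          rw [Finset.sum_congr rfl fun j _ => e1 j, Finset.sum_congr rfl fun j _ => e2 j,
            Finset.sum_add_distrib, Finset.sum_add_distrib, Finset.sum_ite_eq' Finset.univ k,
            Finset.sum_ite_eq' Finset.univ i]
          simp
        have hz := hF _ hs
        have hgi : g i = 0 := by
          have := hz i
          rwa [Function.update_of_ne hik] at this
        intro j
        by_cases hj : j = k
        · have := hz k
          rw [Function.update_self, hgi, mul_zero, sub_zero] at this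
          rw [hj, this]
        · have := hz j
          rwa [Function.update_of_ne hj] at this
      -- degree
      have hdlt : (F' i).natDegree < (F i).natDegree := by
        refine natDegree_lt_natDegree (hind.ne_zero i) ?_
        rw [hF'i]
        have e : F i + C (-c) * F k = F i - C c * F k := by
          rw [C_neg]; ring
        rw [e]
        refine degree_sub_lt_left ?_ (h0 i) ?_
        · rw [degree_C_mul hc0]
          rw [degree_eq_natDegree (h0 i), degree_eq_natDegree (h0 k), hdeg]
        · rw [leadingCoeff_mul, leadingCoeff_C, hc]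
          field_simp
      have hsum : ∑ j, (F' j).natDegree < n := by
        rw [← hn]
        refine Finset.sum_lt_sum (fun j _ => ?_) ⟨i, Finset.mem_univ i, hdlt⟩
        by_cases hj : j = i
        · rw [hj]; exact hdlt.le
        · rw [hF'j j hj]
      have hres := ih _ hsum F' hind rfl
      have hdet : (wrM F').det = (wrM F).det := by
        have e : wrM F' = (wrM F).updateCol i (fun a => wrM F a i + C (-c) • wrM F a k) := by
          ext1 a j
          by_cases hj : j = i
          · subst hj
            rw [Matrix.updateCol_self]
            show ((del ℚ) ^ (a : ℕ)) (F' j) = ((del ℚ) ^ (a : ℕ)) (F j) +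
              C (-c) • ((del ℚ) ^ (a : ℕ)) (F k)
            rw [hF'i, map_add, C_mul', map_smul, smul_eq_mul, C_mul']
          · rw [Matrix.updateCol_ne hj]
            show ((del ℚ) ^ (a : ℕ)) (F' j) = ((del ℚ) ^ (a : ℕ)) (F j)
            rw [hF'j j hj]
        rw [e, Matrix.det_updateCol_add_smul_self _ hik]
      rwa [hdet] at hres

end Pool.Agent.TwoRep
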